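import Pool.Agent.Lib.MP_60c5b4_pr.H.Sign

-- part Pool.Agent.Lib.MP_60c5b4_pr.H.Apriori
section

/-!
The a priori bound for the inverse Kasteleyn matrix, by duality.
-/

namespace Pool.Agent.Lib.MP_60c5b4_pr.H

open Finset

namespace Apriori

/-- The dual test function on white vertices. -/
noncomputable def Psi (u : Pt → ℝ) (w : Pt) : ℝ := ∑ j, (u (w + eps j) - u (w + eps j + dd j))

/-- The sign of a real number. -/
noncomputable def sg (x : ℝ) : ℝ := if 0 ≤ x then 1 else -1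

theorem mul_sg (x : ℝ) : x * sg x = |x| := by
  unfold sg
  split_ifs with h
  · rw [mul_one, abs_of_nonneg h]
  · rw [mul_neg, mul_one, abs_of_neg (not_le.1 h)]

theorem abs_sg (x : ℝ) : |sg x| = 1 := by
  unfold sg
  split_ifs <;> simp

theorem sum_Psi (u : Pt → ℝ) (b : Pt) : ∑ i, Psi u (b - eps i) = lap (fun _ _ => 1) u b := by
  obtain ⟨x, y⟩ := b
  simp only [Psi, lap, Fin.sum_univ_three, eps_zero, eps_one, eps_two, dd_zero, dd_one, dd_two,
    Prod.mk_add_mk, Prod.mk_sub_mk, add_zero, sub_zero, one_mul]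
  ring_nf

theorem shift_sum (h : Pt → ℝ) (e : Pt) (S T : Finset Pt) (h1 : ∀ w ∉ S, h (w + e) = 0)
    (h2 : ∀ b ∉ T, h b = 0) : ∑ w ∈ S, h (w + e) = ∑ b ∈ T, h b := by
  rw [← sum_image (s := S) (g := fun w => w + e) (f := h) fun a _ b _ k => add_right_cancel k,
    sum_subset (subset_union_left (s₂ := T)) fun b _ hb => ?_,
    sum_subset (subset_union_right (s₁ := S.image fun w => w + e)) fun b _ hb => h2 b hb]
  rw [← sub_add_cancel b e]
  exact h1 _ fun k => hb (mem_image.2 ⟨b - e, k, sub_add_cancel _ _⟩)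

theorem shift_le (h : Pt → ℝ) (h0 : ∀ b, 0 ≤ h b) (e : Pt) (S T : Finset Pt)
    (h1 : ∀ w ∈ S, w + e ∉ T → h (w + e) = 0) : ∑ w ∈ S, h (w + e) ≤ ∑ b ∈ T, h b := by
  rw [← sum_image (s := S) (g := fun w => w + e) (f := h) fun a _ b _ k => add_right_cancel k,
    ← sum_filter_of_ne (p := fun b => b ∈ T)]
  · exact sum_le_sum_of_subset_of_nonneg (fun b hb => (mem_filter.1 hb).2) fun b _ _ => h0 b
  · intro b hb hne
    obtain ⟨w, hw, rfl⟩ := mem_image.1 hb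
    by_contra k
    exact hne (h1 w hw k)

theorem Psi_sq (u : Pt → ℝ) (S T : Finset Pt) (h : ∀ w ∈ S, ∀ j, w + eps j ∈ T) :
    ∑ w ∈ S, Psi u w ^ 2 ≤ 3 * grad2 u T := by
  have h1 : ∀ w, Psi u w ^ 2 ≤ 3 * ∑ j, (u (w + eps j) - u (w + eps j + dd j)) ^ 2 := fun w => by
    have := sq_sum_le_card_mul_sum_sq (s := (univ : Finset (Fin 3)))
      (f := fun j => u (w + eps j) - u (w + eps j + dd j))
    simpa [Psi] using this
  refine (sum_le_sum fun w _ => h1 w).trans ?_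
  rw [← mul_sum, sum_comm, grad2, sum_comm (s := T)]
  refine mul_le_mul_of_nonneg_left (sum_le_sum fun j _ => ?_) (by norm_num)
  exact shift_le (fun b => (u b - u (b + dd j)) ^ 2) (fun _ => sq_nonneg _) (eps j) S T
    fun w hw k => absurd (h w hw j) k

theorem Psi_sq' (u : Pt → ℝ) (S : Finset Pt) {E : ℝ} (h : ∀ T, grad2 u T ≤ E) :
    ∑ w ∈ S, Psi u w ^ 2 ≤ 3 * E := by
  refine (Psi_sq u S (S.biUnion fun w => univ.image fun j => w + eps j) fun w hw j => ?_).trans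
    (mul_le_mul_of_nonneg_left (h _) (by norm_num))
  exact mem_biUnion.2 ⟨w, hw, mem_image.2 ⟨j, mem_univ _, rfl⟩⟩

theorem cs {ι : Type} (S : Finset ι) (f g : ι → ℝ) {A B : ℝ} (hA : 0 ≤ A) (hB : 0 ≤ B)
    (h1 : ∑ i ∈ S, f i ^ 2 ≤ A ^ 2) (h2 : ∑ i ∈ S, g i ^ 2 ≤ B ^ 2) :
    |∑ i ∈ S, f i * g i| ≤ A * B := by
  refine abs_le_of_sq_le_sq ?_ (mul_nonneg hA hB)
  rw [mul_pow]
  exact (sum_mul_sq_le_sq_mul_sq S f g).trans
    (mul_le_mul h1 h2 (sum_nonneg fun _ _ => sq_nonneg _) (sq_nonneg _))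

theorem card_le (X : Finset Pt) (p : Pt) (D : ℝ) {N : ℕ} (hN : 1 ≤ N)
    (h : ∀ b ∈ X, ‖b - p‖ ≤ D * N) : (X.card : ℝ) ≤ (2 * |D| + 3) ^ 2 * N ^ 2 := by
  have hn : (1 : ℝ) ≤ N := by exact_mod_cast hN
  have h1 : X ⊆ box p ⌈|D| * N⌉₊ := fun b hb => mem_box.2 ((h b hb).trans
    ((mul_le_mul_of_nonneg_right (le_abs_self D) (by linarith)).trans (Nat.le_ceil _)))
  have h2 : (X.card : ℝ) ≤ (2 * (⌈|D| * N⌉₊ : ℝ) + 1) ^ 2 := by
    have := card_le_card h1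
    rw [card_box] at this
    exact_mod_cast this
  have h3 := (Nat.ceil_lt_add_one (show 0 ≤ |D| * N by positivity)).le
  rw [← mul_pow]
  exact h2.trans (pow_le_pow_left₀ (by positivity) (by linarith) 2)

theorem quad {S y A A' : ℝ} (hy : 0 ≤ y) (hA : 0 ≤ A) (hA' : 0 ≤ A')
    (h : S ^ 2 ≤ A * y ^ 2 + A' * y * S) : S ≤ (A + A' + 1) * y := by
  by_contra k
  rw [not_le] at k
  have h1 : 0 ≤ (A + A' + 1) * y := by positivity
  have h2 : y ≤ S := by nlinarith [mul_nonneg hA hy, mul_nonneg hA' hy]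
  have h3 : (A + A' + 1) * y * S < S ^ 2 := by nlinarith
  nlinarith [mul_nonneg (mul_nonneg hA hy) (sub_nonneg.2 h2), mul_nonneg hy (hy.trans h2)]

theorem sq_bound {K : ℝ} (hK : 0 ≤ K) (y : ℝ) : K * y ^ 2 ≤ ((K + 1) * y) ^ 2 := by
  rw [mul_pow]
  exact mul_le_mul_of_nonneg_right (by nlinarith) (sq_nonneg y)

theorem not_primal_add {b : Pt} (h : ¬ Primal b) (j : Fin 3) : ¬ Primal (b + dd j) := by
  fin_cases j <;> simp [Primal] at h ⊢ <;> omega

theorem primal_add {b : Pt} (h : Primal b) (j : Fin 3) : Primal (b + dd j) := by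
  fin_cases j <;> simp [Primal] at h ⊢ <;> omega

theorem sum_rot (g : Fin 3 → ℝ) (j : Fin 3) : ∑ i, g i = g j + g (j + 1) + g (j + 2) := by
  rw [Fin.sum_univ_three]
  fin_cases j
  · rfl
  · show _ = g 1 + g 2 + g 0
    ring
  · show _ = g 2 + g 0 + g 1
    ring

/-- A solution of the Kasteleyn system with a right side supported in the box. -/
structure Sol (M D : ℝ) (V : Finset Pt) (f : Pt) (a : Pt → Fin 3 → ℝ) (p : Pt) (N : ℕ)
    (F ξ : Pt → ℝ) (r : ℝ) : Prop where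
  loc : Loc M D V f a p N
  zero : ∀ b ∉ blacks V f, F b = 0
  eq : ∀ w ∈ whites V, ∑ j, a (w + eps j) j * F (w + eps j) = ξ w
  supp : ∀ w ∉ box p (4 * N), ξ w = 0
  r0 : 0 ≤ r
  rsq : ∑ w ∈ box p (4 * N), ξ w ^ 2 ≤ r ^ 2

section
variable {M D : ℝ} {V : Finset Pt} {f p : Pt} {a : Pt → Fin 3 → ℝ} {N : ℕ} {F ξ : Pt → ℝ} {r : ℝ}

theorem Sol.dual (h : Sol M D V f a p N F ξ r) (u : Pt → ℝ) (hu : ∀ w ∉ whites V, Psi u w = 0) :
    ∑ b ∈ blacks V f, F b * ∑ i, a b i * Psi u (b - eps i) =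
      ∑ w ∈ box p (4 * N), Psi u w * ξ w := by
  have h1 : ∑ w ∈ whites V, Psi u w * ξ w = ∑ w ∈ box p (4 * N), Psi u w * ξ w := by
    have := shift_sum (fun w => Psi u w * ξ w) 0 (whites V) (box p (4 * N))
      (fun w hw => by rw [add_zero, hu w hw, zero_mul]) fun w hw => by rw [h.supp w hw, mul_zero]
    simpa using this
  have h2 : ∑ w ∈ whites V, Psi u w * ξ w =
      ∑ w ∈ whites V, Psi u w * ∑ j, a (w + eps j) j * F (w + eps j) :=
    sum_congr rfl fun w hw => by rw [h.eq w hw]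
  rw [← h1, h2]
  simp only [mul_sum]
  rw [sum_comm, sum_comm (s := whites V)]
  refine sum_congr rfl fun i _ => ?_
  rw [← shift_sum (fun b => F b * (a b i * Psi u (b - eps i))) (eps i) (whites V) (blacks V f)
    (fun w hw => by rw [add_sub_cancel_right, hu w hw, mul_zero, mul_zero])
    fun b hb => by rw [h.zero b hb, zero_mul]]
  refine sum_congr rfl fun w _ => ?_
  rw [add_sub_cancel_right]
  ring

theorem not_primal_zero {u : Pt → ℝ} (hu : ∀ b ∉ V.image pr, u b = 0) {b : Pt}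
    (hb : ¬ Primal b) : u b = 0 :=
  hu b fun k => by
    obtain ⟨v, -, rfl⟩ := mem_image.1 k
    exact hb (primal_pr v)

theorem Psi_primal {u : Pt → ℝ} (hu : ∀ b ∉ V.image pr, u b = 0) (v : Pt) (j : Fin 3) :
    Psi u (pr v - eps j) = u (pr v) - u (pr v + dd j) := by
  rw [Psi, sum_eq_single j, sub_add_cancel]
  · intro i _ hi
    have k : ¬ Primal (pr v - eps j + eps i) := fun k => hi (primal_edge_iff.1 k)
    rw [not_primal_zero hu k, not_primal_zero hu (not_primal_add k i), sub_zero]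
  · simp

theorem mem_X {v : Pt} : pr v ∈ V.image pr ↔ v ∈ V :=
  ⟨fun k => by
    obtain ⟨w, hw, e⟩ := mem_image.1 k
    exact pr_injective e ▸ hw, fun k => mem_image_of_mem _ k⟩

theorem Sol.dual_primal (h : Sol M D V f a p N F ξ r) (u : Pt → ℝ)
    (hu : ∀ b ∉ V.image pr, u b = 0) :
    ∑ b ∈ V.image pr, F b * lap a u b = ∑ w ∈ box p (4 * N), Psi u w * ξ w := by
  rw [← h.dual u fun w hw => ?_]
  · symm
    rw [← sum_subset (s₁ := V.image pr) (s₂ := blacks V f) subset_union_left fun b hb hb' => ?_]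
    · refine sum_congr rfl fun b hb => ?_
      obtain ⟨v, -, rfl⟩ := mem_image.1 hb
      simp only [Psi_primal hu, lap]
    · have k : ¬ Primal b := fun k => by
        obtain ⟨v, rfl⟩ := primal_iff.1 k
        exact hb' (mem_X.2 (pr_mem_blacks.1 hb))
      simp only [h.loc.face b _ k, one_mul, sum_Psi, lap, not_primal_zero hu k,
        not_primal_zero hu (not_primal_add k _), sub_self, sum_const_zero, mul_zero]
  · obtain ⟨v, j, rfl⟩ := exists_edge w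
    rw [edge_mem_whites, not_or] at hw
    rw [Psi_primal hu, ← pr_add_dir, hu _ fun k => hw.1 (mem_X.1 k),
      hu _ fun k => hw.2 (mem_X.1 k), sub_zero]

theorem drift_X (h : Loc M D V f a p N) : Drift a (V.image pr) (M / N) := fun b hb => by
  obtain ⟨v, hv, rfl⟩ := mem_image.1 hb
  exact h.drift v hv

theorem bdd_X (h : Loc M D V f a p N) : ∀ b ∈ V.image pr, ‖b - p‖ ≤ D * N := fun b hb => by
  obtain ⟨v, hv, rfl⟩ := mem_image.1 hb
  exact h.bdd v hv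

theorem box_shift {R : ℕ} : ∀ w ∈ box p R, ∀ j, w + eps j ∈ box p (R + 3) := fun w hw j => by
  rw [mem_box] at hw ⊢
  have := norm_add_le (w - p) (eps j)
  rw [show w + eps j - p = w - p + eps j by abel]
  push_cast
  linarith [norm_eps j]

end

/-- The `L¹` bound on the primal vertices. -/
theorem stepB1 (h1 : MaxStmt) (h2 : EnergyStmt) (M D : ℝ) : ∃ (K : ℝ) (N₀ : ℕ), 0 ≤ K ∧
    ∀ V f a p (N : ℕ) F ξ r, N₀ ≤ N → Sol M D V f a p N F ξ r →
      ∑ b ∈ V.image pr, |F b| ≤ K * N ^ 2 * r := by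
  obtain ⟨C, N₀, hC, hM⟩ := h1 M D
  obtain ⟨C', -, hE⟩ := h2
  obtain ⟨c, hc⟩ : ∃ c, c = (2 * |D| + 3) ^ 2 := ⟨_, rfl⟩
  have c0 : 0 ≤ c := by rw [hc]; positivity
  obtain ⟨K, hK⟩ : ∃ K, K = 4 * c * C + 12 * M ^ 2 * c * C ^ 2 := ⟨_, rfl⟩
  have K0 : 0 ≤ K := by rw [hK]; positivity
  refine ⟨3 * K + 1, max N₀ 1, by positivity, fun V f a p N F ξ r hN h => ?_⟩
  have hN1 : 1 ≤ N := le_of_max_le_right hN
  have hn : (1 : ℝ) ≤ N := by exact_mod_cast hN1
  obtain ⟨u, u1, u2, u3, -⟩ := hM N _ p a (le_of_max_le_left hN) (drift_X h.loc) (bdd_X h.loc)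
    fun b => sg (F b)
  have u4 : ∀ b, |u b| ≤ C * N ^ 2 := fun b => by
    simpa using u3 1 zero_le_one (fun b _ => (abs_sg _).le) b
  have cX := card_le _ p D hN1 (bdd_X h.loc)
  rw [← hc] at cX
  have e1 : ∑ b ∈ V.image pr, u b * lap a u b ≤ c * N ^ 2 * (C * N ^ 2) := by
    refine (sum_le_card_nsmul _ _ (C * N ^ 2) fun b hb => ?_).trans ?_
    · refine (le_abs_self _).trans ?_
      rw [u2 b hb, abs_mul, abs_sg, mul_one]
      exact u4 b
    · rw [nsmul_eq_mul]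
      exact mul_le_mul_of_nonneg_right cX (by positivity)
  have e2 : ∑ b ∈ V.image pr, u b ^ 2 ≤ c * N ^ 2 * (C * N ^ 2) ^ 2 := by
    refine (sum_le_card_nsmul _ _ ((C * N ^ 2) ^ 2) fun b _ => ?_).trans ?_
    · rw [← sq_abs]
      exact pow_le_pow_left₀ (abs_nonneg _) (u4 b) 2
    · rw [nsmul_eq_mul]
      exact mul_le_mul_of_nonneg_right cX (by positivity)
  have e3 : ∀ T, grad2 u T ≤ K * N ^ 4 := fun T => by
    refine (((hE _ u u1).1 a _ (drift_X h.loc)).1 T).trans ?_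
    have e4 := mul_le_mul_of_nonneg_left e2 (show 0 ≤ 12 * (M / N) ^ 2 by positivity)
    have e5 : 12 * (M / N) ^ 2 * (c * N ^ 2 * (C * N ^ 2) ^ 2) =
        12 * M ^ 2 * c * C ^ 2 * N ^ 4 := by field_simp
    rw [hK]
    nlinarith
  have e6 := Psi_sq' u (box p (4 * N)) e3
  have e7 := cs (box p (4 * N)) (Psi u) ξ (A := (3 * K + 1) * N ^ 2) (by positivity) h.r0
    (e6.trans ((by ring_nf; rfl : 3 * (K * (N : ℝ) ^ 4) ≤ 3 * K * (N ^ 2) ^ 2).trans
      (sq_bound (by positivity) _))) h.rsq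
  have e8 : ∑ b ∈ V.image pr, F b * lap a u b = ∑ b ∈ V.image pr, |F b| :=
    sum_congr rfl fun b hb => by rw [u2 b hb, mul_sg]
  rw [← h.dual_primal u u1, e8] at e7
  exact (le_abs_self _).trans e7

/-- The `L²` bound on the primal vertices. -/
theorem stepB (h1 : MaxStmt) (h2 : EnergyStmt) (M D : ℝ) : ∃ (K : ℝ) (N₀ : ℕ), 0 ≤ K ∧
    ∀ V f a p (N : ℕ) F ξ r, N₀ ≤ N → Sol M D V f a p N F ξ r →
      ∑ b ∈ V.image pr, F b ^ 2 ≤ (K * N * r) ^ 2 := by
  obtain ⟨K, N₀, K0, hB⟩ := stepB1 h1 h2 M D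
  obtain ⟨C, C0, hE⟩ := h2
  obtain ⟨K', hK'⟩ : ∃ K', K' = C * K ^ 2 * 48 + C * K ^ 2 * (24 * M ^ 2) + 1 := ⟨_, rfl⟩
  have K1 : 1 ≤ K' := by
    have : 0 ≤ C * K ^ 2 * 48 + C * K ^ 2 * (24 * M ^ 2) := by positivity
    linarith
  refine ⟨K', max N₀ 1, by linarith, fun V f a p N F ξ r hN h => ?_⟩
  have hN1 : 1 ≤ N := le_of_max_le_right hN
  have hn : (1 : ℝ) ≤ N := by exact_mod_cast hN1
  have b1 := hB V f a p N F ξ r (le_of_max_le_left hN) h
  obtain ⟨u, hu⟩ : ∃ u : Pt → ℝ, u = fun b => if b ∈ V.image pr then F b else 0 := ⟨_, rfl⟩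
  have u1 : ∀ b ∉ V.image pr, u b = 0 := fun b hb => by rw [hu]; exact if_neg hb
  have u2 : ∀ b ∈ V.image pr, u b = F b := fun b hb => by rw [hu]; exact if_pos hb
  obtain ⟨S, hS⟩ : ∃ S, S = ∑ b ∈ V.image pr, F b ^ 2 := ⟨_, rfl⟩
  have S0 : 0 ≤ S := hS ▸ sum_nonneg fun _ _ => sq_nonneg _
  have s1 : ∑ b ∈ V.image pr, u b ^ 2 = S := hS ▸ sum_congr rfl fun b hb => by rw [u2 b hb]
  have s2 : ∑ b ∈ V.image pr, |u b| = ∑ b ∈ V.image pr, |F b| :=
    sum_congr rfl fun b hb => by rw [u2 b hb]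
  have s3 : ∑ b ∈ V.image pr, u b * lap a u b = ∑ w ∈ box p (4 * N), Psi u w * ξ w := by
    rw [← h.dual_primal u u1]
    exact sum_congr rfl fun b hb => by rw [u2 b hb]
  have s4 : ∑ w ∈ box p (4 * N), Psi u w * ξ w ≤
      ∑ w ∈ box p (4 * N), (Psi u w ^ 2 / 24 + 6 * ξ w ^ 2) :=
    sum_le_sum fun w _ => by nlinarith [sq_nonneg (Psi u w - 12 * ξ w)]
  rw [sum_add_distrib, ← sum_div, ← mul_sum] at s4
  have s5 := Psi_sq u _ _ (box_shift (p := p) (R := 4 * N))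
  have s6 := ((hE _ u u1).1 a _ (drift_X h.loc)).1
  rw [s1, s3] at s6
  have s7 := s6 (box p (4 * N + 3))
  have s8 := h.rsq
  have s9 : ∀ T, grad2 u T ≤ 48 * r ^ 2 + 24 * (M / N) ^ 2 * S := fun T => by
    linarith [s6 T]
  have t1 := (hE _ u u1).2 _ s9
  rw [s1, s2] at t1
  have t2 : (∑ b ∈ V.image pr, |F b|) ^ 2 ≤ (K * N ^ 2 * r) ^ 2 :=
    pow_le_pow_left₀ (sum_nonneg fun _ _ => abs_nonneg _) b1 2
  have t3 := mul_le_mul_of_nonneg_right (mul_le_mul_of_nonneg_left t2 C0)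
    (show 0 ≤ 48 * r ^ 2 + 24 * (M / N) ^ 2 * S by positivity)
  have t4 : C * (K * N ^ 2 * r) ^ 2 * (48 * r ^ 2 + 24 * (M / N) ^ 2 * S) =
      C * K ^ 2 * 48 * (N ^ 2 * r ^ 2) ^ 2 + C * K ^ 2 * (24 * M ^ 2) * (N ^ 2 * r ^ 2) * S := by
    field_simp
  have t5 := quad (S := S) (y := N ^ 2 * r ^ 2) (by positivity) (by positivity) (by positivity)
    (t1.trans (t3.trans t4.le))
  rw [← hS, ← hK'] at *
  have t6 : 0 ≤ (K' - 1) * K' * (N ^ 2 * r ^ 2) :=
    mul_nonneg (mul_nonneg (by linarith) (by linarith)) (by positivity)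
  nlinarith

theorem far_out {p b e : Pt} {N : ℕ} (hN : 1 ≤ N) (hb : ¬ ‖b - p‖ ≤ 10 * N) (he : ‖e‖ ≤ 3) :
    b - e ∉ box p (4 * N) := fun k => by
  have hn : (1 : ℝ) ≤ N := by exact_mod_cast hN
  rw [mem_box] at k
  have := norm_add_le (b - e - p) e
  rw [show b - e - p + e = b - p by abel] at this
  push_cast at k
  exact hb (by linarith)

theorem edge_eq {M D : ℝ} {V : Finset Pt} {f p : Pt} {a : Pt → Fin 3 → ℝ} {N : ℕ} {F ξ : Pt → ℝ}
    {r : ℝ} (h : Sol M D V f a p N F ξ r) {v : Pt} {j : Fin 3} (hw : v ∈ V ∨ v + dir j ∈ V)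
    (hb : pr v - eps j ∉ box p (4 * N)) :
    F (pr v - eps j + eps (j + 1)) + F (pr v - eps j + eps (j + 2)) = -(a (pr v) j * F (pr v)) := by
  have k := h.eq _ (edge_mem_whites.2 hw)
  have n1 : j + 1 ≠ j := (by decide : ∀ j : Fin 3, j + 1 ≠ j) j
  have n2 : j + 2 ≠ j := (by decide : ∀ j : Fin 3, j + 2 ≠ j) j
  rw [h.supp _ hb, sum_rot _ j, sub_add_cancel,
    h.loc.face _ _ fun t => n1 (primal_edge_iff.1 t),
    h.loc.face _ _ fun t => n2 (primal_edge_iff.1 t)] at k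
  linarith

/-- The bound on the boundary faces. -/
theorem stepC (h1 : MaxStmt) (h2 : EnergyStmt) (h3 : BdryStmt) (M D : ℝ) :
    ∃ (K : ℝ) (N₀ : ℕ), 0 ≤ K ∧ ∀ V f a p (N : ℕ) F ξ r, N₀ ≤ N → Sol M D V f a p N F ξ r →
      ∀ t, IsRoot V t → |F t| ≤ K * r := by
  obtain ⟨_, N₀, -, hM⟩ := h1 M D
  obtain ⟨C, C0, hE⟩ := h2
  obtain ⟨K, hK⟩ : ∃ K, K = 3 * (C * ((M ^ 2 + 1) * 23 ^ 2)) := ⟨_, rfl⟩
  have K0 : 0 ≤ K := by rw [hK]; positivity
  refine ⟨K + 1, max N₀ (⌈|M|⌉₊ + 3), by positivity, fun V f a p N F ξ r hN h t ht => ?_⟩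
  have hN3 : ⌈|M|⌉₊ + 3 ≤ N := le_of_max_le_right hN
  have hN1 : 1 ≤ N := by omega
  have hn : (1 : ℝ) ≤ N := by exact_mod_cast hN1
  have hMN : M / N ≤ 1 := by
    rw [div_le_one (by linarith)]
    have : ((⌈|M|⌉₊ : ℕ) : ℝ) ≤ N := by exact_mod_cast (by omega : ⌈|M|⌉₊ ≤ N)
    exact (le_abs_self M).trans ((Nat.le_ceil _).trans this)
  have a0 : ∀ v ∈ V, ∀ j, 0 ≤ a (pr v) j := fun v hv j => by
    have := (abs_le.1 ((h.loc.drift v hv).2 j)).1
    linarith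
  obtain ⟨ind, hi⟩ : ∃ ind : Pt → ℝ, ind = fun b => if b ∈ V.image pr then 1 else 0 := ⟨_, rfl⟩
  have i1 : ∀ v ∈ V, lap a ind (pr v) = ∑ j, if v + dir j ∈ V then 0 else a (pr v) j := by
    intro v hv
    refine sum_congr rfl fun j _ => ?_
    simp only [hi, ← pr_add_dir, mem_X, if_pos hv]
    split_ifs <;> simp
  have i2 : ∀ b ∈ V.image pr, 0 ≤ lap a ind b := fun b hb => by
    obtain ⟨v, hv, rfl⟩ := mem_image.1 hb
    rw [i1 v hv]
    exact sum_nonneg fun j _ => by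
      split_ifs
      exacts [le_rfl, a0 v hv j]
  obtain ⟨u, u1, u2, -, u3⟩ := hM N _ p a (le_of_max_le_left hN) (drift_X h.loc) (bdd_X h.loc)
    fun b => sg (F b) * lap a ind b
  have u4 : ∀ b, u b ^ 2 ≤ 1 := fun b => by
    have k := u3 ind (fun b hb => by rw [hi]; exact (if_neg hb).ge)
      (fun b hb => by rw [abs_mul, abs_sg, one_mul, abs_of_nonneg (i2 b hb)]) b
    have k2 : ind b ≤ 1 := by
      rw [hi]
      dsimp only
      split_ifs <;> norm_num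
    rw [← sq_abs]
    exact pow_le_one₀ (abs_nonneg _) (k.trans k2)
  have e1 : ∑ b ∈ V.image pr ∩ box p (8 * N), |u b * lap a u b| = 0 := by
    refine sum_eq_zero fun b hb => ?_
    obtain ⟨hb, hb'⟩ := mem_inter.1 hb
    rw [u2 b hb]
    obtain ⟨v, hv, rfl⟩ := mem_image.1 hb
    rw [i1 v hv, sum_eq_zero, mul_zero, mul_zero, abs_zero]
    refine fun j _ => if_pos (h.loc.inner _ ?_)
    rw [mem_box] at hb'
    have := norm_add_le (pr v - p) (dd j)
    rw [pr_add_dir, show pr v + dd j - p = pr v - p + dd j by abel]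
    push_cast at hb'
    linarith [norm_dd j]
  have e2 : ∑ b ∈ box p (8 * N + 3), u b ^ 2 ≤ (23 * N) ^ 2 := by
    refine (sum_le_card_nsmul _ _ 1 fun b _ => u4 b).trans ?_
    rw [card_box, nsmul_eq_mul, mul_one]
    push_cast
    exact pow_le_pow_left₀ (by positivity) (by linarith) 2
  have e3 := ((hE _ u u1).1 a _ (drift_X h.loc)).2 p N (by omega)
  rw [e1, zero_add] at e3
  have e4 : ((M / N) ^ 2 + 1 / (N : ℝ) ^ 2) * (23 * N) ^ 2 = (M ^ 2 + 1) * 23 ^ 2 := by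
    field_simp
  have e5 := mul_le_mul_of_nonneg_left (mul_le_mul_of_nonneg_left e2
    (show 0 ≤ (M / N) ^ 2 + 1 / (N : ℝ) ^ 2 by positivity)) C0
  rw [e4] at e5
  have e6 := Psi_sq u _ _ (box_shift (p := p) (R := 4 * N))
  have e7 := cs (box p (4 * N)) (Psi u) ξ (A := K + 1) (by positivity) h.r0
    (by nlinarith) h.rsq
  rw [← h.dual_primal u u1, sum_image fun a _ b _ k => pr_injective k] at e7
  refine (h3 V f h.loc.conn h.loc.root F (h.zero f (root_not_mem h.loc.root))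
    (fun v hv j hj => ?_) t ht).trans (le_trans (sum_le_sum fun v hv => ?_)
      ((le_abs_self _).trans e7))
  · rw [edge_eq h (Or.inr hj) (far_out hN1 (fun k => hv (h.loc.inner v k))
      ((norm_eps j).trans (by norm_num))), h.zero _ fun k => hv (pr_mem_blacks.1 k), mul_zero,
      neg_zero]
  · rw [u2 _ (mem_X.2 hv), ← mul_assoc, mul_sg, i1 v hv, mul_sum]
    refine sum_le_sum fun j _ => ?_
    split_ifs with hj
    · rw [mul_zero]
    · have k : pr v - eps j ∉ box p (4 * N) := by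
        have k1 := far_out (e := dd j + eps j) hN1 (fun k => hj (h.loc.inner _ k))
          ((norm_add_le _ _).trans (by linarith [norm_dd j, norm_eps j]))
        rwa [pr_add_dir, show pr v + dd j - (dd j + eps j) = pr v - eps j by abel] at k1
      rw [edge_eq h (Or.inl hv) k, abs_neg, abs_mul, abs_of_nonneg (a0 v hv j), mul_comm]

open Classical in
/-- The faces which do not touch the outer vertex. -/
noncomputable def X0 (V : Finset Pt) : Finset Pt := (faces V).filter fun t => ¬ IsRoot V t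

theorem mem_X0 {V : Finset Pt} {t : Pt} : t ∈ X0 V ↔ t ∈ faces V ∧ ¬ IsRoot V t := by
  simp only [X0, mem_filter]

theorem X0_tail {V : Finset Pt} {t v : Pt} (ht : t ∈ X0 V) {i j : Fin 3}
    (e : t - eps i = pr v - eps j) : v ∈ V := by
  by_contra hv
  exact (mem_X0.1 ht).2 ⟨(mem_X0.1 ht).1, v, hv, i, j, e⟩

theorem Psi_X0 {V : Finset Pt} {u : Pt → ℝ} (hu : ∀ b ∉ X0 V, u b = 0) (w : Pt)
    (hw : w ∉ whites V) : Psi u w = 0 := by
  obtain ⟨v, k, rfl⟩ := exists_edge w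
  have hv : v ∉ V := fun t => hw (edge_mem_whites.2 (Or.inl t))
  refine sum_eq_zero fun j _ => ?_
  rw [hu _ fun t => hv (X0_tail t (add_sub_cancel_right _ _)), hu _ fun t => ?_, sub_zero]
  have hjk : j ≠ k := by
    rintro rfl
    rw [sub_add_cancel] at t
    exact (mem_faces.1 (mem_X0.1 t).1).1 (primal_add (primal_pr v) j)
  obtain ⟨i, i', e⟩ := (by decide : ∀ j k : Fin 3, j ≠ k →
    ∃ i i', eps j + dd j - eps k - eps i = -eps i') j k hjk
  refine hv (X0_tail t (i := i) (j := i') ?_)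
  rw [sub_eq_add_neg (pr v) (eps i'), ← e]
  abel

theorem bdd_X0 {M D : ℝ} {V : Finset Pt} {f p : Pt} {a : Pt → Fin 3 → ℝ} {N : ℕ}
    (h : Loc M D V f a p N) (hN : 1 ≤ N) : ∀ b ∈ X0 V, ‖b - p‖ ≤ (D + 1) * N := fun b hb => by
  have hn : (1 : ℝ) ≤ N := by exact_mod_cast hN
  obtain ⟨v, j, e⟩ := exists_edge b
  have k := h.bdd v (X0_tail hb (i := 0) (by simpa using e))
  have := norm_sub_le (pr v - p) (eps j)
  rw [e, show pr v - eps j - p = pr v - p - eps j by abel]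
  linarith [norm_eps j]

/-- The mass of the Laplacian outside the support. -/
theorem lap_out {X R : Finset Pt} {u u' : Pt → ℝ} (hu : ∀ b ∉ X, u b = 0)
    (hu' : ∀ b ∉ X, u' b = 0) (h : ∀ b, |u b| ≤ u' b) (hR : Disjoint R X) :
    ∑ b ∈ R, |lap (fun _ _ => 1) u b| ≤ ∑ b ∈ X, lap (fun _ _ => 1) u' b := by
  have h0 : ∀ b, 0 ≤ u' b := fun b => (abs_nonneg _).trans (h b)
  have h1 : ∑ b ∈ R, |lap (fun _ _ => 1) u b| ≤ ∑ b ∈ R, ∑ j, u' (b + dd j) := by
    refine sum_le_sum fun b hb => (abs_sum_le_sum_abs _ _).trans (sum_le_sum fun j _ => ?_)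
    rw [hu b (disjoint_left.1 hR hb), one_mul, zero_sub, abs_neg]
    exact h _
  refine h1.trans ?_
  simp only [lap, one_mul]
  rw [sum_comm, sum_comm (s := X)]
  refine sum_le_sum fun j _ => ?_
  have h2 := shift_le u' h0 (dd j) (R ∪ X) X fun w _ k => hu' _ k
  rw [sum_union hR] at h2
  rw [sum_sub_distrib]
  linarith

/-- The `L²` bound on the faces. -/
theorem stepD (h1 : MaxStmt) (h2 : EnergyStmt) (h3 : BdryStmt) (M D : ℝ) :
    ∃ (K : ℝ) (N₀ : ℕ), 0 ≤ K ∧ ∀ V f a p (N : ℕ) F ξ r, N₀ ≤ N → Sol M D V f a p N F ξ r →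
      ∑ b ∈ (box p (4 * N)).filter (fun b => ¬ Primal b), F b ^ 2 ≤ (K * N * r) ^ 2 := by
  obtain ⟨K2, N2, K20, hB⟩ := stepB h1 h2 M D
  obtain ⟨K3, N3, K30, hC⟩ := stepC h1 h2 h3 M D
  obtain ⟨_, N₀, -, hM⟩ := h1 0 (D + 1)
  obtain ⟨C, C0, hE⟩ := h2
  obtain ⟨c, hc⟩ : ∃ c, c = (2 * |D + 1| + 3) ^ 2 := ⟨_, rfl⟩
  have c0 : 0 ≤ c := by rw [hc]; positivity
  obtain ⟨K, hK⟩ : ∃ K, K = 3 * (16 * C * c) + 1 := ⟨_, rfl⟩
  have K0 : 0 ≤ K := by rw [hK]; positivity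
  refine ⟨K + 9 * K3 + 3 * |M| * K2 * K, max (max N₀ 1) (max N2 N3), by positivity,
    fun V f a p N F ξ r hN h => ?_⟩
  have hN1 : 1 ≤ N := by omega
  have hn : (1 : ℝ) ≤ N := by exact_mod_cast hN1
  have r0 := h.r0
  have b1 := hB V f a p N F ξ r (by omega) h
  have b2 := hC V f a p N F ξ r (by omega) h
  obtain ⟨Y, hY⟩ : ∃ Y, Y = (box p (4 * N)).filter fun b => ¬ Primal b := ⟨_, rfl⟩
  rw [← hY]
  have YX : Y ⊆ X0 V := fun b hb => by
    rw [hY, mem_filter] at hb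
    obtain ⟨-, k1, k2⟩ := h.loc.mem hN1 (box_mono p (by omega) hb.1)
    refine mem_X0.2 ⟨((mem_blacks.1 k1).resolve_left ?_).2, k2⟩
    rintro ⟨v, -, rfl⟩
    exact hb.2 (primal_pr v)
  obtain ⟨s, hs⟩ : ∃ s : Pt → ℝ, s = fun b => if b ∈ Y then F b else 0 := ⟨_, rfl⟩
  have sY : ∀ g : Pt → ℝ → ℝ, (∀ b, g b 0 = 0) → ∑ b ∈ X0 V, g b (s b) = ∑ b ∈ Y, g b (F b) := by
    intro g hg
    rw [← sum_subset YX fun b _ hb => by rw [hs]; simp only [if_neg hb, hg]]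
    exact sum_congr rfl fun b hb => by rw [hs]; simp only [if_pos hb]
  obtain ⟨ρ, ρ0, hρ⟩ : ∃ ρ, 0 ≤ ρ ∧ ρ ^ 2 = ∑ b ∈ Y, F b ^ 2 :=
    ⟨_, Real.sqrt_nonneg _, Real.sq_sqrt (sum_nonneg fun _ _ => sq_nonneg _)⟩
  have dr : ∀ m : ℝ, 0 ≤ m → Drift (fun _ _ => 1) (X0 V) m := fun m hm b _ =>
    ⟨by simp, fun _ => by simpa using hm⟩
  have hM' := hM N (X0 V) p (fun _ _ => 1) (by omega) (dr _ (by simp)) (bdd_X0 h.loc hN1)
  obtain ⟨u, u1, u2, -, u3⟩ := hM' s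
  obtain ⟨u', v1, v2, -, -⟩ := hM' fun b => |s b|
  have u4 := u3 u' (fun b hb => (v1 b hb).ge) fun b hb => (v2 b hb).ge
  have s1 : ∑ b ∈ X0 V, s b ^ 2 = ρ ^ 2 := by
    rw [hρ]; exact sY (fun _ x => x ^ 2) fun _ => by simp
  have s2 : ∑ b ∈ X0 V, F b * s b = ρ ^ 2 := by
    rw [hρ, sY (fun b x => F b * x) fun _ => mul_zero _]
    exact sum_congr rfl fun b _ => (sq _).symm
  have s3 : ∑ b ∈ X0 V, |s b| ≤ 9 * N * ρ := by
    rw [sY (fun _ x => |x|) fun _ => abs_zero]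
    have k := cs Y (fun _ => 1) (fun b => |F b|) (A := 9 * N) (by positivity) ρ0 (by
      have k1 : (Y.card : ℝ) ≤ (box p (4 * N)).card := by
        exact_mod_cast card_le_card (hY ▸ filter_subset _ _)
      rw [card_box] at k1
      push_cast at k1
      simp only [one_pow, sum_const, nsmul_eq_mul, mul_one]
      exact k1.trans (pow_le_pow_left₀ (by positivity) (by linarith) 2))
      (by simp only [sq_abs]; exact hρ.ge)
    simp only [one_mul] at k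
    exact (le_abs_self _).trans k
  obtain ⟨E, hE1⟩ : ∃ E, E = 4 * ∑ b ∈ X0 V, u b * s b := ⟨_, rfl⟩
  have g1 : ∀ T, grad2 u T ≤ E := fun T => by
    have k := ((hE _ u u1).1 _ 0 (dr 0 le_rfl)).1 T
    have k2 : ∑ b ∈ X0 V, u b * lap (fun _ _ => 1) u b = ∑ b ∈ X0 V, u b * s b :=
      sum_congr rfl fun b hb => by rw [u2 b hb]
    rw [k2] at k
    rw [hE1]
    simpa using k
  have E0 : 0 ≤ E := le_trans (by simp [grad2]) (g1 ∅)
  have cX := card_le _ p (D + 1) hN1 (bdd_X0 h.loc hN1)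
  rw [← hc] at cX
  obtain ⟨Q, hQ⟩ : ∃ Q, Q = ∑ b ∈ X0 V, u b ^ 2 := ⟨_, rfl⟩
  have Q0 : 0 ≤ Q := hQ ▸ sum_nonneg fun _ _ => sq_nonneg _
  have g2 : Q ≤ C * (c * N ^ 2) * E := by
    have k := (hE _ u u1).2 E g1
    have k2 := sq_sum_le_card_mul_sum_sq (s := X0 V) (f := fun b => |u b|)
    simp only [sq_abs] at k2
    rw [← hQ] at k k2
    have k3 := mul_le_mul_of_nonneg_right (mul_le_mul_of_nonneg_left
      (k2.trans (mul_le_mul_of_nonneg_right cX Q0)) C0) E0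
    rcases Q0.eq_or_lt with e | e
    · rw [← e]; positivity
    · exact le_of_mul_le_mul_right (by nlinarith) e
  have g3 : E ≤ 16 * C * c * (N * ρ) ^ 2 := by
    have k := sum_mul_sq_le_sq_mul_sq (X0 V) u s
    rw [← hQ, s1] at k
    have k2 : E ^ 2 ≤ 16 * (Q * ρ ^ 2) := by rw [hE1]; linarith
    have k3 := mul_le_mul_of_nonneg_right g2 (sq_nonneg ρ)
    rcases E0.eq_or_lt with e | e
    · rw [← e]; positivity
    · exact le_of_mul_le_mul_right (by nlinarith) e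
  have g4 : ∀ S : Finset Pt, ∑ w ∈ S, Psi u w ^ 2 ≤ (K * (N * ρ)) ^ 2 := fun S => by
    refine (Psi_sq' u S g1).trans (le_trans ?_ (hK ▸ sq_bound (by positivity) _))
    linarith
  have d0 := h.dual u (Psi_X0 u1)
  have d1 := cs (box p (4 * N)) (Psi u) ξ (by positivity) r0 (g4 _) h.rsq
  have XB : X0 V ⊆ blacks V f := fun b hb => mem_blacks.2
    (Or.inr ⟨fun e => (mem_X0.1 hb).2 (e ▸ h.loc.root), (mem_X0.1 hb).1⟩)
  have np : ∀ b ∈ X0 V, ¬ Primal b := fun b hb => (mem_faces.1 (mem_X0.1 hb).1).1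
  have dj : Disjoint (V.image pr) (X0 V) := disjoint_left.2 fun b hb hb' => by
    obtain ⟨v, -, rfl⟩ := mem_image.1 hb
    exact np _ hb' (primal_pr v)
  have XB' : V.image pr ∪ X0 V ⊆ blacks V f := union_subset subset_union_left XB
  rw [← sum_sdiff XB', sum_union dj] at d0
  have d2 : ∑ b ∈ X0 V, F b * ∑ i, a b i * Psi u (b - eps i) = ρ ^ 2 := by
    rw [← s2]
    refine sum_congr rfl fun b hb => ?_
    simp only [h.loc.face b _ (np b hb), one_mul, sum_Psi, u2 b hb]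
  have d3 : |∑ b ∈ blacks V f \ (V.image pr ∪ X0 V), F b * ∑ i, a b i * Psi u (b - eps i)| ≤
      K3 * r * (9 * N * ρ) := by
    have k := lap_out (R := blacks V f \ (V.image pr ∪ X0 V)) u1 v1 u4
      (disjoint_left.2 fun b hb hb' => (mem_sdiff.1 hb).2 (mem_union_right _ hb'))
    rw [sum_congr rfl v2] at k
    refine (abs_sum_le_sum_abs _ _).trans (le_trans ?_
      (mul_le_mul_of_nonneg_left (k.trans s3) (by positivity)))
    rw [mul_sum]
    refine sum_le_sum fun b hb => ?_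
    obtain ⟨k1, k2⟩ := mem_sdiff.1 hb
    rw [mem_union, not_or] at k2
    have k3 := ((mem_blacks.1 k1).resolve_left fun t => k2.1 (mem_image.2 t)).2
    have k4 : IsRoot V b := by
      by_contra t
      exact k2.2 (mem_X0.2 ⟨k3, t⟩)
    simp only [h.loc.face b _ (mem_faces.1 k3).1, one_mul, sum_Psi, abs_mul]
    exact mul_le_mul_of_nonneg_right (b2 b k4) (abs_nonneg _)
  have d4 : |∑ b ∈ V.image pr, F b * ∑ i, a b i * Psi u (b - eps i)| ≤
      3 * (K2 * N * r * (|M| / N * (K * (N * ρ)))) := by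
    have k : ∑ b ∈ V.image pr, F b * ∑ i, a b i * Psi u (b - eps i) =
        ∑ i, ∑ b ∈ V.image pr, F b * ((a b i - 1) * Psi u (b - eps i)) := by
      rw [sum_comm]
      refine sum_congr rfl fun b hb => ?_
      obtain ⟨v, -, rfl⟩ := mem_image.1 hb
      have k1 : ∑ i, Psi u (pr v - eps i) = 0 := by
        rw [sum_Psi]
        refine sum_eq_zero fun j _ => ?_
        rw [u1 _ fun t => np _ t (primal_pr v), u1 _ fun t => np _ t (primal_add (primal_pr v) j),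
          sub_self, mul_zero]
      simp only [← mul_sum, sub_mul, one_mul, sum_sub_distrib, k1, sub_zero]
    rw [k]
    refine (abs_sum_le_sum_abs _ _).trans ((sum_le_card_nsmul _ _ _ fun i _ => ?_).trans
      (by simp; rfl))
    refine cs _ _ _ (by positivity) (by positivity) b1 ?_
    have k2 := g4 ((V.image pr).image fun b => b - eps i)
    rw [sum_image fun a _ b _ k => sub_left_injective k] at k2
    rw [mul_pow]
    refine le_trans ?_ (mul_le_mul_of_nonneg_left k2 (sq_nonneg _))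
    rw [mul_sum]
    refine sum_le_sum fun b hb => ?_
    rw [mul_pow]
    refine mul_le_mul_of_nonneg_right ?_ (sq_nonneg _)
    rw [← sq_abs]
    exact pow_le_pow_left₀ (abs_nonneg _) (((drift_X h.loc b hb).2 i).trans
      (div_le_div_of_nonneg_right (le_abs_self M) (by linarith))) 2
  have d5 : 3 * (K2 * N * r * (|M| / N * (K * (N * ρ)))) = 3 * |M| * K2 * K * N * r * ρ := by
    field_simp
  rw [d2] at d0
  rw [d5] at d4
  have d6 : ρ * ρ ≤ (K + 9 * K3 + 3 * |M| * K2 * K) * N * r * ρ := by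
    have k1 := (abs_le.1 d1).2
    have k2 := (abs_le.1 d3).1
    have k3 := (abs_le.1 d4).1
    nlinarith
  rw [← hρ]
  refine pow_le_pow_left₀ ρ0 ?_ 2
  rcases ρ0.eq_or_lt with e | e
  · rw [← e]; positivity
  · exact le_of_mul_le_mul_right d6 e

end Apriori

theorem apriori (h1 : MaxStmt) (h2 : EnergyStmt) (h3 : BdryStmt) : AprioriStmt := by
  intro M D
  obtain ⟨K2, N2, K20, hB⟩ := Apriori.stepB h1 h2 M D
  obtain ⟨K4, N4, K40, hD⟩ := Apriori.stepD h1 h2 h3 M D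
  refine ⟨K2 + K4, max 1 (max N2 N4), fun V f a p N G hN hL hG ξ => ?_⟩
  have hN1 : 1 ≤ N := by omega
  obtain ⟨r, r0, hr⟩ : ∃ r, 0 ≤ r ∧ r ^ 2 = ∑ w ∈ box p (4 * N), ξ w ^ 2 :=
    ⟨_, Real.sqrt_nonneg _, Real.sq_sqrt (sum_nonneg fun _ _ => sq_nonneg _)⟩
  have hS : Apriori.Sol M D V f a p N (fun b => ∑ w ∈ box p (4 * N), G b w * ξ w)
      (fun w => if w ∈ box p (4 * N) then ξ w else 0) r := by
    refine ⟨hL, fun b hb => sum_eq_zero fun w _ => ?_, fun w hw => ?_, fun w hw => if_neg hw, r0,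
      ?_⟩
    · rw [hG.zero b w fun k => hb k.1, zero_mul]
    · simp only [mul_sum, ← mul_assoc]
      rw [sum_comm]
      simp only [← sum_mul, hG.right w hw, ite_mul, one_mul, zero_mul, sum_ite_eq]
    · rw [hr]
      exact (sum_congr rfl fun w hw => by rw [if_pos hw]).le
  have b1 := hB V f a p N _ _ r (by omega) hS
  have b2 := hD V f a p N _ _ r (by omega) hS
  have b3 : (box p (4 * N)).filter Primal ⊆ V.image pr := fun b hb => by
    obtain ⟨k1, k2⟩ := mem_filter.1 hb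
    obtain ⟨v, rfl⟩ := primal_iff.1 k2
    exact mem_image_of_mem _ (pr_mem_blacks.1 (hL.mem hN1 (box_mono p (by omega) k1)).2.1)
  have b4 := (sum_le_sum_of_subset_of_nonneg b3 fun b _ _ =>
    sq_nonneg (∑ w ∈ box p (4 * N), G b w * ξ w)).trans b1
  rw [← sum_filter_add_sum_filter_not _ Primal, ← hr]
  have b5 : 0 ≤ K2 * K4 * (N * r) ^ 2 := by positivity
  nlinarith

end Pool.Agent.Lib.MP_60c5b4_pr.H
end

-- part Pool.Agent.Lib.MP_60c5b4_pr.H.Born
section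

/-!
The Born term: a pointwise bound and its plane wave structure on a row.
-/

namespace Pool.Agent.Lib.MP_60c5b4_pr.H

open Finset Complex
open scoped ComplexConjugate

namespace Born

theorem inv_mul_le {s t d : ℝ} (ht : 1 ≤ t) (hts : t ≤ s) (hd : 0 < d) (h : d ≤ 2 * s) :
    1 / (s * t) ≤ (2 / d) ^ (1 / 4 : ℝ) * t ^ (-(7 / 4) : ℝ) := by
  have hs : 0 < s := by linarith
  have ht0 : 0 < t := by linarith
  have h1 : s ^ (-(1 / 4) : ℝ) ≤ (2 / d) ^ (1 / 4 : ℝ) := by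
    rw [Real.rpow_neg hs.le, ← Real.inv_rpow hs.le]
    exact Real.rpow_le_rpow (by positivity)
      (by rw [inv_eq_one_div, div_le_div_iff₀ hs hd]; linarith) (by norm_num)
  have h2 : s ^ (-(3 / 4) : ℝ) ≤ t ^ (-(3 / 4) : ℝ) :=
    Real.rpow_le_rpow_of_nonpos ht0 hts (by norm_num)
  have e1 : 1 / (s * t) = s ^ (-(1 / 4) : ℝ) * (s ^ (-(3 / 4) : ℝ) * t ^ (-1 : ℝ)) := by
    rw [← mul_assoc, ← Real.rpow_add hs, show (-(1 / 4) + -(3 / 4) : ℝ) = -1 by norm_num,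
      Real.rpow_neg_one, Real.rpow_neg_one, one_div, mul_inv]
  have e2 : t ^ (-(7 / 4) : ℝ) = t ^ (-(3 / 4) : ℝ) * t ^ (-1 : ℝ) := by
    rw [← Real.rpow_add ht0]; norm_num
  rw [e1, e2]
  gcongr

theorem inv_mul_le' {s t d : ℝ} (hs : 1 ≤ s) (ht : 1 ≤ t) (hd : 0 < d) (h : d ≤ s + t) :
    1 / (s * t) ≤ (2 / d) ^ (1 / 4 : ℝ) * (s ^ (-(7 / 4) : ℝ) + t ^ (-(7 / 4) : ℝ)) := by
  have h0 : 0 ≤ (2 / d) ^ (1 / 4 : ℝ) := by positivity
  rcases le_total t s with h1 | h1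
  · refine (inv_mul_le ht h1 hd (by linarith)).trans (mul_le_mul_of_nonneg_left ?_ h0)
    exact le_add_of_nonneg_left (by positivity)
  · rw [mul_comm s]
    refine (inv_mul_le hs h1 hd (by linarith)).trans (mul_le_mul_of_nonneg_left ?_ h0)
    exact le_add_of_nonneg_right (by positivity)

theorem nonneg {A : Pt → ℝ} {C₀ : ℝ} (hA : KerSpec A C₀) : 0 ≤ C₀ := by
  simpa using (abs_nonneg _).trans (hA.bound 0)

end Born

theorem born_bound : BornStmt := by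
  intro A C₀ hA
  have hC := Born.nonneg hA
  refine ⟨768 * C₀ ^ 2, by positivity, fun a U b w m ρ hρ hm hU => ?_⟩
  obtain ⟨d, hd⟩ : ∃ d, d = 1 + ‖b - w‖ := ⟨_, rfl⟩
  have hd0 : 0 < d := by rw [hd]; positivity
  rw [← hd]
  have key : ∀ u ∈ U, |∑ j, A (b - u + eps j) * (a u j - 1) * A (u - w)| ≤
      6 * C₀ ^ 2 * m * (2 / d) ^ (1 / 4 : ℝ) *
        ((1 + ‖u - b‖) ^ (-(7 / 4) : ℝ) + (1 + ‖u - w‖) ^ (-(7 / 4) : ℝ)) := fun u hu => by
    have h1 : ∀ j, |A (b - u + eps j) * (a u j - 1) * A (u - w)| ≤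
        2 * C₀ / (1 + ‖u - b‖) * m * (C₀ / (1 + ‖u - w‖)) := fun j => by
      rw [abs_mul, abs_mul]
      refine mul_le_mul (mul_le_mul ((hA.bound _).trans ?_) ((hU u hu).2.2 j) (abs_nonneg _)
        (by positivity)) (hA.bound _) (abs_nonneg _) (by positivity)
      have h2 : ‖u - b‖ ≤ ‖b - u + eps j‖ + ‖eps j‖ := by
        rw [norm_sub_rev]; exact norm_le_add_norm_add _ _
      rw [div_le_div_iff₀ (by positivity) (by positivity)]
      nlinarith [norm_eps j, norm_nonneg (b - u + eps j)]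
    have h3 := Born.inv_mul_le' (s := 1 + ‖u - b‖) (t := 1 + ‖u - w‖) (by simp) (by simp) hd0 (by
      have := norm_sub_le_norm_sub_add_norm_sub b u w
      rw [norm_sub_rev b u] at this
      linarith)
    refine (abs_sum_le_sum_abs _ _).trans ((sum_le_sum fun j _ => h1 j).trans ?_)
    rw [mul_assoc _ ((2 / d) ^ (1 / 4 : ℝ))]
    refine le_trans (le_of_eq ?_) (mul_le_mul_of_nonneg_left h3 (by positivity))
    simp only [sum_const, card_univ, Fintype.card_fin, nsmul_eq_mul]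
    push_cast
    field_simp
    ring
  have hs : ∀ c : Pt, (∀ u ∈ U, ‖u - c‖ ≤ ρ) →
      ∑ u ∈ U, (1 + ‖u - c‖) ^ (-(7 / 4) : ℝ) ≤ 32 * (3 * ρ) ^ (1 / 4 : ℝ) := fun c hc => by
    refine (sum_ball_rpow_le (7 / 4) (by norm_num) (by norm_num) c ⌈ρ⌉₊ U fun u hu =>
      (hc u hu).trans (Nat.le_ceil ρ)).trans ?_
    have h1 : (⌈ρ⌉₊ + 1 : ℝ) ^ (1 / 4 : ℝ) ≤ (3 * ρ) ^ (1 / 4 : ℝ) :=
      Real.rpow_le_rpow (by positivity) (by linarith [Nat.ceil_lt_add_one (zero_le_one.trans hρ)])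
        (by norm_num)
    rw [show (2 - 7 / 4 : ℝ) = 1 / 4 by norm_num]
    linarith
  have h4 : (2 / d) ^ (1 / 4 : ℝ) * (3 * ρ) ^ (1 / 4 : ℝ) ≤ 2 * (ρ / d) ^ (1 / 4 : ℝ) := by
    rw [← Real.mul_rpow (by positivity) (by positivity),
      show (2 : ℝ) * (ρ / d) ^ (1 / 4 : ℝ) = (2 ^ 4 * (ρ / d)) ^ (1 / 4 : ℝ) by
        rw [Real.mul_rpow (by positivity) (by positivity), one_div, ← Nat.cast_ofNat (n := 4),
          Real.pow_rpow_inv_natCast (by norm_num) (by norm_num)]]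
    refine Real.rpow_le_rpow (by positivity) ?_ (by norm_num)
    have : 0 ≤ ρ / d := by positivity
    calc _ = 6 * (ρ / d) := by ring
      _ ≤ _ := by linarith
  refine (abs_sum_le_sum_abs _ _).trans ((sum_le_sum key).trans ?_)
  rw [← mul_sum, sum_add_distrib]
  refine (mul_le_mul_of_nonneg_left (add_le_add (hs b fun u hu => (hU u hu).1)
    (hs w fun u hu => (hU u hu).2.1)) (by positivity)).trans ?_
  nlinarith [mul_le_mul_of_nonneg_left h4 (show 0 ≤ C₀ ^ 2 * m by positivity)]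

namespace Born

/-- The point of the plane attached to a lattice vector. -/
noncomputable def zeta (q : Pt) : ℂ := (q.1 : ℂ) - q.2 * tau

theorem zeta_sub (q e : Pt) : zeta (q - e) = zeta q - zeta e := by
  simp only [zeta, Prod.fst_sub, Prod.snd_sub]; push_cast; ring

theorem zeta_neg (q : Pt) : zeta (-q) = -zeta q := by
  simp only [zeta, Prod.fst_neg, Prod.snd_neg]; push_cast; ring

theorem le_zeta (q : Pt) : ‖q‖ / 2 ≤ ‖zeta q‖ := by
  refine abs_le_of_sq_le_sq' ?_ (norm_nonneg _) |>.2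
  rw [zeta, normSq_zeta, norm_pt]
  rcases le_total |(q.1 : ℝ)| |(q.2 : ℝ)| with h | h
  · rw [max_eq_right h, div_pow, sq_abs]; nlinarith [sq_nonneg ((q.1 : ℝ) + q.2 / 2)]
  · rw [max_eq_left h, div_pow, sq_abs]; nlinarith [sq_nonneg ((q.2 : ℝ) + q.1 / 2)]

theorem zeta_le (q : Pt) : ‖zeta q‖ ≤ 2 * ‖q‖ := by
  refine (norm_sub_le _ _).trans ?_
  rw [norm_mul, norm_tau, norm_pt, Complex.norm_intCast, Complex.norm_intCast]
  linarith [le_max_left |(q.1 : ℝ)| |(q.2 : ℝ)|, le_max_right |(q.1 : ℝ)| |(q.2 : ℝ)|]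

theorem norm_tau_zpow (n : ℤ) : ‖tau ^ n‖ = 1 := by rw [norm_zpow, norm_tau, one_zpow]

theorem abs_im_div (c : ℂ) : |c.im / Real.pi| ≤ ‖c‖ := by
  rw [abs_div, abs_of_pos Real.pi_pos]
  exact (div_le_self (abs_nonneg _) (by linarith [Real.pi_gt_three])).trans (abs_im_le_norm c)

variable {A : Pt → ℝ} {C₀ : ℝ} (hA : KerSpec A C₀)
include hA

theorem asym_off (q e : Pt) {r : ℝ} (hr : 1 ≤ r) (he : ‖e‖ ≤ r) (hq : 2 * r ≤ ‖q‖) {n : ℤ}
    (hn : (3 : ℤ) ∣ (q - e).2 - (q - e).1 - 1 - n) :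
    |A (q - e) - (tau ^ n / zeta q).im / Real.pi| ≤ (4 * C₀ + 16) * r / ‖q‖ ^ 2 := by
  have hC := nonneg hA
  have h0 : 0 < ‖q‖ := by linarith
  have h1 : ‖q‖ / 2 ≤ ‖q - e‖ := by linarith [norm_sub_norm_le q e]
  have h2 := hA.asym (q - e) (norm_pos_iff.1 (by linarith))
  rw [tau_zpow_eq hn] at h2
  have h3 := le_zeta q
  have h4 := le_zeta (q - e)
  have z1 : zeta q ≠ 0 := norm_pos_iff.1 (by linarith)
  have z2 : zeta (q - e) ≠ 0 := norm_pos_iff.1 (by linarith)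
  have h5 : |(tau ^ n / zeta (q - e)).im / Real.pi - (tau ^ n / zeta q).im / Real.pi| ≤
      2 * r / (‖q‖ / 4 * (‖q‖ / 2)) := by
    rw [← sub_div, ← sub_im]
    refine (abs_im_div _).trans ?_
    rw [div_sub_div _ _ z2 z1, show tau ^ n * zeta q - zeta (q - e) * tau ^ n = tau ^ n * zeta e by
      rw [zeta_sub]; ring, norm_div, norm_mul, norm_mul, norm_tau_zpow, one_mul]
    gcongr
    · linarith [zeta_le e]
    · linarith
  have h6 : C₀ / ‖q - e‖ ^ 2 ≤ C₀ * r / (‖q‖ / 2) ^ 2 := by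
    gcongr
    exact le_mul_of_one_le_right hC hr
  refine (abs_sub_le _ _ _).trans ((add_le_add (h2.trans h6) h5).trans (le_of_eq ?_))
  field_simp
  ring

theorem term (δ : Fin 3 → ℝ) {m : ℝ} (hδ : ∀ j, |δ j| ≤ m) (q : Pt) (x y s : ℤ) {r : ℝ}
    (hx : ‖((x, 1) : Pt)‖ + 1 ≤ r) (hy : ‖((y, 0) : Pt)‖ ≤ r) (hq : 2 * r ≤ ‖q‖)
    (hs : (3 : ℤ) ∣ q.1 - q.2 - s) :
    |-(∑ j, A ((x, 1) - q + eps j) * δ j * A (q - (y, 0))) -
      (conj (tau ^ x) * (tau ^ s * conj (∑ j : Fin 3, (δ j : ℂ) * tau ^ (j : ℕ)) / zeta q)).im *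
        (tau ^ y * (tau ^ (-s - 1) / zeta q)).im / Real.pi ^ 2| ≤
      3 * m * ((4 * C₀ + 16) * (4 * C₀ + 20)) * (r / ‖q‖ ^ 3) := by
  have hC := nonneg hA
  have hm : 0 ≤ m := (abs_nonneg _).trans (hδ 0)
  have hr : 1 ≤ r := by linarith [norm_nonneg ((x, 1) : Pt)]
  have h0 : 0 < ‖q‖ := by linarith
  have hz := le_zeta q
  have hb : ∀ n : ℤ, |(tau ^ n / zeta q).im / Real.pi| ≤ 2 / ‖q‖ := fun n => by
    refine (abs_im_div _).trans ?_
    rw [norm_div, norm_tau_zpow, div_le_div_iff₀ (by linarith) h0]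
    linarith
  have h1 := asym_off hA q (y, 0) hr hy hq (n := y + (-s - 1)) (by
    simp only [Prod.fst_sub, Prod.snd_sub]; omega)
  have h2 : ∀ j : Fin 3, |A ((x, 1) - q + eps j) + (tau ^ (-x + s - (j : ℕ)) / zeta q).im / Real.pi|
      ≤ (4 * C₀ + 16) * r / ‖q‖ ^ 2 := fun j => by
    have := asym_off hA (-q) (-((x, 1) + eps j)) hr
      (by rw [norm_neg]; linarith [norm_add_le ((x, 1) : Pt) (eps j), norm_eps j])
      (by rwa [norm_neg]) (n := -x + s - (j : ℕ)) (by fin_cases j <;> simp <;> omega)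
    rwa [show -q - -((x, 1) + eps j) = (x, 1) - q + eps j by abel, zeta_neg, div_neg, neg_im,
      neg_div, sub_neg_eq_add, norm_neg] at this
  have e1 : conj (tau ^ x) * (tau ^ s * conj (∑ j : Fin 3, (δ j : ℂ) * tau ^ (j : ℕ)) / zeta q) =
      ∑ j : Fin 3, (δ j : ℂ) * (tau ^ (-x + s - (j : ℕ)) / zeta q) := by
    rw [map_sum, mul_sum, sum_div, mul_sum]
    refine sum_congr rfl fun j _ => ?_
    rw [map_mul, conj_ofReal, ← zpow_natCast, conj_tau_zpow, conj_tau_zpow, sub_eq_add_neg,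
      zpow_add₀ tau_ne_zero, zpow_add₀ tau_ne_zero]
    ring
  rw [e1, ← mul_div_assoc (tau ^ y), ← zpow_add₀ tau_ne_zero, im_sum, sum_mul, sum_div,
    ← sum_neg_distrib, ← sum_sub_distrib]
  refine (abs_sum_le_sum_abs _ _).trans ((sum_le_sum (g := fun _ =>
    m * ((4 * C₀ + 16) * (4 * C₀ + 20)) * (r / ‖q‖ ^ 3)) fun j _ => ?_).trans (le_of_eq ?_))
  · have h3 := h2 j
    have h4 := hb (-x + s - (j : ℕ))
    have h5 := hb (y + (-s - 1))
    rw [im_ofReal_mul]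
    generalize A ((x, 1) - q + eps j) = X at *
    generalize A (q - (y, 0)) = Y at *
    generalize (tau ^ (-x + s - (j : ℕ)) / zeta q).im = X' at *
    generalize (tau ^ (y + (-s - 1)) / zeta q).im = Y' at *
    have h6 : |Y| ≤ (4 * C₀ + 18) / ‖q‖ := by
      have h7 : (4 * C₀ + 16) * r / ‖q‖ ^ 2 ≤ (4 * C₀ + 16) / ‖q‖ := by
        rw [div_le_div_iff₀ (by positivity) h0]
        nlinarith [mul_nonneg (show 0 ≤ (4 * C₀ + 16) * ‖q‖ by positivity)
          (show 0 ≤ ‖q‖ - r by linarith)]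
      have h8 := abs_add_le (Y - Y' / Real.pi) (Y' / Real.pi)
      rw [sub_add_cancel] at h8
      calc _ ≤ (4 * C₀ + 16) / ‖q‖ + 2 / ‖q‖ := by linarith
        _ = _ := by ring
    rw [show -(X * δ j * Y) - δ j * X' * Y' / Real.pi ^ 2 =
      δ j * (X' / Real.pi * (Y - Y' / Real.pi) - (X + X' / Real.pi) * Y) by ring, abs_mul]
    refine (mul_le_mul (hδ j) ((abs_sub _ _).trans (add_le_add
      ((abs_mul _ _).le.trans (mul_le_mul h4 h1 (abs_nonneg _) (by positivity)))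
      ((abs_mul _ _).le.trans (mul_le_mul h3 h6 (abs_nonneg _) (by positivity)))))
      (abs_nonneg _) hm).trans (le_of_eq ?_)
    field_simp
    ring
  · simp only [sum_const, card_univ, Fintype.card_fin, nsmul_eq_mul]
    push_cast
    ring

omit hA

theorem im_mul_im (P Q X Y : ℂ) : (((conj X * P).im * (Y * Q).im : ℝ) : ℂ) =
    (-(conj P * conj Q) * X * conj Y + conj P * Q * X * Y + P * conj Q * conj X * conj Y -
      P * Q * conj X * Y) / 4 := by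
  rw [eq_div_iff (by norm_num)]
  apply Complex.ext <;> simp <;> ring

theorem wave_eq (κ : Fin 2 → Fin 2 → ℂ) (x y : ℤ) : wave κ x y =
    κ 0 0 * tau ^ x * conj (tau ^ y) + κ 0 1 * tau ^ x * tau ^ y +
      κ 1 0 * conj (tau ^ x) * conj (tau ^ y) + κ 1 1 * conj (tau ^ x) * tau ^ y := by
  have h1 : ∀ x : ℤ, tau ^ ((((1 : Fin 2) : ℕ) + 1 : ℤ) * x) = conj (tau ^ x) := fun x => by
    rw [conj_tau_zpow]; exact tau_zpow_eq ⟨x, by simp; ring⟩
  have h2 : ∀ x : ℤ, tau ^ ((((0 : Fin 2) : ℕ) + 1 : ℤ) * x) = tau ^ x := fun x => by simp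
  simp only [wave, Fin.sum_univ_two, h1, h2, conj_conj]
  ring

theorem harm (a b : ℕ) (h : a ≤ b) :
    Real.log (b + 1) - Real.log (a + 1) ≤ ∑ k ∈ Ioc a b, (k : ℝ)⁻¹ := by
  induction b, h using Nat.le_induction with
  | base => simp
  | succ n hn ih =>
    rw [sum_Ioc_succ_top hn]
    have h1 : (0 : ℝ) < n + 1 := by positivity
    have h2 := Real.log_le_sub_one_of_pos (x := (n + 1 + 1) / (n + 1)) (by positivity)
    rw [Real.log_div (by positivity) h1.ne', add_div, div_self h1.ne', one_div] at h2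
    push_cast
    linarith

/-- The sum of the inverse squares over the far primal points grows like a logarithm. -/
theorem lam_lower (z : Pt) {N l : ℕ} (hl : 1 ≤ l) (hN : 4 * l ≤ N) (F : Finset Pt)
    (hF : ∀ u : Pt, Primal u → 8 * (l : ℝ) < ‖u - z‖ → ‖u - z‖ ≤ 3 * N → u ∈ F) :
    (Real.log (N / l) - 2) / 16 ≤ ∑ u ∈ F, (‖zeta (u - z)‖ ^ 2)⁻¹ := by
  obtain ⟨φ, hφ⟩ : ∃ φ : (Σ _ : ℕ, ℕ) → Pt, φ = fun t =>
    z + ((z.2 + t.1 - z.1) % 3 + 3 * t.2, (t.1 : ℤ)) := ⟨_, rfl⟩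
  have hinj : Function.Injective φ := by
    rintro ⟨k, i⟩ ⟨k', i'⟩ h
    simp only [hφ, add_right_inj, Prod.mk.injEq, Nat.cast_inj] at h
    obtain ⟨h1, rfl⟩ := h
    obtain rfl : i = i' := by omega
    rfl
  have hn : ∀ t ∈ (Ioc (8 * l) (3 * N)).sigma fun k => range ((k + 1) / 3), ‖φ t - z‖ = t.1 := by
    intro t ht
    have := mem_range.1 (mem_sigma.1 ht).2
    rw [hφ, add_sub_cancel_left, norm_eq_nn, nn, Nat.cast_inj]
    simp only
    omega
  have hsub : ((Ioc (8 * l) (3 * N)).sigma fun k => range ((k + 1) / 3)).image φ ⊆ F := by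
    intro u hu
    obtain ⟨t, ht, rfl⟩ := mem_image.1 hu
    have h1 := mem_Ioc.1 (mem_sigma.1 ht).1
    refine hF _ ?_ ?_ ?_
    · simp only [hφ, Primal, Prod.fst_add, Prod.snd_add]; omega
    · rw [hn t ht]; exact_mod_cast h1.1
    · rw [hn t ht]; exact_mod_cast h1.2
  refine le_trans ?_ (sum_le_sum_of_subset_of_nonneg hsub fun _ _ _ => by positivity)
  rw [sum_image hinj.injOn, sum_sigma]
  have hl' : (1 : ℝ) ≤ l := by exact_mod_cast hl
  have hN' : 4 * (l : ℝ) ≤ N := by exact_mod_cast hN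
  have h1 : Real.log (N / l) - 2 ≤ ∑ k ∈ Ioc (8 * l) (3 * N), (k : ℝ)⁻¹ := by
    refine le_trans ?_ (harm _ _ (by omega))
    rw [← Real.log_div (by positivity) (by positivity)]
    have h2 : Real.log (N / l / 3) ≤ Real.log (((3 * N : ℕ) + 1) / ((8 * l : ℕ) + 1)) := by
      refine Real.log_le_log (by have : (0 : ℝ) < N := by linarith
                                 positivity) ?_
      rw [div_div, div_le_div_iff₀ (by positivity) (by positivity)]
      push_cast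
      nlinarith
    rw [Real.log_div (by have : (0 : ℝ) < N := by linarith
                         positivity) (by norm_num)] at h2
    linarith [Real.log_le_sub_one_of_pos (show (0 : ℝ) < 3 by norm_num)]
  refine (div_le_div_of_nonneg_right h1 (by norm_num)).trans ?_
  rw [sum_div]
  refine sum_le_sum fun k hk => ?_
  have hk' := mem_Ioc.1 hk
  have hk0 : (0 : ℝ) < k := by exact_mod_cast (show 0 < k by omega)
  refine le_trans ?_ (card_nsmul_le_sum _ _ ((2 * (k : ℝ)) ^ 2)⁻¹ fun i hi => ?_)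
  · have h3 : (k : ℝ) ≤ 4 * ((k + 1) / 3 : ℕ) := by exact_mod_cast (show k ≤ 4 * _ by omega)
    rw [card_range, nsmul_eq_mul, ← div_eq_mul_inv, div_le_div_iff₀ (by norm_num) (by positivity)]
    calc _ = 4 * (k : ℝ) := by field_simp; ring
      _ ≤ _ := by linarith
  · have h3 := hn ⟨k, i⟩ (mem_sigma.2 ⟨hk, hi⟩)
    have h4 := le_zeta (φ ⟨k, i⟩ - z)
    have h5 := zeta_le (φ ⟨k, i⟩ - z)
    rw [h3] at h4 h5
    have h6 : 0 < ‖zeta (φ ⟨k, i⟩ - z)‖ := by simp only at h4; linarith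
    gcongr

theorem tail_sum (z : Pt) {l : ℕ} (R : ℕ) (hl : 1 ≤ l) (F : Finset Pt)
    (hF : ∀ u ∈ F, 8 * (l : ℝ) < ‖u - z‖ ∧ ‖u - z‖ ≤ R) :
    ∑ u ∈ F, 3 * (l : ℝ) / ‖u - z‖ ^ 3 ≤ 4 := by
  have hl' : (1 : ℝ) ≤ l := by exact_mod_cast hl
  refine (sum_le_shells z R F (fun u hu => (hF u hu).2) _
    (fun k => if 8 * l < k then 3 * (l : ℝ) / k ^ 3 else 0)
    (fun k => by split_ifs <;> positivity) fun u hu => ?_).trans ?_
  · have := (hF u hu).1
    rw [norm_eq_nn] at this ⊢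
    rw [if_pos (by exact_mod_cast this)]
  simp only [mul_ite, mul_zero]
  rw [← sum_filter]
  have h1 : (range (R + 1)).filter (fun k => 8 * l < k) ⊆ Ioc (8 * l) (8 * l + R) := fun k hk => by
    simp only [mem_filter, mem_range, mem_Ioc] at hk ⊢
    omega
  have h2 := sum_Ioc_inv_sq_le_sub (α := ℝ) (k := 8 * l) (n := 8 * l + R) (by omega) (by omega)
  refine (sum_le_sum_of_subset_of_nonneg h1 fun _ _ _ => by positivity).trans
    ((sum_le_sum (g := fun k : ℕ => 27 * (l : ℝ) * ((k : ℝ) ^ 2)⁻¹) fun k hk => ?_).trans ?_)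
  · have hk0 : (1 : ℝ) ≤ k := by exact_mod_cast (show 1 ≤ k by have := mem_Ioc.1 hk; omega)
    rw [← mul_div_assoc, ← div_eq_mul_inv, div_le_div_iff₀ (by positivity) (by positivity)]
    nlinarith [mul_nonneg (show 0 ≤ (l : ℝ) * k ^ 2 by positivity) (sub_nonneg.2 hk0)]
  · rw [← mul_sum]
    refine (mul_le_mul_of_nonneg_left (h2.trans (sub_le_self _ (by positivity)))
      (by positivity)).trans ?_
    push_cast
    rw [← div_eq_mul_inv, div_le_iff₀ (by positivity)]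
    linarith

theorem seg_sum {l : ℕ} (hl : 1 ≤ l) :
    ∑ x ∈ seg l, ∑ y ∈ seg l, (10 * (l : ℝ) / (1 + ‖((x - y, 1) : Pt)‖)) ^ (1 / 2 : ℝ) ≤
      (13 * l) ^ 2 := by
  have hl' : (1 : ℝ) ≤ l := by exact_mod_cast hl
  have h1 := sum_rpow_le (1 / 2) (by norm_num) (by norm_num) (4 * l + 1)
  have h2 : (10 * (l : ℝ)) ^ (1 / 2 : ℝ) * ((4 * l + 1 : ℕ) : ℝ) ^ (1 / 2 : ℝ) ≤ 8 * l := by
    rw [← Real.mul_rpow (by positivity) (by positivity), ← Real.sqrt_eq_rpow,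
      Real.sqrt_le_left (by positivity)]
    push_cast
    nlinarith
  refine (sum_le_card_nsmul _ _ (32 * (l : ℝ)) fun x hx => ?_).trans ?_
  · rw [← sum_fiberwise_of_maps_to (g := fun y => (x - y).natAbs) (t := range (4 * l + 1))
      fun y hy => by rw [mem_seg] at hx hy; exact mem_range.2 (by omega)]
    refine (sum_le_sum (g := fun k : ℕ => 2 * (10 * (l : ℝ)) ^ (1 / 2 : ℝ) *
      (1 + k : ℝ) ^ (-(1 / 2) : ℝ)) fun k _ => ?_).trans ?_
    · refine (sum_le_card_nsmul _ _ ((10 * (l : ℝ)) ^ (1 / 2 : ℝ) * (1 + k : ℝ) ^ (-(1 / 2) : ℝ))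
        fun y hy => ?_).trans ?_
      · rw [Real.rpow_neg (by positivity), ← div_eq_mul_inv,
          ← Real.div_rpow (by positivity) (by positivity), norm_eq_nn, ← (mem_filter.1 hy).2]
        gcongr
        exact le_max_left _ _
      · rw [nsmul_eq_mul, mul_assoc]
        refine mul_le_mul_of_nonneg_right ?_ (by positivity)
        have : (seg l).filter (fun y => (x - y).natAbs = k) ⊆ {x - k, x + k} := fun y hy => by
          have := (mem_filter.1 hy).2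
          simp only [mem_insert, mem_singleton]
          omega
        exact_mod_cast (card_le_card this).trans card_le_two
    · rw [← mul_sum]
      refine (mul_le_mul_of_nonneg_left h1 (by positivity)).trans ?_
      rw [show (1 - 1 / 2 : ℝ) = 1 / 2 by norm_num]
      linarith
  · rw [card_seg, nsmul_eq_mul]
    push_cast
    nlinarith

/-- The coefficients of the plane waves. -/
theorem coef (F : Finset Pt) (D ζ : Pt → ℂ) (s : ℤ) (Δ₀ : ℂ) {N : ℝ} (hN : 0 < N)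
    (hD : ∀ u ∈ F, ‖(N : ℂ) * D u - Δ₀‖ ≤ ‖Δ₀‖ / 2) :
    ∃ κ : Fin 2 → Fin 2 → ℂ, (∀ s t, ‖κ s t‖ ≤ 3 * ‖κ 0 1‖) ∧
      ‖Δ₀‖ * (∑ u ∈ F, (‖ζ u‖ ^ 2)⁻¹) / (8 * Real.pi ^ 2 * N) ≤ ‖κ 0 1‖ ∧
      ∀ x y, wave κ x y = ((∑ u ∈ F, (conj (tau ^ x) * (tau ^ s * conj (D u) / ζ u)).im *
        (tau ^ y * (tau ^ (-s - 1) / ζ u)).im / Real.pi ^ 2 : ℝ) : ℂ) := by
  obtain ⟨P, hP⟩ : ∃ P : Pt → ℂ, P = fun u => tau ^ s * conj (D u) / ζ u := ⟨_, rfl⟩
  obtain ⟨Q, hQ⟩ : ∃ Q : Pt → ℂ, Q = fun u => tau ^ (-s - 1) / ζ u := ⟨_, rfl⟩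
  obtain ⟨Λ, hΛ⟩ : ∃ Λ, Λ = ∑ u ∈ F, (‖ζ u‖ ^ 2)⁻¹ := ⟨_, rfl⟩
  have hπ := Real.pi_pos
  have hc : ‖((4 * Real.pi ^ 2 : ℝ) : ℂ)‖ = 4 * Real.pi ^ 2 := by
    rw [norm_real, Real.norm_of_nonneg (by positivity)]
  have up : ∀ T : Pt → ℂ, (∀ u, ‖T u‖ = ‖P u‖ * ‖Q u‖) →
      ‖∑ u ∈ F, T u‖ ≤ 3 * (‖Δ₀‖ * Λ / (2 * N)) := fun T hT => by
    rw [hΛ, mul_sum, sum_div, mul_sum]
    refine (norm_sum_le _ _).trans (sum_le_sum fun u hu => ?_)
    have h1 := norm_sub_norm_le ((N : ℂ) * D u) Δ₀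
    rw [norm_mul, norm_real, Real.norm_of_nonneg hN.le] at h1
    have h2 : ‖D u‖ ≤ 3 * ‖Δ₀‖ / (2 * N) := by
      rw [le_div_iff₀ (by positivity)]; linarith [hD u hu]
    simp only [hT, hP, hQ, norm_div, norm_mul, norm_tau_zpow, norm_conj, one_mul]
    calc _ = ‖D u‖ * (‖ζ u‖ ^ 2)⁻¹ := by ring
      _ ≤ _ := (mul_le_mul_of_nonneg_right h2 (by positivity)).trans (le_of_eq (by ring))
  have low : ‖Δ₀‖ * Λ / (2 * N) ≤ ‖∑ u ∈ F, conj (P u) * Q u‖ := by
    have e1 : (N : ℂ) * ∑ u ∈ F, conj (P u) * Q u = conj (tau ^ s) * tau ^ (-s - 1) *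
        (Δ₀ * (Λ : ℝ) + ∑ u ∈ F, ((N : ℂ) * D u - Δ₀) * ((‖ζ u‖ ^ 2)⁻¹ : ℝ)) := by
      rw [hΛ, ofReal_sum, mul_sum, mul_sum, ← sum_add_distrib, mul_sum]
      refine sum_congr rfl fun u _ => ?_
      simp only [hP, hQ, map_div₀, map_mul, conj_conj, ofReal_inv, ofReal_pow, ← conj_mul', mul_inv]
      ring
    have h1 : ‖∑ u ∈ F, ((N : ℂ) * D u - Δ₀) * ((‖ζ u‖ ^ 2)⁻¹ : ℝ)‖ ≤ ‖Δ₀‖ / 2 * Λ := by
      rw [hΛ, mul_sum]
      refine (norm_sum_le _ _).trans (sum_le_sum fun u hu => ?_)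
      rw [norm_mul, norm_real, Real.norm_of_nonneg (by positivity)]
      exact mul_le_mul_of_nonneg_right (hD u hu) (by positivity)
    have h2 := congrArg norm e1
    have h3 : 0 ≤ Λ := by rw [hΛ]; positivity
    have h4 := norm_le_add_norm_add (Δ₀ * (Λ : ℝ))
      (∑ u ∈ F, ((N : ℂ) * D u - Δ₀) * ((‖ζ u‖ ^ 2)⁻¹ : ℝ))
    rw [norm_mul, norm_mul, norm_mul, norm_conj, norm_tau_zpow, norm_tau_zpow, norm_real,
      Real.norm_of_nonneg hN.le] at h2
    rw [norm_mul, norm_real, Real.norm_of_nonneg h3] at h4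
    rw [div_le_iff₀ (by positivity)]
    linarith
  refine ⟨fun i j => ![![∑ u ∈ F, -(conj (P u) * conj (Q u)), ∑ u ∈ F, conj (P u) * Q u],
    ![∑ u ∈ F, P u * conj (Q u), ∑ u ∈ F, -(P u * Q u)]] i j / ((4 * Real.pi ^ 2 : ℝ) : ℂ),
    fun i j => ?_, ?_, fun x y => ?_⟩
  · simp only [norm_div, ← mul_div_assoc]
    refine div_le_div_of_nonneg_right (le_trans ?_ (mul_le_mul_of_nonneg_left low (by norm_num)))
      (norm_nonneg _)
    fin_cases i <;> fin_cases j <;> exact up _ fun u => by simp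
  · rw [norm_div, hc, le_div_iff₀ (by positivity), ← hΛ]
    refine le_trans (le_of_eq ?_) low
    field_simp
    ring
  · rw [wave_eq, ofReal_sum]
    simp only [Matrix.cons_val_zero, Matrix.cons_val_one, sum_div, sum_mul, ← sum_add_distrib]
    refine sum_congr rfl fun u _ => ?_
    rw [ofReal_div, im_mul_im, hP, hQ]
    push_cast
    ring

end Born

open H.Born in
theorem far (h : BornStmt) : FarStmt := by
  intro A C₀ hA M
  obtain ⟨C, hC, hB⟩ := h A C₀ hA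
  have hC₀ := nonneg hA
  have hπ := Real.pi_pos
  obtain ⟨K, hK⟩ : ∃ K, K = (4 * C₀ + 16) * (4 * C₀ + 20) := ⟨_, rfl⟩
  have hK0 : 0 ≤ K := by rw [hK]; positivity
  refine ⟨1 / (128 * Real.pi ^ 2), by positivity, 13 * (C + 12 * K) * M,
    fun a p z N l Δ₀ hl hz ha => ?_⟩
  have hl' : (1 : ℝ) ≤ l := by exact_mod_cast hl
  have hzp := norm_nonneg (z - p)
  have hN : (0 : ℝ) < N := by linarith
  have hm : 0 ≤ M / N := (abs_nonneg _).trans ((ha p (mem_box.2 (by simp))).2.1 0)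
  obtain ⟨F, hF⟩ : ∃ F, F = (box p (4 * N)).filter fun u => 8 * (l : ℝ) < ‖u - z‖ ∧ Primal u :=
    ⟨_, rfl⟩
  have mF : ∀ u, u ∈ F ↔ u ∈ box p (4 * N) ∧ 8 * (l : ℝ) < ‖u - z‖ ∧ Primal u := fun u => by
    rw [hF, mem_filter]
  obtain ⟨κ, k1, k2, k3⟩ := coef F (fun u => ∑ j : Fin 3, ((a u j - 1 : ℝ) : ℂ) * tau ^ (j : ℕ))
    (fun u => zeta (u - z)) (z.2 - z.1) Δ₀ hN fun u hu => by
      simpa using (ha u ((mF u).1 hu).1).2.2 ((mF u).1 hu).2.2
  refine ⟨κ, k1, le_trans ?_ k2, ?_⟩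
  · have h1 := lam_lower z hl (N := N) (by exact_mod_cast (show 4 * (l : ℝ) ≤ N by linarith)) F
      fun u h1 h2 h3 => (mF u).2 ⟨mem_box.2 (by
        push_cast
        linarith [norm_sub_le_norm_sub_add_norm_sub u z p]), h2, h1⟩
    refine le_trans (le_of_eq ?_) (div_le_div_of_nonneg_right
      (mul_le_mul_of_nonneg_left h1 (norm_nonneg Δ₀)) (by positivity))
    field_simp
    ring
  refine (sum_le_sum fun x hx => sum_le_sum (g := fun y => ((C + 12 * K) * (M / N)) ^ 2 *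
    (10 * (l : ℝ) / (1 + ‖((x - y, 1) : Pt)‖)) ^ (1 / 2 : ℝ)) fun y hy => ?_).trans ?_
  swap
  · simp only [← mul_sum]
    refine (mul_le_mul_of_nonneg_left (seg_sum hl) (by positivity)).trans (le_of_eq ?_)
    ring
  rw [mem_seg] at hx hy
  have nx : ‖((x, 1) : Pt)‖ ≤ 2 * l := by
    exact_mod_cast (norm_le_iff (x, 1) (2 * l)).2 ⟨abs_le.2 (by omega), abs_le.2 (by omega)⟩
  have ny : ‖((y, 0) : Pt)‖ ≤ 2 * l := by
    exact_mod_cast (norm_le_iff (y, 0) (2 * l)).2 ⟨abs_le.2 (by omega), abs_le.2 (by omega)⟩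
  have nxy : ‖((x - y, 1) : Pt)‖ ≤ 4 * l := by
    exact_mod_cast (norm_le_iff (x - y, 1) (4 * l)).2 ⟨abs_le.2 (by omega), abs_le.2 (by omega)⟩
  have h1 := hB a ((box p (4 * N)).filter fun u => ‖u - z‖ ≤ 8 * (l : ℝ)) (z + (x, 1))
    (z + (y, 0)) (M / N) (10 * l) (by linarith) hm fun u hu => by
      have h2 := (mem_filter.1 hu).2
      rw [← sub_sub, ← sub_sub]
      exact ⟨by linarith [norm_sub_le (u - z) (x, 1)], by linarith [norm_sub_le (u - z) (y, 0)],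
        (ha u (mem_filter.1 hu).1).2.1⟩
  rw [show z + (x, 1) - (z + (y, 0)) = (x - y, 1) by simp] at h1
  have e1 : born A a (box p (4 * N)) (z + (x, 1)) (z + (y, 0)) =
      born A a ((box p (4 * N)).filter fun u => ‖u - z‖ ≤ 8 * (l : ℝ)) (z + (x, 1)) (z + (y, 0)) +
        born A a F (z + (x, 1)) (z + (y, 0)) := by
    simp only [born, hF, sum_filter, ← sum_add_distrib]
    refine sum_congr rfl fun u hu => ?_
    by_cases h2 : ‖u - z‖ ≤ 8 * (l : ℝ)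
    · rw [if_pos h2, if_neg fun h3 => absurd h3.1 (not_lt.2 h2), add_zero]
    · by_cases h3 : Primal u
      · rw [if_neg h2, if_pos ⟨not_le.1 h2, h3⟩, zero_add]
      · simp [(ha u hu).1 h3]
  have h2 := sum_le_sum (s := F) fun u hu => term hA (fun j => a u j - 1)
    (ha u ((mF u).1 hu).1).2.1 (u - z) x y (z.2 - z.1) (r := 3 * l) (by linarith) (by linarith)
    (by linarith [((mF u).1 hu).2.1]) (by
      have := ((mF u).1 hu).2.2
      simp only [Primal, Prod.fst_sub, Prod.snd_sub] at this ⊢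
      omega)
  have h3 := tail_sum z (5 * N) hl F fun u hu => ⟨((mF u).1 hu).2.1, by
    have h4 := mem_box.1 ((mF u).1 hu).1
    have h5 := norm_sub_le_norm_sub_add_norm_sub u p z
    rw [norm_sub_rev p z] at h5
    push_cast at h4 ⊢
    linarith⟩
  rw [← mul_sum, ← hK] at h2
  replace h2 := (abs_sum_le_sum_abs _ _).trans
    (h2.trans (mul_le_mul_of_nonneg_left h3 (by positivity)))
  have e2 : born A a F (z + (x, 1)) (z + (y, 0)) =
      ∑ u ∈ F, ∑ j, A ((x, 1) - (u - z) + eps j) * (a u j - 1) * A (u - z - (y, 0)) :=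
    sum_congr rfl fun u _ => sum_congr rfl fun j _ => by
      rw [sub_sub, show z + (x, 1) - u = (x, 1) - (u - z) by abel]
  rw [sum_sub_distrib, sum_neg_distrib, ← e2] at h2
  have h4 : 1 ≤ (10 * (l : ℝ) / (1 + ‖((x - y, 1) : Pt)‖)) ^ (1 / 4 : ℝ) :=
    Real.one_le_rpow (by rw [le_div_iff₀ (by positivity)]; linarith) (by norm_num)
  beta_reduce
  rw [k3, ← ofReal_sub, norm_real, Real.norm_eq_abs, e1,
    show (1 / 2 : ℝ) = 1 / 4 * (2 : ℕ) by norm_num, Real.rpow_mul_natCast (by positivity),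
    ← mul_pow]
  refine pow_le_pow_left₀ (abs_nonneg _) ?_ 2
  rw [neg_add, add_sub_assoc]
  refine (abs_add_le _ _).trans ?_
  rw [abs_neg]
  nlinarith [mul_le_mul_of_nonneg_left h4 (mul_nonneg hK0 hm)]

end Pool.Agent.Lib.MP_60c5b4_pr.H
end
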