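import Pool.Agent.Lib.MP_60c5b4_pr.H.Sign

-- part Pool.Agent.Lib.MP_60c5b4_pr.H.Soft
section

/-!
Soft estimates for the truncated phase on the cyclic group.
-/

namespace Pool.Agent.Lib.MP_60c5b4_pr.H

open Finset Matrix Complex
open scoped ComplexConjugate

namespace Soft

/-- Distance to zero on the cyclic group. -/
def nv {k : ℕ} (x : Cy k) : ℕ := x.valMinAbs.natAbs

theorem vma_cast {k : ℕ} {t : ℤ} (h1 : -(3 * k + 1 : ℤ) ≤ t) (h2 : t ≤ 3 * k + 1) :
    ((t : Cy k)).valMinAbs = t := by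
  rw [ZMod.valMinAbs_spec]
  refine ⟨rfl, ?_, ?_⟩ <;> push_cast <;> omega

theorem vma_mem {k : ℕ} (x : Cy k) :
    -(3 * k + 1 : ℤ) ≤ x.valMinAbs ∧ x.valMinAbs ≤ 3 * k + 1 := by
  have h := ZMod.valMinAbs_mem_Ioc x
  obtain ⟨h1, h2⟩ := h
  push_cast at h1 h2
  omega

theorem nv_cast {k : ℕ} (x : Cy k) : ((nv x : ℕ) : ℝ) = |(x.valMinAbs : ℝ)| := by
  rw [nv, Nat.cast_natAbs, Int.cast_abs]

theorem nv_neg {k : ℕ} (x : Cy k) : nv (-x) = nv x := ZMod.natAbs_valMinAbs_neg x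

theorem nv_eq_zero {k : ℕ} {x : Cy k} (h : nv x = 0) : x = 0 := by
  rw [nv, Int.natAbs_eq_zero, ZMod.valMinAbs_eq_zero] at h
  exact h

theorem sum_nv_le {k : ℕ} (F : ℕ → ℝ) (hF : ∀ i, 0 ≤ F i) :
    ∑ x : Cy k, F (nv x) ≤ 2 * ∑ i ∈ range (3 * k + 2), F i := by
  rw [← sum_fiberwise_of_maps_to (s := univ) (g := fun x : Cy k => nv x) (t := range (3 * k + 2))
    fun x _ => by
      have := vma_mem x
      rw [mem_range, nv]
      omega, mul_sum]
  refine sum_le_sum fun i _ => ?_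
  refine (sum_le_card_nsmul _ _ (F i) fun u hu => ?_).trans ?_
  · rw [(mem_filter.1 hu).2]
  · rw [nsmul_eq_mul]
    refine mul_le_mul_of_nonneg_right ?_ (hF i)
    have h1 : (univ.filter fun x : Cy k => nv x = i) ⊆ {(i : Cy k), -(i : Cy k)} := fun u hu => by
      have h2 : u.valMinAbs.natAbs = i := (mem_filter.1 hu).2
      rw [mem_insert, mem_singleton, ← ZMod.coe_valMinAbs u]
      rcases Int.natAbs_eq u.valMinAbs with h | h
      · left; rw [h, h2, Int.cast_natCast]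
      · right; rw [h, h2, Int.cast_neg, Int.cast_natCast]
    exact_mod_cast (card_le_card h1).trans card_le_two

theorem sum_near_le {k l : ℕ} (hl : 1 ≤ l) {a : ℝ} (ha : 0 ≤ a) :
    ∑ x : Cy k, (if nv x ≤ l then a else 0) ≤ 4 * l * a := by
  refine (sum_nv_le (fun i => if i ≤ l then a else 0) fun i => by split_ifs <;> simp [ha]).trans ?_
  rw [← sum_filter, sum_const, nsmul_eq_mul]
  have h1 : ((range (3 * k + 2)).filter fun i => i ≤ l).card ≤ 2 * l := by
    refine (card_le_card (t := range (l + 1)) fun i hi => ?_).trans ?_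
    · exact mem_range.2 (Nat.lt_succ_of_le (mem_filter.1 hi).2)
    · rw [card_range]; omega
  have h2 : (((range (3 * k + 2)).filter fun i => i ≤ l).card : ℝ) ≤ 2 * l := by exact_mod_cast h1
  nlinarith

theorem sum_far_le {k l : ℕ} (hl : 1 ≤ l) :
    ∑ x : Cy k, (if nv x ≤ l then 0 else ((nv x : ℝ) ^ 2)⁻¹) ≤ 4 / l := by
  refine (sum_nv_le (fun i => if i ≤ l then 0 else ((i : ℝ) ^ 2)⁻¹)
    fun i => by split_ifs <;> positivity).trans ?_
  have h1 : ∑ i ∈ range (3 * k + 2), (if i ≤ l then 0 else ((i : ℝ) ^ 2)⁻¹) =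
      ∑ i ∈ Ioo l (3 * k + 2), ((i : ℝ) ^ 2)⁻¹ := by
    have h2 : Ioo l (3 * k + 2) = (range (3 * k + 2)).filter fun i => ¬ i ≤ l := by
      ext i; simp only [mem_Ioo, mem_filter, mem_range]; omega
    rw [h2, sum_filter]
    exact sum_congr rfl fun i _ => by split_ifs <;> rfl
  rw [h1]
  have h3 := sum_Ioo_inv_sq_le (α := ℝ) l (3 * k + 2)
  have hl' : (1 : ℝ) ≤ l := by exact_mod_cast hl
  have h4 : (2 : ℝ) / (l + 1) ≤ 2 / l := div_le_div_of_nonneg_left (by norm_num) (by linarith)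
    (by linarith)
  have h5 : (4 : ℝ) / l = 2 * (2 / l) := by ring
  linarith

theorem exp_le_quad {y b : ℝ} (h : |y| ≤ b) : Real.exp y ≤ 1 + y + Real.exp b * y ^ 2 := by
  have h1 := Real.add_one_le_exp y
  have h2 : Real.exp y ≤ 1 + y * Real.exp y := by
    have h3 := Real.add_one_le_exp (-y)
    have h4 : Real.exp y * Real.exp (-y) = 1 := by rw [← Real.exp_add]; simp
    nlinarith [Real.exp_pos y]
  have h5 : Real.exp y ≤ Real.exp b := Real.exp_le_exp.2 ((le_abs_self y).trans h)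
  have h6 : 1 ≤ Real.exp b := Real.one_le_exp ((abs_nonneg y).trans h)
  rcases le_total 0 y with hy | hy
  · nlinarith [mul_le_mul_of_nonneg_left h2 hy, mul_le_mul_of_nonneg_left h5 (sq_nonneg y)]
  · nlinarith [mul_le_mul_of_nonpos_left h1 hy, mul_le_mul_of_nonneg_left h6 (sq_nonneg y)]

/-- The increments of the phase. -/
noncomputable def th {k : ℕ} (Θ : ℤ → ℝ) (x : Cy k) : ℝ := Θ (x.valMinAbs + 1) - Θ x.valMinAbs

section phase
variable {L C₁ n : ℝ} {l k : ℕ} {Θ : ℤ → ℝ}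

theorem phase_step (h : Adm L C₁ n l Θ) (hk : l ≤ k) (x : Cy k) :
    Θ (x.valMinAbs + 1) = Θ (x + 1).valMinAbs +
      if x = ((3 * k + 1 : ℤ) : Cy k) then 2 * Real.pi else 0 := by
  have hx := vma_mem x
  split_ifs with e
  · have h1 : x.valMinAbs = 3 * k + 1 := by rw [e, vma_cast (by omega) le_rfl]
    have h2 : x + 1 = ((-(3 * k + 1) : ℤ) : Cy k) := by
      rw [e]
      have h3 : ((6 * k + 3 : ℕ) : Cy k) = 0 := ZMod.natCast_self _
      push_cast at h3 ⊢
      linear_combination h3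
    rw [h2, vma_cast le_rfl (by omega), h1, h.right _ (by omega), h.left _ (by omega), zero_add]
  · have h1 : x.valMinAbs ≠ 3 * k + 1 := fun h1 => e (by rw [← h1, ZMod.coe_valMinAbs])
    have h2 : x + 1 = ((x.valMinAbs + 1 : ℤ) : Cy k) := by
      rw [Int.cast_add, ZMod.coe_valMinAbs, Int.cast_one]
    rw [h2, vma_cast (by omega) (by omega), add_zero]

theorem cg_succ (h : Adm L C₁ n l Θ) (hk : l ≤ k) (x : Cy k) :
    cg k Θ (x + 1) = cg k Θ x * exp (I * th Θ x) := by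
  rw [cg, cg, ← Complex.exp_add, th, phase_step h hk x]
  split_ifs
  · rw [Complex.exp_eq_exp_iff_exists_int]
    refine ⟨-1, ?_⟩
    push_cast; ring
  · congr 1; push_cast; ring

theorem sum_th (h : Adm L C₁ n l Θ) (hk : l ≤ k) : ∑ x : Cy k, th Θ x = 2 * Real.pi := by
  simp only [th, phase_step h hk, sum_sub_distrib, sum_add_distrib]
  rw [Equiv.sum_comp (Equiv.addRight (1 : Cy k)) (fun x => Θ x.valMinAbs) |>.symm]
  simp

theorem th_zero (h : Adm L C₁ n l Θ) {x : Cy k} (hx : ¬ nv x ≤ l) : th Θ x = 0 := by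
  rw [nv] at hx
  rw [th]
  rcases le_total 0 x.valMinAbs with h0 | h0
  · rw [h.right _ (by omega), h.right _ (by omega), sub_self]
  · rw [h.left _ (by omega), h.left _ (by omega), sub_self]

theorem cg_one (h : Adm L C₁ n l Θ) {x : Cy k} (hx : ¬ nv x ≤ l) : cg k Θ x = 1 := by
  rw [nv] at hx
  rw [cg]
  rcases le_total 0 x.valMinAbs with h0 | h0
  · rw [h.right _ (by omega), ← Complex.exp_two_pi_mul_I]
    congr 1; push_cast; ring
  · rw [h.left _ (by omega)]; simp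

theorem norm_cg (x : Cy k) : ‖cg k Θ x‖ = 1 := by
  rw [cg, mul_comm, Complex.norm_exp_ofReal_mul_I]

theorem cg_step (h : Adm L C₁ n l Θ) (hk : l ≤ k) (x : Cy k) :
    ‖cg k Θ (x + 1) - cg k Θ x‖ ≤ C₁ / n := by
  rw [cg_succ h hk, ← mul_sub_one, norm_mul, norm_cg, one_mul]
  exact Real.norm_exp_I_mul_ofReal_sub_one_le.trans (h.lip _)

theorem cg_lip_nat (h : Adm L C₁ n l Θ) (hk : l ≤ k) (x : Cy k) (d : ℕ) :
    ‖cg k Θ (x + d) - cg k Θ x‖ ≤ C₁ / n * d := by
  induction d with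
  | zero => simp
  | succ d ih =>
    have h1 := cg_step h hk (x + d)
    have h2 := norm_sub_le_norm_sub_add_norm_sub (cg k Θ (x + d + 1)) (cg k Θ (x + d)) (cg k Θ x)
    push_cast
    rw [← add_assoc]
    linarith

theorem cg_lip (h : Adm L C₁ n l Θ) (hk : l ≤ k) (x y : Cy k) :
    ‖cg k Θ x - cg k Θ y‖ ≤ C₁ / n * nv (x - y) := by
  have h1 := ZMod.coe_valMinAbs (x - y)
  rcases Int.natAbs_eq (x - y).valMinAbs with e | e
  · rw [e, Int.cast_natCast] at h1
    have h2 := cg_lip_nat h hk y (nv (x - y))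
    rwa [nv, h1, add_sub_cancel] at h2
  · rw [e, Int.cast_neg, Int.cast_natCast] at h1
    have h2 := cg_lip_nat h hk x (nv (x - y))
    rw [norm_sub_rev] at h2
    have h3 : x + (nv (x - y) : Cy k) = y := by rw [nv]; linear_combination -h1
    rwa [h3] at h2

end phase

theorem entry_le (h2 : CycStmt) {k : ℕ} {x y : Cy k} (h : nv (x - y) ≠ 0) :
    ‖cP k x y‖ * nv (x - y) ≤ 1 / 2 := by
  have hxy : x ≠ y := fun e => h (by rw [e, sub_self]; simp [nv])
  have h1 := h2.entry k x y hxy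
  rw [← nv_cast] at h1
  have h3 : (0 : ℝ) < nv (x - y) := by exact_mod_cast Nat.pos_of_ne_zero h
  rw [le_div_iff₀ (by positivity)] at h1
  linarith

theorem cP_conj (h2 : CycStmt) {k : ℕ} (x y : Cy k) : cP k y x = conj (cP k x y) := by
  conv_lhs => rw [← h2.herm k]
  rfl

theorem sum_row (h2 : CycStmt) {k : ℕ} (x : Cy k) : ∑ y, cP k x y * cP k y x = cP k x x := by
  rw [← Matrix.mul_apply, h2.idem]

theorem sum_row_sq (h2 : CycStmt) {k : ℕ} (x : Cy k) : ∑ y, ‖cP k x y‖ ^ 2 = 1 / 3 := by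
  have h1 := sum_row h2 x
  rw [h2.diag] at h1
  simp only [cP_conj h2 x, Complex.mul_conj'] at h1
  apply Complex.ofReal_injective
  push_cast
  exact h1

theorem hs_comm (h2 : CycStmt) {L C₁ n : ℝ} {l k : ℕ} {Θ : ℤ → ℝ} (h : Adm L C₁ n l Θ)
    (hk : l ≤ k) (hl : 1 ≤ l) :
    hs (diagonal (cg k Θ) * cP k - cP k * diagonal (cg k Θ)) ≤ 32 * (l * (C₁ / n)) ^ 2 + 32 := by
  obtain ⟨c, hc⟩ : ∃ c, c = C₁ / n := ⟨_, rfl⟩
  have hc0 : 0 ≤ c := hc ▸ (abs_nonneg _).trans (h.lip 0)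
  rw [← hc]
  let m : Cy k → ℝ := fun d =>
    (if nv d ≤ l then c ^ 2 else 0) + if nv d ≤ l then 0 else ((nv d : ℝ) ^ 2)⁻¹
  have m0 : ∀ d, 0 ≤ m d := fun d => by simp only [m]; split_ifs <;> positivity
  have hl' : (1 : ℝ) ≤ l := by exact_mod_cast hl
  have ms : ∑ d, m d ≤ 4 * l * c ^ 2 + 4 / l := by
    rw [sum_add_distrib]
    exact add_le_add (sum_near_le hl (sq_nonneg c)) (sum_far_le hl)
  have e1 : ∀ x y : Cy k, ‖(cg k Θ x - cg k Θ y) * cP k x y‖ ^ 2 ≤ m (x - y) := fun x y => by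
    by_cases h0 : nv (x - y) = 0
    · rw [sub_eq_zero.1 (nv_eq_zero h0)]
      simpa using m0 0
    have h3 := entry_le h2 h0
    have h4 := cg_lip h hk x y
    rw [← hc] at h4
    have h5 : ‖cg k Θ x - cg k Θ y‖ ≤ 2 :=
      (norm_sub_le _ _).trans (by rw [norm_cg, norm_cg]; norm_num)
    have h6 : (0 : ℝ) < nv (x - y) := by exact_mod_cast Nat.pos_of_ne_zero h0
    rw [norm_mul]
    simp only [m]
    split_ifs
    · rw [add_zero]
      refine pow_le_pow_left₀ (by positivity) ?_ 2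
      nlinarith [mul_le_mul_of_nonneg_right h4 (norm_nonneg (cP k x y))]
    · rw [zero_add, ← inv_pow]
      refine pow_le_pow_left₀ (by positivity) ?_ 2
      rw [← one_div, le_div_iff₀ h6, mul_assoc]
      nlinarith [mul_le_mul_of_nonneg_right h5 (mul_nonneg (norm_nonneg (cP k x y)) h6.le)]
  have e2 : ∀ x y : Cy k, ‖(diagonal (cg k Θ) * cP k - cP k * diagonal (cg k Θ)) x y‖ ^ 2 ≤
      (if nv x ≤ l then (1 : ℝ) else 0) * m (x - y) +
        (if nv y ≤ l then (1 : ℝ) else 0) * m (x - y) := fun x y => by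
    rw [Matrix.sub_apply, diagonal_mul, mul_diagonal, mul_comm (cP k x y), ← sub_mul]
    have h3 := e1 x y
    have h4 := m0 (x - y)
    split_ifs with hx hy hy
    · linarith
    · linarith
    · linarith
    · rw [cg_one h hx, cg_one h hy]; simp
  have e3 : ∑ x : Cy k, (if nv x ≤ l then (1 : ℝ) else 0) ≤ 4 * l := by
    simpa using sum_near_le (k := k) hl zero_le_one
  have e4 : ∀ x : Cy k, ∑ y, m (x - y) = ∑ d, m d := fun x => Equiv.sum_comp (Equiv.subLeft x) m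
  have e5 : ∀ y : Cy k, ∑ x, m (x - y) = ∑ d, m d := fun y => Equiv.sum_comp (Equiv.subRight y) m
  have e6 : hs (diagonal (cg k Θ) * cP k - cP k * diagonal (cg k Θ)) ≤
      2 * ((∑ x : Cy k, if nv x ≤ l then (1 : ℝ) else 0) * ∑ d, m d) := by
    refine (sum_le_sum fun x _ => sum_le_sum fun y _ => e2 x y).trans (le_of_eq ?_)
    simp only [sum_add_distrib]
    rw [sum_comm (f := fun x y : Cy k => (if nv y ≤ l then (1 : ℝ) else 0) * m (x - y))]
    simp only [← mul_sum, e4, e5, ← sum_mul]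
    ring
  have e7 := mul_le_mul e3 ms (sum_nonneg fun d _ => m0 d) (by positivity)
  have e8 : (4 : ℝ) * l * (4 * l * c ^ 2 + 4 / l) = 16 * (l * c) ^ 2 + 16 := by
    field_simp; ring
  linarith

theorem tail_le (h2 : CycStmt) {l k : ℕ} (hk : l ≤ k) (hl : 1 ≤ l) :
    ∑ x ∈ Finset.Icc (-l : ℤ) l, ‖cP k x x - ∑ y ∈ seg l, cP k x y * cP k y x‖ ≤ 12 := by
  have hl' : (1 : ℝ) ≤ l := by exact_mod_cast hl
  have e1 : ∀ x ∈ Finset.Icc (-l : ℤ) l,
      ‖cP k x x - ∑ y ∈ seg l, cP k x y * cP k y x‖ ≤ 4 / l := fun x hx => by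
    rw [mem_Icc] at hx
    have inj : Set.InjOn (fun y : ℤ => (y : Cy k)) (seg l) := fun y hy y' hy' e => by
      have h3 := mem_seg.1 hy
      have h4 := mem_seg.1 hy'
      have h5 := congrArg ZMod.valMinAbs e
      rwa [vma_cast (by omega) (by omega), vma_cast (by omega) (by omega)] at h5
    rw [← sum_image (f := fun y : Cy k => cP k x y * cP k y x) inj, ← sum_row h2,
      ← sum_compl_add_sum ((seg l).image fun y : ℤ => (y : Cy k)), add_sub_cancel_right]
    refine (norm_sum_le _ _).trans (le_trans ?_ (sum_far_le (k := k) hl))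
    rw [← Equiv.sum_comp (Equiv.subLeft (x : Cy k))]
    refine (sum_le_sum fun y hy => ?_).trans
      (sum_le_sum_of_subset_of_nonneg (subset_univ _) fun y _ _ => by split_ifs <;> positivity)
    rw [Equiv.subLeft_apply]
    have h3 : ¬ nv ((x : Cy k) - y) ≤ l := fun h3 => by
      refine mem_compl.1 hy (mem_image.2 ⟨x - ((x : Cy k) - y).valMinAbs, mem_seg.2 ?_, ?_⟩)
      · rw [nv] at h3; omega
      · rw [Int.cast_sub, ZMod.coe_valMinAbs, sub_sub_cancel]
    rw [if_neg h3, cP_conj h2 (x : Cy k) y, norm_mul, Complex.norm_conj, ← sq, ← inv_pow]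
    have h4 := entry_le h2 (x := (x : Cy k)) (y := y) (by omega)
    have h6 : (0 : ℝ) < nv ((x : Cy k) - y) := by exact_mod_cast (by omega : 0 < nv ((x : Cy k) - y))
    refine pow_le_pow_left₀ (norm_nonneg _) ?_ 2
    rw [← one_div, le_div_iff₀ h6]
    linarith
  refine (sum_le_card_nsmul _ _ _ e1).trans ?_
  rw [nsmul_eq_mul, Int.card_Icc,
    show (l + 1 - -l : ℤ) = ((2 * l + 1 : ℕ) : ℤ) by push_cast; ring, Int.toNat_natCast,
    ← mul_div_assoc, div_le_iff₀ (by linarith)]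
  push_cast
  linarith

theorem hs_one_add (h2 : CycStmt) {k : ℕ} (γ : Cy k → ℂ) :
    hs (1 + diagonal (fun x => γ x - 1) * cP k) - Fintype.card (Cy k) =
      ∑ x, (‖γ x‖ ^ 2 - 1) / 3 := by
  rw [hs, Fintype.card, Finset.card_eq_sum_ones, Nat.cast_sum, ← sum_sub_distrib]
  refine sum_congr rfl fun x _ => ?_
  have e1 : ∀ y, ‖(1 + diagonal (fun x => γ x - 1) * cP k : Matrix (Cy k) (Cy k) ℂ) x y‖ ^ 2 =
      (if x = y then 1 + 2 * ((γ x).re - 1) / 3 else 0) + ‖γ x - 1‖ ^ 2 * ‖cP k x y‖ ^ 2 :=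
    fun y => by
      rw [Matrix.add_apply, diagonal_mul, Matrix.one_apply]
      split_ifs with e
      · rw [← e, h2.diag, ← mul_pow, ← norm_mul, Complex.sq_norm, Complex.sq_norm,
          Complex.normSq_apply, Complex.normSq_apply]
        simp
        ring
      · rw [zero_add, zero_add, norm_mul, mul_pow]
  simp only [e1, sum_add_distrib, ← mul_sum, sum_row_sq h2, sum_ite_eq, mem_univ, if_true]
  rw [Complex.sq_norm, Complex.sq_norm, Complex.normSq_apply, Complex.normSq_apply]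
  simp
  ring

theorem det_le (h1 : ToolStmt) (h2 : CycStmt) {L C₁ n : ℝ} {l k : ℕ} {Θ : ℤ → ℝ}
    (h : Adm L C₁ n l Θ) (hk : l ≤ k) (hl : 1 ≤ l) (hn : 1 ≤ n) (hln : l ≤ 4 * L * n) :
    ‖(1 + diagonal (fun x => cg k Θ x - 1) * cP k).det‖ ≤
      2 * Real.exp (Real.exp (2 * C₁) * (16 * L * C₁ ^ 2)) / Real.sqrt n := by
  have hn0 : 0 < n := by linarith
  have hc0 : 0 ≤ C₁ / n := (abs_nonneg _).trans (h.lip 0)
  have hC : 0 ≤ C₁ := by
    have := mul_nonneg hc0 hn0.le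
    rwa [div_mul_cancel₀ _ hn0.ne'] at this
  have hs1 : 1 ≤ Real.sqrt n := Real.one_le_sqrt.2 hn
  have hs2 : Real.sqrt n ≤ n := Real.sqrt_le_self_iff.2 (Or.inr hn)
  let f : ℂ → ℂ := fun ε =>
    (1 + diagonal (fun x => cg k Θ x * exp (ε * (I * th Θ x)) - 1) * cP k).det *
      exp (-(ε * (2 * Real.pi * I / 3)))
  have fd : Differentiable ℂ f := by
    refine Differentiable.mul ?_ (by fun_prop)
    simp only [Matrix.det_apply', Matrix.add_apply, diagonal_mul]
    fun_prop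
  have sq_th : ∑ x : Cy k, th Θ x ^ 2 ≤ 4 * l * (C₁ / n) ^ 2 := by
    refine le_trans (sum_le_sum fun x _ => ?_) (sum_near_le hl (sq_nonneg _))
    split_ifs with hx
    · rw [← sq_abs]
      exact pow_le_pow_left₀ (abs_nonneg _) (h.lip _) 2
    · rw [th_zero h hx]; simp
  have fb : ∀ z, ‖z‖ = Real.sqrt n →
      ‖f z‖ ≤ Real.exp (Real.exp (2 * C₁) * (16 * L * C₁ ^ 2)) := fun z hz => by
    have him : |z.im| ≤ Real.sqrt n := hz ▸ Complex.abs_im_le_norm z
    have him2 : z.im ^ 2 ≤ n := by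
      rw [← sq_abs, ← Real.sq_sqrt hn0.le]
      exact pow_le_pow_left₀ (abs_nonneg _) him 2
    have e1 := h1.upper (Cy k)
      (1 + diagonal (fun x => cg k Θ x * exp (z * (I * th Θ x)) - 1) * cP k)
    rw [hs_one_add h2] at e1
    have e2 : ∀ x : Cy k, (‖cg k Θ x * exp (z * (I * th Θ x))‖ ^ 2 - 1) / 3 ≤
        -(2 * z.im / 3) * th Θ x + Real.exp (2 * C₁) * (4 * z.im ^ 2 / 3) * th Θ x ^ 2 :=
      fun x => by
        rw [norm_mul, norm_cg, one_mul, Complex.norm_exp, ← Real.exp_nat_mul]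
        have e3 : ((2 : ℕ) : ℝ) * (z * (I * th Θ x)).re = -(2 * z.im * th Θ x) := by
          simp; ring
        rw [e3]
        have e4 : |-(2 * z.im * th Θ x)| ≤ 2 * C₁ := by
          rw [abs_neg, abs_mul, abs_mul, abs_two]
          have e5 : |z.im| * |th Θ x| ≤ n * (C₁ / n) :=
            mul_le_mul (him.trans hs2) (h.lip _) (abs_nonneg _) hn0.le
          rw [mul_div_cancel₀ _ hn0.ne'] at e5
          linarith
        have := exp_le_quad e4
        linarith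
    have e3 := sum_le_sum fun x (_ : x ∈ (univ : Finset (Cy k))) => e2 x
    rw [sum_add_distrib, ← mul_sum, ← mul_sum, sum_th h hk] at e3
    have e4 : z.im ^ 2 * ∑ x : Cy k, th Θ x ^ 2 ≤ 16 * L * C₁ ^ 2 := by
      refine (mul_le_mul him2 sq_th (sum_nonneg fun x _ => sq_nonneg _) hn0.le).trans ?_
      have e5 : n * (4 * l * (C₁ / n) ^ 2) = 4 * (l / n) * C₁ ^ 2 := by field_simp
      have e6 : l / n ≤ 4 * L := by rwa [div_le_iff₀ hn0]
      rw [e5]
      nlinarith [sq_nonneg C₁]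
    have e5 : ‖exp (-(z * (2 * Real.pi * I / 3)))‖ ^ 2 = Real.exp (2 * z.im / 3 * (2 * Real.pi)) := by
      rw [Complex.norm_exp, ← Real.exp_nat_mul]
      congr 1
      simp
      ring
    have e7 : 0 ≤ z.im ^ 2 * ∑ x : Cy k, th Θ x ^ 2 :=
      mul_nonneg (sq_nonneg _) (sum_nonneg fun x _ => sq_nonneg _)
    refine le_of_sq_le_sq ?_ (Real.exp_pos _).le
    simp only [f]
    rw [norm_mul, mul_pow, e5, ← Real.exp_nat_mul]
    refine (mul_le_mul_of_nonneg_right e1 (Real.exp_pos _).le).trans ?_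
    rw [← Real.exp_add, Real.exp_le_exp]
    have e8 := mul_le_mul_of_nonneg_left e4 (Real.exp_pos (2 * C₁)).le
    have e9 := mul_nonneg (Real.exp_pos (2 * C₁)).le e7
    push_cast
    nlinarith
  have f0 : f 0 = (1 + diagonal (fun x => cg k Θ x - 1) * cP k).det := by simp [f]
  have f1 : f 1 = (1 + diagonal (fun x => cg k Θ x - 1) * cP k).det * tau⁻¹ := by
    simp only [f, one_mul, ← cg_succ h hk]
    rw [h2.shift, Complex.exp_neg, tau]
  have e1 := h1.schwarz f _ _ fd hs1 fb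
  rw [f0, f1, ← mul_sub_one, norm_mul] at e1
  have e2 : 1 ≤ ‖tau⁻¹ - 1‖ := by
    rw [Complex.inv_eq_conj norm_tau, norm_sub_rev]
    refine le_trans ?_ (Complex.re_le_norm _)
    rw [tau_eq]
    norm_num
  nlinarith [norm_nonneg (1 + diagonal (fun x => cg k Θ x - 1) * cP k).det]

end Soft

theorem soft (h1 : ToolStmt) (h2 : CycStmt) : SoftStmt := by
  intro L C₁ hL
  refine ⟨32 * (4 * L * C₁) ^ 2 + 32 + 2 * Real.exp (Real.exp (2 * C₁) * (16 * L * C₁ ^ 2)),
    fun n l Θ hn hl1 hl2 h k hk => ?_⟩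
  have hn0 : 0 < n := by linarith
  have hl : 1 ≤ l := by
    have : (1 : ℝ) ≤ l := le_trans (by nlinarith) hl1
    exact_mod_cast this
  have hc0 : 0 ≤ C₁ / n := (abs_nonneg _).trans (h.lip 0)
  have hE := Real.exp_pos (Real.exp (2 * C₁) * (16 * L * C₁ ^ 2))
  refine ⟨(Soft.hs_comm h2 h hk hl).trans ?_, (Soft.det_le h1 h2 h hk hl hn hl2).trans ?_,
    (Soft.tail_le h2 hk hl).trans ?_⟩
  · have e1 : l * (C₁ / n) ≤ 4 * L * C₁ := by
      refine (mul_le_mul_of_nonneg_right hl2 hc0).trans (le_of_eq ?_)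
      field_simp
    have e2 := pow_le_pow_left₀ (by positivity) e1 2
    linarith
  · refine div_le_div_of_nonneg_right ?_ (Real.sqrt_nonneg n)
    nlinarith [sq_nonneg (4 * L * C₁)]
  · nlinarith [sq_nonneg (4 * L * C₁)]

end Pool.Agent.Lib.MP_60c5b4_pr.H
end

-- part Pool.Agent.Lib.MP_60c5b4_pr.H.CoreDet
section

/-!
Assembly of the determinant bounds on a segment.
-/

namespace Pool.Agent.Lib.MP_60c5b4_pr.H

open Finset Matrix Complex Filter Topology
open scoped ComplexConjugate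

namespace CoreDet

section Abs

variable {ι J : Type} [Fintype ι] [Fintype J] {e : J → ι}

lemma sum1 {M : Type} [AddCommMonoid M] (he : Function.Injective e) (F : ι → M)
    (h : ∀ u, u ∉ Set.range e → F u = 0) : ∑ u, F u = ∑ x, F (e x) :=
  (Fintype.sum_of_injective e he _ F h fun _ => rfl).symm

lemma sum2 {M : Type} [AddCommMonoid M] (he : Function.Injective e) (F : ι → ι → M)
    (h : ∀ u v, u ∉ Set.range e ∨ v ∉ Set.range e → F u v = 0) :
    ∑ u, ∑ v, F u v = ∑ x, ∑ y, F (e x) (e y) := by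
  rw [sum1 he _ fun u hu => sum_eq_zero fun v _ => h u v (Or.inl hu)]
  exact sum_congr rfl fun x _ => sum1 he _ fun v hv => h _ v (Or.inr hv)

lemma sum_le (he : Function.Injective e) (F : ι → ℝ) (h : ∀ u, 0 ≤ F u) :
    ∑ x, F (e x) ≤ ∑ u, F u := by
  classical
  rw [← sum_image (s := univ) (g := e) (f := F) fun x _ y _ h => he h]
  exact sum_le_sum_of_subset_of_nonneg (subset_univ _) fun u _ _ => h u

omit [Fintype ι] [Fintype J] in
lemma exists_ext (he : Function.Injective e) (R : J → J → ℂ) : ∃ R' : ι → ι → ℂ,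
    (∀ x y, R' (e x) (e y) = R x y) ∧
      ∀ u v, u ∉ Set.range e ∨ v ∉ Set.range e → R' u v = 0 := by
  refine ⟨fun u v => Function.extend e (fun x => Function.extend e (R x) 0 v) 0 u,
    fun x y => by simp only [he.extend_apply], ?_⟩
  rintro u v h
  by_cases hu : u ∈ Set.range e
  · obtain ⟨x, rfl⟩ := hu
    simp only [he.extend_apply]
    exact Function.extend_apply' _ _ _ (h.resolve_left (by simp))
  · exact Function.extend_apply' _ _ _ hu

variable [DecidableEq ι] [DecidableEq J]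

lemma det_eq (he : Function.Injective e) (A : Matrix ι ι ℂ)
    (h : ∀ u v, u ∉ Set.range e → A u v = 0) : (1 + A).det = (1 + A.submatrix e e).det := by
  let E : Matrix ι J ℂ := Matrix.of fun u x => if u = e x then 1 else 0
  have h1 : A = E * A.submatrix e id := by
    ext u v
    by_cases hu : u ∈ Set.range e
    · obtain ⟨x, rfl⟩ := hu
      simp [E, mul_apply, he.eq_iff]
    · rw [h u v hu, mul_apply]
      exact (sum_eq_zero fun x _ => by
        simp only [E, of_apply]; rw [if_neg fun h' => hu ⟨x, h'.symm⟩, zero_mul]).symm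
  have h2 : A.submatrix e id * E = A.submatrix e e := by
    ext x y
    simp [E, mul_apply]
  rw [← h2, ← det_one_add_mul_comm, ← h1]

lemma hs_le (he : Function.Injective e) (A : Matrix ι ι ℂ)
    (h : ∀ u v, u ∉ Set.range e → A u v = 0) :
    hs (1 + A.submatrix e e) - Fintype.card J ≤ hs (1 + A) - Fintype.card ι := by
  have h1 : ∀ {κ : Type} [Fintype κ] (Y : Matrix κ κ ℂ),
      hs Y - Fintype.card κ = ∑ u, (∑ v, ‖Y u v‖ ^ 2 - 1) := fun Y => by
    simp [hs, sum_sub_distrib]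
  rw [h1, h1, sum1 he (fun u => ∑ v, ‖(1 + A) u v‖ ^ 2 - 1) fun u hu => by
    simp [h _ _ hu, one_apply, apply_ite norm]]
  refine sum_le_sum fun x _ => sub_le_sub_right (le_trans (le_of_eq ?_)
    (sum_le he (fun v => ‖(1 + A) (e x) v‖ ^ 2) fun _ => by positivity)) _
  exact sum_congr rfl fun y _ => by simp [one_apply, he.eq_iff]

omit [DecidableEq J] in
lemma trace_id (γ : J → ℂ) (P K : J → J → ℂ) :
    ∑ x, γ x * ((K x x - P x x) - 2 * ∑ y, (K x y - P x y) * P y x) =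
      ∑ x, γ x * ((K x x - ∑ y, K x y * K y x) - (P x x - ∑ y, P x y * P y x) +
        ∑ y, (K x y - P x y) * (K y x - P y x)) +
      ∑ x, ∑ y, (K x y - P x y) * (P y x * (γ y - γ x)) := by
  have h1 : ∑ x, ∑ y, (K x y - P x y) * (P y x * (γ y - γ x)) =
      ∑ x, ∑ y, γ x * ((K y x - P y x) * P x y - (K x y - P x y) * P y x) := by
    simp only [mul_sub (P _ _), mul_sub (K _ _ - _), mul_sub (γ _), sum_sub_distrib]
    rw [sum_comm]
    congr 1 <;> exact sum_congr rfl fun x _ => sum_congr rfl fun y _ => by ring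
  rw [h1, ← sum_add_distrib]
  refine sum_congr rfl fun x _ => ?_
  have h2 : ∑ y, (K x y - P x y) * (K y x - P y x) +
      ∑ y, ((K y x - P y x) * P x y - (K x y - P x y) * P y x) + ∑ y, P x y * P y x +
      2 * ∑ y, (K x y - P x y) * P y x = ∑ y, K x y * K y x := by
    rw [mul_sum, ← sum_add_distrib, ← sum_add_distrib, ← sum_add_distrib]
    exact sum_congr rfl fun y _ => by ring
  rw [← mul_sum]
  linear_combination (-γ x) * h2

omit [DecidableEq J] in
lemma trace_le (Γ : J → ℂ) (P K : J → J → ℂ) (hΓ : ∀ x, ‖Γ x‖ ≤ 2) :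
    ‖∑ x, ((Γ x).re : ℂ) * ((K x x - P x x) - 2 * ∑ y, (K x y - P x y) * P y x)‖ ≤
      ∑ x, ‖Γ x‖ * ‖K x x - ∑ y, K x y * K y x‖ + ∑ x, ‖Γ x‖ * ‖P x x - ∑ y, P x y * P y x‖ +
        3 * ∑ x, ∑ y, ‖K x y - P x y‖ ^ 2 + ∑ x, ∑ y, ‖(Γ x - Γ y) * P x y‖ ^ 2 := by
  rw [trace_id]
  have a1 : ∑ x, ∑ y, ‖K y x - P y x‖ ^ 2 = ∑ x, ∑ y, ‖K x y - P x y‖ ^ 2 := sum_comm
  have a2 : ∑ x, ∑ y, ‖(Γ y - Γ x) * P y x‖ ^ 2 = ∑ x, ∑ y, ‖(Γ x - Γ y) * P x y‖ ^ 2 := sum_comm
  have b1 : ∀ x, ‖((Γ x).re : ℂ) * ((K x x - ∑ y, K x y * K y x) - (P x x - ∑ y, P x y * P y x) +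
      ∑ y, (K x y - P x y) * (K y x - P y x))‖ ≤ ‖Γ x‖ * ‖K x x - ∑ y, K x y * K y x‖ +
        ‖Γ x‖ * ‖P x x - ∑ y, P x y * P y x‖ +
        (∑ y, ‖K x y - P x y‖ ^ 2 + ∑ y, ‖K y x - P y x‖ ^ 2) := fun x => by
    have c1 : 2 * ‖∑ y, (K x y - P x y) * (K y x - P y x)‖ ≤
        ∑ y, ‖K x y - P x y‖ ^ 2 + ∑ y, ‖K y x - P y x‖ ^ 2 := by
      rw [← sum_add_distrib]
      refine (mul_le_mul_of_nonneg_left (norm_sum_le _ _) zero_le_two).trans ?_
      rw [mul_sum]
      exact sum_le_sum fun y _ => by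
        rw [norm_mul]; nlinarith [sq_nonneg (‖K x y - P x y‖ - ‖K y x - P y x‖)]
    rw [norm_mul, norm_real]
    refine (mul_le_mul (abs_re_le_norm _) ((norm_add_le _ _).trans
      (add_le_add_left (norm_sub_le _ _) _)) (norm_nonneg _) (norm_nonneg _)).trans ?_
    nlinarith [mul_le_mul_of_nonneg_right (hΓ x)
      (norm_nonneg (∑ y, (K x y - P x y) * (K y x - P y x)))]
  have b2 : ∀ x y, ‖(K x y - P x y) * (P y x * (((Γ y).re : ℂ) - (Γ x).re))‖ ≤
      ‖K x y - P x y‖ ^ 2 + ‖(Γ y - Γ x) * P y x‖ ^ 2 := fun x y => by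
    have c1 : ‖P y x * (((Γ y).re : ℂ) - (Γ x).re)‖ ≤ ‖(Γ y - Γ x) * P y x‖ := by
      rw [norm_mul, norm_mul, mul_comm, ← ofReal_sub, norm_real, ← sub_re]
      exact mul_le_mul_of_nonneg_right (abs_re_le_norm _) (norm_nonneg _)
    rw [norm_mul]
    nlinarith [mul_le_mul_of_nonneg_left c1 (norm_nonneg (K x y - P x y)),
      sq_nonneg (‖K x y - P x y‖ - ‖(Γ y - Γ x) * P y x‖), sq_nonneg ‖K x y - P x y‖,
      sq_nonneg ‖(Γ y - Γ x) * P y x‖]
  have d1 := (norm_sum_le univ _).trans (sum_le_sum fun x _ => b1 x)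
  have d2 := (norm_sum_le univ _).trans (sum_le_sum fun x _ =>
    (norm_sum_le univ _).trans (sum_le_sum fun y _ => b2 x y))
  simp only [sum_add_distrib] at d1 d2
  refine (norm_add_le _ _).trans ?_
  linarith

omit [DecidableEq J] in
lemma bilin_le (a b : J → ℂ) (M : J → J → ℂ) {A B s : ℝ} (hA : 0 ≤ A) (hB : 0 ≤ B) (hs : 0 ≤ s)
    (ha : ∑ x, ‖a x‖ ^ 2 ≤ A ^ 2) (hb : ∑ x, ‖b x‖ ^ 2 ≤ B ^ 2)
    (hM : ∑ x, ∑ y, ‖M x y‖ ^ 2 ≤ s ^ 2) : ‖∑ x, ∑ y, a x * M x y * b y‖ ≤ A * B * s := by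
  have h1 : ‖∑ x, ∑ y, a x * M x y * b y‖ ≤ ∑ p : J × J, (‖a p.1‖ * ‖b p.2‖) * ‖M p.1 p.2‖ := by
    rw [Fintype.sum_prod_type]
    exact (norm_sum_le _ _).trans (sum_le_sum fun x _ => (norm_sum_le _ _).trans
      (sum_le_sum fun y _ => le_of_eq (by rw [norm_mul, norm_mul]; ring)))
  refine h1.trans (abs_le_of_sq_le_sq' ((sum_mul_sq_le_sq_mul_sq _ _ _).trans ?_)
    (by positivity)).2
  simp only [Fintype.sum_prod_type, mul_pow, ← sum_mul_sum]
  gcongr

omit [DecidableEq J] in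
lemma hs_add_le (M N : J → J → ℂ) : ∑ x, ∑ y, ‖M x y + N x y‖ ^ 2 ≤
    2 * ∑ x, ∑ y, ‖M x y‖ ^ 2 + 2 * ∑ x, ∑ y, ‖N x y‖ ^ 2 := by
  simp only [mul_sum, ← sum_add_distrib]
  refine sum_le_sum fun x _ => sum_le_sum fun y _ => ?_
  nlinarith [pow_le_pow_left₀ (norm_nonneg _) (norm_add_le (M x y) (N x y)) 2,
    sq_nonneg (‖M x y‖ - ‖N x y‖)]

/-- The perturbation supported on the image of `e`. -/
lemma exists_pert (he : Function.Injective e) (P : Matrix ι ι ℂ) (hP : Pᴴ = P) (g : ι → ℂ)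
    (hg : ∀ u, ‖g u‖ = 1) (hg1 : ∀ u, u ∉ Set.range e → g u = 1) (K : J → J → ℂ)
    (hd : ∀ x, (K x x - P (e x) (e x)).im = 0) : ∃ S : Matrix ι ι ℂ,
      (1 + diagonal (fun u => g u - 1) * P + S).det =
        (1 + Matrix.of fun x y => (g (e x) - 1) * K x y).det ∧
      hs (1 + Matrix.of fun x y => (g (e x) - 1) * K x y) - Fintype.card J ≤
        hs (1 + diagonal (fun u => g u - 1) * P + S) - Fintype.card ι ∧
      hs S ≤ 4 * ∑ x, ∑ y, ‖K x y - P (e x) (e y)‖ ^ 2 ∧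
      |((1 + diagonal (fun u => g u - 1) * P)ᴴ * S).trace.re| ≤
        ∑ x, ‖g (e x) - 1‖ * ‖K x x - ∑ y, K x y * K y x‖ +
        ∑ x, ‖g (e x) - 1‖ * ‖P (e x) (e x) - ∑ y, P (e x) (e y) * P (e y) (e x)‖ +
        3 * ∑ x, ∑ y, ‖K x y - P (e x) (e y)‖ ^ 2 + hs (diagonal g * P - P * diagonal g) ∧
      ∀ z y : ι → ℂ, star z ⬝ᵥ S *ᵥ y =
        ∑ x, ∑ x', conj (z (e x)) * (g (e x) - 1) * (K x x' - P (e x) (e x')) * y (e x') := by
  obtain ⟨R, h1, h2⟩ := exists_ext he fun x y => K x y - P (e x) (e y)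
  have hΓ : ∀ u, ‖g u - 1‖ ≤ 2 := fun u =>
    (norm_sub_le _ _).trans (by rw [hg, norm_one]; norm_num)
  let S : Matrix ι ι ℂ := Matrix.of fun u v => (g u - 1) * R u v
  have hS : ∀ u v, S u v = (g u - 1) * R u v := fun u v => rfl
  have a1 : ∀ u v, u ∉ Set.range e → (diagonal (fun u => g u - 1) * P + S) u v = 0 :=
    fun u v hu => by simp [hS, hg1 u hu]
  have a2 : (diagonal (fun u => g u - 1) * P + S).submatrix e e =
      Matrix.of fun x y => (g (e x) - 1) * K x y := by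
    ext x y
    simp only [submatrix_apply, Matrix.add_apply, diagonal_mul, hS, h1, of_apply]
    ring
  refine ⟨S, by rw [add_assoc, det_eq he _ a1, a2], by rw [add_assoc, ← a2]; exact hs_le he _ a1,
    ?_, ?_, fun z y => ?_⟩
  · rw [hs, sum2 he _ fun u v h => by simp [hS, h2 u v h]]
    simp only [mul_sum, hS, h1]
    refine sum_le_sum fun x _ => sum_le_sum fun y _ => ?_
    rw [norm_mul, mul_pow]
    exact mul_le_mul_of_nonneg_right (by nlinarith [hΓ (e x), norm_nonneg (g (e x) - 1)])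
      (sq_nonneg _)
  · have b1 : ((1 + diagonal (fun u => g u - 1) * P)ᴴ * S).trace =
        ∑ x, ((g (e x) - 1) * (K x x - P (e x) (e x)) -
          (g (e x) - 1).re * (2 * ∑ y, (K x y - P (e x) (e y)) * P (e y) (e x))) := by
      have c0 : ∀ X : Matrix ι ι ℂ, (Xᴴ * S).trace = ∑ u, ∑ v, star (X u v) * S u v := fun X => by
        rw [sum_comm]
        rfl
      rw [c0, sum2 he _ fun u v h => by simp [hS, h2 u v h]]
      refine sum_congr rfl fun x _ => ?_
      have c1 : ∀ u v, conj (P u v) = P v u := fun u v => congrFun (congrFun hP v) u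
      have c2 : conj (g (e x) - 1) * (g (e x) - 1) = -2 * (g (e x) - 1).re := by
        have c3 : conj (g (e x)) * g (e x) = 1 := by rw [conj_mul', hg]; simp
        rw [re_eq_add_conj, map_sub, map_one]
        linear_combination c3
      have c4 : ∀ y, star ((1 + diagonal (fun u => g u - 1) * P) (e x) (e y)) * S (e x) (e y) =
          (if x = y then (g (e x) - 1) * (K x y - P (e x) (e y)) else 0) -
            (g (e x) - 1).re * (2 * ((K x y - P (e x) (e y)) * P (e y) (e x))) := fun y => by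
        rw [Matrix.add_apply, diagonal_mul, hS, h1, star_add, star_mul', one_apply]
        simp only [he.eq_iff, RCLike.star_def, c1]
        split_ifs
        · rw [map_one]
          linear_combination (P (e y) (e x) * (K x y - P (e x) (e y))) * c2
        · rw [map_zero]
          linear_combination (P (e y) (e x) * (K x y - P (e x) (e y))) * c2
      simp only [c4, sum_sub_distrib, sum_ite_eq, mem_univ, if_true, mul_sum]
    have b2 := trace_le (fun x => g (e x) - 1) (fun x y => P (e x) (e y)) K fun x => hΓ _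
    have b3 : ∑ x, ∑ y, ‖(g (e x) - 1 - (g (e y) - 1)) * P (e x) (e y)‖ ^ 2 ≤
        hs (diagonal g * P - P * diagonal g) := by
      refine le_trans (sum_le_sum fun x _ => le_trans (le_of_eq ?_) (sum_le he
        (fun v => ‖(diagonal g * P - P * diagonal g) (e x) v‖ ^ 2) fun _ => by positivity))
        (sum_le he (fun u => ∑ v, ‖(diagonal g * P - P * diagonal g) u v‖ ^ 2)
          fun _ => by positivity)
      refine sum_congr rfl fun y _ => ?_
      rw [Matrix.sub_apply, diagonal_mul, mul_diagonal]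
      congr 2
      ring
    refine le_trans (le_of_eq ?_) ((abs_re_le_norm _).trans (b2.trans (by linarith)))
    rw [b1, re_sum, re_sum]
    congr 1
    refine sum_congr rfl fun x _ => ?_
    have c5 : ∀ Γ a b : ℂ, a.im = 0 → (Γ * a - Γ.re * b).re = (Γ.re * (a - b)).re :=
      fun Γ a b h => by simp [h, mul_sub]
    exact c5 _ _ _ (hd x)
  · simp only [dotProduct, mulVec, mul_sum]
    rw [sum2 he _ fun u v h => by simp [hS, h2 u v h]]
    refine sum_congr rfl fun x _ => sum_congr rfl fun x' _ => ?_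
    rw [hS, h1, Pi.star_apply, RCLike.star_def]
    ring

end Abs

lemma val_coe {k l : ℕ} (h : l ≤ k) {x : ℤ} (hx : x ∈ seg l) : (x : Cy k).valMinAbs = x := by
  rw [mem_seg] at hx
  refine (ZMod.valMinAbs_spec _ _).2 ⟨rfl, ?_, ?_⟩ <;> push_cast <;> omega

lemma exp_eq_one {L C₁ n : ℝ} {l : ℕ} {Θ : ℤ → ℝ} (h : Adm L C₁ n l Θ) {x : ℤ}
    (hx : x ∉ Icc (-l : ℤ) l) : exp (I * Θ x) = 1 := by
  rw [mem_Icc, not_and_or, not_le, not_le] at hx
  rcases hx with hx | hx
  · simp [h.left x hx.le]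
  · rw [h.right x hx.le, ← exp_two_pi_mul_I]
    congr 1
    push_cast
    ring

lemma Icc_sub (l : ℕ) : Icc (-l : ℤ) l ⊆ seg l := fun x hx => by
  rw [mem_Icc] at hx
  rw [mem_seg]
  omega

lemma weight_le {L C₁ n : ℝ} {l : ℕ} {Θ : ℤ → ℝ} (h : Adm L C₁ n l Θ) (t : ℤ → ℝ)
    (ht : ∀ x, 0 ≤ t x) :
    ∑ x ∈ seg l, ‖exp (I * Θ x) - 1‖ * t x ≤ 2 * ∑ x ∈ Icc (-l : ℤ) l, t x := by
  rw [← sum_subset (Icc_sub l) fun x _ hx => by simp [exp_eq_one h hx], mul_sum]
  refine sum_le_sum fun x _ => mul_le_mul_of_nonneg_right ((norm_sub_le _ _).trans ?_) (ht x)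
  rw [norm_exp_I_mul_ofReal, norm_one]
  norm_num

end CoreDet

open CoreDet in
theorem core (h1 : PertStmt) (h2 : CycStmt) (h3 : SoftStmt) (h4 : ModeStmt) : CoreStmt := by
  obtain ⟨L, hL, cm, hcm, Cm, h4⟩ := h4
  refine ⟨L, hL, fun C₁ => ?_⟩
  obtain ⟨n₀, h4⟩ := h4 C₁
  obtain ⟨Cs, h3⟩ := h3 L C₁ hL
  obtain ⟨cp, hcp, Cp, hCp, σp, hσp, h1⟩ := h1 (|Cm| + 2 * |C₁| + 3 * |Cs| + 3) cm hcm
  refine ⟨cp * cm, by positivity, 4 * cp * (|Cm| + 1) ^ 2 + Cp * (|Cs| + 18), by positivity,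
    min (σp / 6) (1 / 2), by positivity, max n₀ 1, ?_⟩
  intro n l Θ K σ hn hl hl' hA hσ0 hσ hK hKK
  have hn1 : 1 ≤ n := (le_max_right _ _).trans hn
  have hr : 0 < 1 / √n := by positivity
  set r := 1 / √n with hr'
  obtain ⟨η, hη0, hη1, hη2, hη3⟩ : ∃ η : ℝ, 0 < η ∧ η ≤ σp / 6 ∧ η ≤ 1 / 2 ∧ η ≤ r :=
    ⟨min (σp / 6) (min (1 / 2) r), by positivity, min_le_left _ _,
      (min_le_right _ _).trans (min_le_left _ _), (min_le_right _ _).trans (min_le_right _ _)⟩
  have hσ1 := hσ.trans (min_le_left _ _)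
  have hσ2 := hσ.trans (min_le_right _ _)
  have hlim : Tendsto (fun k : ℕ => ∑ x : seg l, ∑ y : seg l,
      ‖(sinK (x - y) : ℂ) - cP k (x : ℤ) (y : ℤ)‖ ^ 2) atTop (𝓝 0) := by
    have := tendsto_finsetSum (univ : Finset (seg l)) fun x _ =>
      tendsto_finsetSum (univ : Finset (seg l)) fun y _ =>
        (((h2.limit x y).const_sub (sinK (x - y) : ℂ)).norm.pow 2)
    simpa using this
  obtain ⟨k, ⟨Y, p, q, y, z, hY, b1, b2, b3, b4, b5, b6, b7, b8⟩, hk, hη⟩ :=
    ((h4 n l Θ ((le_max_left _ _).trans hn) hl hl' hA).and ((eventually_ge_atTop l).and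
      (hlim.eventually_le_const (pow_pos hη0 2)))).exists
  obtain ⟨s1, s2, s3⟩ := h3 n l Θ hn1 hl hl' hA k hk
  let e : seg l → Cy k := fun x => ((x : ℤ) : Cy k)
  have he : Function.Injective e := fun x y h => Subtype.ext (by
    rw [← val_coe hk x.2, ← val_coe hk y.2]; exact congrArg ZMod.valMinAbs h)
  have hg : ∀ x : seg l, cg k Θ (e x) = exp (I * Θ x) := fun x => by rw [cg, val_coe hk x.2]
  have hg0 : ∀ u, ‖cg k Θ u‖ = 1 := fun u => norm_exp_I_mul_ofReal _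
  obtain ⟨S, c1, c2, c3, c4, c5⟩ := exists_pert he (cP k) (h2.herm k) (cg k Θ) hg0
    (fun u hu => exp_eq_one hA fun h => hu ⟨⟨_, Icc_sub l h⟩, ZMod.coe_valMinAbs u⟩)
    (fun x y => (K x y : ℂ)) (fun x => by simp [h2.diag])
  simp only [hg] at c1 c2 c4 c5
  have hK' : ∑ x : seg l, ∑ y : seg l, ‖((K x y - sinK (x - y) : ℝ) : ℂ)‖ ^ 2 ≤ σ ^ 2 := by
    simpa only [norm_real, Real.norm_eq_abs, sq_abs, ← sum_coe_sort (seg l)] using hK
  have hR : ∑ x : seg l, ∑ y : seg l, ‖(K x y : ℂ) - cP k (e x) (e y)‖ ^ 2 ≤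
      2 * σ ^ 2 + 2 * η ^ 2 := by
    have := hs_add_le (fun x y : seg l => ((K x y - sinK (x - y) : ℝ) : ℂ))
      fun x y => (sinK (x - y) : ℂ) - cP k (e x) (e y)
    simp only [ofReal_sub, sub_add_sub_cancel] at this hK'
    linarith
  have t1 := weight_le hA (fun x => |K x x - ∑ y ∈ seg l, K x y * K y x|) fun _ => abs_nonneg _
  have t2 := weight_le hA (fun x => ‖cP k x x - ∑ y ∈ seg l, cP k x y * cP k y x‖)
    fun _ => norm_nonneg _
  have t3 : ∀ x : ℤ, ‖(K x x : ℂ) - ∑ y : seg l, (K x y : ℂ) * K y x‖ =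
      |K x x - ∑ y : seg l, K x y * K y x| := fun x => by
    rw [← Real.norm_eq_abs, ← norm_real]
    push_cast
    rfl
  simp only [← sum_coe_sort (seg l)] at t1 t2 hKK s3
  simp only [t3] at c4
  have a1 := le_abs_self Cm
  have a2 := le_abs_self C₁
  have a3 := le_abs_self Cs
  have a4 := abs_nonneg Cm
  have a5 := abs_nonneg C₁
  have a6 := abs_nonneg Cs
  have a7 : 2 * σ ^ 2 + 2 * η ^ 2 ≤ 1 := by nlinarith only [hσ0, hσ2, hη0, hη2]
  have a8 : Cm ≤ (|Cm| + 1) ^ 2 := by nlinarith only [a1, a4]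
  obtain ⟨p1, p2, p3⟩ := h1 (Cy k) (cP k) S _ Y (cg k Θ) p q y z (3 * (σ + η)) (h2.herm k)
    (h2.idem k) hg0 (by linarith) (by linarith) (by linarith) rfl hY b5 b6 b7 (by positivity)
    (by linarith) (by nlinarith only [mul_nonneg hσ0 hη0.le, c3, hR, sq_nonneg σ, sq_nonneg η])
    (by linarith)
  rw [c1] at p2 p3
  have s4 : ‖(1 + diagonal (fun x => cg k Θ x - 1) * cP k).det‖ ≤ |Cs| * r :=
    s2.trans (by rw [hr', mul_one_div]; gcongr)
  have q0 : 0 ≤ 4 * cp * (|Cm| + 1) ^ 2 := by positivity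
  refine ⟨(c2.trans p1).trans (by linarith only [q0, hCp, mul_nonneg hCp.le a6]), p2.trans ?_,
    fun κ σ' hσ' hκ hw => le_trans ?_ p3⟩
  · have : Cp * (|Cs| * r + 3 * (σ + r)) ≤ Cp * (|Cs| + 18) * (σ + r) := by
      rw [mul_assoc]
      exact mul_le_mul_of_nonneg_left (by linarith only [mul_nonneg a6 hσ0, hσ0, hr]) hCp.le
    refine le_trans (mul_le_mul_of_nonneg_left (by linarith) hCp.le) (this.trans ?_)
    exact mul_le_mul_of_nonneg_right (by linarith) (by positivity)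
  · have m1 := b8 κ hκ
    simp only [← sum_coe_sort (seg l)] at m1 hw
    have m2 := hs_add_le (fun x y : seg l => ((K x y - sinK (x - y) : ℝ) : ℂ) - wave κ x y)
      fun x y => (sinK (x - y) : ℂ) - cP k (e x) (e y)
    have m3 := bilin_le (fun x : seg l => conj (z (e x)) * (exp (I * Θ x) - 1)) (fun x => y (e x))
      (fun x y => ((K x y - sinK (x - y) : ℝ) : ℂ) - wave κ x y +
        ((sinK (x - y) : ℂ) - cP k (e x) (e y))) (A := 2 * (|Cm| + 1)) (B := |Cm| + 1)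
      (s := 2 * (σ' + η)) (by positivity) (by positivity) (by positivity)
      (by
        have d1 : ∑ x, ‖z (e x)‖ ^ 2 ≤ ns z := sum_le he (fun u => ‖z u‖ ^ 2) fun _ => sq_nonneg _
        have d2 : ∑ x : seg l, ‖conj (z (e x)) * (exp (I * Θ x) - 1)‖ ^ 2 ≤
            4 * ∑ x, ‖z (e x)‖ ^ 2 := by
          rw [mul_sum]
          refine sum_le_sum fun x _ => ?_
          have := norm_sub_le (exp (I * Θ x)) 1
          rw [norm_exp_I_mul_ofReal, norm_one] at this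
          rw [norm_mul, mul_pow, mul_comm, RCLike.norm_conj]
          exact mul_le_mul_of_nonneg_right
            (by nlinarith only [this, norm_nonneg (exp (I * Θ x) - 1)]) (sq_nonneg _)
        linarith only [d1, d2, b4, a8])
      ((sum_le he (fun u => ‖y u‖ ^ 2) fun _ => sq_nonneg _).trans (b3.trans a8))
      (by linarith only [mul_nonneg hσ' hη0.le, m2, hw, hη, sq_nonneg σ', sq_nonneg η])
    have m4 : ∑ x : seg l, ∑ x' : seg l, conj (z (e x)) * (exp (I * Θ x) - 1) * wave κ x x' *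
        y (e x') = star z ⬝ᵥ S *ᵥ y - ∑ x : seg l, ∑ x' : seg l,
          conj (z (e x)) * (exp (I * Θ x) - 1) * (((K x x' - sinK (x - x') : ℝ) : ℂ) -
            wave κ x x' + ((sinK (x - x') : ℂ) - cP k (e x) (e x'))) * y (e x') := by
      simp only [c5, ← sum_sub_distrib]
      exact sum_congr rfl fun x _ => sum_congr rfl fun x' _ => by push_cast; ring
    have m5 := (m1.trans_eq (congrArg norm m4)).trans (norm_sub_le _ _)
    have m6 : cp * (cm * n * ‖κ 0 1‖ - 4 * (|Cm| + 1) ^ 2 * (σ' + r)) ≤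
        cp * ‖star z ⬝ᵥ S *ᵥ y‖ := mul_le_mul_of_nonneg_left (by
      linarith only [m3, m5, mul_le_mul_of_nonneg_left hη3 (sq_nonneg (|Cm| + 1))]) hcp.le
    have m7 : Cp * (‖(1 + diagonal (fun x => cg k Θ x - 1) * cP k).det‖ + (3 * (σ + η)) ^ 2) ≤
        Cp * ((|Cs| + 18) * (σ' + σ ^ 2 + r)) := mul_le_mul_of_nonneg_left (by
      linarith only [sq_nonneg (σ - η), mul_nonneg a6 hσ', mul_nonneg a6 (sq_nonneg σ), s4, hσ',
        hη3, hη0, mul_le_mul_of_nonneg_left hη2 hη0.le]) hCp.le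
    linarith only [mul_nonneg q0 (sq_nonneg σ), m6, m7]

end Pool.Agent.Lib.MP_60c5b4_pr.H
end
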