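import Pool.Agent.Lib.MP_60c5b4_pr.H.Sign

-- part Pool.Agent.Lib.MP_60c5b4_pr.H.Tool
section

/-! Determinant bounds by eigenvalues and a Schwarz type estimate. -/

namespace Pool.Agent.Lib.MP_60c5b4_pr.H

open MeasureTheory Filter Topology Matrix Complex
open scoped ContDiff ComplexConjugate ComplexOrder

namespace Tool

variable {ι κ : Type} [Fintype ι] [Fintype κ]

lemma trace_eq_hs (Y : Matrix ι κ ℂ) : (Yᴴ * Y).trace = ((hs Y : ℝ) : ℂ) := by
  simp only [Matrix.trace, Matrix.diag_apply, Matrix.mul_apply, Matrix.conjTranspose_apply, hs]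
  rw [Finset.sum_comm]
  push_cast
  refine Finset.sum_congr rfl fun i _ => Finset.sum_congr rfl fun j _ => ?_
  rw [RCLike.star_def, Complex.conj_mul']

lemma dot_eq_ns (v : ι → ℂ) : star v ⬝ᵥ v = ((ns v : ℝ) : ℂ) := by
  simp only [dotProduct, ns, Pi.star_apply]
  push_cast
  refine Finset.sum_congr rfl fun i _ => ?_
  rw [RCLike.star_def, Complex.conj_mul']

lemma eig [DecidableEq ι] (Y : Matrix ι ι ℂ) : ∃ lam : ι → ℝ, (∀ i, 0 ≤ lam i) ∧
    ‖Y.det‖ ^ 2 = ∏ i, lam i ∧ ∑ i, lam i = hs Y ∧ ∑ i, (lam i - 1) ^ 2 = hs (Yᴴ * Y - 1) ∧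
    ∀ c : ℝ, (∀ v, c * ns v ≤ ns (Y *ᵥ v)) → ∀ i, c ≤ lam i := by
  have hP : (Yᴴ * Y).PosSemidef := Matrix.posSemidef_conjTranspose_mul_self Y
  have hA : (Yᴴ * Y).IsHermitian := hP.1
  refine ⟨hA.eigenvalues, hP.eigenvalues_nonneg, ?_, ?_, ?_, ?_⟩
  · have h := hA.det_eq_prod_eigenvalues
    rw [Matrix.det_mul, Matrix.det_conjTranspose, RCLike.star_def, Complex.conj_mul'] at h
    apply Complex.ofReal_injective
    push_cast
    exact h
  · have h := hA.trace_eq_sum_eigenvalues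
    rw [trace_eq_hs] at h
    apply Complex.ofReal_injective
    push_cast
    exact h.symm
  · set U : Matrix ι ι ℂ := (hA.eigenvectorUnitary : Matrix ι ι ℂ) with hU
    have u1 : star U * U = 1 := Unitary.coe_star_mul_self hA.eigenvectorUnitary
    have u2 : U * star U = 1 := Unitary.coe_mul_star_self hA.eigenvectorUnitary
    have h := hA.spectral_theorem
    rw [Unitary.conjStarAlgAut_apply, ← hU] at h
    set D : Matrix ι ι ℂ := diagonal (RCLike.ofReal ∘ hA.eigenvalues) with hD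
    have e1 : Yᴴ * Y - 1 = U * (D - 1) * star U := by
      rw [Matrix.mul_sub, Matrix.sub_mul, Matrix.mul_one, u2, ← h]
    have e2 : (Yᴴ * Y - 1)ᴴ = Yᴴ * Y - 1 := by
      rw [Matrix.conjTranspose_sub, hA.eq, Matrix.conjTranspose_one]
    have e3 := trace_eq_hs (Yᴴ * Y - 1)
    have e4 : U * (D - 1) * star U * (U * (D - 1) * star U) = U * ((D - 1) * (D - 1) * star U) := by
      calc _ = U * ((D - 1) * (star U * U) * (D - 1) * star U) := by simp only [Matrix.mul_assoc]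
        _ = _ := by rw [u1, Matrix.mul_one]
    rw [e2, e1, e4, Matrix.trace_mul_comm, Matrix.mul_assoc, u1, Matrix.mul_one, ← e1, hD,
      ← Matrix.diagonal_one, Matrix.diagonal_sub, Matrix.diagonal_mul_diagonal,
      Matrix.trace_diagonal, Matrix.diagonal_one] at e3
    apply Complex.ofReal_injective
    rw [← e3]
    push_cast
    refine Finset.sum_congr rfl fun i _ => ?_
    simp [sq]
  · intro c hc i
    let v : ι → ℂ := (hA.eigenvectorBasis i).ofLp
    have hv : ns v = 1 := by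
      have h1 := hA.eigenvectorBasis.orthonormal.1 i
      rw [EuclideanSpace.norm_eq, Real.sqrt_eq_one] at h1
      exact h1
    have h2 : (Yᴴ * Y) *ᵥ v = hA.eigenvalues i • v := hA.mulVec_eigenvectorBasis i
    have h3 : star v ⬝ᵥ ((Yᴴ * Y) *ᵥ v) = ((ns (Y *ᵥ v) : ℝ) : ℂ) := by
      rw [← dot_eq_ns, ← Matrix.mulVec_mulVec, Matrix.dotProduct_mulVec, Matrix.star_mulVec]
    rw [h2, dotProduct_smul, dot_eq_ns, hv] at h3
    have h4 : hA.eigenvalues i = ns (Y *ᵥ v) := by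
      apply Complex.ofReal_injective
      rw [← h3]; simp
    have := hc v
    rw [hv, mul_one] at this
    rw [h4]; exact this

lemma upper [DecidableEq ι] (Y : Matrix ι ι ℂ) :
    ‖Y.det‖ ^ 2 ≤ Real.exp (hs Y - Fintype.card ι) := by
  obtain ⟨lam, h0, h1, h2, -, -⟩ := eig Y
  have e : hs Y - Fintype.card ι = ∑ i, (lam i - 1) := by
    rw [Finset.sum_sub_distrib, h2]; simp
  rw [h1, e, Real.exp_sum]
  refine Finset.prod_le_prod (fun i _ => h0 i) fun i _ => ?_
  linarith [Real.add_one_le_exp (lam i - 1)]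

lemma lower [DecidableEq ι] (Y : Matrix ι ι ℂ) (c C : ℝ) (hc : 0 < c)
    (hv : ∀ v, c * ns v ≤ ns (Y *ᵥ v)) (h1 : hs (Yᴴ * Y - 1) ≤ C)
    (h2 : -C ≤ hs Y - Fintype.card ι) : Real.exp (-C - C / c) ≤ ‖Y.det‖ ^ 2 := by
  obtain ⟨lam, -, a1, a2, a3, a4⟩ := eig Y
  have hl := a4 c hv
  have e : hs Y - Fintype.card ι = ∑ i, (lam i - 1) := by
    rw [Finset.sum_sub_distrib, a2]; simp
  have key : ∀ i, Real.exp ((lam i - 1) - (lam i - 1) ^ 2 / c) ≤ lam i := by
    intro i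
    have hp : 0 < lam i := hc.trans_le (hl i)
    rw [← Real.le_log_iff_exp_le hp]
    have b1 := Real.one_sub_inv_le_log_of_pos hp
    have b2 : (lam i - 1) ^ 2 / lam i ≤ (lam i - 1) ^ 2 / c := by gcongr; exact hl i
    have b3 : 1 - (lam i)⁻¹ = (lam i - 1) - (lam i - 1) ^ 2 / lam i := by field_simp; ring
    linarith
  rw [a1]
  calc Real.exp (-C - C / c) ≤ Real.exp (∑ i, ((lam i - 1) - (lam i - 1) ^ 2 / c)) := by
        rw [Finset.sum_sub_distrib, ← Finset.sum_div, a3, ← e]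
        have : hs (Yᴴ * Y - 1) / c ≤ C / c := by gcongr
        exact Real.exp_le_exp.2 (by linarith)
    _ ≤ ∏ i, lam i := by
        rw [Real.exp_sum]
        exact Finset.prod_le_prod (fun i _ => (Real.exp_pos _).le) fun i _ => key i

lemma maxmod {f : ℂ → ℂ} {K ρ : ℝ} (hf : Differentiable ℂ f) (hρ : 0 < ρ)
    (h : ∀ z, ‖z‖ = ρ → ‖f z‖ ≤ K) {z : ℂ} (hz : ‖z‖ ≤ ρ) : ‖f z‖ ≤ K := by
  refine Complex.norm_le_of_forall_mem_frontier_norm_le (U := Metric.ball 0 ρ)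
    Metric.isBounded_ball hf.diffContOnCl (fun w hw => h w ?_) ?_
  · rw [frontier_ball _ hρ.ne'] at hw; simpa using hw
  · rw [closure_ball _ hρ.ne']; simpa using hz

lemma schwarz (f : ℂ → ℂ) (K ρ : ℝ) (hf : Differentiable ℂ f) (hρ : 1 ≤ ρ)
    (h : ∀ z, ‖z‖ = ρ → ‖f z‖ ≤ K) : ‖f 1 - f 0‖ ≤ 2 * K / ρ := by
  have hp : 0 < ρ := one_pos.trans_le hρ
  have h0 : ‖f 0‖ ≤ K := maxmod hf hp h (by simpa using hp.le)
  have hd : Differentiable ℂ (dslope f 0) := by
    rw [← differentiableOn_univ, Complex.differentiableOn_dslope univ_mem]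
    exact hf.differentiableOn
  have h1 : ∀ z, ‖z‖ = ρ → ‖dslope f 0 z‖ ≤ 2 * K / ρ := by
    intro z hz
    have hz0 : z ≠ 0 := by
      rintro rfl
      rw [norm_zero] at hz; exact hp.ne hz
    rw [dslope_of_ne _ hz0, slope_def_field, sub_zero, norm_div, hz]
    gcongr
    linarith [norm_sub_le (f z) (f 0), h z hz]
  have h2 := maxmod hd hp h1 (z := 1) (by simpa using hρ)
  rwa [dslope_of_ne _ one_ne_zero, slope_def_field, sub_zero, div_one] at h2

lemma hs_blocks (Y : Matrix ι ι ℂ) (U : Matrix ι κ ℂ) (U' : Matrix κ ι ℂ) (Y' : Matrix κ κ ℂ) :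
    hs (fromBlocks Y U U' Y') = hs Y + hs U + hs U' + hs Y' := by
  simp only [hs, Fintype.sum_sum_type, fromBlocks_apply₁₁, fromBlocks_apply₁₂, fromBlocks_apply₂₁,
    fromBlocks_apply₂₂, Finset.sum_add_distrib]
  ring

lemma hs_smul (c : ℂ) (U : Matrix ι κ ℂ) : hs (c • U) = ‖c‖ ^ 2 * hs U := by
  simp only [hs, Matrix.smul_apply, smul_eq_mul, norm_mul, mul_pow, Finset.mul_sum]

lemma block [DecidableEq ι] [DecidableEq κ]
    (Y : Matrix ι ι ℂ) (U : Matrix ι κ ℂ) (U' : Matrix κ ι ℂ) (Y' : Matrix κ κ ℂ) (t s : ℝ)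
    (h1 : hs Y - Fintype.card ι ≤ t) (h2 : hs Y' - Fintype.card κ ≤ t) (h3 : hs U + hs U' ≤ s)
    (hs0 : 0 < s) (hs1 : s ≤ 1) :
    ‖(fromBlocks Y U U' Y').det - Y.det * Y'.det‖ ≤ 2 * Real.exp (t + 1) * s := by
  let g : ℂ → ℂ := fun z => (fromBlocks Y (z • U) U' Y').det
  have hg : Differentiable ℂ g := by
    simp only [g, Matrix.det_apply']
    refine Differentiable.fun_sum fun σ _ => Differentiable.const_mul ?_ _
    refine Differentiable.fun_finsetProd fun i _ => ?_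
    rcases σ i with a | a <;> rcases i with b | b <;>
      simp only [fromBlocks_apply₁₁, fromBlocks_apply₁₂, fromBlocks_apply₂₁, fromBlocks_apply₂₂,
        Matrix.smul_apply, smul_eq_mul] <;> fun_prop
  have hb : ∀ z, ‖z‖ = 1 / s → ‖g z‖ ≤ Real.exp (t + 1) := by
    intro z hz
    obtain ⟨ε, rfl⟩ : ∃ ε : ℂ, ε ^ 2 = z := IsAlgClosed.exists_pow_nat_eq z two_pos
    have hε : ε ≠ 0 := by
      rintro rfl
      have : (0 : ℝ) < 1 / s := by positivity
      rw [← hz] at this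
      simp at this
    rw [norm_pow] at hz
    let D : Matrix (ι ⊕ κ) (ι ⊕ κ) ℂ := fromBlocks 1 0 0 (ε • 1)
    have hD : D.det ≠ 0 := by
      simp only [D]
      rw [Matrix.det_fromBlocks_zero₁₂, Matrix.det_smul, Matrix.det_one, Matrix.det_one]
      simp [hε]
    have e : D * fromBlocks Y (ε ^ 2 • U) U' Y' = fromBlocks Y (ε • U) (ε • U') Y' * D := by
      simp only [D, fromBlocks_multiply, Matrix.one_mul, Matrix.zero_mul, Matrix.mul_one,
        Matrix.mul_zero, add_zero, zero_add, Matrix.smul_mul, Matrix.mul_smul, smul_smul, sq,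
        smul_zero]
    have e2 : g (ε ^ 2) = (fromBlocks Y (ε • U) (ε • U') Y').det := by
      have := congrArg Matrix.det e
      rw [Matrix.det_mul, Matrix.det_mul, mul_comm] at this
      exact mul_right_cancel₀ hD this
    have h4 := upper (fromBlocks Y (ε • U) (ε • U') Y')
    rw [hs_blocks, hs_smul, hs_smul, hz, Fintype.card_sum, Nat.cast_add] at h4
    have h5 : 1 / s * hs U + 1 / s * hs U' ≤ 1 := by
      rw [← mul_add, one_div, inv_mul_le_iff₀ hs0]; linarith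
    rw [e2]
    refine (pow_le_pow_iff_left₀ (norm_nonneg _) (Real.exp_pos _).le two_ne_zero).1 ?_
    refine h4.trans ?_
    rw [← Real.exp_nat_mul]
    exact Real.exp_le_exp.2 (by push_cast; linarith)
  have h6 := schwarz g _ (1 / s) hg (by rw [le_div_iff₀ hs0]; linarith) hb
  have g1 : g 1 = (fromBlocks Y U U' Y').det := by simp only [g, one_smul]
  have g0 : g 0 = Y.det * Y'.det := by
    simp only [g, zero_smul]; exact Matrix.det_fromBlocks_zero₁₂ _ _ _
  rw [g1, g0] at h6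
  refine h6.trans (le_of_eq ?_)
  field_simp

end Tool

theorem tool : ToolStmt where
  upper := fun _ _ _ Y => Tool.upper Y
  lower := fun _ _ _ Y c C hc hv h1 h2 => Tool.lower Y c C hc hv h1 h2
  schwarz := Tool.schwarz
  block := fun _ _ _ _ _ _ Y U U' Y' t s h1 h2 h3 h4 h5 => Tool.block Y U U' Y' t s h1 h2 h3 h4 h5

end Pool.Agent.Lib.MP_60c5b4_pr.H
end

-- part Pool.Agent.Lib.MP_60c5b4_pr.H.Pert
section

/-!
Rank one perturbation of determinants.
-/

namespace Pool.Agent.Lib.MP_60c5b4_pr.H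

open Matrix
open scoped Matrix.Norms.Frobenius

namespace Pert

variable {ι κ : Type} [Fintype ι] [Fintype κ]

theorem hs_eq (A : Matrix ι κ ℂ) : hs A = ‖A‖ ^ 2 := by
  rw [frobenius_norm_def, ← Real.sqrt_eq_rpow, Real.sq_sqrt (by positivity), hs]
  simp only [Real.rpow_two]

theorem hs_trace (A : Matrix ι κ ℂ) : hs A = (Aᴴ * A).trace.re := by
  rw [hs, Finset.sum_comm, Matrix.trace, Complex.re_sum]
  refine Finset.sum_congr rfl fun j _ => ?_
  rw [diag_apply, Matrix.mul_apply, Complex.re_sum]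
  refine Finset.sum_congr rfl fun i _ => ?_
  rw [conjTranspose_apply, Complex.star_def, Complex.conj_mul', ← Complex.ofReal_pow,
    Complex.ofReal_re]

theorem hs_add (A B : Matrix ι κ ℂ) : hs (A + B) = hs A + 2 * (Aᴴ * B).trace.re + hs B := by
  have h : (Bᴴ * A).trace.re = (Aᴴ * B).trace.re := by
    have := trace_conjTranspose (Aᴴ * B)
    rw [conjTranspose_mul, conjTranspose_conjTranspose] at this
    rw [this, Complex.star_def, Complex.conj_re]
  simp only [hs_trace, conjTranspose_add, Matrix.add_mul, Matrix.mul_add, trace_add,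
    Complex.add_re, h]
  ring

theorem norm_le_of_hs {A : Matrix ι κ ℂ} {c : ℝ} (hc : 0 ≤ c) (h : hs A ≤ c ^ 2) : ‖A‖ ≤ c := by
  rw [hs_eq] at h
  exact (abs_le_of_sq_le_sq' h hc).2

variable [DecidableEq ι]

omit [DecidableEq ι] in
theorem norm_proj {Q : Matrix ι ι ℂ} (h1 : Qᴴ = Q) (h2 : Q * Q = Q) (B : Matrix ι κ ℂ) :
    ‖Q * B‖ ≤ ‖B‖ := by
  refine norm_le_of_hs (norm_nonneg _) ?_
  have h := hs_add (Q * B) (B - Q * B)
  have e : (Q * B)ᴴ * (B - Q * B) = 0 := by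
    rw [conjTranspose_mul, h1, Matrix.mul_sub, Matrix.mul_assoc, Matrix.mul_assoc,
      ← Matrix.mul_assoc Q Q, h2, sub_self]
  rw [e, add_sub_cancel, hs_eq B, hs_eq (B - Q * B)] at h
  simp only [trace_zero, Complex.zero_re] at h
  nlinarith [sq_nonneg ‖B - Q * B‖]

theorem norm_unit {G : Matrix ι ι ℂ} (h : Gᴴ * G = 1) (B : Matrix ι κ ℂ) : ‖G * B‖ ≤ ‖B‖ := by
  refine norm_le_of_hs (norm_nonneg _) ?_
  rw [← hs_eq, hs_trace, hs_trace, conjTranspose_mul, Matrix.mul_assoc, ← Matrix.mul_assoc Gᴴ, h,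
    Matrix.one_mul]

/-- A vector as a column matrix. -/
def cv (v : ι → ℂ) : Matrix ι Unit ℂ := replicateCol Unit v

omit [DecidableEq ι] in
theorem ns_eq (v : ι → ℂ) : ns v = ‖cv v‖ ^ 2 := by
  rw [← hs_eq]
  simp [hs, ns, cv]

omit [DecidableEq ι] in
theorem cv_mulVec (A : Matrix ι ι ℂ) (v : ι → ℂ) : cv (A *ᵥ v) = A * cv v :=
  replicateCol_mulVec A v

omit [Fintype ι] [DecidableEq ι] in
theorem vmv_eq (p q : ι → ℂ) : vecMulVec p (star q) = cv p * (cv q)ᴴ := by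
  rw [vecMulVec_eq Unit, cv, cv, conjTranspose_replicateCol]

omit [DecidableEq ι] in
theorem dot_le (z w : ι → ℂ) : ‖star z ⬝ᵥ w‖ ≤ ‖cv z‖ * ‖cv w‖ := by
  have h := frobenius_norm_mul (cv z)ᴴ (cv w)
  rw [frobenius_norm_conjTranspose] at h
  refine le_trans (abs_le_of_sq_le_sq' (le_of_eq ?_) (norm_nonneg _)).2 h
  rw [← hs_eq, hs, Fintype.sum_unique, Fintype.sum_unique]
  rfl

theorem mv_le (A : Matrix ι ι ℂ) (v : ι → ℂ) : ‖cv (A *ᵥ v)‖ ≤ ‖A‖ * ‖cv v‖ := by
  rw [cv_mulVec]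
  exact frobenius_norm_mul _ _

theorem det_sub (Z : Matrix ι ι ℂ) (p q y : ι → ℂ) (h : Z *ᵥ y = p) :
    (Z - vecMulVec p (star q)).det = Z.det * (1 - star q ⬝ᵥ y) := by
  have e : Z - vecMulVec p (star q) = Z * (1 - cv y * (cv q)ᴴ) := by
    rw [Matrix.mul_sub, Matrix.mul_one, ← Matrix.mul_assoc, ← cv_mulVec, h, vmv_eq]
  rw [e, det_mul, det_one_sub_mul_comm, det_unique (1 - (cv q)ᴴ * cv y)]
  rfl

omit [DecidableEq ι] in
theorem dot_adj (Y : Matrix ι ι ℂ) (z w : ι → ℂ) :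
    star (Yᴴ *ᵥ z) ⬝ᵥ w = star z ⬝ᵥ Y *ᵥ w := by
  rw [star_mulVec, conjTranspose_conjTranspose, dotProduct_mulVec]

/-- The properties of `X` that are used. -/
structure Nice (X : Matrix ι ι ℂ) (B : ℝ) : Prop where
  card : hs X = Fintype.card ι
  sq : ‖Xᴴ * X - 1‖ ≤ 2 * B
  adj : ∀ R : Matrix ι ι ℂ, ‖Xᴴ * R‖ ≤ 2 * ‖R‖
  adjv : ∀ v : ι → ℂ, ‖cv (Xᴴ *ᵥ v)‖ ≤ 2 * ‖cv v‖

theorem nice {P : Matrix ι ι ℂ} {g : ι → ℂ} {B : ℝ} (h1 : Pᴴ = P) (h2 : P * P = P)
    (hg : ∀ i, ‖g i‖ = 1) (hB : ‖diagonal g * P - P * diagonal g‖ ≤ B) :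
    Nice (1 + diagonal (fun i => g i - 1) * P) B := by
  have e : 1 + diagonal (fun i => g i - 1) * P = (1 - P) + diagonal g * P := by
    rw [← diagonal_sub, diagonal_one, Matrix.sub_mul, Matrix.one_mul]
    abel
  have hG : (diagonal g)ᴴ * diagonal g = 1 := by
    rw [diagonal_conjTranspose, diagonal_mul_diagonal, ← diagonal_one]
    congr 1
    funext i
    simp [Complex.conj_mul', hg]
  have hG' : (diagonal g)ᴴᴴ * (diagonal g)ᴴ = 1 := by
    rw [conjTranspose_conjTranspose]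
    exact mul_eq_one_comm.1 hG
  rw [e]
  generalize diagonal g = G at *
  have q1 : (1 - P)ᴴ = 1 - P := by rw [conjTranspose_sub, conjTranspose_one, h1]
  have q3 : (1 - P) * P = 0 := by rw [Matrix.sub_mul, Matrix.one_mul, h2, sub_self]
  have q4 : P * (1 - P) = 0 := by rw [Matrix.mul_sub, Matrix.mul_one, h2, sub_self]
  have q2 : (1 - P) * (1 - P) = 1 - P := by rw [Matrix.mul_sub, Matrix.mul_one, q3, sub_zero]
  have eH : ((1 - P) + G * P)ᴴ = (1 - P) + P * Gᴴ := by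
    rw [conjTranspose_add, q1, conjTranspose_mul, h1]
  have eX : ((1 - P) + G * P)ᴴ * ((1 - P) + G * P) =
      1 + ((1 - P) * (G * P) + ((1 - P) * (G * P))ᴴ) := by
    rw [eH, conjTranspose_mul, conjTranspose_mul, q1, h1, Matrix.add_mul, Matrix.mul_add,
      Matrix.mul_add, q2, Matrix.mul_assoc P Gᴴ (G * P), ← Matrix.mul_assoc Gᴴ, hG,
      Matrix.one_mul, h2]
    abel
  have hA : ‖(1 - P) * (G * P)‖ ≤ B := by
    have : (1 - P) * (G * P) = (1 - P) * (G * P - P * G) := by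
      rw [Matrix.mul_sub _ (G * P), ← Matrix.mul_assoc _ P G, q3, Matrix.zero_mul, sub_zero]
    rw [this]
    exact (norm_proj q1 q2 _).trans hB
  have ht : ((1 - P) * (G * P)).trace = 0 := by
    rw [← Matrix.mul_assoc, trace_mul_comm, ← Matrix.mul_assoc, q4, Matrix.zero_mul, trace_zero]
  have hm : ∀ (μ : Type) [Fintype μ] (R : Matrix ι μ ℂ), ‖((1 - P) + G * P)ᴴ * R‖ ≤ 2 * ‖R‖ := by
    intro μ _ R
    rw [eH, Matrix.add_mul, Matrix.mul_assoc]
    have a1 := norm_proj q1 q2 R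
    have a2 := (norm_proj h1 h2 (Gᴴ * R)).trans (norm_unit hG' R)
    linarith [norm_add_le ((1 - P) * R) (P * (Gᴴ * R))]
  refine ⟨?_, ?_, hm ι, fun v => by rw [cv_mulVec]; exact hm Unit _⟩
  · rw [hs_trace, eX, trace_add, trace_add, trace_conjTranspose, ht, trace_one]
    simp
  · rw [eX, add_sub_cancel_left]
    refine (norm_add_le _ _).trans ?_
    rw [frobenius_norm_conjTranspose]
    linarith

theorem det_bds (h : ToolStmt) {X R : Matrix ι ι ℂ} {B c : ℝ} (hX : Nice X B) (hB : 1 ≤ B)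
    (hR : ‖R‖ ≤ 2 * B) (ht : |(Xᴴ * R).trace.re| ≤ 3 * B ^ 2) (hc : 0 < c)
    (hl : ∀ v, c * ns v ≤ ns ((X + R) *ᵥ v)) :
    Real.exp ((-(196 * B ^ 4) - 196 * B ^ 4 / c) / 2) ≤ ‖(X + R).det‖ ∧
      ‖(X + R).det‖ ≤ Real.exp (196 * B ^ 4 / 2) := by
  have h1 := hs_add X R
  rw [hX.card, hs_eq R] at h1
  have hR2 : ‖R‖ ^ 2 ≤ (2 * B) ^ 2 := pow_le_pow_left₀ (norm_nonneg _) hR 2
  have b2 : B ≤ B ^ 2 := by nlinarith
  have b4 : B ^ 2 ≤ B ^ 4 := by nlinarith
  obtain ⟨t1, t2⟩ := abs_le.1 ht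
  have h2 : ‖(X + R)ᴴ * (X + R) - 1‖ ≤ 14 * B ^ 2 := by
    have e : (X + R)ᴴ * (X + R) - 1 = (Xᴴ * X - 1) + (Xᴴ * R + ((Xᴴ * R)ᴴ + Rᴴ * R)) := by
      rw [conjTranspose_add, conjTranspose_mul, conjTranspose_conjTranspose, Matrix.add_mul,
        Matrix.mul_add, Matrix.mul_add]
      abel
    have a1 := norm_add_le (Xᴴ * X - 1) (Xᴴ * R + ((Xᴴ * R)ᴴ + Rᴴ * R))
    have a2 := norm_add_le (Xᴴ * R) ((Xᴴ * R)ᴴ + Rᴴ * R)
    have a3 := norm_add_le (Xᴴ * R)ᴴ (Rᴴ * R)
    have a4 := frobenius_norm_mul Rᴴ R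
    rw [frobenius_norm_conjTranspose] at a3 a4
    have a5 := hX.adj R
    have a6 := hX.sq
    rw [e]
    nlinarith
  have h3 := h.lower ι (X + R) c (196 * B ^ 4) hc hl (by
    rw [hs_eq]
    exact (pow_le_pow_left₀ (norm_nonneg _) h2 2).trans (le_of_eq (by ring))) (by
    nlinarith [sq_nonneg ‖R‖])
  have h4 := (h.upper ι (X + R)).trans
    (Real.exp_le_exp.2 (show _ ≤ 196 * B ^ 4 by nlinarith))
  have ex : ∀ t : ℝ, Real.exp t = Real.exp (t / 2) ^ 2 := fun t => by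
    rw [sq, ← Real.exp_add, add_halves]
  rw [ex] at h3 h4
  exact ⟨(abs_le_of_sq_le_sq' h3 (norm_nonneg _)).2,
    (abs_le_of_sq_le_sq' h4 (Real.exp_pos _).le).2⟩

theorem exists_solve {Z : Matrix ι ι ℂ} (h : Z.det ≠ 0) (p : ι → ℂ) : ∃ y, Z *ᵥ y = p :=
  ⟨Z⁻¹ *ᵥ p, by rw [mulVec_mulVec, mul_nonsing_inv _ (isUnit_iff_ne_zero.2 h), one_mulVec]⟩

omit [Fintype ι] [DecidableEq ι] in
theorem cv_sub (v w : ι → ℂ) : cv (v - w) = cv v - cv w := rfl

end Pert

open Pert in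
theorem pert (h : ToolStmt) : PertStmt := by
  intro C₁ c₁ hc₁
  obtain ⟨B, hB, hCB⟩ : ∃ B : ℝ, 1 ≤ B ∧ C₁ ≤ B := ⟨max C₁ 1, le_max_right _ _, le_max_left _ _⟩
  obtain ⟨r, hr, rfl⟩ : ∃ r : ℝ, 0 < r ∧ c₁ = r ^ 2 :=
    ⟨√c₁, Real.sqrt_pos.2 hc₁, (Real.sq_sqrt hc₁.le).symm⟩
  obtain ⟨m, hm⟩ : ∃ m, m = Real.exp ((-(196 * B ^ 4) - 196 * B ^ 4 / (r / 2) ^ 2) / 2) :=
    ⟨_, rfl⟩
  obtain ⟨M, hM⟩ : ∃ M, M = Real.exp (196 * B ^ 4 / 2) := ⟨_, rfl⟩
  have m0 : 0 < m := hm ▸ Real.exp_pos _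
  have M0 : 0 < M := hM ▸ Real.exp_pos _
  have B0 : 0 < B := by linarith
  obtain ⟨D, hD⟩ : ∃ D, D = B / r := ⟨_, rfl⟩
  have D0 : 0 < D := hD ▸ div_pos B0 hr
  obtain ⟨C, C1, C2, C3, C4⟩ : ∃ C : ℝ, 2 * B + 1 ≤ C ∧ M / m ≤ C ∧ M * (2 * D * D) ≤ C ∧
      m * (2 * D * D / r) ≤ C := by
    have a1 : 0 ≤ M / m := by positivity
    have a2 : 0 ≤ M * (2 * D * D) := by positivity
    have a3 : 0 ≤ m * (2 * D * D / r) := by positivity
    exact ⟨2 * B + 1 + M / m + M * (2 * D * D) + m * (2 * D * D / r), by linarith, by linarith,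
      by linarith, by linarith⟩
  refine ⟨m, m0, C, by linarith, min (r / 2) 1, by positivity, ?_⟩
  intro ι _ _ P S X Y g p q y z σ h1 h2 hg hc hp hq hX hY hl hy hz σ0 hσ hS ht
  have σ1 := hσ.trans (min_le_left _ _)
  have σ2 := hσ.trans (min_le_right _ _)
  have b2 : C₁ ≤ B ^ 2 := by nlinarith
  have hN : Nice X B := hX ▸ nice h1 h2 hg (norm_le_of_hs B0.le (hc.trans b2))
  have nS : ‖S‖ ≤ σ := norm_le_of_hs σ0 hS
  rw [ns_eq] at hp hq
  have np : ‖cv p‖ ≤ B := (abs_le_of_sq_le_sq' (hp.trans b2) B0.le).2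
  have nq : ‖cv q‖ ≤ B := (abs_le_of_sq_le_sq' (hq.trans b2) B0.le).2
  have npq : ‖cv q‖ * ‖cv p‖ ≤ B := by nlinarith [sq_nonneg (‖cv q‖ - ‖cv p‖)]
  have nR : ‖vecMulVec p (star q)‖ ≤ B := by
    rw [vmv_eq]
    refine (frobenius_norm_mul _ _).trans ?_
    rwa [frobenius_norm_conjTranspose, mul_comm]
  have tR : |(Xᴴ * vecMulVec p (star q)).trace.re| ≤ 2 * B := by
    have e : (Xᴴ * vecMulVec p (star q)).trace = star q ⬝ᵥ Xᴴ *ᵥ p := by
      rw [mul_vecMulVec, trace_vecMulVec, dotProduct_comm]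
    rw [e]
    refine (Complex.abs_re_le_norm _).trans ((dot_le _ _).trans ?_)
    nlinarith [hN.adjv p, norm_nonneg (cv q)]
  have l1 : ∀ v, r * ‖cv v‖ ≤ ‖cv (Y *ᵥ v)‖ := fun v => by
    have := hl v
    rw [ns_eq, ns_eq, ← mul_pow] at this
    exact (abs_le_of_sq_le_sq' this (norm_nonneg _)).2
  have lS : ∀ v, ‖cv (S *ᵥ v)‖ ≤ σ * ‖cv v‖ := fun v =>
    (mv_le S v).trans (mul_le_mul_of_nonneg_right nS (norm_nonneg _))
  have l2 : ∀ v, r / 2 * ‖cv v‖ ≤ ‖cv ((Y + S) *ᵥ v)‖ := fun v => by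
    have e : cv (Y *ᵥ v) = cv ((Y + S) *ᵥ v) - cv (S *ᵥ v) := by
      rw [← cv_sub, add_mulVec, add_sub_cancel_right]
    have a1 := norm_sub_le (cv ((Y + S) *ᵥ v)) (cv (S *ᵥ v))
    rw [← e] at a1
    nlinarith [l1 v, lS v, norm_nonneg (cv v)]
  have sq : ∀ Z : Matrix ι ι ℂ, (∀ v, r / 2 * ‖cv v‖ ≤ ‖cv (Z *ᵥ v)‖) →
      ∀ v, (r / 2) ^ 2 * ns v ≤ ns (Z *ᵥ v) := fun Z hZ v => by
    rw [ns_eq, ns_eq, ← mul_pow]
    exact pow_le_pow_left₀ (by positivity) (hZ v) 2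
  have bb : B ≤ B ^ 2 := by nlinarith
  have d1 := det_bds h hN hB (R := vecMulVec p (star q)) (c := (r / 2) ^ 2) (by linarith)
    (by linarith) (by positivity)
    (hY ▸ sq Y fun v => by nlinarith [l1 v, norm_nonneg (cv v)])
  have eYS : X + (vecMulVec p (star q) + S) = Y + S := by rw [hY, add_assoc]
  have d2 := det_bds h hN hB (R := vecMulVec p (star q) + S) (c := (r / 2) ^ 2)
    ((norm_add_le _ _).trans (by linarith)) (by
      rw [Matrix.mul_add, trace_add, Complex.add_re]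
      exact (abs_add_le _ _).trans (by linarith)) (by positivity) (eYS ▸ sq _ l2)
  rw [← hY, ← hm, ← hM] at d1
  rw [eYS, ← hm, ← hM] at d2
  obtain ⟨y', hy'⟩ := exists_solve (norm_pos_iff.1 (m0.trans_le d2.1)) p
  obtain ⟨w, hw⟩ := exists_solve (norm_pos_iff.1 (m0.trans_le d1.1)) z
  have e1 : X.det = Y.det * (1 - star q ⬝ᵥ y) := by
    rw [← det_sub Y p q y hy, hY, add_sub_cancel_right]
  have e2 : (X + S).det = (Y + S).det * (1 - star q ⬝ᵥ y') := by
    rw [← det_sub (Y + S) p q y' hy', hY]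
    congr 1
    abel
  have e3 : Y *ᵥ (y - y') = S *ᵥ y' := by
    rw [mulVec_sub, hy, ← hy', add_mulVec, add_sub_cancel_left]
  have e4 : 1 - star q ⬝ᵥ y' = 1 - star q ⬝ᵥ y + star z ⬝ᵥ S *ᵥ y' := by
    rw [← e3, ← dot_adj, hz, dotProduct_sub]
    ring
  have e5 : star z ⬝ᵥ S *ᵥ y =
      (1 - star q ⬝ᵥ y') - (1 - star q ⬝ᵥ y) + star z ⬝ᵥ S *ᵥ (y - y') := by
    rw [e4, mulVec_sub, dotProduct_sub]
    ring
  have hBD : B = D * r := by rw [hD, div_mul_cancel₀ _ hr.ne']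
  have nz : ‖cv z‖ ≤ D := by
    have a1 : ‖star z ⬝ᵥ z‖ = ‖cv z‖ ^ 2 := by
      rw [← ns_eq, ns]
      simp only [dotProduct, Pi.star_apply, Complex.star_def, Complex.conj_mul',
        ← Complex.ofReal_pow, ← Complex.ofReal_sum, Complex.norm_real]
      exact Real.norm_of_nonneg (by positivity)
    have a2 : star z ⬝ᵥ z = star q ⬝ᵥ w := by rw [← hz, dot_adj, hw]
    have a3 := dot_le q w
    have a4 := l1 w
    rw [hw] at a4
    rw [← a2, a1] at a3
    have a5 : ‖cv z‖ * ‖cv z‖ ≤ D * ‖cv z‖ := by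
      have := mul_le_mul_of_nonneg_right nq (norm_nonneg (cv w))
      have := mul_le_mul_of_nonneg_left a4 D0.le
      nlinarith
    rcases (norm_nonneg (cv z)).eq_or_lt with h0 | h0
    · rw [← h0]; exact D0.le
    · exact le_of_mul_le_mul_right a5 h0
  have ny : ‖cv y'‖ ≤ 2 * D := by
    have := l2 y'
    rw [hy'] at this
    exact le_of_mul_le_mul_left (a := r / 2) (by nlinarith) (by positivity)
  have nSy : ‖cv (S *ᵥ y')‖ ≤ σ * (2 * D) := (lS _).trans (mul_le_mul_of_nonneg_left ny σ0)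
  have nd : ‖cv (y - y')‖ ≤ σ * (2 * D) / r := by
    have := l1 (y - y')
    rw [e3] at this
    rw [le_div_iff₀ hr]
    linarith
  have f1 : ‖star z ⬝ᵥ S *ᵥ y'‖ ≤ 2 * D * D * σ :=
    (dot_le _ _).trans ((mul_le_mul nz nSy (norm_nonneg _) D0.le).trans (le_of_eq (by ring)))
  have f2 : ‖star z ⬝ᵥ S *ᵥ (y - y')‖ ≤ 2 * D * D / r * σ ^ 2 :=
    (dot_le _ _).trans ((mul_le_mul nz ((lS _).trans (mul_le_mul_of_nonneg_left nd σ0))
      (norm_nonneg _) D0.le).trans (le_of_eq (by ring)))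
  have f3 : m * ‖1 - star q ⬝ᵥ y‖ ≤ ‖X.det‖ := by
    rw [e1, norm_mul]
    exact mul_le_mul_of_nonneg_right d1.1 (norm_nonneg _)
  have x0 := norm_nonneg X.det
  refine ⟨?_, ?_, ?_⟩
  · rw [hs_add, hN.card]
    have : σ ^ 2 ≤ 1 := pow_le_one₀ σ0 σ2
    linarith [(abs_le.1 ht).2]
  · have g1 : ‖1 - star q ⬝ᵥ y‖ ≤ ‖X.det‖ / m := by rw [le_div_iff₀ m0]; linarith
    have g2 : ‖1 - star q ⬝ᵥ y'‖ ≤ ‖X.det‖ / m + 2 * D * D * σ := by
      rw [e4]
      exact (norm_add_le _ _).trans (add_le_add g1 f1)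
    rw [e2, norm_mul]
    calc _ ≤ M * (‖X.det‖ / m + 2 * D * D * σ) := mul_le_mul d2.2 g2 (norm_nonneg _) M0.le
      _ = M / m * ‖X.det‖ + M * (2 * D * D) * σ := by ring
      _ ≤ C * ‖X.det‖ + C * σ :=
        add_le_add (mul_le_mul_of_nonneg_right C2 x0) (mul_le_mul_of_nonneg_right C3 σ0)
      _ = _ := by ring
  · have g1 : m * ‖1 - star q ⬝ᵥ y'‖ ≤ ‖(X + S).det‖ := by
      rw [e2, norm_mul]
      exact mul_le_mul_of_nonneg_right d2.1 (norm_nonneg _)
    have g2 : ‖star z ⬝ᵥ S *ᵥ y‖ ≤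
        ‖1 - star q ⬝ᵥ y'‖ + ‖1 - star q ⬝ᵥ y‖ + 2 * D * D / r * σ ^ 2 := by
      rw [e5]
      exact (norm_add_le _ _).trans (add_le_add (norm_sub_le _ _) f2)
    have g3 := mul_le_mul_of_nonneg_left g2 m0.le
    have g4 := mul_le_mul_of_nonneg_right C4 (sq_nonneg σ)
    have g5 : 1 * ‖X.det‖ ≤ C * ‖X.det‖ := mul_le_mul_of_nonneg_right (by linarith) x0
    linarith

end Pool.Agent.Lib.MP_60c5b4_pr.H
end

-- part Pool.Agent.Lib.MP_60c5b4_pr.H.Cyc
section

/-!
Exact Fourier algebra of the cyclic model.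
-/

namespace Pool.Agent.Lib.MP_60c5b4_pr.H

open Filter Topology Matrix Complex Finset
open scoped ComplexConjugate

namespace Cyc

variable {k : ℕ} {a : ℝ}

theorem chi_add (x y : Cy k) : chi (x + y) = chi x * chi y := AddChar.map_add_eq_mul _ x y

theorem chi_zero : chi (0 : Cy k) = 1 := AddChar.map_zero_eq_one _

theorem conj_chi (x : Cy k) : conj (chi x) = chi (-x) := (AddChar.map_neg_eq_conj _ x).symm

theorem norm_chi (x : Cy k) : ‖chi x‖ = 1 := AddChar.norm_apply _ x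

theorem chi_nat (n : ℕ) (x : Cy k) : chi ((n : Cy k) * x) = chi x ^ n := by
  rw [← nsmul_eq_mul]
  exact AddChar.map_nsmul_eq_pow _ n x

theorem chi_int (x : ℤ) : chi (x : Cy k) = exp (2 * Real.pi * I * x / (6 * k + 3)) := by
  rw [chi, ZMod.stdAddChar_coe]
  push_cast
  rfl

theorem chi_mul_conj (x : Cy k) : chi x * conj (chi x) = 1 := by
  rw [conj_chi, ← chi_add, add_neg_cancel, chi_zero]

theorem M_ne : (6 * k + 3 : ℂ) ≠ 0 := by exact_mod_cast (by omega : 6 * k + 3 ≠ 0)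

theorem orth (r : Cy k) : ∑ x, chi (r * x) = if r = 0 then (6 * k + 3 : ℂ) else 0 := by
  have h := AddChar.sum_mulShift r (ZMod.isPrimitive_stdAddChar (6 * k + 3))
  simp only [mul_comm r]
  refine h.trans ?_
  split_ifs <;> simp

theorem sum_val (F : ℕ → ℝ) : ∑ j : Cy k, F j.val = ∑ j ∈ range (6 * k + 3), F j :=
  Fin.sum_univ_eq_sum_range F (6 * k + 3)

theorem sum_valC (F : ℕ → ℂ) : ∑ j : Cy k, F j.val = ∑ j ∈ range (6 * k + 3), F j :=
  Fin.sum_univ_eq_sum_range F (6 * k + 3)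

/-- The middle third. -/
def mid (r : Cy k) : Prop := 2 * k + 1 ≤ r.val ∧ r.val < 4 * k + 2

instance : DecidablePred (mid (k := k)) := fun _ => inferInstanceAs (Decidable (_ ∧ _))

theorem cP_eq (x y : Cy k) :
    cP k x y = (∑ r, if mid r then chi (r * (x - y)) else 0) / (6 * k + 3) := by
  rw [cP, of_apply, ← sum_filter]
  congr 1
  have hv : ∀ i < 2 * k + 1, ((2 * k + 1 + i : ℕ) : Cy k).val = 2 * k + 1 + i := fun i hi =>
    ZMod.val_cast_of_lt (by omega)
  refine sum_nbij' (fun i => ((2 * k + 1 + i : ℕ) : Cy k)) (fun r => r.val - (2 * k + 1))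
    (fun i hi => ?_) (fun r hr => ?_) (fun i hi => ?_) (fun r hr => ?_) fun _ _ => rfl
  · have hi := mem_range.1 hi
    refine mem_filter.2 ⟨mem_univ _, ?_⟩
    rw [mid, hv i hi]
    omega
  · have := (mem_filter.1 hr).2
    exact mem_range.2 (by unfold mid at this; omega)
  · rw [hv i (mem_range.1 hi), Nat.add_sub_cancel_left]
  · rw [Nat.add_sub_cancel' (mem_filter.1 hr).2.1, ZMod.natCast_zmod_val]

/-- Fourier synthesis with frequencies `f j`. -/
noncomputable def syn (f : Cy k → Cy k) (c : Cy k → ℂ) (x : Cy k) : ℂ := ∑ j, c j * chi (f j * x)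

theorem pair_syn (f : Cy k → Cy k) (c : Cy k → ℂ) (r : Cy k) :
    ∑ x, conj (chi (r * x)) * syn f c x = (6 * k + 3) * ∑ j, if f j = r then c j else 0 := by
  simp only [syn, mul_sum]
  rw [sum_comm]
  refine sum_congr rfl fun j _ => ?_
  have h : ∀ x, conj (chi (r * x)) * (c j * chi (f j * x)) = c j * chi ((f j - r) * x) := fun x => by
    rw [conj_chi, sub_mul, sub_eq_add_neg, chi_add]
    ring
  simp only [h, ← mul_sum, orth, sub_eq_zero]
  split_ifs <;> ring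

theorem ns_syn {f : Cy k → Cy k} (hf : Function.Injective f) (c : Cy k → ℂ) :
    ns (syn f c) = (6 * k + 3) * ∑ j, ‖c j‖ ^ 2 := by
  have h : ∑ x, conj (syn f c x) * syn f c x = (6 * k + 3) * ∑ j, conj (c j) * c j := by
    have h1 : ∀ x, conj (syn f c x) * syn f c x =
        ∑ j, conj (c j) * (conj (chi (f j * x)) * syn f c x) := fun x => by
      conv_lhs => rw [syn, map_sum, sum_mul]
      simp only [map_mul, mul_assoc, syn]
    simp only [h1]
    rw [sum_comm]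
    simp only [← mul_sum, pair_syn, hf.eq_iff, sum_ite_eq', mem_univ, if_true]
    simp only [mul_sum, mul_left_comm]
  simp only [conj_mul'] at h
  rw [ns]
  exact_mod_cast h

theorem cP_syn (f : Cy k → Cy k) (c : Cy k → ℂ) :
    cP k *ᵥ syn f c = syn f fun j => if mid (f j) then c j else 0 := by
  funext x
  have h : ∀ y, cP k x y * syn f c y = ∑ r, (if mid r then chi (r * x) / (6 * k + 3) else 0) *
      (conj (chi (r * y)) * syn f c y) := fun y => by
    rw [cP_eq, sum_div, sum_mul]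
    refine sum_congr rfl fun r _ => ?_
    rw [conj_chi, mul_sub, sub_eq_add_neg, chi_add]
    split_ifs <;> ring
  simp only [mulVec, dotProduct, h]
  rw [sum_comm]
  simp only [← mul_sum, pair_syn]
  simp only [mul_sum]
  rw [sum_comm, syn]
  refine sum_congr rfl fun j _ => ?_
  have := M_ne (k := k)
  simp only [mul_ite, mul_zero, sum_ite_eq, mem_univ, if_true]
  split_ifs
  · field_simp
  · simp

theorem syn_sub (f : Cy k → Cy k) (c : Cy k → ℂ) :
    syn f c - cP k *ᵥ syn f c = syn f fun j => if ¬mid (f j) then c j else 0 := by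
  funext x
  rw [cP_syn, Pi.sub_apply, syn, syn, syn, ← sum_sub_distrib]
  refine sum_congr rfl fun j _ => ?_
  split_ifs <;> simp

theorem idem : cP k * cP k = cP k := by
  ext x y
  have h : (fun x => cP k x y) = syn id fun r => if mid r then chi (-(r * y)) / (6 * k + 3) else 0 :=
    funext fun x => by
      rw [cP_eq, sum_div, syn]
      refine sum_congr rfl fun r _ => ?_
      rw [mul_sub, sub_eq_add_neg, chi_add, id]
      split_ifs <;> ring
  have h2 := congrFun (cP_syn id fun r : Cy k =>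
    if mid r then chi (-(r * y)) / (6 * k + 3) else 0) x
  simp only [id, ← ite_and, and_self] at h2
  rw [← h] at h2
  exact h2

theorem geom (x y : Cy k) : (chi (x - y) - 1) * (6 * k + 3) * cP k x y =
    chi (x - y) ^ (2 * (2 * k + 1)) - chi (x - y) ^ (2 * k + 1) := by
  have := M_ne (k := k)
  simp only [cP, of_apply, chi_nat, pow_add _ (2 * k + 1), ← mul_sum]
  have h := mul_geom_sum (chi (x - y)) (2 * k + 1)
  field_simp
  linear_combination chi (x - y) ^ (2 * k + 1) * h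

theorem psi (s : Fin 2) (x : ℤ) : cψ k s (x : Cy k) = tau ^ (((s : ℕ) + 1 : ℤ) * x) := by
  rw [cψ, ← Int.cast_natCast, ← Int.cast_mul, chi_int, tau, ← exp_int_mul, div_eq_of_eq_mul M_ne]
  push_cast
  ring

theorem psi_mul (s : Fin 2) (x y : Cy k) :
    cψ k s x * conj (cψ k s y) = chi (x - y) ^ ((s + 1) * (2 * k + 1)) := by
  rw [cψ, cψ, conj_chi, ← chi_add, ← chi_nat, mul_sub, sub_eq_add_neg]

theorem entry (x y : Cy k) (h : x ≠ y) : ‖cP k x y‖ ≤ 1 / (2 * |((x - y).valMinAbs : ℝ)|) := by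
  have h1 := congrArg norm (geom x y)
  have h2 := norm_sub_le (chi (x - y) ^ (2 * (2 * k + 1))) (chi (x - y) ^ (2 * k + 1))
  rw [← h1, norm_pow, norm_pow, norm_chi, one_pow, one_pow, norm_mul, norm_mul,
    ← (x - y).coe_valMinAbs, chi_int] at h2
  have h3 := (x - y).valMinAbs_mem_Ioc
  have h4 : (x - y).valMinAbs ≠ 0 := fun h' => h (sub_eq_zero.1 ((ZMod.valMinAbs_eq_zero _).1 h'))
  generalize (x - y).valMinAbs = d at h2 h3 h4 ⊢
  have hM : (0 : ℝ) < 6 * k + 3 := by positivity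
  have hd : (0 : ℝ) < |(d : ℝ)| := abs_pos.2 (by exact_mod_cast h4)
  have h5 : |(d : ℝ)| * 2 ≤ 6 * k + 3 := by
    have : |d| * 2 ≤ 6 * k + 3 := by
      obtain ⟨h6, h7⟩ := h3
      push_cast at h6 h7
      rcases abs_cases d with h8 | h8 <;> omega
    exact_mod_cast this
  have e1 : (2 * Real.pi * I * d / (6 * k + 3) : ℂ) = I * (2 * (Real.pi * d / (6 * k + 3)) : ℝ) := by
    push_cast
    ring
  have e2 : ‖(6 * k + 3 : ℂ)‖ = 6 * k + 3 := by
    rw [← Real.norm_of_nonneg hM.le, ← norm_real]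
    push_cast
    rfl
  have e3 : |Real.pi * d / (6 * k + 3)| = Real.pi * |(d : ℝ)| / (6 * k + 3) := by
    rw [abs_div, abs_mul, abs_of_pos Real.pi_pos, abs_of_pos hM]
  have h6 := Real.mul_abs_le_abs_sin (x := Real.pi * d / (6 * k + 3)) (by
    rw [e3, div_le_div_iff₀ hM two_pos]
    nlinarith [Real.pi_pos])
  rw [e1, norm_exp_I_mul_ofReal_sub_one, e2, mul_div_cancel_left₀ _ two_ne_zero, norm_mul,
    Real.norm_two, Real.norm_eq_abs] at h2
  have e4 : 2 / Real.pi * (Real.pi * |(d : ℝ)| / (6 * k + 3)) * (6 * k + 3) = 2 * |(d : ℝ)| := by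
    have := Real.pi_pos
    field_simp
  rw [e3] at h6
  have h7 := mul_le_mul_of_nonneg_right h6 hM.le
  rw [e4] at h7
  rw [le_div_iff₀ (by positivity)]
  nlinarith [mul_le_mul_of_nonneg_right h7 (norm_nonneg (cP k x y))]

theorem diag (x : Cy k) : cP k x x = 1 / 3 := by
  simp only [cP, of_apply, sub_self, mul_zero, chi_zero, sum_const, card_range, nsmul_eq_mul]
  rw [div_eq_iff M_ne]
  push_cast
  ring

theorem limit (x y : ℤ) : Tendsto (fun k : ℕ => cP k x y) atTop (𝓝 (sinK (x - y))) := by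
  by_cases h : x - y = 0
  · simp [sinK, diag, sub_eq_zero.1 h]
  have hd : ((x - y : ℤ) : ℂ) ≠ 0 := by exact_mod_cast h
  have hπ : (Real.pi : ℂ) ≠ 0 := by exact_mod_cast Real.pi_ne_zero
  have h0 : Tendsto (fun k : ℕ => (6 * k + 3 : ℂ)⁻¹) atTop (𝓝[≠] 0) := by
    refine tendsto_nhdsWithin_iff.2 ⟨?_, Eventually.of_forall fun k => inv_ne_zero M_ne⟩
    have := (tendsto_inv_atTop_nhds_zero_nat (𝕜 := ℂ)).comp
      (tendsto_atTop_mono (f := id) (g := fun k : ℕ => 6 * k + 3) (fun k => by simp; omega)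
        tendsto_id)
    simpa [Function.comp_def] using this
  have h1 := (((hasDerivAt_id (0 : ℂ)).const_mul
    (2 * Real.pi * I * (x - y : ℤ))).cexp.tendsto_slope_zero).comp h0
  have h2 : ∀ k : ℕ, (exp (2 * Real.pi * I * (x - y : ℤ) / (6 * k + 3)) - 1) * (6 * k + 3) *
      cP k x y = -2 * I * Real.sin (2 * Real.pi * (x - y : ℤ) / 3) := fun k => by
    have e0 := psi_mul (k := k) 0 x y
    have e1 := psi_mul (k := k) 1 x y
    simp only [psi, conj_tau_zpow, ← zpow_add₀ tau_ne_zero, Fin.val_zero, Fin.val_one, zero_add,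
      one_mul, Nat.reduceAdd] at e0 e1
    rw [← chi_int, Int.cast_sub, geom, ← e0, ← e1,
      tau_zpow_eq (y := -(x - y)) ⟨x - y, by push_cast; ring⟩,
      tau_zpow_eq (x := _ + _) (y := x - y) ⟨0, by push_cast; ring⟩, tau, ← exp_int_mul,
      ← exp_int_mul, ofReal_sin, Complex.sin]
    push_cast
    rw [show -((x : ℂ) - y) * (2 * Real.pi * I / 3) = -(2 * Real.pi * (x - y) / 3) * I by ring,
      show ((x : ℂ) - y) * (2 * Real.pi * I / 3) = 2 * Real.pi * (x - y) / 3 * I by ring]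
    linear_combination (exp (-(2 * Real.pi * ((x : ℂ) - y) / 3) * I) -
      exp (2 * Real.pi * ((x : ℂ) - y) / 3 * I)) * I_mul_I
  have hL : (2 * Real.pi * I * (x - y : ℤ) : ℂ) ≠ 0 := mul_ne_zero two_pi_I_ne_zero hd
  have h3 : Tendsto (fun k : ℕ => (exp (2 * Real.pi * I * (x - y : ℤ) / (6 * k + 3)) - 1) *
      (6 * k + 3)) atTop (𝓝 (2 * Real.pi * I * (x - y : ℤ))) := by
    simpa [Function.comp_def, div_eq_mul_inv, mul_comm] using h1
  have h4 := (tendsto_const_nhds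
    (x := (-2 * I * Real.sin (2 * Real.pi * (x - y : ℤ) / 3) : ℂ))).div h3 hL
  have e : ((sinK (x - y) : ℝ) : ℂ) = -2 * I * Real.sin (2 * Real.pi * (x - y : ℤ) / 3) /
      (2 * Real.pi * I * (x - y : ℤ)) := by
    rw [sinK, if_neg h, ofReal_div, ofReal_neg, ofReal_mul, ofReal_intCast]
    field_simp
  rw [e]
  refine h4.congr' ?_
  filter_upwards [h3.eventually_ne hL] with k hk
  rw [Pi.div_apply, ← h2 k, mul_div_cancel_left₀ _ hk]

theorem den_ne (h0 : 0 < a) (h1 : a < 1) (x : Cy k) : (1 - a * chi x : ℂ) ≠ 0 := fun h => by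
  have h2 := congrArg norm (sub_eq_zero.1 h)
  rw [norm_one, norm_mul, norm_chi, norm_real, Real.norm_of_nonneg h0.le] at h2
  linarith

theorem pow_lt (h0 : 0 < a) (h1 : a < 1) : 0 < 1 - a ^ (6 * k + 3) :=
  sub_pos.2 (pow_lt_one₀ h0.le h1 (by omega))

theorem kap_sq (h0 : 0 < a) (h1 : a < 1) : cκ k a ^ 2 = (1 - a ^ 2) / (6 * k + 3) :=
  Real.sq_sqrt (div_nonneg (by nlinarith) (by positivity))

/-- The common coefficients. -/
noncomputable def co (k : ℕ) (a : ℝ) (j : Cy k) : ℂ :=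
  (cκ k a * a ^ j.val / (1 - a ^ (6 * k + 3)) : ℝ)

theorem norm_co (h0 : 0 < a) (h1 : a < 1) (j : Cy k) :
    ‖co k a j‖ = cκ k a * a ^ j.val / (1 - a ^ (6 * k + 3)) := by
  rw [co, norm_real]
  exact Real.norm_of_nonneg (div_nonneg (mul_nonneg (Real.sqrt_nonneg _) (by positivity))
    (pow_lt h0 h1).le)

theorem expand (h0 : 0 < a) (h1 : a < 1) (x : Cy k) :
    cκ k a / (1 - a * chi x) = ∑ j, co k a j * chi (j * x) := by
  have h2 : ∀ j : Cy k, co k a j * chi (j * x) =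
      cκ k a / (1 - a ^ (6 * k + 3)) * (a * chi x) ^ j.val := fun j => by
    rw [mul_pow, ← chi_nat, ZMod.natCast_zmod_val, co]
    push_cast
    ring
  have h3 := mul_neg_geom_sum (a * chi x) (6 * k + 3)
  rw [mul_pow, ← chi_nat, ZMod.natCast_self, zero_mul, chi_zero, mul_one] at h3
  have h4 : (1 - (a : ℂ) ^ (6 * k + 3)) ≠ 0 := by exact_mod_cast (pow_lt h0 h1).ne'
  have h5 := den_ne h0 h1 x
  simp only [h2, ← mul_sum]
  rw [sum_valC fun n => (a * chi x) ^ n]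
  field_simp
  rw [mul_assoc, h3]

/-- The frequencies at the ends of the middle third. -/
def fr (k : ℕ) (s : Fin 2) : Cy k := (((s : ℕ) + 1) * (2 * k + 1) : ℕ)

theorem cp_eq (h0 : 0 < a) (h1 : a < 1) (s : Fin 2) :
    cp k a s = syn (fun j => fr k s + j) (co k a) := funext fun x => by
  rw [cp, mul_div_right_comm, expand h0 h1, sum_mul, syn]
  exact sum_congr rfl fun j _ => by rw [add_mul, chi_add, cψ, fr]; ring

theorem cq_eq (h0 : 0 < a) (h1 : a < 1) (s : Fin 2) :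
    cq k a s = syn (fun j => fr k s - 1 - j) (co k a) := funext fun x => by
  rw [cq, conj_chi, mul_assoc, mul_div_right_comm, expand h0 h1, sum_mul, syn]
  refine sum_congr rfl fun j _ => ?_
  rw [cψ, mul_assoc, ← chi_add, ← chi_add, fr]
  congr 2
  ring

theorem inj_p (r : Cy k) : Function.Injective fun j => r + j := add_right_injective r

theorem inj_q (r : Cy k) : Function.Injective fun j => r - 1 - j := sub_right_injective

theorem ns_co (h0 : 0 < a) (h1 : a < 1) {f : Cy k → Cy k} (hf : Function.Injective f) :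
    ns (syn f (co k a)) = (1 + a ^ (6 * k + 3)) / (1 - a ^ (6 * k + 3)) := by
  have h2 := mul_neg_geom_sum (a ^ 2) (6 * k + 3)
  have h3 := (pow_lt (k := k) h0 h1).ne'
  simp only [ns_syn hf, norm_co h0 h1, div_pow, mul_pow, kap_sq h0 h1, ← sum_div, ← mul_sum,
    pow_right_comm a _ 2]
  rw [sum_val fun n => (a ^ 2) ^ n]
  field_simp
  rw [h2]
  ring

theorem ns_tail (h0 : 0 < a) (h1 : a < 1) {f : Cy k → Cy k} (hf : Function.Injective f)
    {T : Cy k → Prop} [DecidablePred T] (hT : ∀ j, j.val < 2 * k + 1 → ¬T j) :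
    ns (syn f fun j => if T j then co k a j else 0) ≤
      (a ^ (2 * k + 1) / (1 - a ^ (6 * k + 3))) ^ 2 := by
  have h2 := mul_neg_geom_sum (a ^ 2) (6 * k + 3)
  have h3 := mul_neg_geom_sum (a ^ 2) (2 * k + 1)
  have h4 := pow_lt (k := k) h0 h1
  have h5 : 0 < 1 - a ^ 2 := by nlinarith
  have h6 : ∑ j : Cy k, ‖if T j then co k a j else 0‖ ^ 2 ≤
      (1 - a ^ 2) / (6 * k + 3) / (1 - a ^ (6 * k + 3)) ^ 2 *
        ∑ j : Cy k, if j.val < 2 * k + 1 then 0 else (a ^ 2) ^ j.val := by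
    rw [mul_sum]
    refine sum_le_sum fun j _ => ?_
    split_ifs with h h' h'
    · exact absurd h (hT j h')
    · rw [norm_co h0 h1, div_pow, mul_pow, kap_sq h0 h1, pow_right_comm]
      exact le_of_eq (by ring)
    · simp
    · rw [norm_zero, zero_pow two_ne_zero]
      positivity
  have h7 : ∑ j : Cy k, (if j.val < 2 * k + 1 then 0 else (a ^ 2) ^ j.val) =
      ∑ j ∈ range (6 * k + 3), (a ^ 2) ^ j - ∑ j ∈ range (2 * k + 1), (a ^ 2) ^ j := by
    rw [sum_val fun n => if n < 2 * k + 1 then 0 else (a ^ 2) ^ n, ← sum_Ico_eq_sub _ (by omega),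
      ← sum_range_add_sum_Ico _ (show 2 * k + 1 ≤ 6 * k + 3 by omega),
      sum_eq_zero fun j hj => if_pos (mem_range.1 hj), zero_add]
    exact sum_congr rfl fun j hj => if_neg (not_lt.2 (mem_Ico.1 hj).1)
  rw [ns_syn hf]
  refine (mul_le_mul_of_nonneg_left h6 (by positivity)).trans ?_
  rw [h7, div_pow, pow_right_comm, le_div_iff₀ (by positivity)]
  field_simp
  rw [mul_sub, h2, h3]
  linarith [pow_pos (pow_pos h0 2) (6 * k + 3)]

theorem val_fr (s : Fin 2) : (fr k s).val = (s + 1) * (2 * k + 1) :=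
  ZMod.val_cast_of_lt (by fin_cases s <;> simp <;> omega)

theorem val_p (s : Fin 2) {j : Cy k} (hj : j.val < 2 * k + 1) :
    (fr k s + j).val = (s + 1) * (2 * k + 1) + j.val := by
  rw [ZMod.val_add_of_lt, val_fr]
  rw [val_fr]
  fin_cases s <;> simp <;> omega

theorem val_q (s : Fin 2) {j : Cy k} (hj : j.val < 2 * k + 1) :
    (fr k s - 1 - j).val + 1 + j.val = (s + 1) * (2 * k + 1) := by
  obtain ⟨t, ht⟩ : ∃ t, (s + 1) * (2 * k + 1) = t + 1 + j.val :=
    ⟨(s + 1) * (2 * k + 1) - 1 - j.val, by fin_cases s <;> simp <;> omega⟩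
  have h : fr k s - 1 - j = t := by
    rw [fr, ht]
    push_cast
    rw [ZMod.natCast_zmod_val]
    ring
  rw [h, ZMod.val_cast_of_lt, ht]
  fin_cases s <;> simp at ht <;> omega

theorem osc (h0 : 0 < a) (h1 : a < 1) {f : Cy k → Cy k} (hf : Function.Injective f) {r : Cy k}
    (hr : ∀ j, j.val < 2 * k → f j ≠ r) : ‖∑ x, conj (chi (r * x)) * syn f (co k a) x‖ ≤
      cκ k a * (6 * k + 3) * a ^ (2 * k) / (1 - a ^ (6 * k + 3)) := by
  have h2 := pow_lt (k := k) h0 h1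
  have h3 : 0 ≤ cκ k a := Real.sqrt_nonneg _
  have e2 : ‖(6 * k + 3 : ℂ)‖ = 6 * k + 3 := by exact_mod_cast norm_natCast (6 * k + 3)
  rw [pair_syn, norm_mul, e2]
  by_cases h : ∃ j, f j = r
  · obtain ⟨j, rfl⟩ := h
    simp only [hf.eq_iff, sum_ite_eq', mem_univ, if_true, norm_co h0 h1]
    rw [← mul_div_assoc, ← mul_assoc, mul_comm _ (cκ k a)]
    gcongr ?_ / _
    exact mul_le_mul_of_nonneg_left (pow_le_pow_of_le_one h0.le h1.le
      (not_lt.1 fun h => hr j h rfl)) (by positivity)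
  · rw [sum_eq_zero fun j _ => if_neg fun h' => h ⟨j, h'⟩, norm_zero, mul_zero]
    positivity

end Cyc

open Cyc in
theorem cyc : CycStmt where
  herm k := by
    ext x y
    simp only [conjTranspose_apply, cP, of_apply, star_def, map_div₀, map_sum, conj_chi, ← mul_neg,
      neg_sub, map_add, map_mul, map_natCast, map_ofNat]
  idem _ := idem
  diag _ := diag
  entry _ := entry
  limit := limit
  shift k h := by
    rw [← det_submatrix_equiv_self (Equiv.addRight 1) (1 + diagonal (fun x => h x - 1) * cP k)]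
    congr 1
    ext x y
    simp [cP, one_apply]
  psi _ := psi
  comm k a h0 h1 := by
    ext x y
    have e0 := psi_mul (k := k) 0 x y
    have e1 := psi_mul (k := k) 1 x y
    have e2 := geom x y
    have e3 : chi x = chi (x - y) * chi y := by rw [← chi_add, sub_add_cancel]
    have e4 : (cκ k a : ℂ) ^ 2 = (1 - a ^ 2) / (6 * k + 3) := by exact_mod_cast kap_sq h0 h1
    have d1 := mul_inv_cancel₀ (den_ne h0 h1 x)
    have d2 := mul_inv_cancel₀ (den_ne h0 h1 y)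
    have d3 := M_ne (k := k)
    simp only [Fin.val_zero, Fin.val_one, zero_add, one_mul, Nat.reduceAdd] at e0 e1
    rw [← e0, ← e1] at e2
    rw [eq_div_iff d3] at e4
    simp only [Matrix.sub_apply, diagonal_mul, mul_diagonal, vecMulVec_apply, Pi.star_apply, star_def, cB,
      cp, cq, map_div₀, map_mul, map_sub, map_one, conj_ofReal, conj_conj]
    refine mul_left_cancel₀ d3 ?_
    simp only [div_eq_mul_inv]
    generalize (1 - a * chi x)⁻¹ = u, (1 - a * chi y)⁻¹ = v at d1 d2 ⊢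
    linear_combination u * v * ((-(1 - a ^ 2) * chi y) * e2 -
      (1 - a ^ 2) * (6 * k + 3) * cP k x y * e3 +
      chi y * (cψ k 1 x * conj (cψ k 1 y) - cψ k 0 x * conj (cψ k 0 y)) * e4) +
      (6 * k + 3) * cP k x y * ((chi x - a) * u * d2 - (chi y - a) * v * d1)
  unit k a h0 h1 x := by
    have d1 := den_ne h0 h1 x
    have d2 := den_ne h0 h1 (-x)
    have e := chi_mul_conj x
    rw [← conj_chi] at d2
    refine ⟨?_, fun s => ?_⟩
    · have h : 1 - a * chi x = chi x * conj (chi x - a) := by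
        rw [map_sub, conj_ofReal]
        linear_combination -e
      rw [cB, norm_div, norm_neg, div_eq_one_iff_eq (norm_ne_zero_iff.2 d1), h, norm_mul, norm_chi,
        norm_conj, one_mul]
    · rw [cB, cq, cp, div_mul_div_comm, ← neg_div, div_eq_div_iff (mul_ne_zero d1 d2) d1]
      linear_combination (-(cκ k a * cψ k s x * (1 - a * chi x))) * e
  norm k a h0 h1 s := by
    rw [cp_eq h0 h1, cq_eq h0 h1]
    exact ⟨ns_co h0 h1 (inj_p _), ns_co h0 h1 (inj_q _)⟩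
  small k a E h0 h1 hE := by
    rw [cp_eq h0 h1, cq_eq h0 h1, cp_eq h0 h1, cq_eq h0 h1, syn_sub, syn_sub, cP_syn, cP_syn, hE]
    refine ⟨ns_tail h0 h1 (inj_p _) fun j hj => ?_, ns_tail h0 h1 (inj_q _) fun j hj => ?_,
      ns_tail h0 h1 (inj_p _) fun j hj => ?_, ns_tail h0 h1 (inj_q _) fun j hj => ?_⟩
    · have := val_p 0 hj
      simp only [mid, Fin.val_zero] at this ⊢
      omega
    · have := val_q 1 hj
      simp only [mid, Fin.val_one] at this ⊢
      omega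
    · have := val_p 1 hj
      simp only [mid, Fin.val_one] at this ⊢
      omega
    · have := val_q 0 hj
      simp only [mid, Fin.val_zero] at this ⊢
      omega
  osc k a h0 h1 s t hst := by
    have hs := val_fr (k := k) s
    have h2 := osc h0 h1 (inj_p (fr k t)) (r := fr k s) fun j hj h => by
      have := val_p t (j := j) (by omega)
      rw [show fr k t + j = _ from h, hs] at this
      fin_cases s <;> fin_cases t <;> simp at this hst <;> omega
    have h3 := osc h0 h1 (inj_q (fr k t)) (r := fr k s) fun j hj h => by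
      have := val_q t (j := j) (by omega)
      rw [show fr k t - 1 - j = _ from h, hs] at this
      fin_cases s <;> fin_cases t <;> simp at this hst <;> omega
    simp only [cp_eq h0 h1, cq_eq h0 h1, mul_add (conj _), sum_add_distrib]
    refine (norm_add_le _ _).trans ((add_le_add h2 h3).trans_eq (by ring))

end Pool.Agent.Lib.MP_60c5b4_pr.H
end
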