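import Pool.Agent.Lib.MP_60c5b4_pr.Defs

/-!
Definitions for Q1 of MP_60c5b4_pr: the Temperleyan subgraph of the hexagonal lattice, weighted
dimer covers, the centred height function and its limits in law.

Coordinates on the hexagonal lattice. The black vertex `b = (x, y)` sits at `bpos δ b`, that is
`δ (x (1 - τ) / 3 + y (1 - τ ^ 2) / 3)`. The black vertices are the vertices of the triangular
lattice (`pr v`, the primal ones) and the centres of its triangles. The white vertex `w` sits at
`bpos δ w + δ / 3`; its three black neighbours are `w + eps j` (edge of type `j`). The white vertex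
`pr v - eps j` lies on the directed edge from `v` to `v + dir j`, one third of the way from its
tail `v`; its neighbours are the tail and the two triangles bordering that edge. The hexagon `f`
has centre `bpos δ f + 2 δ / 3`, white vertices `f + eps i` and black vertices `f + (1, 0)`,
`f + (0, 1)`, `f + (1, 1)`.
-/

namespace Pool.Agent.Lib.MP_60c5b4_pr.H

open MeasureTheory Filter Topology
open scoped ContDiff

/-- The white vertex `w` is joined to the black vertices `w + eps j`. -/
def eps : Fin 3 → Pt := ![(0, 0), (1, 0), (0, 1)]

/-- Position in the plane of the black vertex `b`. -/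
noncomputable def bpos (δ : ℝ) (b : Pt) : ℂ :=
  (δ : ℂ) * ((b.1 : ℂ) * (1 - tau) / 3 + (b.2 : ℂ) * (1 - tau ^ 2) / 3)

/-- The vertex `v` of the triangular lattice as a black vertex: `bpos δ (pr v) = pos δ v`. -/
def pr (v : Pt) : Pt := (v.1 - 2 * v.2, v.1 + v.2)

/-- The black vertex `b` is a vertex of the triangular lattice (the others are its triangles). -/
def Primal (b : Pt) : Prop := (3 : ℤ) ∣ b.1 - b.2

instance : DecidablePred Primal := fun b => inferInstanceAs (Decidable ((3 : ℤ) ∣ b.1 - b.2))

/-- White vertices of the Temperleyan graph: the edges of the triangular lattice whose tail or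
head lies in `V`. -/
def whites (V : Finset Pt) : Finset Pt :=
  (V ×ˢ Finset.univ).image (fun x : Pt × Fin 3 => pr x.1 - eps x.2) ∪
    (V ×ˢ Finset.univ).image fun x : Pt × Fin 3 => pr (x.1 - dir x.2) - eps x.2

/-- The triangles with a vertex in `V`: the faces of the graph on `V` and the outer vertex. -/
def faces (V : Finset Pt) : Finset Pt :=
  ((whites V ×ˢ Finset.univ).image fun x : Pt × Fin 3 => x.1 + eps x.2).filter fun b => ¬ Primal b

/-- Black vertices of the Temperleyan graph: the vertices of `V` and the faces other than the
removed face `f`. -/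
def blacks (V : Finset Pt) (f : Pt) : Finset Pt := V.image pr ∪ (faces V).erase f

/-- `f` is a face incident to the outer vertex: a triangle with a vertex in `V` and a vertex `v`
off `V` (each vertex of a triangle is the tail of one of its sides `f - eps i`). -/
def IsRoot (V : Finset Pt) (f : Pt) : Prop :=
  f ∈ faces V ∧ ∃ v ∉ V, ∃ i j : Fin 3, f - eps i = pr v - eps j

/-- `S` is connected in the (undirected) triangular lattice. -/
def Conn (S : Set Pt) : Prop :=
  ∀ v ∈ S, ∀ w ∈ S, Relation.ReflTransGen
    (fun x y => x ∈ S ∧ y ∈ S ∧ ∃ j, y = x + dir j ∨ x = y + dir j) v w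

/-- Simply connected vertex set: it and its complement are connected. -/
def SimplyConn (V : Finset Pt) : Prop := Conn (V : Set Pt) ∧ Conn (V : Set Pt)ᶜ

/-- Dimer cover of the subgraph induced by the white vertices `W` and the black vertices `B`:
the white vertex `w` is matched along its edge of type `m w`. -/
def IsMatching (W B : Finset Pt) (m : Cfg) : Prop :=
  Set.BijOn (fun w => w + eps (m w)) (W : Set Pt) (B : Set Pt)

/-- Edge weights: the edge of type `j` at the black vertex `b` has weight `1 + c_j δ` if `b` is a
vertex of the triangular lattice (it then stands for the directed edge out of `b` in direction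
`τ ^ j`) and weight `1` if `b` is a triangle. -/
noncomputable def ewt (c : ℂ → Fin 3 → ℝ) (δ : ℝ) (b : Pt) (j : Fin 3) : ℝ :=
  if Primal b then 1 + c (bpos δ b) j * δ else 1

/-- Weight of a dimer cover: the product of its edge weights (`a b j` is the weight of the edge
of type `j` at the black vertex `b`). -/
noncomputable def mwt (W : Finset Pt) (a : Pt → Fin 3 → ℝ) (m : Cfg) : ℝ :=
  ∏ w ∈ W, a (w + eps (m w)) (m w)

open Classical in
/-- Expectation of `F` for the dimer cover sampled proportionally to its weight. -/
noncomputable def dmean (W B : Finset Pt) (a : Pt → Fin 3 → ℝ) (F : Cfg → ℝ) : ℝ :=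
  (∑ σ : W → Fin 3, if IsMatching W B (ext W σ) then mwt W a (ext W σ) * F (ext W σ) else 0) /
    ∑ σ : W → Fin 3, if IsMatching W B (ext W σ) then mwt W a (ext W σ) else 0

/-- Height of the hexagon `f`: the number of dimers crossed by the straight path of hexagons
`f - (k, 0)` that comes to `f` from far away (it crosses the edges of type `2` at the white
vertices of the row of `f`, all with the white end on the same side). It differs from the height
defined by any reference flow by a function that does not depend on the dimer cover. -/
def height (W : Finset Pt) (m : Cfg) (f : Pt) : ℝ :=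
  ((W.filter fun w => w.2 = f.2 ∧ w.1 ≤ f.1 ∧ m w = 2).card : ℝ)

/-- The centred height function `h - E h`. -/
noncomputable def cheight (W B : Finset Pt) (a : Pt → Fin 3 → ℝ) (m : Cfg) (f : Pt) : ℝ :=
  height W m f - dmean W B a fun m' => height W m' f

/-- The centred height function tested against `φ`: the Riemann sum over the hexagons, with a
normalising constant `lam` (the area of a hexagon is `δ ^ 2 √3 / 6`). -/
noncomputable def pairing (lam δ : ℝ) (W B : Finset Pt) (a : Pt → Fin 3 → ℝ) (m : Cfg)
    (φ : ℂ → ℝ) : ℝ :=
  lam * δ ^ 2 * ∑ᶠ f : Pt, cheight W B a m f * φ (bpos δ f + 2 * δ / 3)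

/-- Test functions: smooth with compact support in `Ω`. -/
def IsTest (Ω : Set ℂ) (φ : ℂ → ℝ) : Prop :=
  ContDiff ℝ ∞ φ ∧ HasCompactSupport φ ∧ tsupport φ ⊆ Ω

/-- `μ` is a limit in law of the centred height functions of the dimer covers of the Temperleyan
graphs given by `V n` and the removed faces `f n`, at mesh `δ n` and with weights `c`: a
probability law on a space `S` of generalised functions, `ev φ` being the pairing with the test
function `φ`, such that the joint law of finitely many pairings converges weakly. -/
def HeightLimit (Ω : Set ℂ) (lam : ℝ) (c : ℂ → Fin 3 → ℝ) (δ : ℕ → ℝ) (V : ℕ → Finset Pt)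
    (f : ℕ → Pt) {S : Type} [MeasurableSpace S] (ev : (ℂ → ℝ) → S → ℝ) (μ : Measure S) : Prop :=
  IsProbabilityMeasure μ ∧ ∀ (k : ℕ) (φ : Fin k → ℂ → ℝ), (∀ i, IsTest Ω (φ i)) →
    ∀ F : BoundedContinuousFunction (Fin k → ℝ) ℝ,
      Tendsto (fun n => dmean (whites (V n)) (blacks (V n) (f n)) (ewt c (δ n)) fun m =>
        F fun i => pairing lam (δ n) (whites (V n)) (blacks (V n) (f n)) (ewt c (δ n)) m (φ i))
        atTop (𝓝 (∫ s, F (fun i => ev (φ i) s) ∂μ))

end Pool.Agent.Lib.MP_60c5b4_pr.H
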