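import Pool.Agent.Lib.MP_60c5b4_pr.H.Sign

-- part Pool.Agent.Lib.MP_60c5b4_pr.H.Det
section

/-!
The Kasteleyn determinant and the determinantal formula for the edges of one type.
-/

namespace Pool.Agent.Lib.MP_60c5b4_pr.H

open Finset

namespace Det

variable {W B : Finset Pt} {m0 : Cfg}

/-- The black vertex matched to `w` by the reference cover. -/
def be (W : Finset Pt) (m0 : Cfg) (w : W) : Pt := (w : Pt) + eps (m0 w)

theorem be_inj (h0 : IsMatching W B m0) : Function.Injective (be W m0) := fun u v h =>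
  Subtype.ext (h0.injOn u.2 v.2 h)

theorem be_mem (h0 : IsMatching W B m0) (u : W) : be W m0 u ∈ B := h0.mapsTo u.2

theorem be_surj (h0 : IsMatching W B m0) {b : Pt} (hb : b ∈ B) : ∃ u, be W m0 u = b := by
  obtain ⟨u, hu, e⟩ := h0.surjOn hb
  exact ⟨⟨u, hu⟩, e⟩

/-- The Kasteleyn matrix with edge coefficients `c`. -/
def kas (W : Finset Pt) (m0 : Cfg) {R : Type} [CommRing R] (c : W → Fin 3 → R) : Matrix W W R :=
  Matrix.of fun w u => ∑ j, if (w : Pt) + eps j = be W m0 u then c w j else 0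

/-- The incidence matrix of a configuration. -/
def inc (W : Finset Pt) (m0 : Cfg) (R : Type) [CommRing R] (σ : W → Fin 3) : Matrix W W R :=
  Matrix.of fun w u => if (w : Pt) + eps (σ w) = be W m0 u then 1 else 0

open Classical in
theorem det_inc (hE : EvenPerm W B) (h0 : IsMatching W B m0) (R : Type) [CommRing R]
    (σ : W → Fin 3) : (inc W m0 R σ).det = if IsMatching W B (ext W σ) then 1 else 0 := by
  split_ifs with h
  · have h1 : ∀ w : W, ∃ u, be W m0 u = (w : Pt) + eps (ext W σ w) := fun w =>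
      be_surj h0 (h.mapsTo w.2)
    choose s hs using h1
    have hinj : Function.Injective s := fun u v e =>
      Subtype.ext (h.injOn u.2 v.2 (by
        have h2 := hs u
        rw [e, hs v] at h2
        exact h2.symm))
    let p : Equiv.Perm W := Equiv.ofBijective s (Finite.injective_iff_bijective.mp hinj)
    have hp : Equiv.Perm.sign p = 1 := hE _ _ h h0 p hs
    have e : inc W m0 R σ = (1 : Matrix W W R).submatrix p id := by
      ext w u
      have h3 : (w : Pt) + eps (σ w) = be W m0 (p w) := by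
        rw [← ext_apply σ w.2]; exact (hs w).symm
      simp only [inc, Matrix.of_apply, Matrix.submatrix_apply, id, Matrix.one_apply, h3,
        (be_inj h0).eq_iff]
    rw [e, Matrix.det_permute, hp, Matrix.det_one]
    simp
  · rw [Matrix.det_apply]
    refine sum_eq_zero fun p _ => ?_
    by_contra hne
    have h1 : ∀ u, ((p u : W) : Pt) + eps (σ (p u)) = be W m0 u := by
      intro u
      by_contra h2
      refine hne ?_
      rw [prod_eq_zero (mem_univ u) (by simp only [inc, Matrix.of_apply, if_neg h2]), smul_zero]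
    have h2 : ∀ w : W, (w : Pt) + eps (ext W σ w) = be W m0 (p.symm w) := fun w => by
      rw [← h1, p.apply_symm_apply, ext_apply σ w.2]
    refine h ⟨fun w hw => ?_, fun u hu v hv e => ?_, fun b hb => ?_⟩
    · have h3 := h2 ⟨w, hw⟩
      simp only at h3 ⊢
      rw [h3]; exact be_mem h0 _
    · have h3 := (h2 ⟨u, hu⟩).symm.trans (Eq.trans e (h2 ⟨v, hv⟩))
      exact congrArg Subtype.val (p.symm.injective (be_inj h0 h3))
    · obtain ⟨u, rfl⟩ := be_surj h0 hb
      exact ⟨p u, (p u).2, by simp only; rw [h2, p.symm_apply_apply]⟩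

open Classical in
theorem det_kas (hE : EvenPerm W B) (h0 : IsMatching W B m0) {R : Type} [CommRing R]
    (c : W → Fin 3 → R) : (kas W m0 c).det =
      ∑ σ : W → Fin 3, if IsMatching W B (ext W σ) then ∏ w, c w (σ w) else 0 := by
  have e : kas W m0 c = fun w => ∑ j, c w j • fun u : W =>
      if (w : Pt) + eps j = be W m0 u then (1 : R) else 0 := by
    ext w u
    simp [kas]
  have h1 := (Matrix.detRowAlternating (n := W) (R := R)).toMultilinearMap.map_sum
    (fun (w : W) (j : Fin 3) => c w j • fun u : W =>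
      if (w : Pt) + eps j = be W m0 u then (1 : R) else 0)
  rw [e]
  refine h1.trans (sum_congr rfl fun σ _ => ?_)
  rw [MultilinearMap.map_smul_univ]
  have h2 := det_inc hE h0 R σ
  refine (congrArg (fun x => (∏ w, c w (σ w)) • x) h2).trans ?_
  split_ifs <;> simp

theorem mwt_ext (a : Pt → Fin 3 → ℝ) (σ : W → Fin 3) :
    mwt W a (ext W σ) = ∏ w : W, a ((w : Pt) + eps (σ w)) (σ w) := by
  rw [mwt, ← prod_coe_sort]
  exact prod_congr rfl fun w _ => by rw [ext_apply σ w.2]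

/-- A matrix on `W × W` read as a function on black and white vertices. -/
noncomputable def gr (W : Finset Pt) (m0 : Cfg) (N : Matrix W W ℝ) (b w : Pt) : ℝ :=
  ∑ u : W, ∑ v : W, if b = be W m0 u ∧ w = v then N u v else 0

theorem gr_right (N : Matrix W W ℝ) (b : Pt) (v : W) :
    gr W m0 N b v = ∑ u : W, if b = be W m0 u then N u v else 0 := by
  refine sum_congr rfl fun u _ => ?_
  rw [sum_eq_single v (fun v' _ h => if_neg fun h' => h (Subtype.ext h'.2).symm)
    fun h => absurd (mem_univ v) h]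
  simp

theorem gr_left (h0 : IsMatching W B m0) (N : Matrix W W ℝ) (u : W) (w : Pt) :
    gr W m0 N (be W m0 u) w = ∑ v : W, if w = v then N u v else 0 := by
  refine (sum_eq_single u (fun u' _ h => sum_eq_zero fun v _ => if_neg ?_)
    fun h => absurd (mem_univ u) h).trans (by simp)
  exact fun h' => h (be_inj h0 h'.1).symm

theorem gr_zero (h0 : IsMatching W B m0) (N : Matrix W W ℝ) {b w : Pt} (h : ¬ (b ∈ B ∧ w ∈ W)) :
    gr W m0 N b w = 0 := by
  refine sum_eq_zero fun u _ => sum_eq_zero fun v _ => if_neg ?_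
  rintro ⟨rfl, rfl⟩
  exact h ⟨be_mem h0 u, v.2⟩

theorem isInv (h0 : IsMatching W B m0) (a : Pt → Fin 3 → ℝ) (N : Matrix W W ℝ)
    (h1 : kas W m0 (fun w j => a ((w : Pt) + eps j) j) * N = 1)
    (h2 : N * kas W m0 (fun w j => a ((w : Pt) + eps j) j) = 1) : IsInv W B a (gr W m0 N) := by
  refine ⟨fun b w h => gr_zero h0 N h, fun w hw w' => ?_, fun b b' hb' => ?_⟩
  · by_cases hw' : w' ∈ W
    · have h3 := congrFun (congrFun h1 ⟨w, hw⟩) ⟨w', hw'⟩
      simp only [Matrix.mul_apply, kas, Matrix.of_apply, Matrix.one_apply, Subtype.mk.injEq,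
        sum_mul] at h3
      rw [← h3, sum_comm]
      refine sum_congr rfl fun j _ => ?_
      rw [gr_right N _ ⟨w', hw'⟩, mul_sum]
      exact sum_congr rfl fun u _ => by split_ifs <;> simp
    · rw [if_neg fun h : w = w' => hw' (h ▸ hw)]
      exact sum_eq_zero fun j _ => by rw [gr_zero h0 N fun h => hw' h.2, mul_zero]
  · by_cases hb : b ∈ B
    · obtain ⟨u, rfl⟩ := be_surj h0 hb
      obtain ⟨u', rfl⟩ := be_surj h0 hb'
      have h3 := congrFun (congrFun h2 u) u'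
      simp only [Matrix.mul_apply, kas, Matrix.of_apply, Matrix.one_apply, mul_sum] at h3
      simp only [(be_inj h0).eq_iff]
      rw [← h3, sum_comm]
      refine sum_congr rfl fun j _ => ?_
      rw [gr_left h0, sum_mul]
      refine sum_congr rfl fun v _ => ?_
      by_cases h : (v : Pt) + eps j = be W m0 u'
      · rw [if_pos h, if_pos (by rw [← h]; simp), h]
      · rw [if_neg h, if_neg fun h' => h (by rw [← h']; simp)]
        simp
    · rw [if_neg fun h : b = b' => hb (h ▸ hb')]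
      exact sum_eq_zero fun j _ => by rw [gr_zero h0 N fun h => hb h.1, zero_mul]

end Det

open Det in
theorem det_formula : DetStmt := by
  classical
  intro W B a hE hG
  obtain ⟨m0, h0⟩ := hG.1
  obtain ⟨K, hK⟩ : ∃ K, K = kas W m0 (fun w j => a ((w : Pt) + eps j) j) := ⟨_, rfl⟩
  obtain ⟨Z, hZ⟩ : ∃ Z, Z = ∑ σ : W → Fin 3,
      if IsMatching W B (ext W σ) then mwt W a (ext W σ) else 0 := ⟨_, rfl⟩
  have hZ0 : 0 < Z := hZ ▸ hG.Z_pos
  have hdet : K.det = Z := by
    rw [hK, det_kas hE h0, hZ]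
    exact sum_congr rfl fun σ _ => by rw [mwt_ext]
  have hu : IsUnit K.det := by rw [hdet]; exact hZ0.ne'.isUnit
  have h1 := K.mul_nonsing_inv hu
  have h2 := K.nonsing_inv_mul hu
  refine ⟨gr W m0 K⁻¹, isInv h0 a _ (hK ▸ h1) (hK ▸ h2), fun J _ _ ι hι hW j t => ?_⟩
  let ι' : J → W := fun i => ⟨ι i, hW i⟩
  have hι' : Function.Injective ι' := fun i i' h => hι (congrArg Subtype.val h)
  let T : W → ℂ := fun w => 1 + ∑ i, if ι' i = w then t i - 1 else 0
  have hT : ∀ i, T (ι' i) = t i := fun i => by simp [T, hι'.eq_iff]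
  have hT' : ∀ w ∉ Set.range ι', T w = 1 := fun w hw => by
    have : ∀ i, ι' i ≠ w := fun i h => hw ⟨i, h⟩
    simp [T, this]
  let E : Matrix W J ℂ := Matrix.of fun w i => if ι' i = w then 1 else 0
  let X : Matrix J W ℂ := Matrix.of fun i u =>
    if ι i + eps j = be W m0 u then (t i - 1) * (a (ι i + eps j) j : ℂ) else 0
  let φ : ℝ →+* ℂ := Complex.ofRealHom
  have h3 : K⁻¹.map φ * K.map φ = 1 := by
    rw [← Matrix.map_mul, h2, Matrix.map_one _ φ.map_zero φ.map_one]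
  have h4 : kas W m0 (fun w k => (a ((w : Pt) + eps k) k : ℂ) * if k = j then T w else 1) =
      (1 + E * (X * K⁻¹.map φ)) * K.map φ := by
    rw [Matrix.add_mul, Matrix.one_mul, Matrix.mul_assoc, Matrix.mul_assoc, h3, Matrix.mul_one, hK]
    ext w u
    have h5 : (E * X) w u =
        if (w : Pt) + eps j = be W m0 u then (a ((w : Pt) + eps j) j : ℂ) * (T w - 1) else 0 := by
      simp only [Matrix.mul_apply, E, X, Matrix.of_apply, T, add_sub_cancel_left, mul_sum]
      split_ifs with h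
      · refine sum_congr rfl fun i _ => ?_
        by_cases hi : ι' i = w
        · have h6 : ι i = w := congrArg Subtype.val hi
          rw [if_pos hi, if_pos hi, h6, if_pos h]; ring
        · simp [hi]
      · refine sum_eq_zero fun i _ => ?_
        by_cases hi : ι' i = w
        · have h6 : ι i = w := congrArg Subtype.val hi
          rw [h6, if_neg h, mul_zero]
        · simp [hi]
    rw [Matrix.add_apply, h5]
    simp only [kas, Matrix.of_apply, Matrix.map_apply, map_sum]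
    rw [← sub_eq_iff_eq_add', ← sum_sub_distrib, sum_eq_single j
      (fun k _ hk => by split_ifs <;> simp [φ]) fun h => absurd (mem_univ j) h]
    rw [if_pos rfl]
    split_ifs <;> simp [φ]
    ring
  have h6 : X * K⁻¹.map φ * E = Matrix.of fun i i' : J =>
      (t i - 1) * ((a (ι i + eps j) j * gr W m0 K⁻¹ (ι i + eps j) (ι i') : ℝ) : ℂ) := by
    ext i i'
    have h7 := gr_right (m0 := m0) K⁻¹ (ι i + eps j) (ι' i')
    simp only [Matrix.mul_apply, E, X, Matrix.of_apply, mul_ite, mul_one, mul_zero,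
      sum_ite_eq, mem_univ, if_true, Matrix.map_apply]
    rw [show gr W m0 K⁻¹ (ι i + eps j) (ι i') = _ from h7]
    push_cast
    rw [mul_sum, mul_sum]
    refine sum_congr rfl fun u _ => ?_
    split_ifs <;> simp [φ, mul_assoc]
  have h8 := congrArg Matrix.det h4
  have h9 : (K.map φ).det = (Z : ℂ) := by
    rw [← hdet]; exact (φ.map_det K).symm
  rw [det_kas hE h0, Matrix.det_mul, Matrix.det_one_add_mul_comm, h6, h9] at h8
  have hZc : (Z : ℂ) ≠ 0 := Complex.ofReal_ne_zero.mpr hZ0.ne'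
  rw [eq_div_of_mul_eq hZc h8.symm, cmean, sum_div]
  refine sum_congr rfl fun σ _ => ?_
  rw [pw, ← hZ]
  split_ifs with h
  · have h10 : (∏ i, if ext W σ (ι i) = j then t i else 1) = ∏ w, if σ w = j then T w else 1 :=
      Fintype.prod_of_injective ι' hι' _ _ (fun w hw => by rw [hT' w hw]; simp)
        fun i => by rw [ext_apply σ (hW i), hT]
    rw [prod_mul_distrib, h10, mwt_ext]
    push_cast
    ring
  · simp

end Pool.Agent.Lib.MP_60c5b4_pr.H
end

-- part Pool.Agent.Lib.MP_60c5b4_pr.H.Ker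
section

/-!
The inverse Kasteleyn kernel of the plane as an interval integral, and its asymptotics.
-/

namespace Pool.Agent.Lib.MP_60c5b4_pr.H

open Complex intervalIntegral Set

namespace Ker

/-- Two integrations by parts. -/
theorem ibp {b lam g : ℝ} (hb : 0 ≤ b) {r r1 r2 B : ℝ → ℝ} {c : ℂ} (hc : c = lam * I + g)
    (hc0 : c ≠ 0) (h1 : ∀ t ∈ Icc 0 b, HasDerivAt r (r1 t) t)
    (h2 : ∀ t ∈ Icc 0 b, HasDerivAt r1 (r2 t) t) (h3 : ContinuousOn r2 (Icc 0 b))
    (hB : Continuous B) (hE : ∀ t ∈ Icc 0 b, |r2 t - 2 * g * r1 t + g ^ 2 * r t| ≤ B t)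
    (hr : r1 b = g * r b) :
    ‖(∫ t in (0 : ℝ)..b, exp (lam * t * I) * r t) - exp (lam * b * I) * r b / c +
      (r 0 / c + (g * r 0 - r1 0 : ℝ) / c ^ 2)‖ ≤ (∫ t in (0 : ℝ)..b, B t) / ‖c‖ ^ 2 := by
  have c0 : ContinuousOn r (Icc 0 b) := fun t ht => (h1 t ht).continuousAt.continuousWithinAt
  have c1 : ContinuousOn r1 (Icc 0 b) := fun t ht => (h2 t ht).continuousAt.continuousWithinAt
  have ce : Continuous fun t : ℝ => exp (lam * t * I) := by fun_prop
  have i1 : IntervalIntegrable (fun t : ℝ => exp (lam * t * I) * r t) MeasureTheory.volume 0 b :=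
    (ce.continuousOn.mul (continuous_ofReal.comp_continuousOn c0)).intervalIntegrable_of_Icc hb
  have i2 : IntervalIntegrable (fun t : ℝ => exp (lam * t * I) *
      (r2 t - 2 * g * r1 t + g ^ 2 * r t : ℝ) / c ^ 2) MeasureTheory.volume 0 b :=
    ((ce.continuousOn.mul (continuous_ofReal.comp_continuousOn ((h3.sub (c1.const_smul (2 * g))).add
      (c0.const_smul (g ^ 2))))).div_const _).intervalIntegrable_of_Icc hb
  have hd : ∀ t ∈ uIcc 0 b, HasDerivAt
      (fun t : ℝ => exp (lam * t * I) * (r t / c + (g * r t - r1 t) / c ^ 2))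
      (exp (lam * t * I) * r t - exp (lam * t * I) *
        (r2 t - 2 * g * r1 t + g ^ 2 * r t : ℝ) / c ^ 2) t := by
    intro t ht
    rw [uIcc_of_le hb] at ht
    have e : HasDerivAt (fun t : ℝ => exp (lam * t * I)) (exp (lam * t * I) * (lam * I)) t := by
      have := (((hasDerivAt_id t).ofReal_comp.const_mul (lam : ℂ)).mul_const I).cexp
      simpa using this
    have a1 := (h1 t ht).ofReal_comp
    have a2 := (h2 t ht).ofReal_comp
    have hl : (lam : ℂ) * I = c - g := by rw [hc]; ring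
    refine (e.mul ((a1.div_const c).add (((a1.const_mul (g : ℂ)).sub a2).div_const
      (c ^ 2)))).congr_deriv ?_
    simp only [Pi.add_apply, Pi.sub_apply, hl]
    push_cast
    field_simp
    ring
  have hI := integral_eq_sub_of_hasDerivAt hd (i1.sub i2)
  rw [integral_sub i1 i2] at hI
  have e : (∫ t in (0 : ℝ)..b, exp (lam * t * I) * r t) - exp (lam * b * I) * r b / c +
      (r 0 / c + (g * r 0 - r1 0 : ℝ) / c ^ 2) = ∫ t in (0 : ℝ)..b, exp (lam * t * I) *
        (r2 t - 2 * g * r1 t + g ^ 2 * r t : ℝ) / c ^ 2 := by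
    rw [eq_add_of_sub_eq hI, hr]
    push_cast
    simp only [mul_zero, zero_mul, exp_zero]
    ring
  rw [e, ← intervalIntegral.integral_div]
  refine norm_integral_le_of_norm_le hb (MeasureTheory.ae_of_all _ fun t ht => ?_)
    ((hB.div_const _).intervalIntegrable _ _)
  rw [norm_div, norm_mul, norm_pow, ← ofReal_mul, norm_exp_ofReal_mul_I, one_mul, norm_real]
  exact div_le_div_of_nonneg_right (hE t ⟨ht.1.le, ht.2⟩) (by positivity)

/-- The profile of the modulus of the integrand. -/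
structure Prof (b γ : ℝ) (ρ ρ1 ρ2 : ℝ → ℝ) : Prop where
  b0 : 0 ≤ b
  b3 : b ≤ 3
  g0 : 0 ≤ γ
  g1 : γ ≤ 1
  d1 : ∀ t ∈ Icc 0 b, HasDerivAt ρ (ρ1 t) t
  d2 : ∀ t ∈ Icc 0 b, HasDerivAt ρ1 (ρ2 t) t
  c2 : ContinuousOn ρ2 (Icc 0 b)
  nn : ∀ t ∈ Icc 0 b, 0 ≤ ρ t
  le : ∀ t ∈ Icc 0 b, ρ t ≤ 1 - (b - t) / 12
  a1 : ∀ t ∈ Icc 0 b, |ρ1 t| ≤ 1
  a2 : ∀ t ∈ Icc 0 b, |ρ2 t| ≤ 3
  e0 : ρ b = 1
  e1 : ρ1 b = γ
  half : ρ 0 ≤ 1 / 2

theorem pow_sq_le (m : ℕ) {s : ℝ} (h0 : 0 ≤ s) (h1 : s ≤ 1) :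
    ((m : ℝ) + 2) ^ 2 * s ^ 2 * (1 - s) ^ m ≤ 12 := by
  have e1 : (1 - s) ^ m ≤ Real.exp (-(m * s)) := by
    rw [← mul_neg, Real.exp_nat_mul]
    exact pow_le_pow_left₀ (by linarith) (Real.one_sub_le_exp_neg s) m
  have hm : 0 ≤ (m : ℝ) * s := by positivity
  have e2 := Real.quadratic_le_exp_of_nonneg hm
  have e3 : Real.exp (m * s) * Real.exp (-(m * s)) = 1 := by rw [← Real.exp_add]; simp
  have e4 : ((m : ℝ) + 2) ^ 2 * s ^ 2 ≤ 12 * Real.exp (m * s) := by
    nlinarith [mul_le_mul h1 h1 h0 zero_le_one, mul_le_mul_of_nonneg_left h1 hm]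
  calc _ ≤ 12 * Real.exp (m * s) * Real.exp (-(m * s)) :=
        mul_le_mul e4 e1 (pow_nonneg (by linarith) _) (by positivity)
    _ = 12 := by rw [mul_assoc, e3, mul_one]

theorem two_pow_le (m : ℕ) : ((m : ℝ) + 1) * (1 / 2) ^ m ≤ 1 := by
  have : (m : ℝ) + 1 ≤ 2 ^ m := by exact_mod_cast Nat.lt_two_pow_self
  rw [one_div, inv_pow, ← div_eq_mul_inv, div_le_one (by positivity)]
  exact this

variable {b γ : ℝ} {ρ ρ1 ρ2 : ℝ → ℝ}

theorem Prof.le_one (h : Prof b γ ρ ρ1 ρ2) {t : ℝ} (ht : t ∈ Icc 0 b) : ρ t ≤ 1 := by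
  linarith [h.le t ht, ht.2]

theorem Prof.lip (h : Prof b γ ρ ρ1 ρ2) {t : ℝ} (ht : t ∈ Icc 0 b) :
    |ρ1 t - γ * ρ t| ≤ 4 * (b - t) := by
  have := (convex_Icc 0 b).norm_image_sub_le_of_norm_hasDerivWithin_le
    (f := fun t => ρ1 t - γ * ρ t) (f' := fun t => ρ2 t - γ * ρ1 t) (C := 4)
    (fun t ht => ((h.d2 t ht).sub ((h.d1 t ht).const_mul γ)).hasDerivWithinAt)
    (fun t ht => by
      obtain ⟨a, a'⟩ := abs_le.1 (h.a1 t ht)
      obtain ⟨c, c'⟩ := abs_le.1 (h.a2 t ht)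
      rw [Real.norm_eq_abs, abs_le]
      constructor <;> nlinarith [h.g0, h.g1]) ⟨h.b0, le_rfl⟩ ht
  rwa [h.e0, h.e1, mul_one, sub_self, sub_zero, Real.norm_eq_abs, Real.norm_eq_abs,
    abs_sub_comm t, abs_of_nonneg (sub_nonneg.2 ht.2)] at this

theorem Prof.pw (h : Prof b γ ρ ρ1 ρ2) (μ : ℕ) : ∃ r1 r2 B : ℝ → ℝ,
    (∀ t ∈ Icc 0 b, HasDerivAt (fun t => ρ t ^ μ) (r1 t) t) ∧
    (∀ t ∈ Icc 0 b, HasDerivAt r1 (r2 t) t) ∧ ContinuousOn r2 (Icc 0 b) ∧ Continuous B ∧
    (∀ t ∈ Icc 0 b, |r2 t - 2 * (μ * γ) * r1 t + (μ * γ) ^ 2 * ρ t ^ μ| ≤ B t) ∧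
    r1 b = μ * γ * ρ b ^ μ ∧ |r1 0| ≤ 1 ∧ ∫ t in (0 : ℝ)..b, B t ≤ 90000 := by
  have h0 : (0 : ℝ) ∈ Icc 0 b := ⟨le_rfl, h.b0⟩
  rcases μ with _ | _ | m
  · exact ⟨fun _ => 0, fun _ => 0, fun _ => 0, fun t _ => by simpa using hasDerivAt_const t (1 : ℝ),
      fun t _ => hasDerivAt_const t _, continuousOn_const, continuous_const, by simp, by simp,
      by simp, by simp⟩
  · refine ⟨ρ1, ρ2, fun _ => 6, fun t ht => by simpa using h.d1 t ht, h.d2, h.c2, continuous_const,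
      fun t ht => ?_, by simp [h.e0, h.e1], h.a1 0 h0, by simp; linarith [h.b3]⟩
    obtain ⟨a, a'⟩ := abs_le.1 (h.a1 t ht)
    obtain ⟨c, c'⟩ := abs_le.1 (h.a2 t ht)
    have g2 : γ ^ 2 ≤ 1 := pow_le_one₀ h.g0 h.g1
    have := mul_le_one₀ g2 (h.nn t ht) (h.le_one ht)
    have := mul_nonneg (sq_nonneg γ) (h.nn t ht)
    simp only [zero_add, Nat.cast_one, one_mul, pow_one, abs_le]
    constructor <;> nlinarith [h.g0, h.g1]
  · have c0 : ContinuousOn ρ (Icc 0 b) := fun t ht => (h.d1 t ht).continuousAt.continuousWithinAt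
    have c1 : ContinuousOn ρ1 (Icc 0 b) := fun t ht => (h.d2 t ht).continuousAt.continuousWithinAt
    have c2 := h.c2
    refine ⟨fun t => (m + 2) * ρ t ^ (m + 1) * ρ1 t,
      fun t => (m + 2) * ((m + 1) * ρ t ^ m * ρ1 t) * ρ1 t + (m + 2) * ρ t ^ (m + 1) * ρ2 t,
      fun t => 27648 + 4 * (m + 2) * (1 - (b - t) / 12) ^ m, fun t ht => ?_, fun t ht => ?_,
      by fun_prop, by fun_prop, fun t ht => ?_, ?_, ?_, ?_⟩
    · refine ((h.d1 t ht).pow (m + 1 + 1)).congr_deriv ?_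
      push_cast
      ring_nf
    · refine ((((h.d1 t ht).pow (m + 1)).const_mul ((m : ℝ) + 2)).mul (h.d2 t ht)).congr_deriv ?_
      simp
    · have e : (m + 2) * ((m + 1) * ρ t ^ m * ρ1 t) * ρ1 t + (m + 2) * ρ t ^ (m + 1) * ρ2 t -
          2 * (((m + 1 + 1 : ℕ) : ℝ) * γ) * ((m + 2) * ρ t ^ (m + 1) * ρ1 t) +
          (((m + 1 + 1 : ℕ) : ℝ) * γ) ^ 2 * ρ t ^ (m + 1 + 1) =
          (m + 2) ^ 2 * (ρ1 t - γ * ρ t) ^ 2 * ρ t ^ m +
            (m + 2) * ρ t ^ m * (ρ t * ρ2 t - ρ1 t ^ 2) := by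
        push_cast
        ring
      rw [e]
      have p0 := h.nn t ht
      have p1 : ρ t ^ m ≤ (1 - (b - t) / 12) ^ m := pow_le_pow_left₀ p0 (h.le t ht) m
      have s0 : 0 ≤ (b - t) / 12 := by linarith [ht.2]
      have s1 : (b - t) / 12 ≤ 1 := by linarith [h.le t ht]
      have q1 : (ρ1 t - γ * ρ t) ^ 2 ≤ 2304 * ((b - t) / 12) ^ 2 := by
        have := pow_le_pow_left₀ (abs_nonneg _) (h.lip ht) 2
        rw [sq_abs] at this
        linarith
      have q2 : ((m : ℝ) + 2) ^ 2 * (ρ1 t - γ * ρ t) ^ 2 * ρ t ^ m ≤ 27648 := by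
        have := pow_sq_le m s0 s1
        calc _ ≤ ((m : ℝ) + 2) ^ 2 * (2304 * ((b - t) / 12) ^ 2) * (1 - (b - t) / 12) ^ m := by
              gcongr
          _ ≤ _ := by linarith
      have q3 : |ρ t * ρ2 t - ρ1 t ^ 2| ≤ 4 := by
        have a : ρ1 t ^ 2 ≤ 1 := by rw [← sq_abs]; exact pow_le_one₀ (abs_nonneg _) (h.a1 t ht)
        obtain ⟨c, c'⟩ := abs_le.1 (h.a2 t ht)
        have := h.le_one ht
        rw [abs_le]
        constructor <;> nlinarith [sq_nonneg (ρ1 t)]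
      refine (abs_add_le _ _).trans (add_le_add ?_ ?_)
      · rwa [abs_of_nonneg (by positivity)]
      · rw [abs_mul, abs_of_nonneg (by positivity)]
        calc _ ≤ (m + 2) * (1 - (b - t) / 12) ^ m * 4 := by gcongr
          _ = _ := by ring
    · simp only [h.e0, h.e1, one_pow]
      push_cast
      ring
    · rw [abs_mul, abs_of_nonneg (mul_nonneg (by positivity) (pow_nonneg (h.nn 0 h0) _))]
      refine mul_le_one₀ ?_ (abs_nonneg _) (h.a1 0 h0)
      have := two_pow_le (m + 1)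
      push_cast at this
      calc _ ≤ ((m : ℝ) + 2) * (1 / 2) ^ (m + 1) :=
            mul_le_mul_of_nonneg_left (pow_le_pow_left₀ (h.nn 0 h0) h.half _) (by positivity)
        _ ≤ 1 := by linarith
    · have hd : ∀ t ∈ uIcc 0 b, HasDerivAt
          (fun t : ℝ => 27648 * t + 48 * (m + 2) / (m + 1) * (1 - (b - t) / 12) ^ (m + 1))
          (27648 + 4 * (m + 2) * (1 - (b - t) / 12) ^ m) t := fun t _ => by
        refine (((hasDerivAt_id t).const_mul 27648).add (((((hasDerivAt_id t).const_sub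
          b).div_const 12).const_sub 1).pow (m + 1) |>.const_mul _)).congr_deriv ?_
        simp only [id, Nat.add_sub_cancel]
        push_cast
        field_simp
        ring
      rw [integral_eq_sub_of_hasDerivAt hd (Continuous.intervalIntegrable (by fun_prop) _ _)]
      have k1 : 48 * ((m : ℝ) + 2) / (m + 1) ≤ 96 := by
        rw [div_le_iff₀ (by positivity)]
        linarith [Nat.cast_nonneg (α := ℝ) m]
      have k2 : 0 ≤ 48 * ((m : ℝ) + 2) / (m + 1) * (1 - (b - 0) / 12) ^ (m + 1) :=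
        mul_nonneg (by positivity) (pow_nonneg (by linarith [h.b3]) _)
      simp only [sub_self, zero_div, sub_zero, one_pow, mul_one, mul_zero, zero_add] at k2 ⊢
      linarith [h.b3]

theorem Prof.main (h : Prof b γ ρ ρ1 ρ2) (μ : ℕ) (lam : ℝ) {ω : ℂ} (hω : ‖ω‖ = 1)
    (him : ρ 0 ^ μ * ω.im = 0) {G : ℝ → ℂ}
    (hG : ∀ t ∈ Icc 0 b, G t = ω * (exp (lam * t * I) * (ρ t ^ μ : ℝ))) :
    |(∫ t in (0 : ℝ)..b, G t).re| ≤ 3 ∧ ∀ c : ℂ, c = lam * I + (μ * γ : ℝ) → c ≠ 0 →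
      |(∫ t in (0 : ℝ)..b, G t).re - (G b / c).re| ≤ 90003 / ‖c‖ ^ 2 := by
  have h0 : (0 : ℝ) ∈ Icc 0 b := ⟨le_rfl, h.b0⟩
  have e : ∫ t in (0 : ℝ)..b, G t = ω * ∫ t in (0 : ℝ)..b, exp (lam * t * I) * (ρ t ^ μ : ℝ) := by
    rw [← intervalIntegral.integral_const_mul]
    exact integral_congr fun t ht => hG t (by rwa [uIcc_of_le h.b0] at ht)
  refine ⟨(abs_re_le_norm _).trans ?_, fun c hc hc0 => ?_⟩
  · have := norm_integral_le_of_norm_le_const (a := 0) (b := b) (C := 1) (f := G) fun t ht => by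
      rw [uIoc_of_le h.b0] at ht
      have ht' : t ∈ Icc 0 b := ⟨ht.1.le, ht.2⟩
      rw [hG t ht', norm_mul, hω, one_mul, norm_mul, ← ofReal_mul, norm_exp_ofReal_mul_I, one_mul,
        norm_real, Real.norm_of_nonneg (pow_nonneg (h.nn t ht') _)]
      exact pow_le_one₀ (h.nn t ht') (h.le_one ht')
    rw [sub_zero, abs_of_nonneg h.b0] at this
    linarith [h.b3]
  obtain ⟨r1, r2, B, d1, d2, c2, cB, hE, hb, h1, hB⟩ := h.pw μ
  have key := ibp h.b0 hc hc0 d1 d2 c2 cB hE hb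
  have hn : 0 < ‖c‖ ^ 2 := by positivity
  have hμ : (μ : ℝ) * γ * ρ 0 ^ μ ≤ 1 := by
    have := two_pow_le μ
    have p : ρ 0 ^ μ ≤ (1 / 2) ^ μ := pow_le_pow_left₀ (h.nn 0 h0) h.half _
    calc _ ≤ (μ : ℝ) * 1 * (1 / 2) ^ μ := by
          gcongr
          exacts [pow_nonneg (h.nn 0 h0) _, h.g1]
      _ ≤ 1 := by nlinarith [pow_nonneg (by norm_num : (0 : ℝ) ≤ 1 / 2) μ]
  have hμ0 : 0 ≤ (μ : ℝ) * γ * ρ 0 ^ μ :=
    mul_nonneg (mul_nonneg (Nat.cast_nonneg _) h.g0) (pow_nonneg (h.nn 0 h0) _)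
  have t1 : |(ω * (((ρ 0 ^ μ : ℝ) : ℂ) / c)).re| ≤ 1 / ‖c‖ ^ 2 := by
    have : (ω * (((ρ 0 ^ μ : ℝ) : ℂ) / c)).re = ω.re * (μ * γ * ρ 0 ^ μ) / ‖c‖ ^ 2 := by
      have cre : c.re = μ * γ := by rw [hc]; simp
      rw [mul_re, div_re, div_im, ofReal_re, ofReal_im, cre, Complex.sq_norm]
      linear_combination (c.im / normSq c) * him
    rw [this, abs_div, abs_of_pos hn, abs_mul, abs_of_nonneg hμ0]
    refine div_le_div_of_nonneg_right (mul_le_one₀ ?_ hμ0 hμ) hn.le
    exact hω ▸ abs_re_le_norm ω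
  have t2 : |(ω * (((μ * γ * ρ 0 ^ μ - r1 0 : ℝ) : ℂ) / c ^ 2)).re| ≤ 2 / ‖c‖ ^ 2 := by
    refine (abs_re_le_norm _).trans ?_
    rw [norm_mul, hω, one_mul, norm_div, norm_pow, norm_real, Real.norm_eq_abs]
    refine div_le_div_of_nonneg_right ?_ hn.le
    obtain ⟨a, a'⟩ := abs_le.1 h1
    rw [abs_le]
    constructor <;> linarith
  have t3 := key.trans (div_le_div_of_nonneg_right hB hn.le)
  rw [← one_mul ‖_ + _‖, ← hω, ← norm_mul] at t3
  replace t3 := (abs_re_le_norm _).trans t3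
  rw [mul_add, mul_sub, mul_add, ← e, ← mul_div_assoc, ← hG b ⟨h.b0, le_rfl⟩, add_re, add_re,
    sub_re] at t3
  obtain ⟨a1, a2⟩ := abs_le.1 t1
  obtain ⟨a3, a4⟩ := abs_le.1 t2
  obtain ⟨a5, a6⟩ := abs_le.1 t3
  have : (90003 : ℝ) / ‖c‖ ^ 2 = 90000 / ‖c‖ ^ 2 + 1 / ‖c‖ ^ 2 + 2 / ‖c‖ ^ 2 := by ring
  rw [this, abs_le]
  constructor <;> linarith

/-- The integrand. -/
noncomputable def F (p : Pt) (s : ℝ) : ℂ :=
  exp (-(s * I)) ^ p.1 * (-1 - exp (-(s * I))) ^ (p.2 - 1)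

/-- The kernel. -/
noncomputable def A (p : Pt) : ℝ :=
  (∫ s in (2 * Real.pi / 3)..(if 1 ≤ p.2 then Real.pi else 0), F p s).re / Real.pi

theorem sin_ge {x : ℝ} (h0 : 0 ≤ x) (h1 : x ≤ Real.pi / 2) : x / 2 ≤ Real.sin x := by
  refine le_trans ?_ (Real.mul_le_sin h0 h1)
  rw [div_mul_eq_mul_div, div_le_div_iff₀ two_pos Real.pi_pos]
  nlinarith [Real.pi_le_four]

theorem sqrt3 : 0 ≤ √3 / 2 ∧ √3 / 2 ≤ 1 := by
  have : √3 ≤ 2 := Real.sqrt_le_iff.2 ⟨by norm_num, by norm_num⟩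
  exact ⟨by positivity, by linarith⟩

theorem profB : Prof (Real.pi / 3) (√3 / 2) (fun t => 2 * Real.sin (t / 2))
    (fun t => Real.cos (t / 2)) (fun t => -Real.sin (t / 2) / 2) where
  b0 := by positivity
  b3 := by linarith [Real.pi_le_four]
  g0 := sqrt3.1
  g1 := sqrt3.2
  d1 t _ := (((hasDerivAt_id t).div_const 2).sin.const_mul 2).congr_deriv (by simp only [id]; ring)
  d2 t _ := ((hasDerivAt_id t).div_const 2).cos.congr_deriv (by simp only [id]; ring)
  c2 := by fun_prop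
  nn t ht := mul_nonneg zero_le_two (Real.sin_nonneg_of_nonneg_of_le_pi (by linarith [ht.1])
    (by linarith [ht.2, Real.pi_pos]))
  le t ht := by
    have hp := Real.pi_pos
    have h1 := Real.sin_sub_sin (Real.pi / 6) (t / 2)
    rw [Real.sin_pi_div_six] at h1
    have h2 := sin_ge (x := (Real.pi / 6 - t / 2) / 2) (by linarith [ht.2]) (by linarith [ht.1])
    have h3 := Real.cos_le_cos_of_nonneg_of_le_pi (x := (Real.pi / 6 + t / 2) / 2)
      (y := Real.pi / 3) (by linarith [ht.1]) (by linarith) (by linarith [ht.2])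
    rw [Real.cos_pi_div_three] at h3
    have h4 := mul_le_mul h2 h3 (by norm_num) (le_trans (by linarith [ht.2]) h2)
    linarith [ht.2]
  a1 t _ := Real.abs_cos_le_one _
  a2 t _ := by
    obtain ⟨a, b⟩ := abs_le.1 (Real.abs_sin_le_one (t / 2))
    rw [abs_le]
    constructor <;> linarith
  e0 := by rw [show Real.pi / 3 / 2 = Real.pi / 6 by ring, Real.sin_pi_div_six]; ring
  e1 := by rw [show Real.pi / 3 / 2 = Real.pi / 6 by ring, Real.cos_pi_div_six]
  half := by simp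

theorem cos_ge {t : ℝ} (ht : t ∈ Icc 0 (2 * Real.pi / 3)) :
    1 + (2 * Real.pi / 3 - t) / 6 ≤ 2 * Real.cos (t / 2) := by
  have hp := Real.pi_gt_three
  have h1 := Real.cos_sub_cos (Real.pi / 3) (t / 2)
  rw [Real.cos_pi_div_three] at h1
  have h2 := sin_ge (x := (Real.pi / 3 - t / 2) / 2) (by linarith [ht.2]) (by linarith [ht.1])
  have h3 := Real.sin_le_sin_of_le_of_le_pi_div_two (x := Real.pi / 6)
    (y := (Real.pi / 3 + t / 2) / 2) (by linarith) (by linarith [ht.2]) (by linarith [ht.1])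
  rw [Real.sin_pi_div_six] at h3
  have h4 := mul_le_mul h3 h2 (by linarith [ht.2]) (le_trans (by norm_num) h3)
  linarith [ht.2]

theorem cos_pos {t : ℝ} (ht : t ∈ Icc 0 (2 * Real.pi / 3)) : 1 ≤ 2 * Real.cos (t / 2) := by
  linarith [cos_ge ht, ht.2]

theorem dA {t : ℝ} (ht : t ∈ Icc 0 (2 * Real.pi / 3)) :
    HasDerivAt (fun t => (2 * Real.cos (t / 2))⁻¹)
      (Real.sin (t / 2) * (2 * Real.cos (t / 2))⁻¹ ^ 2) t := by
  have h := cos_pos ht
  refine ((((hasDerivAt_id t).div_const 2).cos.const_mul 2).inv (by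
    simp only [id]; linarith)).congr_deriv ?_
  simp only [id, inv_pow]
  ring

theorem profA : Prof (2 * Real.pi / 3) (√3 / 2) (fun t => (2 * Real.cos (t / 2))⁻¹)
    (fun t => Real.sin (t / 2) * (2 * Real.cos (t / 2))⁻¹ ^ 2)
    (fun t => Real.cos (t / 2) / 2 * (2 * Real.cos (t / 2))⁻¹ ^ 2 +
      2 * Real.sin (t / 2) ^ 2 * (2 * Real.cos (t / 2))⁻¹ ^ 3) where
  b0 := by positivity
  b3 := by linarith [Real.pi_le_four]
  g0 := sqrt3.1
  g1 := sqrt3.2
  d1 t ht := dA ht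
  d2 t ht := (((hasDerivAt_id t).div_const 2).sin.mul ((dA ht).pow 2)).congr_deriv (by
    simp only [id, Pi.pow_apply]
    push_cast
    ring)
  c2 := by
    have : ContinuousOn (fun t => (2 * Real.cos (t / 2))⁻¹) (Icc 0 (2 * Real.pi / 3)) :=
      fun t ht => (dA ht).continuousAt.continuousWithinAt
    exact (ContinuousOn.mul (by fun_prop) (this.pow 2)).add
      (ContinuousOn.mul (by fun_prop) (this.pow 3))
  nn t ht := inv_nonneg.2 (by linarith [cos_pos ht])
  le t ht := by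
    have h1 := cos_ge ht
    have h2 := cos_pos ht
    have h3 : 0 ≤ 2 * Real.pi / 3 - t := sub_nonneg.2 ht.2
    have h4 : 2 * Real.pi / 3 - t ≤ 3 := by linarith [ht.1, Real.pi_le_four]
    rw [inv_eq_one_div, div_le_iff₀ (by linarith)]
    nlinarith
  a1 t ht := by
    have h2 := cos_pos ht
    rw [abs_mul, abs_of_nonneg (sq_nonneg (2 * Real.cos (t / 2))⁻¹)]
    exact mul_le_one₀ (Real.abs_sin_le_one _) (sq_nonneg _)
      (pow_le_one₀ (inv_nonneg.2 (by linarith)) (inv_le_one_of_one_le₀ h2))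
  a2 t ht := by
    have h2 := cos_pos ht
    have h3 : 0 ≤ (2 * Real.cos (t / 2))⁻¹ := inv_nonneg.2 (by linarith)
    have h4 := inv_le_one_of_one_le₀ h2
    have h5 : Real.cos (t / 2) / 2 * (2 * Real.cos (t / 2))⁻¹ ^ 2 ≤ 1 :=
      mul_le_one₀ (by linarith [Real.cos_le_one (t / 2)]) (sq_nonneg _) (pow_le_one₀ h3 h4)
    have h6 : Real.sin (t / 2) ^ 2 * (2 * Real.cos (t / 2))⁻¹ ^ 3 ≤ 1 :=
      mul_le_one₀ (Real.sin_sq_le_one _) (pow_nonneg h3 _) (pow_le_one₀ h3 h4)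
    rw [abs_of_nonneg (add_nonneg (mul_nonneg (by linarith) (sq_nonneg _)) (by positivity))]
    linarith
  e0 := by rw [show 2 * Real.pi / 3 / 2 = Real.pi / 3 by ring, Real.cos_pi_div_three]; norm_num
  e1 := by
    rw [show 2 * Real.pi / 3 / 2 = Real.pi / 3 by ring, Real.cos_pi_div_three,
      Real.sin_pi_div_three]
    norm_num
  half := by simp

theorem u_eq (t : ℝ) : -1 - exp (-(t * I)) = -(exp (-(t / 2 * I)) * (2 * Real.cos (t / 2) : ℝ)) := by
  push_cast
  rw [two_cos, mul_add, ← exp_add, ← exp_add]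
  simp only [neg_mul, neg_add_cancel, exp_zero]
  rw [show -(t / 2 * I) + -(t / 2 * I) = -(t * I) by ring]
  ring

theorem u_ne {t : ℝ} (ht : t ∈ Icc 0 (2 * Real.pi / 3)) : -1 - exp (-(t * I)) ≠ 0 := by
  rw [u_eq]
  exact neg_ne_zero.2 (mul_ne_zero (exp_ne_zero _) (ofReal_ne_zero.2 (by linarith [cos_pos ht])))

theorem polarA (x : ℤ) (μ : ℕ) (t : ℝ) : F (x, 1 - μ) t = (-1) ^ μ *
    (exp ((-x + μ / 2 : ℝ) * t * I) * ((2 * Real.cos (t / 2))⁻¹ ^ μ : ℝ)) := by
  simp only [F]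
  rw [show (1 - μ - 1 : ℤ) = -μ by ring, zpow_neg, zpow_natCast, ← inv_pow, u_eq, inv_neg, mul_inv,
    ← exp_neg, neg_pow, mul_pow, ← exp_int_mul, ← exp_nat_mul, ← ofReal_inv, ← ofReal_pow,
    show ((-x + μ / 2 : ℝ) : ℂ) * t * I = x * -(t * I) + μ * - -(t / 2 * I) by push_cast; ring,
    exp_add]
  ring

theorem polarB (x : ℤ) (μ : ℕ) (t : ℝ) : F (x, μ + 1) (Real.pi - t) = ((-1) ^ x * I ^ μ) *
    (exp ((x + μ / 2 : ℝ) * t * I) * ((2 * Real.sin (t / 2)) ^ μ : ℝ)) := by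
  have e1 : exp (-((Real.pi - t : ℝ) * I)) = -1 * exp (t * I) := by
    rw [show -(((Real.pi - t : ℝ) : ℂ) * I) = t * I - Real.pi * I by push_cast; ring, exp_sub,
      exp_pi_mul_I]
    ring
  have e2 : -1 - -1 * exp (t * I) = I * (exp (t / 2 * I) * (2 * Real.sin (t / 2) : ℝ)) := by
    have h1 : exp (t / 2 * I) * exp (-(t / 2) * I) = 1 := by rw [← exp_add]; simp
    have h2 : exp (t / 2 * I) * exp (t / 2 * I) = exp (t * I) := by
      rw [← exp_add]; congr 1; ring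
    push_cast
    rw [two_sin]
    linear_combination h1 - h2 - (exp (t / 2 * I) * (exp (-(t / 2) * I) - exp (t / 2 * I))) * I_mul_I
  simp only [F]
  rw [add_sub_cancel_right, zpow_natCast, e1, e2, mul_zpow, mul_pow, mul_pow, ← exp_int_mul,
    ← exp_nat_mul, ← ofReal_pow,
    show ((x + μ / 2 : ℝ) : ℂ) * t * I = x * (t * I) + μ * (t / 2 * I) by push_cast; ring, exp_add]
  ring

theorem F_end (p : Pt) : F p (2 * Real.pi / 3) = tau ^ (p.2 - p.1 - 1) := by
  have e : exp (-((2 * Real.pi / 3 : ℝ) * I)) = tau ^ (2 : ℤ) := by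
    rw [tau_zpow_eq (x := 2) (y := -1) ⟨1, by norm_num⟩, zpow_neg_one, tau, ← exp_neg]
    congr 1
    push_cast
    ring
  have e2 : -1 - tau ^ (2 : ℤ) = tau := by rw [zpow_two, ← sq, tau_sq]; ring
  rw [F, e, e2, ← zpow_mul, ← zpow_add₀ tau_ne_zero]
  exact tau_zpow_eq ⟨p.1, by ring⟩

theorem est (p : Pt) : |A p| ≤ 1 ∧ ∀ ζ : ℂ, ζ = p.1 - (p.2 - 1) * tau → ζ ≠ 0 →
    |A p - (tau ^ (p.2 - p.1 - 1) / ζ).im / Real.pi| ≤ 90003 / ‖ζ‖ ^ 2 := by
  have hp := Real.pi_gt_three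
  have fin : ∀ {u v w : ℝ}, 0 ≤ w → |u - v| ≤ w → |u / Real.pi - v / Real.pi| ≤ w :=
    fun {u v w} hw h => by
      rw [← sub_div, abs_div, abs_of_pos Real.pi_pos, div_le_iff₀ Real.pi_pos]
      nlinarith
  obtain ⟨x, y⟩ := p
  by_cases hy : 1 ≤ y
  · obtain ⟨μ, rfl⟩ : ∃ μ : ℕ, y = μ + 1 := ⟨(y - 1).toNat, by omega⟩
    have e : A (x, μ + 1) =
        (∫ t in (0 : ℝ)..(Real.pi / 3), F (x, μ + 1) (Real.pi - t)).re / Real.pi := by
      rw [A, if_pos hy, integral_comp_sub_left (F (x, μ + 1)), sub_zero,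
        show Real.pi - Real.pi / 3 = 2 * Real.pi / 3 by ring]
    obtain ⟨h1, h2⟩ := profB.main μ (x + μ / 2) (ω := (-1) ^ x * I ^ μ) (by simp) (by
      rcases μ with _ | μ
      · rcases Int.even_or_odd x with h | h
        · simp [h.neg_one_zpow]
        · simp [h.neg_one_zpow]
      · simp) fun t _ => polarB x μ t
    refine ⟨?_, fun ζ hζ h0 => ?_⟩
    · rw [e, abs_div, abs_of_pos Real.pi_pos, div_le_one Real.pi_pos]
      linarith
    · have h3 := h2 (I * ζ) (by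
        rw [hζ, tau_eq, Complex.ext_iff]
        constructor
        · simp
        · simp; ring) (mul_ne_zero I_ne_zero h0)
      rw [norm_mul, norm_I, one_mul, show Real.pi - Real.pi / 3 = 2 * Real.pi / 3 by ring,
        F_end, mul_comm I, ← div_div, div_I, neg_re, mul_I_re, neg_neg] at h3
      rw [e]
      exact fin (by positivity) h3
  · obtain ⟨μ, rfl⟩ : ∃ μ : ℕ, y = 1 - μ := ⟨(1 - y).toNat, by omega⟩
    have e : A (x, 1 - μ) =
        -(∫ t in (0 : ℝ)..(2 * Real.pi / 3), F (x, 1 - μ) t).re / Real.pi := by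
      rw [A, if_neg hy, integral_symm, neg_re]
    obtain ⟨h1, h2⟩ := profA.main μ (-x + μ / 2) (ω := (-1) ^ μ) (by simp) (by
      rcases Nat.even_or_odd μ with h | h
      · simp [h.neg_one_pow]
      · simp [h.neg_one_pow]) fun t _ => polarA x μ t
    refine ⟨?_, fun ζ hζ h0 => ?_⟩
    · rw [e, abs_div, abs_neg, abs_of_pos Real.pi_pos, div_le_one Real.pi_pos]
      linarith
    · have h3 := h2 (-(ζ * I)) (by
        rw [hζ, tau_eq, Complex.ext_iff]
        constructor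
        · simp
        · simp; ring) (neg_ne_zero.2 (mul_ne_zero h0 I_ne_zero))
      rw [norm_neg, norm_mul, norm_I, mul_one, F_end, div_neg, ← div_div, div_I, neg_neg,
        mul_I_re, ← abs_neg, neg_sub', neg_neg] at h3
      rw [e]
      exact fin (by positivity) h3

theorem norm_zeta (p : Pt) : 3 / 4 * ‖p‖ ≤ ‖(p.1 : ℂ) - p.2 * tau‖ := by
  refine (abs_le_of_sq_le_sq' ?_ (norm_nonneg _)).2
  rw [normSq_zeta, norm_pt, mul_pow]
  rcases le_total |(p.1 : ℝ)| |(p.2 : ℝ)| with h | h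
  · rw [max_eq_right h, sq_abs]
    nlinarith [sq_nonneg (2 * (p.1 : ℝ) + p.2), sq_nonneg (p.2 : ℝ)]
  · rw [max_eq_left h, sq_abs]
    nlinarith [sq_nonneg (2 * (p.2 : ℝ) + p.1), sq_nonneg (p.1 : ℝ)]

theorem one_le_norm {p : Pt} (hp : p ≠ 0) : 1 ≤ ‖p‖ := by
  have := norm_pos_iff.2 hp
  rw [norm_eq_nn] at this ⊢
  exact_mod_cast this

theorem main_le (k : ℤ) (ζ : ℂ) : |(tau ^ k * ζ).im / Real.pi| ≤ ‖ζ‖ := by
  have := abs_im_le_norm (tau ^ k * ζ)
  rw [norm_mul, norm_zpow, norm_tau, one_zpow, one_mul] at this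
  rw [abs_div, abs_of_pos Real.pi_pos]
  exact (div_le_self (abs_nonneg _) (by linarith [Real.pi_gt_three])).trans this

theorem main_le' {p : Pt} (hp : p ≠ 0) :
    |(tau ^ (p.2 - p.1 - 1) / ((p.1 : ℂ) - p.2 * tau)).im / Real.pi| ≤ 2 / ‖p‖ := by
  have h1 := one_le_norm hp
  have h2 := norm_zeta p
  rw [div_eq_mul_inv (tau ^ _)]
  refine (main_le _ _).trans ?_
  rw [norm_inv, inv_eq_one_div, div_le_div_iff₀ (by linarith) (by linarith)]
  linarith

theorem asym {p : Pt} (hp : p ≠ 0) :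
    |A p - (tau ^ (p.2 - p.1 - 1) / ((p.1 : ℂ) - p.2 * tau)).im / Real.pi| ≤ 400000 / ‖p‖ ^ 2 := by
  have h1 := one_le_norm hp
  have h2 := norm_zeta p
  obtain ⟨h3, h4⟩ := est p
  rcases le_total ‖p‖ 4 with h | h
  · have h5 : 2 / ‖p‖ ≤ 2 := div_le_self zero_le_two h1
    refine ((abs_sub _ _).trans (add_le_add h3 ((main_le' hp).trans h5))).trans ?_
    rw [le_div_iff₀ (by positivity)]
    nlinarith
  · set ζ : ℂ := (p.1 : ℂ) - p.2 * tau with hζ
    have h5 : ‖p‖ / 2 ≤ ‖ζ + tau‖ := by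
      have := norm_sub_le (ζ + tau) tau
      rw [add_sub_cancel_right, norm_tau] at this
      linarith
    have z0 : ζ ≠ 0 := norm_pos_iff.1 (by linarith)
    have z1 : ζ + tau ≠ 0 := norm_pos_iff.1 (by linarith)
    have h6 := h4 (ζ + tau) (by rw [hζ]; ring) z1
    have h7 : (90003 : ℝ) / ‖ζ + tau‖ ^ 2 ≤ 360012 / ‖p‖ ^ 2 := by
      rw [div_le_div_iff₀ (by positivity) (by positivity)]
      nlinarith
    have h8 := main_le (p.2 - p.1 - 1) (-tau / ((ζ + tau) * ζ))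
    have e : tau ^ (p.2 - p.1 - 1) * (-tau / ((ζ + tau) * ζ)) =
        tau ^ (p.2 - p.1 - 1) / (ζ + tau) - tau ^ (p.2 - p.1 - 1) / ζ := by
      field_simp
      ring
    rw [e, sub_im, sub_div, norm_div, norm_neg, norm_tau, norm_mul] at h8
    have h9 : 1 / (‖ζ + tau‖ * ‖ζ‖) ≤ 4 / ‖p‖ ^ 2 := by
      rw [div_le_div_iff₀ (by positivity) (by positivity)]
      nlinarith [mul_le_mul h5 h2 (by positivity) (norm_nonneg _)]
    refine (abs_sub_le _ _ _).trans ((add_le_add (h6.trans h7) (h8.trans h9)).trans ?_)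
    rw [← add_div]
    exact div_le_div_of_nonneg_right (by norm_num) (by positivity)

theorem bound (p : Pt) : |A p| ≤ 1000000 / (1 + ‖p‖) := by
  by_cases hp : p = 0
  · refine (est p).1.trans ?_
    rw [hp, norm_zero]
    norm_num
  have h1 := one_le_norm hp
  have h2 := abs_add_le (A p - (tau ^ (p.2 - p.1 - 1) / ((p.1 : ℂ) - p.2 * tau)).im / Real.pi)
    ((tau ^ (p.2 - p.1 - 1) / ((p.1 : ℂ) - p.2 * tau)).im / Real.pi)
  rw [sub_add_cancel] at h2
  have h3 : (400000 : ℝ) / ‖p‖ ^ 2 ≤ 400000 / ‖p‖ :=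
    div_le_div_of_nonneg_left (by norm_num) (by linarith) (by nlinarith)
  refine (h2.trans (add_le_add ((asym hp).trans h3) (main_le' hp))).trans ?_
  rw [← add_div, div_le_div_iff₀ (by linarith) (by linarith)]
  linarith

theorem cont_z (x : ℤ) : Continuous fun s : ℝ => exp (-(s * I)) ^ x :=
  Continuous.zpow₀ (by fun_prop) x fun _ => Or.inl (exp_ne_zero _)

theorem re_int (x : ℤ) (a b : ℝ) : (∫ s in a..b, exp (-(s * I)) ^ x).re =
    if x = 0 then b - a else (Real.sin (x * b) - Real.sin (x * a)) / x := by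
  split_ifs with h
  · simp [h]
  have e := reCLM.intervalIntegral_comp_comm ((cont_z x).intervalIntegrable (μ :=
    MeasureTheory.volume) a b)
  have e2 : ∀ s : ℝ, reCLM (exp (-(s * I)) ^ x) = Real.cos (x * s) := fun s => by
    rw [← exp_int_mul, show (x : ℂ) * -(s * I) = (-(x * s) : ℝ) * I by push_cast; ring,
      reCLM_apply, exp_ofReal_mul_I_re, Real.cos_neg]
  simp only [e2] at e
  rw [← reCLM_apply, ← e, integral_comp_mul_left Real.cos (Int.cast_ne_zero.2 h), integral_cos,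
    smul_eq_mul, inv_mul_eq_div]

theorem intF (p : Pt) : IntervalIntegrable (F p) MeasureTheory.volume (2 * Real.pi / 3)
    (if 1 ≤ p.2 then Real.pi else 0) := by
  split_ifs with h
  · exact ((cont_z p.1).mul (Continuous.zpow₀ (by fun_prop) _
      fun _ => Or.inr (by omega))).intervalIntegrable _ _
  · exact (((cont_z p.1).continuousOn.mul (ContinuousOn.zpow₀ (by fun_prop) _
      fun t ht => Or.inl (u_ne ht))).intervalIntegrable_of_Icc (by positivity)).symm

theorem row_int (k : ℤ) : A (k, 1) =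
    (∫ s in (2 * Real.pi / 3)..Real.pi, exp (-(s * I)) ^ k).re / Real.pi := by
  simp [A, F]

theorem sum_eq (p : Pt) : ∑ j, A (p + eps j) = if p = 0 then 1 else 0 := by
  obtain ⟨x, y⟩ := p
  have i1 := intF (x, y)
  have i2 := intF (x + 1, y)
  have i3 := intF (x, y + 1)
  rw [Fin.sum_univ_three, eps_zero, eps_one, eps_two, add_zero, Prod.mk_add_mk, Prod.mk_add_mk,
    add_zero, add_zero]
  by_cases hy : y = 0
  · subst hy
    have e : A (x, 0) + A (x + 1, 0) =
        (∫ s in (0 : ℝ)..(2 * Real.pi / 3), exp (-(s * I)) ^ x).re / Real.pi := by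
      simp only [A, ← add_div, ← add_re]
      rw [← integral_add i1 i2, if_neg (by norm_num), integral_symm,
        ← intervalIntegral.integral_neg]
      congr 2
      refine integral_congr fun t ht => ?_
      rw [uIcc_of_le (by positivity)] at ht
      have := u_ne ht
      simp only [F, zpow_add_one₀ (exp_ne_zero _), zero_sub, zpow_neg_one]
      field_simp
      ring
    rw [e, zero_add, row_int, ← add_div, ← add_re, integral_add_adjacent_intervals
      ((cont_z x).intervalIntegrable _ _) ((cont_z x).intervalIntegrable _ _), re_int]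
    by_cases hx : x = 0
    · simp [hx, Real.pi_ne_zero]
    · simp [hx]
  · have hif : (if 1 ≤ y + 1 then Real.pi else 0) = if 1 ≤ y then Real.pi else 0 :=
      if_congr (by omega) rfl rfl
    simp only [hif] at i3
    simp only [A, hif, ← add_div, ← add_re]
    rw [← integral_add i1 i2, ← integral_add (i1.add i2) i3]
    have : ∀ s, F (x, y) s + F (x + 1, y) s + F (x, y + 1) s = 0 := fun s => by
      simp only [F, zpow_add_one₀ (exp_ne_zero _)]
      rw [show y + 1 - 1 = y - 1 + 1 by ring, zpow_add' (Or.inr (Or.inl (by omega))), zpow_one]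
      ring
    simp [this, hy]

theorem row (k : ℤ) : A (k, 1) = sinK k := by
  rw [row_int, re_int, sinK]
  split_ifs with h
  · field_simp
    norm_num
  · rw [Real.sin_int_mul_pi, show (k : ℝ) * (2 * Real.pi / 3) = 2 * Real.pi * k / 3 by ring]
    field_simp
    ring

end Ker

theorem ker : KerStmt :=
  ⟨Ker.A, 1000000, Ker.sum_eq, Ker.bound, fun _ hp => (Ker.asym hp).trans
    (div_le_div_of_nonneg_right (by norm_num) (by positivity)), Ker.row⟩

end Pool.Agent.Lib.MP_60c5b4_pr.H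
end
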