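import Pool.Agent.Lib.MP_60c5b4_pr.H.Sign

-- part Pool.Agent.Lib.MP_60c5b4_pr.H.Obs
section

/-!
Smooth test functions and their comparison with the row observable.
-/

namespace Pool.Agent.Lib.MP_60c5b4_pr.H

open Finset Filter Topology Complex
open scoped ContDiff

namespace Obs

/-! ### One variable calculus -/

theorem lip {f : ℝ → ℝ} {M : ℝ} (hf : Differentiable ℝ f) (h : ∀ x, |deriv f x| ≤ M) (a b : ℝ) :
    |f a - f b| ≤ M * |a - b| :=
  convex_univ.norm_image_sub_le_of_norm_deriv_le (fun x _ => hf x) (fun x _ => h x)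
    (Set.mem_univ b) (Set.mem_univ a)

theorem mvt {f f' : ℝ → ℝ} {b C : ℝ} (hf : ∀ x, HasDerivAt f (f' x) x) (h0 : f 0 = 0)
    (hC : ∀ x ∈ Set.Icc 0 b, |f' x| ≤ C) : ∀ x ∈ Set.Icc 0 b, |f x| ≤ C * x := fun x hx => by
  have := norm_image_sub_le_of_norm_deriv_le_segment' (f := f) (f' := f') (a := 0) (b := b)
    (C := C) (fun y _ => (hf y).hasDerivWithinAt) (fun y hy => hC y (Set.Ico_subset_Icc_self hy))
    x hx
  simpa [h0] using this

theorem midpoint_rule {f : ℝ → ℝ} {M : ℝ} (h0 : Differentiable ℝ f)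
    (h1 : Differentiable ℝ (deriv f)) (h2 : Differentiable ℝ (deriv (deriv f)))
    (h : ∀ x, |deriv (deriv (deriv f)) x| ≤ M) (s : ℝ) {t : ℝ} (ht : 0 ≤ t) :
    |f (s + t / 2) - f (s - t / 2) - t * deriv f s| ≤ M * t ^ 3 := by
  have hM : 0 ≤ M := (abs_nonneg _).trans (h 0)
  have dp : ∀ {g : ℝ → ℝ}, Differentiable ℝ g → ∀ u,
      HasDerivAt (fun u => g (s + u)) (deriv g (s + u)) u := fun hg u =>
    (hg (s + u)).hasDerivAt.comp_const_add s u
  have dm : ∀ {g : ℝ → ℝ}, Differentiable ℝ g → ∀ u,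
      HasDerivAt (fun u => g (s - u)) (-deriv g (s - u)) u := fun hg u =>
    (hg (s - u)).hasDerivAt.comp_const_sub s u
  have a1 := mvt (f := fun u => deriv f (s + u) + deriv f (s - u) - 2 * deriv f s)
    (f' := fun u => deriv (deriv f) (s + u) - deriv (deriv f) (s - u)) (b := t / 2) (C := M * t)
    (fun u => ((dp h1 u).add (dm h1 u)).sub_const _) (by simp; ring) fun u hu => by
      refine (lip h2 h _ _).trans (mul_le_mul_of_nonneg_left ?_ hM)
      rw [show s + u - (s - u) = 2 * u by ring, abs_of_nonneg (by linarith [hu.1])]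
      linarith [hu.2]
  have a2 := mvt (f := fun u => f (s + u) - f (s - u) - 2 * deriv f s * u)
    (f' := fun u => deriv f (s + u) + deriv f (s - u) - 2 * deriv f s) (b := t / 2)
    (C := M * t * t)
    (fun u => (((dp h0 u).sub (dm h0 u)).sub
      ((hasDerivAt_id u).const_mul (2 * deriv f s))).congr_deriv (by ring)) (by simp) (fun u hu =>
      (a1 u hu).trans (mul_le_mul_of_nonneg_left (by linarith [hu.2]) (by positivity)))
    (t / 2) ⟨by linarith, le_rfl⟩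
  rw [show t * deriv f s = 2 * deriv f s * (t / 2) by ring]
  refine a2.trans ?_
  have : 0 ≤ M * t ^ 3 := by positivity
  nlinarith

/-- A smooth step from `0` to `1` on `[a, b]`. -/
structure Step (f : ℝ → ℝ) (a b : ℝ) : Prop where
  cd : ContDiff ℝ ∞ f
  left : ∀ s, s ≤ a → f s = 0
  right : ∀ s, b ≤ s → f s = 1

theorem Step.deriv_zero {f : ℝ → ℝ} {a b : ℝ} (h : Step f a b) {s : ℝ} (hs : s ∉ Set.Icc a b) :
    deriv f s = 0 := by
  rw [Set.mem_Icc, not_and_or, not_le, not_le] at hs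
  rcases hs with hs | hs
  · have : f =ᶠ[𝓝 s] fun _ => 0 := by
      filter_upwards [Iio_mem_nhds hs] with y hy using h.left y (le_of_lt hy)
    rw [this.deriv_eq, deriv_const]
  · have : f =ᶠ[𝓝 s] fun _ => 1 := by
      filter_upwards [Ioi_mem_nhds hs] with y hy using h.right y (le_of_lt hy)
    rw [this.deriv_eq, deriv_const]

theorem cd_deriv {f : ℝ → ℝ} (h : ContDiff ℝ ∞ f) : ContDiff ℝ ∞ (deriv f) :=
  (contDiff_infty_iff_deriv.1 h).2

theorem cd_diff {f : ℝ → ℝ} (h : ContDiff ℝ ∞ f) : Differentiable ℝ f :=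
  (contDiff_infty_iff_deriv.1 h).1

theorem Step.bounds {f : ℝ → ℝ} {a b : ℝ} (h : Step f a b) : ∃ M : ℝ, 0 ≤ M ∧
    (∀ s, |deriv f s| ≤ M) ∧ (∀ s t, |f s - f t| ≤ M * |s - t|) ∧
    ∀ s t, 0 ≤ t → |f (s + t / 2) - f (s - t / 2) - t * deriv f s| ≤ M * t ^ 3 := by
  have c1 : HasCompactSupport (deriv f) :=
    HasCompactSupport.intro isCompact_Icc fun _ hs => h.deriv_zero hs
  have d1 := cd_deriv h.cd
  have d2 := cd_deriv d1
  have d3 := cd_deriv d2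
  obtain ⟨M1, hM1⟩ := c1.exists_bound_of_continuous d1.continuous
  obtain ⟨M3, hM3⟩ := c1.deriv.deriv.exists_bound_of_continuous d3.continuous
  have e1 : ∀ s, |deriv f s| ≤ max M1 M3 := fun s => (hM1 s).trans (le_max_left _ _)
  exact ⟨max M1 M3, (abs_nonneg _).trans (e1 0), e1, lip (cd_diff h.cd) e1, fun s t ht =>
    midpoint_rule (cd_diff h.cd) (cd_diff d1) (cd_diff d2)
      (fun x => (hM3 x).trans (le_max_right _ _)) s ht⟩

theorem step_smooth : Step Real.smoothTransition 0 1 :=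
  ⟨Real.smoothTransition.contDiff, fun _ => Real.smoothTransition.zero_of_nonpos,
    fun _ => Real.smoothTransition.one_of_one_le⟩

theorem arctan_lip (a b : ℝ) : |Real.arctan a - Real.arctan b| ≤ |a - b| := by
  have := lip (M := 1) Real.differentiable_arctan (fun x => by
    rw [Real.deriv_arctan, abs_of_pos (by positivity), div_le_one (by positivity)]
    nlinarith [sq_nonneg x]) a b
  rwa [one_mul] at this

theorem arctan_tail {s : ℝ} (hs : 0 < s) : |Real.pi / 2 - Real.arctan s| ≤ 1 / s := by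
  have := arctan_lip s⁻¹ 0
  rwa [Real.arctan_inv_of_pos hs, Real.arctan_zero, sub_zero, sub_zero,
    abs_of_pos (inv_pos.2 hs), ← one_div] at this

theorem exists_profile {L : ℝ} (hL : 1 ≤ L) : ∃ Φ : ℝ → ℝ, Step Φ (-(2 * L)) (2 * L) ∧
    (∀ s, |s| ≤ 3 * L / 2 → 2 * Real.pi * Φ s = Real.pi + 2 * Real.arctan s) ∧
    ∀ s, |2 * Real.pi * Φ s - (Real.pi + 2 * Real.arctan s)| ≤ 4 / (3 * L) := by
  let χ : ContDiffBump (0 : ℝ) := ⟨3 * L / 2, 2 * L, by linarith, by linarith⟩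
  have hπ := Real.pi_pos
  have h1 : ∀ s, |s| ≤ 3 * L / 2 → χ s = 1 := fun s hs =>
    χ.one_of_mem_closedBall (by simpa using hs)
  have h0 : ∀ s, 2 * L ≤ |s| → χ s = 0 := fun s hs => χ.zero_of_le_dist (by simpa using hs)
  have key : ∀ s, 2 * Real.pi * (χ s * (1 / 2 + Real.arctan s / Real.pi) +
      (1 - χ s) * Real.smoothTransition s) - (Real.pi + 2 * Real.arctan s) =
      (1 - χ s) * (2 * Real.pi * Real.smoothTransition s - (Real.pi + 2 * Real.arctan s)) :=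
    fun s => by field_simp; ring
  have near : ∀ s, |s| ≤ 3 * L / 2 → 2 * Real.pi * (χ s * (1 / 2 + Real.arctan s / Real.pi) +
      (1 - χ s) * Real.smoothTransition s) = Real.pi + 2 * Real.arctan s := fun s hs => by
    rw [← sub_eq_zero, key, h1 s hs, sub_self, zero_mul]
  refine ⟨fun s => χ s * (1 / 2 + Real.arctan s / Real.pi) + (1 - χ s) * Real.smoothTransition s,
    ⟨?_, fun s hs => ?_, fun s hs => ?_⟩, near, fun s => ?_⟩
  · exact (χ.contDiff.mul (contDiff_const.add (Real.contDiff_arctan.div_const _))).add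
      ((contDiff_const.sub χ.contDiff).mul Real.smoothTransition.contDiff)
  · rw [h0 s (by rw [abs_of_neg (by linarith)]; linarith),
      Real.smoothTransition.zero_of_nonpos (by linarith)]
    ring
  · rw [h0 s (by rw [abs_of_pos (by linarith)]; linarith),
      Real.smoothTransition.one_of_one_le (by linarith)]
    ring
  · rcases le_or_gt |s| (3 * L / 2) with hs | hs
    · rw [near s hs, sub_self, abs_zero]
      positivity
    have h2 : 1 / |s| ≤ 2 / (3 * L) := by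
      rw [div_le_div_iff₀ (by linarith) (by linarith)]
      linarith
    have h3 : |2 * Real.pi * Real.smoothTransition s - (Real.pi + 2 * Real.arctan s)| ≤
        2 * (1 / |s|) := by
      rcases le_or_gt 0 s with h | h
      · rw [abs_of_nonneg h] at hs ⊢
        rw [Real.smoothTransition.one_of_one_le (by linarith),
          show 2 * Real.pi * 1 - (Real.pi + 2 * Real.arctan s) =
            2 * (Real.pi / 2 - Real.arctan s) by ring, abs_mul, abs_two]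
        linarith [arctan_tail (show 0 < s by linarith)]
      · rw [abs_of_neg h] at hs ⊢
        rw [Real.smoothTransition.zero_of_nonpos h.le,
          show 2 * Real.pi * 0 - (Real.pi + 2 * Real.arctan s) =
            -2 * (Real.pi / 2 - Real.arctan (-s)) by rw [Real.arctan_neg]; ring, abs_mul, abs_neg,
          abs_two]
        linarith [arctan_tail (show 0 < -s by linarith)]
    rw [key, abs_mul]
    have h4 : |1 - χ s| ≤ 1 := by
      rw [abs_of_nonneg (by linarith [χ.le_one (x := s)])]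
      linarith [χ.nonneg (x := s)]
    refine (mul_le_of_le_one_left (abs_nonneg _) h4).trans (h3.trans ?_)
    rw [show 4 / (3 * L) = 2 * (2 / (3 * L)) by ring]
    linarith

/-! ### The test function -/

theorem cd_xi : ContDiff ℝ ∞ xi :=
  reCLM.contDiff.sub (contDiff_const.mul imCLM.contDiff)

theorem cd_ups : ContDiff ℝ ∞ ups :=
  reCLM.contDiff.add (contDiff_const.mul imCLM.contDiff)

theorem norm_le_xi_ups (z : ℂ) : ‖z‖ ≤ |xi z| + |ups z| := by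
  have h3 : (1 : ℝ) ≤ Real.sqrt 3 := Real.one_le_sqrt.2 (by norm_num)
  have h1 : |z.re| ≤ (|xi z| + |ups z|) / 2 := by
    rw [show z.re = (xi z + ups z) / 2 by unfold xi ups; ring, abs_div, abs_two]
    linarith [abs_add_le (xi z) (ups z)]
  have h2 : |Real.sqrt 3 * z.im| ≤ (|xi z| + |ups z|) / 2 := by
    rw [show Real.sqrt 3 * z.im = (ups z - xi z) / 2 by unfold xi ups; ring, abs_div, abs_two]
    linarith [abs_sub (ups z) (xi z)]
  rw [abs_mul, abs_of_pos (by linarith)] at h2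
  have h4 := le_mul_of_one_le_left (abs_nonneg z.im) h3
  linarith [norm_le_abs_re_add_abs_im z]

theorem tst_ne {Φ : ℝ → ℝ} {L : ℝ} (hΦ : Step Φ (-(2 * L)) (2 * L)) {lam r e x₀ y₀ : ℝ} {z : ℂ}
    (h : tst Φ lam r e x₀ y₀ z ≠ 0) :
    (xi z - x₀) / r ∈ Set.Icc (-(2 * L)) (2 * L) ∧ (ups z - y₀) / e ∈ Set.Icc (0 : ℝ) 1 := by
  constructor
  · by_contra h'
    exact h (by rw [tst, hΦ.deriv_zero h', mul_zero, zero_mul])
  · by_contra h'
    exact h (by rw [tst, step_smooth.deriv_zero h', mul_zero])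

theorem isTest {Φ : ℝ → ℝ} {L : ℝ} (hΦ : Step Φ (-(2 * L)) (2 * L)) (lam : ℝ) {r e x₀ y₀ : ℝ}
    (hr : 0 < r) (he : 0 < e) {Ω : Set ℂ}
    (hΩ : ∀ z, |xi z - x₀| ≤ 2 * L * r → |ups z - y₀| ≤ e → z ∈ Ω) :
    IsTest Ω (tst Φ lam r e x₀ y₀) := by
  set K : Set ℂ := {z | |xi z - x₀| ≤ 2 * L * r ∧ |ups z - y₀| ≤ e} with hK
  have hc : IsClosed K :=
    (isClosed_le (cd_xi.continuous.sub continuous_const).abs continuous_const).inter
      (isClosed_le (cd_ups.continuous.sub continuous_const).abs continuous_const)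
  have hb : Bornology.IsBounded K := by
    refine isBounded_iff_forall_norm_le.2 ⟨|x₀| + 2 * L * r + (|y₀| + e), fun z hz => ?_⟩
    have h1 := abs_sub_abs_le_abs_sub (xi z) x₀
    have h2 := abs_sub_abs_le_abs_sub (ups z) y₀
    linarith [norm_le_xi_ups z, hz.1, hz.2]
  have hs : Function.support (tst Φ lam r e x₀ y₀) ⊆ K := fun z hz => by
    obtain ⟨⟨h1, h2⟩, h3, h4⟩ := tst_ne hΦ hz
    rw [le_div_iff₀ hr] at h1
    rw [div_le_iff₀ hr] at h2
    rw [le_div_iff₀ he] at h3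
    rw [div_le_iff₀ he] at h4
    exact ⟨abs_le.2 ⟨by linarith, h2⟩, abs_le.2 ⟨by linarith, by linarith⟩⟩
  have ht : tsupport (tst Φ lam r e x₀ y₀) ⊆ K := closure_minimal hs hc
  refine ⟨?_, (Metric.isCompact_of_isClosed_isBounded hc hb).of_isClosed_subset
    (isClosed_tsupport _) ht, fun z hz => hΩ z (ht hz).1 (ht hz).2⟩
  exact (contDiff_const.mul ((cd_deriv hΦ.cd).comp ((cd_xi.sub contDiff_const).div_const r))).mul
    ((cd_deriv step_smooth.cd).comp ((cd_ups.sub contDiff_const).div_const e))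

/-! ### The discrete comparison -/

theorem tele (F : ℤ → ℝ) (a : ℤ) (N : ℕ) :
    ∑ x ∈ Finset.Ico a (a + N), (F (x + 1) - F x) = F (a + N) - F a := by
  induction N with
  | zero => simp
  | succ N ih =>
    have e : Finset.Ico a (a + ((N + 1 : ℕ) : ℤ)) = insert (a + N) (Finset.Ico a (a + N)) := by
      ext x
      simp only [Finset.mem_Ico, Finset.mem_insert]
      omega
    rw [e, Finset.sum_insert (by simp), ih, Nat.cast_succ, ← add_assoc]
    ring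

theorem tele_seg (F : ℤ → ℝ) (l : ℕ) :
    ∑ x ∈ seg l, (F (x + 1) - F x) = F (2 * l + 1) - F (-2 * l) := by
  have e : seg l = Finset.Ico (-2 * l : ℤ) (-2 * l + ((4 * l + 1 : ℕ) : ℤ)) := by
    ext x
    rw [mem_seg, Finset.mem_Ico]
    omega
  rw [e, tele]
  congr 2
  push_cast
  ring

theorem exp_lip (a b : ℝ) : ‖exp (I * a) - exp (I * b)‖ ≤ |a - b| := by
  have e : exp (I * a) - exp (I * b) = exp (I * b) * (exp (I * ((a - b : ℝ) : ℂ)) - 1) := by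
    rw [mul_sub, ← Complex.exp_add, mul_one]
    congr 2
    push_cast
    ring
  rw [e, norm_mul, norm_exp_I_mul_ofReal, one_mul]
  exact Real.norm_exp_I_mul_ofReal_sub_one_le

variable {W B : Finset Pt} {a : Pt → Fin 3 → ℝ}

theorem height_mem {R : ℝ} (hR : ∀ y, ((W.filter fun w => w.2 = y).card : ℝ) ≤ R) (m : Cfg)
    (f : Pt) : 0 ≤ height W m f ∧ height W m f ≤ R := by
  refine ⟨Nat.cast_nonneg _, le_trans ?_ (hR f.2)⟩
  exact Nat.cast_le.2 (card_le_card (monotone_filter_right _ fun _ _ h => h.1))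

theorem cheight_abs (hG : Good W B a) {R : ℝ}
    (hR : ∀ y, ((W.filter fun w => w.2 = y).card : ℝ) ≤ R) (m : Cfg) (f : Pt) :
    |cheight W B a m f| ≤ R := by
  have h1 := hG.dmean_mono (F := fun _ => 0) fun m' _ => (height_mem hR m' f).1
  have h2 := hG.dmean_mono (F' := fun _ => R) fun m' _ => (height_mem hR m' f).2
  rw [hG.dmean_const] at h1 h2
  have h3 := height_mem hR m f
  unfold cheight
  exact abs_le.2 ⟨by linarith [h3.1], by linarith [h3.2]⟩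

/-- The row observable as the exponential of a weighted sum of heights. -/
theorem rowT_eq {z : Pt} {l : ℕ} (hW : ∀ x ∈ seg l, z + (x, 0) ∈ W) {Θ : ℤ → ℝ}
    (hl : Θ (-2 * l) = 0) (hr : Θ (2 * l + 1) = 2 * Real.pi) (m : Cfg) :
    rowT z l Θ m =
      exp (I * ((-∑ x ∈ seg l, (Θ (x + 1) - Θ x) * height W m (z + (x, 0)) : ℝ) : ℂ)) := by
  have h1 := tele_seg (fun x => Θ x * height W m (z + (x - 1, 0))) l
  have h2 : ∀ x : ℤ, Θ (x + 1) * height W m (z + (x + 1 - 1, 0)) - Θ x * height W m (z + (x - 1, 0))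
      = (Θ (x + 1) - Θ x) * height W m (z + (x, 0)) + Θ x * eta W m (z + (x, 0)) 2 := fun x => by
    have e : z + (x, 0) - (1, 0) = z + (x - 1, 0) := by ext <;> simp; ring
    rw [← height_incr_two, e, add_sub_cancel_right]
    ring
  simp only [h2, Finset.sum_add_distrib, hl, hr, zero_mul, sub_zero] at h1
  obtain ⟨N, hN⟩ : ∃ N : ℕ, height W m (z + (2 * (l : ℤ) + 1 - 1, 0)) = N := ⟨_, rfl⟩
  rw [hN] at h1
  rw [show -∑ x ∈ seg l, (Θ (x + 1) - Θ x) * height W m (z + (x, 0)) =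
    ∑ x ∈ seg l, Θ x * eta W m (z + (x, 0)) 2 - 2 * Real.pi * N by linarith]
  have h3 : I * ((∑ x ∈ seg l, Θ x * eta W m (z + (x, 0)) 2 - 2 * Real.pi * N : ℝ) : ℂ) =
      ∑ x ∈ seg l, I * (Θ x * eta W m (z + (x, 0)) 2) - N * (2 * Real.pi * I) := by
    rw [← Finset.mul_sum]
    push_cast
    ring
  rw [h3, Complex.exp_sub, exp_nat_mul_two_pi_mul_I, div_one, Complex.exp_sum]
  refine Finset.prod_congr rfl fun x hx => ?_
  unfold eta
  by_cases h : m (z + (x, 0)) = 2 <;> simp [h, hW x hx]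

theorem core (hG : Good W B a) {z : Pt} {l : ℕ} {R s : ℝ} (hW : ∀ x ∈ seg l, z + (x, 0) ∈ W)
    (hR : ∀ y, ((W.filter fun w => w.2 = y).card : ℝ) ≤ R) (hs : 0 ≤ s) {θ Θ : ℤ → ℝ}
    {w : ℕ → ℝ} {K : ℕ} {t ε b η : ℝ} (hθ : ∀ x, |θ x| ≤ t)
    (hε : ∀ x, |θ x + (Θ (x + 1) - Θ x)| ≤ ε) (hl : Θ (-2 * l) = 0)
    (hr : Θ (2 * l + 1) = 2 * Real.pi) (hw : ∑ k ∈ range K, |w k| ≤ b)
    (hη : |∑ k ∈ range K, w k - 1| ≤ η)
    (hv : ∀ k ∈ range K, dmean W B a (fun m => |vinc W B a z l k θ m|) ≤ s) {P : Cfg → ℝ}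
    (hP : ∀ m, P m = ∑ k ∈ range K, w k * ∑ x ∈ seg l, θ x * cheight W B a m (z + (x, (k : ℤ)))) :
    ∃ u : ℂ, ‖u‖ = 1 ∧ dmean W B a (fun m => ‖exp (I * P m) - u * rowT z l Θ m‖) ≤
      b * s + η * ((4 * l + 1) * (t * R)) + (4 * l + 1) * (ε * R) := by
  set E : ℝ := ∑ x ∈ seg l, θ x * dmean W B a fun m' => height W m' (z + (x, 0)) with hE
  refine ⟨exp (I * ((-E : ℝ) : ℂ)), norm_exp_I_mul_ofReal _, ?_⟩
  have hc : ((seg l).card : ℝ) = 4 * l + 1 := by rw [card_seg]; push_cast; ring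
  have hpt : ∀ m, ‖exp (I * P m) - exp (I * ((-E : ℝ) : ℂ)) * rowT z l Θ m‖ ≤
      ∑ k ∈ range K, |w k| * |vinc W B a z l k θ m| +
        (η * ((4 * l + 1) * (t * R)) + (4 * l + 1) * (ε * R)) := fun m => by
    rw [rowT_eq hW hl hr, ← Complex.exp_add, ← mul_add, ← ofReal_add]
    refine (exp_lip _ _).trans ?_
    set H : ℝ := ∑ x ∈ seg l, θ x * cheight W B a m (z + (x, 0)) with hH
    have e1 : P m = ∑ k ∈ range K, w k * vinc W B a z l k θ m + (∑ k ∈ range K, w k) * H := by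
      rw [hP, Finset.sum_mul, ← Finset.sum_add_distrib]
      refine Finset.sum_congr rfl fun k _ => ?_
      rw [← mul_add, vinc, hH, ← Finset.sum_add_distrib]
      congr 1
      exact Finset.sum_congr rfl fun x _ => by ring
    have e2 : H - (-E + -∑ x ∈ seg l, (Θ (x + 1) - Θ x) * height W m (z + (x, 0))) =
        ∑ x ∈ seg l, (θ x + (Θ (x + 1) - Θ x)) * height W m (z + (x, 0)) := by
      rw [← neg_add, sub_neg_eq_add, hH, hE, ← Finset.sum_add_distrib, ← Finset.sum_add_distrib]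
      refine Finset.sum_congr rfl fun x _ => ?_
      unfold cheight
      ring
    have e3 : P m - (-E + -∑ x ∈ seg l, (Θ (x + 1) - Θ x) * height W m (z + (x, 0))) =
        ∑ k ∈ range K, w k * vinc W B a z l k θ m + ((∑ k ∈ range K, w k - 1) * H +
          ∑ x ∈ seg l, (θ x + (Θ (x + 1) - Θ x)) * height W m (z + (x, 0))) := by
      rw [← e2, e1]
      ring
    have b1 : |∑ k ∈ range K, w k * vinc W B a z l k θ m| ≤
        ∑ k ∈ range K, |w k| * |vinc W B a z l k θ m| := by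
      simpa only [abs_mul] using Finset.abs_sum_le_sum_abs (fun k => w k * vinc W B a z l k θ m) _
    have b2 : |H| ≤ (4 * l + 1) * (t * R) := by
      refine (Finset.abs_sum_le_sum_abs _ _).trans
        ((Finset.sum_le_card_nsmul _ _ (t * R) fun x _ => ?_).trans ?_)
      · rw [abs_mul]
        exact mul_le_mul (hθ x) (cheight_abs hG hR m _) (abs_nonneg _)
          ((abs_nonneg _).trans (hθ x))
      · rw [nsmul_eq_mul, hc]
    have b3 : |∑ x ∈ seg l, (θ x + (Θ (x + 1) - Θ x)) * height W m (z + (x, 0))| ≤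
        (4 * l + 1) * (ε * R) := by
      refine (Finset.abs_sum_le_sum_abs _ _).trans
        ((Finset.sum_le_card_nsmul _ _ (ε * R) fun x _ => ?_).trans ?_)
      · rw [abs_mul, abs_of_nonneg (height_mem hR m _).1]
        exact mul_le_mul (hε x) (height_mem hR m _).2 (height_mem hR m _).1
          ((abs_nonneg _).trans (hε x))
      · rw [nsmul_eq_mul, hc]
    have b4 : |(∑ k ∈ range K, w k - 1) * H| ≤ η * ((4 * l + 1) * (t * R)) := by
      rw [abs_mul]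
      exact mul_le_mul hη b2 (abs_nonneg _) ((abs_nonneg _).trans hη)
    rw [e3]
    exact (abs_add_le _ _).trans (add_le_add b1 ((abs_add_le _ _).trans (add_le_add b4 b3)))
  refine (hG.dmean_mono fun m _ => hpt m).trans ?_
  rw [dmean_add, hG.dmean_const, dmean_sum, add_assoc]
  refine add_le_add_left ?_ _
  refine le_trans (Finset.sum_le_sum fun k hk => ?_)
    ((Finset.sum_mul _ _ _).symm.le.trans (mul_le_mul_of_nonneg_right hw hs))
  rw [dmean_mul]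
  exact mul_le_mul_of_nonneg_left (hv k hk) (abs_nonneg _)

/-- The pairing with the test function as a finite double sum. -/
theorem pairing_eq {Φ : ℝ → ℝ} {L : ℝ} (hΦ : Step Φ (-(2 * L)) (2 * L)) {lam r e x₀ y₀ δ : ℝ}
    (hlam : lam ≠ 0) (hr : 0 < r) (he : 0 < e) (hδ : 0 < δ) {z : Pt} {l K : ℕ} {α β : ℝ}
    (hα : α = z.1 + 2 / 3 - x₀ / δ) (hβ : β = z.2 + 2 / 3 - y₀ / δ) (hα1 : |α| ≤ 1)
    (hβ0 : β ≤ 0) (hl : 2 * L * (r / δ) + 1 ≤ 2 * l) (hK : e / δ - β < K) (m : Cfg) :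
    pairing lam δ W B a m (tst Φ lam r e x₀ y₀) =
      ∑ k ∈ range K, (1 / (e / δ) * deriv Real.smoothTransition ((k + β) / (e / δ))) *
        ∑ x ∈ seg l, (-(2 * Real.pi) * (1 / (r / δ) * deriv Φ ((x + α) / (r / δ)))) *
          cheight W B a m (z + (x, (k : ℤ))) := by
  have ex : ∀ f : Pt, (xi (bpos δ f + 2 * δ / 3) - x₀) / r =
      (((f.1 - z.1 : ℤ) : ℝ) + α) / (r / δ) := fun f => by
    rw [xi_centre, hα]
    push_cast
    field_simp
    ring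
  have ey : ∀ f : Pt, (ups (bpos δ f + 2 * δ / 3) - y₀) / e =
      (((f.2 - z.2 : ℤ) : ℝ) + β) / (e / δ) := fun f => by
    rw [ups_centre, hβ]
    push_cast
    field_simp
    ring
  have hn : 0 < r / δ := div_pos hr hδ
  have hν : 0 < e / δ := div_pos he hδ
  unfold pairing
  rw [finsum_eq_sum_of_support_subset _
    (s := (range K ×ˢ seg l).image fun p : ℕ × ℤ => z + (p.2, (p.1 : ℤ))) ?_,
    Finset.sum_image ?_, Finset.sum_product, Finset.mul_sum]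
  · refine Finset.sum_congr rfl fun k _ => ?_
    rw [Finset.mul_sum, Finset.mul_sum]
    refine Finset.sum_congr rfl fun x _ => ?_
    rw [tst, ex, ey]
    simp only [Prod.fst_add, Prod.snd_add, add_sub_cancel_left, Int.cast_natCast]
    field_simp
  · rintro ⟨k, x⟩ - ⟨k', x'⟩ - h
    simp only [add_right_inj, Prod.mk.injEq, Nat.cast_inj] at h
    exact Prod.ext h.2 h.1
  · intro f hf
    obtain ⟨⟨h1, h2⟩, h3, h4⟩ := tst_ne hΦ (right_ne_zero_of_mul hf)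
    rw [ex, le_div_iff₀ hn] at h1
    rw [ex, div_le_iff₀ hn] at h2
    rw [ey, le_div_iff₀ hν] at h3
    rw [ey, div_le_iff₀ hν] at h4
    obtain ⟨a1, a2⟩ := abs_le.1 hα1
    have k1 : ((-2 * (l : ℤ) : ℤ) : ℝ) ≤ ((f.1 - z.1 : ℤ) : ℝ) := by
      rw [Int.cast_mul, Int.cast_natCast, Int.cast_neg, Int.cast_ofNat]; linarith
    have k2 : ((f.1 - z.1 : ℤ) : ℝ) ≤ ((2 * (l : ℤ) : ℤ) : ℝ) := by
      rw [Int.cast_mul, Int.cast_natCast, Int.cast_ofNat]; linarith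
    have k3 : ((0 : ℤ) : ℝ) ≤ ((f.2 - z.2 : ℤ) : ℝ) := by rw [Int.cast_zero]; linarith
    have k4 : ((f.2 - z.2 : ℤ) : ℝ) < (((K : ℕ) : ℤ) : ℝ) := by rw [Int.cast_natCast]; linarith
    rw [Int.cast_le] at k1 k2 k3
    rw [Int.cast_lt] at k4
    refine Finset.mem_coe.2 (Finset.mem_image.2 ⟨((f.2 - z.2).toNat, f.1 - z.1),
      Finset.mem_product.2 ⟨Finset.mem_range.2 (by omega), mem_seg.2 ⟨k1, k2⟩⟩, ?_⟩)
    ext
    · simp
    · simp only [Prod.snd_add]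
      omega

theorem adm {Φ : ℝ → ℝ} {L M n α : ℝ} {l : ℕ} (hL : 1 ≤ L) (hΦ : Step Φ (-(2 * L)) (2 * L))
    (near : ∀ s, |s| ≤ 3 * L / 2 → 2 * Real.pi * Φ s = Real.pi + 2 * Real.arctan s)
    (far : ∀ s, |2 * Real.pi * Φ s - (Real.pi + 2 * Real.arctan s)| ≤ 4 / (3 * L))
    (hM0 : 0 ≤ M) (hM : ∀ s t, |Φ s - Φ t| ≤ M * |s - t|) (hn : 3 * L ≤ n) (hα : |α| ≤ 1)
    (hl : 3 * L * n ≤ l) :
    Adm L (2 * Real.pi * M + 2) n l fun x => 2 * Real.pi * Φ ((x + α) / n) := by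
  have hπ := Real.pi_pos
  have hn0 : 0 < n := by linarith
  have hLn : 3 ≤ L * n := by nlinarith
  obtain ⟨a1, a2⟩ := abs_le.1 hα
  have hd : ∀ x : ℝ, |2 * Real.arctan ((x + α) / n) - 2 * Real.arctan (x / n)| ≤ 2 / n :=
    fun x => by
      rw [← mul_sub, abs_mul, abs_two, div_eq_mul_one_div 2 n]
      refine mul_le_mul_of_nonneg_left ((arctan_lip _ _).trans ?_) (by norm_num)
      rw [← sub_div, add_sub_cancel_left, abs_div, abs_of_pos hn0]
      exact div_le_div_of_nonneg_right hα hn0.le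
  refine ⟨fun x hx => ?_, fun x hx => ?_, fun x => ?_, fun x hx => ?_, fun x => ?_⟩
  · have : (x : ℝ) ≤ -l := by exact_mod_cast hx
    rw [hΦ.left _ (by rw [div_le_iff₀ hn0]; linarith), mul_zero]
  · have : (l : ℝ) ≤ x := by exact_mod_cast hx
    rw [hΦ.right _ (by rw [le_div_iff₀ hn0]; linarith), mul_one]
  · rw [← mul_sub, abs_mul, abs_of_pos (by positivity : 0 < 2 * Real.pi)]
    refine (mul_le_mul_of_nonneg_left (hM _ _) (by positivity)).trans ?_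
    rw [← sub_div, Int.cast_add, Int.cast_one, show (x : ℝ) + 1 + α - (x + α) = 1 by ring,
      abs_of_pos (by positivity), ← mul_assoc, ← div_eq_mul_one_div]
    exact div_le_div_of_nonneg_right (by linarith) hn0.le
  · rw [near, add_sub_add_left_eq_sub]
    · refine (hd x).trans (div_le_div_of_nonneg_right ?_ hn0.le)
      have : 0 ≤ 2 * Real.pi * M := by positivity
      linarith
    · rw [abs_div, abs_of_pos hn0, div_le_iff₀ hn0]
      linarith [abs_add_le (x : ℝ) α]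
  · have h1 := abs_add_le (2 * Real.pi * Φ ((x + α) / n) -
      (Real.pi + 2 * Real.arctan ((x + α) / n)))
      (2 * Real.arctan ((x + α) / n) - 2 * Real.arctan (x / n))
    have h2 : 2 / n ≤ 2 / (3 * L) := div_le_div_of_nonneg_left (by norm_num) (by linarith) hn
    have h3 : 4 / (3 * L) + 2 / (3 * L) ≤ 3 / L := by
      rw [← add_div, div_le_div_iff₀ (by linarith) (by linarith)]
      linarith
    rw [show 2 * Real.pi * Φ ((x + α) / n) - (Real.pi + 2 * Real.arctan ((x + α) / n)) +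
      (2 * Real.arctan ((x + α) / n) - 2 * Real.arctan (x / n)) =
      2 * Real.pi * Φ ((x + α) / n) - (Real.pi + 2 * Real.arctan (x / n)) by ring] at h1
    linarith [far ((x + α) / n), hd x]

theorem weights {M ν β : ℝ} {K : ℕ} (hM0 : 0 ≤ M)
    (hM1 : ∀ s, |deriv Real.smoothTransition s| ≤ M)
    (hM3 : ∀ s t, 0 ≤ t → |Real.smoothTransition (s + t / 2) - Real.smoothTransition (s - t / 2) -
      t * deriv Real.smoothTransition s| ≤ M * t ^ 3)
    (hν : 1 ≤ ν) (hβ : β ≤ 0) (hK1 : ν - β + 1 / 2 ≤ K) (hK2 : (K : ℝ) ≤ ν + 3) :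
    ∑ k ∈ range K, |1 / ν * deriv Real.smoothTransition ((k + β) / ν)| ≤ 4 * M ∧
      |∑ k ∈ range K, 1 / ν * deriv Real.smoothTransition ((k + β) / ν) - 1| ≤
        4 * M / ν ^ 2 := by
  have hν0 : 0 < ν := by linarith
  have hK : (K : ℝ) ≤ 4 * ν := by linarith
  constructor
  · refine (Finset.sum_le_card_nsmul _ _ (1 / ν * M) fun k _ => ?_).trans ?_
    · rw [abs_mul, abs_of_pos (by positivity)]
      exact mul_le_mul_of_nonneg_left (hM1 _) (by positivity)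
    · rw [nsmul_eq_mul, Finset.card_range]
      refine (mul_le_mul_of_nonneg_right hK (by positivity)).trans (le_of_eq ?_)
      field_simp
  · have h1 := Finset.sum_range_sub
      (fun k : ℕ => Real.smoothTransition ((k + β - 1 / 2) / ν)) K
    rw [Real.smoothTransition.one_of_one_le (by rw [le_div_iff₀ hν0]; linarith),
      Real.smoothTransition.zero_of_nonpos (by
        rw [div_le_iff₀ hν0, Nat.cast_zero]; linarith), sub_zero] at h1
    have h2 : 1 - ∑ k ∈ range K, 1 / ν * deriv Real.smoothTransition ((k + β) / ν) =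
        ∑ k ∈ range K, (Real.smoothTransition ((k + β) / ν + 1 / ν / 2) -
          Real.smoothTransition ((k + β) / ν - 1 / ν / 2) -
          1 / ν * deriv Real.smoothTransition ((k + β) / ν)) := by
      rw [Finset.sum_sub_distrib _ (fun k : ℕ => 1 / ν * deriv Real.smoothTransition ((k + β) / ν)),
        sub_left_inj]
      refine h1.symm.trans (Finset.sum_congr rfl fun k _ => ?_)
      congr 2
      · push_cast
        ring
      · ring
    rw [abs_sub_comm, h2]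
    refine (Finset.abs_sum_le_sum_abs _ _).trans
      ((Finset.sum_le_card_nsmul _ _ _ fun k _ => hM3 _ _ (by positivity)).trans ?_)
    rw [nsmul_eq_mul, Finset.card_range]
    refine (mul_le_mul_of_nonneg_right hK (by positivity)).trans (le_of_eq ?_)
    field_simp

end Obs

theorem obs : ObsStmt := by
  intro L hL
  obtain ⟨Φ, hΦ, near, far⟩ := Obs.exists_profile hL
  obtain ⟨M, hM0, hM1, hM2, hM3⟩ := hΦ.bounds
  obtain ⟨M', hN0, hN1, -, hN3⟩ := Obs.step_smooth.bounds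
  have hπ := Real.pi_pos
  have hL0 : 0 < L := by linarith
  set C₁ : ℝ := 2 * Real.pi * M + 2 with hC₁
  have hC0 : 0 ≤ C₁ := by positivity
  refine ⟨Φ, C₁, 4 * M' + 56 * M' * L * C₁ + 14 * L * (2 * Real.pi * M), hC0, by positivity,
    fun lam r e x₀ y₀ hlam hr he => ⟨fun Ω hΩ => Obs.isTest hΦ lam hr he hΩ, ?_⟩⟩
  intro δ W B a z l R s hδ hn hν hz hl hG hW hR hs hv
  obtain ⟨n, hn'⟩ : ∃ n, n = r / δ := ⟨_, rfl⟩
  obtain ⟨ν, hν'⟩ : ∃ ν, ν = e / δ := ⟨_, rfl⟩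
  obtain ⟨α, hα⟩ : ∃ α : ℝ, α = z.1 + 2 / 3 - x₀ / δ := ⟨_, rfl⟩
  obtain ⟨β, hβ⟩ : ∃ β : ℝ, β = z.2 + 2 / 3 - y₀ / δ := ⟨_, rfl⟩
  have a1 : -1 / 3 < α ∧ α ≤ 2 / 3 := by
    rw [hα, hz]
    exact ⟨by linarith [Int.lt_floor_add_one (x₀ / δ)], by linarith [Int.floor_le (x₀ / δ)]⟩
  have a2 : -4 / 3 < β ∧ β ≤ -1 / 3 := by
    rw [hβ, hz]
    push_cast
    exact ⟨by linarith [Int.lt_floor_add_one (y₀ / δ)], by linarith [Int.floor_le (y₀ / δ)]⟩
  have hP := fun (K : ℕ) h1 h2 => Obs.pairing_eq (W := W) (B := B) (a := a) (l := l) (K := K)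
    hΦ hlam hr he hδ hα hβ (abs_le.2 ⟨by linarith [a1.1], by linarith [a1.2]⟩)
    (by linarith [a2.2]) h1 h2
  rw [← hn'] at hn hl hv hP ⊢
  rw [← hν'] at hν hv hP ⊢
  have hn0 : 0 < n := by linarith
  have hν0 : 0 < ν := by linarith
  have hLn : 3 ≤ L * n := by nlinarith
  have l1 : 3 * L * n ≤ l := hl ▸ Nat.le_ceil _
  have l2 : (l : ℝ) < 3 * L * n + 1 := hl ▸ Nat.ceil_lt_add_one (by positivity)
  have l3 : (4 * l + 1 : ℝ) ≤ 14 * L * n := by linarith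
  have k1 : ((⌊ν + 2⌋₊ + 1 : ℕ) : ℝ) ≤ ν + 3 := by
    push_cast
    linarith [Nat.floor_le (show 0 ≤ ν + 2 by linarith)]
  have k2 : ν + 2 < ((⌊ν + 2⌋₊ + 1 : ℕ) : ℝ) := by
    push_cast
    exact Nat.lt_floor_add_one _
  have hA := Obs.adm (α := α - 1 / 2) hL hΦ near far hM0 hM2 hn
    (abs_le.2 ⟨by linarith [a1.1], by linarith [a1.2]⟩) l1
  obtain ⟨w1, w2⟩ := Obs.weights (β := β) hN0 hN1 hN3 hν (by linarith [a2.2])
    (by linarith [a2.1]) k1
  have hθ : ∀ x : ℤ, |-(2 * Real.pi) * (1 / n * deriv Φ ((x + α) / n))| ≤ C₁ / n := fun x => by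
    rw [abs_mul, abs_neg, abs_of_pos (by positivity : 0 < 2 * Real.pi), abs_mul,
      abs_of_pos (by positivity : 0 < 1 / n), le_div_iff₀ hn0,
      show 2 * Real.pi * (1 / n * |deriv Φ ((x + α) / n)|) * n =
        2 * Real.pi * |deriv Φ ((x + α) / n)| by field_simp]
    have := mul_le_mul_of_nonneg_left (hM1 ((x + α) / n)) (by positivity : 0 ≤ 2 * Real.pi)
    linarith
  obtain ⟨u, hu, hb⟩ := Obs.core hG hW hR hs hθ (ε := 2 * Real.pi * (M * (1 / n) ^ 3))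
    (Θ := fun x => 2 * Real.pi * Φ ((x + (α - 1 / 2)) / n)) (fun x => by
      have h1 := mul_le_mul_of_nonneg_left (hM3 ((x + α) / n) (1 / n) (by positivity))
        (by positivity : 0 ≤ 2 * Real.pi)
      refine le_of_eq_of_le ?_ h1
      rw [← abs_of_pos (by positivity : 0 < 2 * Real.pi), ← abs_mul,
        abs_of_pos (by positivity : 0 < 2 * Real.pi),
        show (((x + 1 : ℤ) : ℝ) + (α - 1 / 2)) / n = (x + α) / n + 1 / n / 2 by
          push_cast; ring,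
        show ((x : ℝ) + (α - 1 / 2)) / n = (x + α) / n - 1 / n / 2 by ring]
      congr 1
      ring)
    (hA.left _ (by omega)) (hA.right _ (by omega)) w1 w2
    (fun k hk => hG.dmean_abs_le _ hs (hv k _ (by
      have h1 : ((k + 1 : ℕ) : ℝ) ≤ ((⌊ν + 2⌋₊ + 1 : ℕ) : ℝ) :=
        Nat.cast_le.2 (Finset.mem_range.1 hk)
      push_cast at h1 k1
      linarith) hθ))
    (hP _ (by linarith) (by linarith [a2.1]))
  refine ⟨_, u, hA, hu, hb.trans ?_⟩
  have hR0 : 0 ≤ R := (Nat.cast_nonneg _).trans (hR 0)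
  have b1 : 4 * M' / ν ^ 2 * ((4 * l + 1) * (C₁ / n * R)) ≤ 56 * M' * L * C₁ * (R / ν ^ 2) := by
    refine (mul_le_mul_of_nonneg_left (mul_le_mul_of_nonneg_right l3 (by positivity))
      (by positivity)).trans (le_of_eq ?_)
    field_simp
    ring
  have b2 : (4 * l + 1) * (2 * Real.pi * (M * (1 / n) ^ 3) * R) ≤
      14 * L * (2 * Real.pi * M) * (R / n ^ 2) := by
    refine (mul_le_mul_of_nonneg_right l3 (by positivity)).trans (le_of_eq ?_)
    field_simp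
  have p1 : 0 ≤ R / n ^ 2 := by positivity
  have p2 : 0 ≤ R / ν ^ 2 := by positivity
  have q1 : 0 ≤ 4 * M' := by positivity
  have q2 : 0 ≤ 56 * M' * L * C₁ := by positivity
  have q3 : 0 ≤ 14 * L * (2 * Real.pi * M) := by positivity
  generalize 4 * M' = c1 at *
  generalize 56 * M' * L * C₁ = c2 at *
  generalize 14 * L * (2 * Real.pi * M) = c3 at *
  nlinarith [mul_nonneg q1 p1, mul_nonneg q1 p2, mul_nonneg q2 hs, mul_nonneg q2 p1,
    mul_nonneg q3 hs, mul_nonneg q3 p2]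

end Pool.Agent.Lib.MP_60c5b4_pr.H
end

-- part Pool.Agent.Lib.MP_60c5b4_pr.H.Key
section

/-!
The separating statistics: choice of the scales and of the grid of test functions.
-/

namespace Pool.Agent.Lib.MP_60c5b4_pr.H

open Finset Filter Topology
open scoped ComplexConjugate

namespace Key

/-- The skew box. -/
def sbox (x₀ y₀ R : ℝ) : Set ℂ := {z | |xi z - x₀| ≤ R ∧ |ups z - y₀| ≤ R}

theorem norm_le_skew (z w : ℂ) {R : ℝ} (h1 : |xi z - xi w| ≤ R) (h2 : |ups z - ups w| ≤ R) :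
    ‖z - w‖ ≤ 2 * R := by
  have h3 : (1 : ℝ) ≤ Real.sqrt 3 := Real.one_le_sqrt.2 (by norm_num)
  refine (Complex.norm_le_abs_re_add_abs_im _).trans ?_
  simp only [xi, ups, Complex.sub_re, Complex.sub_im] at *
  rw [abs_le] at h1 h2
  have a1 : |z.re - w.re| ≤ R := abs_le.2 ⟨by linarith [h1.1, h2.1], by linarith [h1.2, h2.2]⟩
  have a2 : |Real.sqrt 3 * (z.im - w.im)| ≤ R :=
    abs_le.2 ⟨by linarith [h1.2, h2.1], by linarith [h1.1, h2.2]⟩
  rw [abs_mul, abs_of_nonneg (by linarith : 0 ≤ Real.sqrt 3)] at a2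
  nlinarith [abs_nonneg (z.im - w.im)]

theorem skew_le_norm (z w : ℂ) : |xi z - xi w| ≤ 3 * ‖z - w‖ ∧ |ups z - ups w| ≤ 3 * ‖z - w‖ := by
  have h3 : Real.sqrt 3 ≤ 2 := Real.sqrt_le_iff.2 (by norm_num)
  have h0 := Real.sqrt_nonneg 3
  have a1 := abs_le.1 (Complex.abs_re_le_norm (z - w))
  have a2 := abs_le.1 (Complex.abs_im_le_norm (z - w))
  simp only [xi, ups, Complex.sub_re, Complex.sub_im] at *
  have hn := norm_nonneg (z - w)
  refine ⟨abs_le.2 ⟨?_, ?_⟩, abs_le.2 ⟨?_, ?_⟩⟩ <;> nlinarith [a1.1, a1.2, a2.1, a2.2]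

theorem isCompact_sbox (z₀ : ℂ) (R : ℝ) : IsCompact (sbox (xi z₀) (ups z₀) R) := by
  refine (isCompact_closedBall z₀ (2 * R)).of_isClosed_subset ?_ fun z hz => ?_
  · have h1 : IsClosed {z | |xi z - xi z₀| ≤ R} :=
      isClosed_le (by unfold xi; fun_prop) continuous_const
    have h2 : IsClosed {z | |ups z - ups z₀| ≤ R} :=
      isClosed_le (by unfold ups; fun_prop) continuous_const
    exact h1.inter h2
  · rw [mem_closedBall_iff_norm]; exact norm_le_skew z z₀ hz.1 hz.2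

theorem c_bound {Δ : ℂ} {c : Fin 3 → ℝ} {M : ℝ} (hM : ‖Δ‖ ≤ M) (h1 : c 0 + c 1 + c 2 = 0)
    (h2 : Δ = (c 0 + c 1 * tau + c 2 * tau ^ 2) / 3) (j : Fin 3) : |c j| ≤ 3 * M := by
  have h3 : (1.5 : ℝ) ≤ Real.sqrt 3 := Real.le_sqrt_of_sq_le (by norm_num)
  have a1 := abs_le.1 ((Complex.abs_re_le_norm Δ).trans hM)
  have a2 := (Complex.abs_im_le_norm Δ).trans hM
  have e1 : Δ.re = c 0 / 2 := by
    rw [h2, tau_sq, tau_eq]; simp; linarith
  have e2 : Δ.im = Real.sqrt 3 * (c 1 - c 2) / 6 := by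
    rw [h2, tau_sq, tau_eq]; simp; ring
  rw [e2, abs_div, abs_mul, abs_of_nonneg (by linarith : 0 ≤ Real.sqrt 3),
    abs_of_pos (by norm_num : (0 : ℝ) < 6), div_le_iff₀ (by norm_num)] at a2
  have a3 : |c 1 - c 2| ≤ 4 * M := by nlinarith [abs_nonneg (c 1 - c 2)]
  rw [abs_le] at a3
  rw [e1] at a1
  fin_cases j <;> simp only [Fin.zero_eta, Fin.mk_one, Fin.reduceFinMk] <;>
    exact abs_le.2 ⟨by linarith [a1.1, a1.2, a3.1, a3.2], by linarith [a1.1, a1.2, a3.1, a3.2]⟩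

theorem floor_close (δ x : ℝ) (hδ : 0 < δ) : |δ * (⌊x / δ⌋ : ℤ) - x| ≤ δ := by
  have h1 := Int.floor_le (x / δ)
  have h2 := Int.lt_floor_add_one (x / δ)
  rw [le_div_iff₀ hδ] at h1
  rw [div_lt_iff₀ hδ] at h2
  exact abs_le.2 ⟨by nlinarith, by nlinarith⟩

/-- The lattice centre. -/
noncomputable def ctr (δ x₀ y₀ : ℝ) : Pt := (⌊x₀ / δ⌋, ⌊y₀ / δ⌋)

theorem skew_of_norm {δ x₀ y₀ R : ℝ} (hδ : 0 < δ) {b : Pt} (h : ‖b - ctr δ x₀ y₀‖ ≤ R) :
    bpos δ b ∈ sbox x₀ y₀ (δ * (R + 1)) := by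
  rw [norm_pt, max_le_iff] at h
  simp only [ctr, Prod.fst_sub, Prod.snd_sub, Int.cast_sub] at h
  have a1 := abs_le.1 (floor_close δ x₀ hδ)
  have a2 := abs_le.1 (floor_close δ y₀ hδ)
  have a3 := abs_le.1 h.1
  have a4 := abs_le.1 h.2
  refine ⟨?_, ?_⟩
  · rw [xi_bpos]; exact abs_le.2 ⟨by nlinarith [a1.1, a3.1], by nlinarith [a1.2, a3.2]⟩
  · rw [ups_bpos]; exact abs_le.2 ⟨by nlinarith [a2.1, a4.1], by nlinarith [a2.2, a4.2]⟩

theorem norm_of_skew {δ x₀ y₀ R : ℝ} (hδ : 0 < δ) {b : Pt} (h : bpos δ b ∈ sbox x₀ y₀ R) :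
    δ * ‖b - ctr δ x₀ y₀‖ ≤ R + δ := by
  rw [norm_pt, mul_max_of_nonneg _ _ hδ.le, max_le_iff]
  simp only [ctr, Prod.fst_sub, Prod.snd_sub, Int.cast_sub]
  have a1 := abs_le.1 (floor_close δ x₀ hδ)
  have a2 := abs_le.1 (floor_close δ y₀ hδ)
  have a3 := abs_le.1 h.1
  have a4 := abs_le.1 h.2
  rw [xi_bpos] at a3
  rw [ups_bpos] at a4
  rw [← abs_of_pos hδ, ← abs_mul, ← abs_mul, abs_of_pos hδ]
  exact ⟨abs_le.2 ⟨by nlinarith [a1.2, a3.1], by nlinarith [a1.1, a3.2]⟩,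
    abs_le.2 ⟨by nlinarith [a2.2, a4.1], by nlinarith [a2.1, a4.2]⟩⟩

theorem floor_scale {δ ρ : ℝ} (hδ : 0 < δ) (h : δ ≤ ρ) :
    δ * (⌊ρ / δ⌋₊ : ℕ) ≤ ρ ∧ ρ ≤ 2 * (δ * (⌊ρ / δ⌋₊ : ℕ)) := by
  have h0 : 1 ≤ ρ / δ := (one_le_div hδ).2 h
  have h1 := Nat.floor_le (zero_le_one.trans h0)
  have h2 := Nat.lt_floor_add_one (ρ / δ)
  have h3 : (1 : ℝ) ≤ (⌊ρ / δ⌋₊ : ℕ) := by exact_mod_cast (Nat.one_le_floor_iff _).2 h0
  rw [le_div_iff₀ hδ] at h1
  rw [div_lt_iff₀ hδ] at h2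
  constructor <;> nlinarith

theorem loc_eventually {Ω : Set ℂ} {c : ℂ → Fin 3 → ℝ} {M D₀ ρ : ℝ} {z₀ : ℂ} (hρ : 0 < ρ)
    (hc : ∀ z ∈ Ω, c z 0 + c z 1 + c z 2 = 0 ∧ ∀ j, |c z j| ≤ M)
    (hb : Ω ⊆ sbox (xi z₀) (ups z₀) D₀) (hQ : sbox (xi z₀) (ups z₀) (12 * ρ) ⊆ Ω)
    {δ : ℕ → ℝ} {V : ℕ → Finset Pt} {f : ℕ → Pt} (hA : Approximates Ω δ V)
    (hS : ∀ n, SimplyConn (V n) ∧ IsRoot (V n) (f n))
    (hex : ∀ᶠ n in atTop, ∃ m, IsMatching (whites (V n)) (blacks (V n) (f n)) m) :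
    ∀ᶠ n in atTop, Loc (M * ρ) (2 * (D₀ + ρ) / ρ) (V n) (f n) (ewt c (δ n))
      (ctr (δ n) (xi z₀) (ups z₀)) ⌊ρ / δ n⌋₊ := by
  filter_upwards [hex, hA.2.2.2 _ (isCompact_sbox z₀ _) hQ,
    hA.2.1.eventually (ge_mem_nhds hρ)] with n h1 h2 h3
  have hδ := hA.1 n
  obtain ⟨s1, s2⟩ := floor_scale hδ h3
  generalize ⌊ρ / δ n⌋₊ = N at *
  have hN : (0 : ℝ) < N := by
    by_contra h
    have : δ n * N ≤ 0 := mul_nonpos_of_nonneg_of_nonpos hδ.le (not_lt.1 h)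
    linarith
  refine ⟨(hS n).1, (hS n).2, fun b j hb => if_neg hb, fun v hv => ?_, fun v hv => ?_,
    fun v hv => h2 v ?_, h1⟩
  · have hz := hc _ (hA.2.2.1 n v hv)
    simp only [ewt, if_pos (primal_pr v), bpos_pr, Fin.sum_univ_three]
    refine ⟨by linear_combination δ n * hz.1, fun j => ?_⟩
    rw [add_sub_cancel_left, abs_mul, abs_of_pos hδ, le_div_iff₀ hN]
    have := hz.2 j
    have h0 := abs_nonneg (c (pos (δ n) v) j)
    calc |c (pos (δ n) v) j| * δ n * N = |c (pos (δ n) v) j| * (δ n * N) := by ring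
      _ ≤ M * ρ := mul_le_mul this s1 (by positivity) (h0.trans this)
  · have h4 := norm_of_skew hδ (b := pr v) (by rw [bpos_pr]; exact hb (hA.2.2.1 n v hv))
    have h5 : 0 ≤ D₀ + ρ := by
      have := mul_nonneg hδ.le (norm_nonneg (pr v - ctr (δ n) (xi z₀) (ups z₀)))
      linarith
    refine le_of_mul_le_mul_left ?_ (mul_pos hδ hρ)
    rw [show δ n * ρ * (2 * (D₀ + ρ) / ρ * N) = (D₀ + ρ) * (2 * (δ n * N)) by field_simp]
    nlinarith [mul_le_mul_of_nonneg_left s2 h5]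
  · have h4 := skew_of_norm hδ hv
    rw [bpos_pr] at h4
    exact ⟨h4.1.trans (by nlinarith), h4.2.trans (by nlinarith)⟩

theorem row_count {M D : ℝ} {V : Finset Pt} {f p : Pt} {a : Pt → Fin 3 → ℝ} {N : ℕ}
    (h : Loc M D V f a p N) (hD : 0 ≤ D) (y : ℤ) :
    (((whites V).filter fun w => w.2 = y).card : ℝ) ≤ 2 * (D * N) + 9 := by
  have h1 : ∀ w ∈ whites V, ‖w - p‖ ≤ D * N + 3 := fun w hw => by
    obtain ⟨v, j, rfl⟩ := exists_edge w
    rcases edge_mem_whites.1 hw with hv | hv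
    · rw [sub_right_comm]
      linarith [norm_sub_le (pr v - p) (eps j), h.bdd v hv, norm_eps j]
    · have := h.bdd _ hv
      rw [pr_add_dir] at this
      rw [show pr v - eps j - p = pr v + dd j - p - dd j - eps j by abel]
      linarith [norm_sub_le (pr v + dd j - p - dd j) (eps j), norm_sub_le (pr v + dd j - p) (dd j),
        norm_eps j, norm_dd j]
  obtain ⟨R, hR⟩ : ∃ R : ℕ, R = ⌈D * N + 3⌉₊ := ⟨_, rfl⟩
  have h2 : D * N + 3 ≤ R := hR ▸ Nat.le_ceil _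
  have h3 : (R : ℝ) < D * N + 3 + 1 := hR ▸ Nat.ceil_lt_add_one (by positivity)
  have h4 : ((whites V).filter fun w => w.2 = y).card ≤ (Icc (p.1 - R) (p.1 + R)).card := by
    refine card_le_card_of_injOn Prod.fst (fun w hw => ?_) fun w hw w' hw' e => ?_
    · have := mem_box'.1 (mem_box.2 ((h1 w (mem_filter.1 hw).1).trans h2))
      exact mem_coe.2 (mem_Icc.2 this.1)
    · exact Prod.ext e ((mem_filter.1 hw).2.trans (mem_filter.1 hw').2.symm)
  rw [Int.card_Icc, show p.1 + R + 1 - (p.1 - R) = ((2 * R + 1 : ℕ) : ℤ) by push_cast; ring,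
    Int.toNat_natCast] at h4
  have h5 : (((whites V).filter fun w => w.2 = y).card : ℝ) ≤ ((2 * R + 1 : ℕ) : ℝ) := by
    exact_mod_cast h4
  push_cast at h5
  linarith

/-! ### Transfer between close unimodular observables -/

section transfer
variable {W B : Finset Pt} {a : Pt → Fin 3 → ℝ}

theorem mean_close (h : Good W B a) {X T : Cfg → ℂ} {u : ℂ} {ε : ℝ}
    (e : dmean W B a (fun m => ‖X m - u * T m‖) ≤ ε) :
    ‖cmean W B a X - u * cmean W B a T‖ ≤ ε := by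
  rw [← cmean_mul, ← cmean_sub]
  exact (h.norm_cmean_le _).trans e

theorem norm_mean_close (h : Good W B a) {X T : Cfg → ℂ} {u : ℂ} {ε : ℝ} (hu : ‖u‖ = 1)
    (e : dmean W B a (fun m => ‖X m - u * T m‖) ≤ ε) :
    |‖cmean W B a X‖ - ‖cmean W B a T‖| ≤ ε := by
  have := (abs_norm_sub_norm_le _ _).trans (mean_close h e)
  rwa [norm_mul, hu, one_mul] at this

theorem prod_close {x x' y y' : ℂ} (hx : ‖x'‖ ≤ 1) (hy : ‖y‖ ≤ 1) :
    ‖x * conj x' - y * conj y'‖ ≤ ‖x - y‖ + ‖x' - y'‖ := by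
  rw [show x * conj x' - y * conj y' = (x - y) * conj x' + y * conj (x' - y') by
    rw [map_sub]; ring]
  refine (norm_add_le _ _).trans ?_
  rw [norm_mul, norm_mul, Complex.norm_conj, Complex.norm_conj]
  nlinarith [norm_nonneg (x - y), norm_nonneg (x' - y'), norm_nonneg x', norm_nonneg y]

theorem cov_close (h : Good W B a) {X T X' T' : Cfg → ℂ} {u u' : ℂ} {ε : ℝ} (hu : ‖u‖ = 1)
    (hu' : ‖u'‖ = 1) (hX : ∀ m, ‖X' m‖ ≤ 1) (hT : ∀ m, ‖T m‖ ≤ 1)
    (e : dmean W B a (fun m => ‖X m - u * T m‖) ≤ ε)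
    (e' : dmean W B a (fun m => ‖X' m - u' * T' m‖) ≤ ε) :
    ‖ccov W B a X X'‖ ≤ ‖ccov W B a T T'‖ + 4 * ε := by
  have h1 : ‖cmean W B a (fun m => X m * conj (X' m)) -
      u * conj u' * cmean W B a (fun m => T m * conj (T' m))‖ ≤ ε + ε := by
    refine mean_close h (le_trans (h.dmean_mono fun m _ => ?_)
      ((dmean_add _ _).le.trans (add_le_add e e')))
    rw [show u * conj u' * (T m * conj (T' m)) = u * T m * conj (u' * T' m) by
      rw [map_mul]; ring]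
    exact prod_close (hX m) (by rw [norm_mul, hu, one_mul]; exact hT m)
  have h2 := prod_close (x := cmean W B a X) (x' := cmean W B a X') (y := u * cmean W B a T)
    (y' := u' * cmean W B a T') (h.norm_cmean_le_one hX)
    (by rw [norm_mul, hu, one_mul]; exact h.norm_cmean_le_one hT)
  have h3 := mean_close h e
  have h4 := mean_close h e'
  have h5 : ccov W B a X X' = u * conj u' * ccov W B a T T' +
      (cmean W B a (fun m => X m * conj (X' m)) -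
        u * conj u' * cmean W B a (fun m => T m * conj (T' m))) -
      (cmean W B a X * conj (cmean W B a X') -
        u * cmean W B a T * conj (u' * cmean W B a T')) := by
    simp only [ccov, map_mul]; ring
  rw [h5]
  refine (norm_sub_le _ _).trans ?_
  have h6 := norm_add_le (u * conj u' * ccov W B a T T')
    (cmean W B a (fun m => X m * conj (X' m)) -
      u * conj u' * cmean W B a (fun m => T m * conj (T' m)))
  rw [norm_mul, norm_mul, Complex.norm_conj, hu, hu', one_mul, one_mul] at h6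
  linarith

theorem cov_le_two (h : Good W B a) {X X' : Cfg → ℂ} (hX : ∀ m, ‖X m‖ ≤ 1) (hX' : ∀ m, ‖X' m‖ ≤ 1) :
    ‖ccov W B a X X'‖ ≤ 2 := by
  refine (norm_sub_le _ _).trans ?_
  have h1 : ‖cmean W B a fun m => X m * conj (X' m)‖ ≤ 1 := h.norm_cmean_le_one fun m => by
    rw [norm_mul, Complex.norm_conj]; exact mul_le_one₀ (hX m) (norm_nonneg _) (hX' m)
  have h2 : ‖cmean W B a X * conj (cmean W B a X')‖ ≤ 1 := by
    rw [norm_mul, Complex.norm_conj]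
    exact mul_le_one₀ (h.norm_cmean_le_one hX) (norm_nonneg _) (h.norm_cmean_le_one hX')
  linarith

theorem norm_chr (lam δ : ℝ) (φ : ℂ → ℝ) (m : Cfg) : ‖chr lam δ W B a φ m‖ ≤ 1 := by
  rw [chr, mul_comm, Complex.norm_exp_ofReal_mul_I]

theorem norm_rowT (z : Pt) (l : ℕ) (Θ : ℤ → ℝ) (m : Cfg) : ‖rowT z l Θ m‖ ≤ 1 := by
  rw [rowT, norm_prod]
  refine prod_le_one (fun _ _ => norm_nonneg _) fun x _ => ?_
  split_ifs
  · rw [mul_comm, Complex.norm_exp_ofReal_mul_I]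
  · rw [norm_one]

end transfer

/-- Sum of the covariance bounds over the grid. -/
theorem grid_sum (k : ℕ) (hk : 1 ≤ k) (C : ℝ) (hC : 0 ≤ C) (g : Fin k × Fin k → Pt)
    (hg : ∀ i, g i = ((i.1 : ℤ), (i.2 : ℤ))) (i : Fin k × Fin k) :
    ∑ j, (if j = i then 2 else C / ‖g i - g j‖ ^ 2) ≤ 2 + 9 * C * (1 + Real.log k) := by
  have hinj : Function.Injective g := fun i j h => by
    rw [hg, hg, Prod.mk.injEq] at h
    exact Prod.ext (Fin.ext (by exact_mod_cast h.1)) (Fin.ext (by exact_mod_cast h.2))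
  have h1 := sum_le_shells (g i) k (univ.image g) (fun u hu => by
      obtain ⟨j, -, rfl⟩ := mem_image.1 hu
      have := (norm_le_iff (g j - g i) k).2 (by
        rw [hg, hg, abs_le, abs_le]
        simp only [Prod.fst_sub, Prod.snd_sub]
        omega)
      simpa using this)
    (fun u => if u = g i then 2 else C / ‖g i - u‖ ^ 2)
    (fun t => if t = 0 then 2 else C / (t : ℝ) ^ 2) (fun t => by split_ifs <;> positivity)
    (fun u _ => by
      have e : u = g i ↔ nn (u - g i) = 0 := by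
        rw [← sub_eq_zero, ← norm_eq_zero, norm_eq_nn, Nat.cast_eq_zero]
      simp only [e, norm_sub_rev (g i) u, norm_eq_nn, le_refl])
  rw [sum_image hinj.injOn] at h1
  simp only [hinj.eq_iff] at h1
  refine h1.trans ?_
  rw [sum_range_succ']
  have h2 := harmonic_le_one_add_log k
  rw [harmonic, Rat.cast_sum] at h2
  have h3 : ∑ t ∈ range k, (8 * ((t + 1 : ℕ) : ℝ) + 1) *
      (if t + 1 = 0 then 2 else C / ((t + 1 : ℕ) : ℝ) ^ 2) ≤
      9 * C * ∑ t ∈ range k, ((((t + 1 : ℕ) : ℚ)⁻¹ : ℚ) : ℝ) := by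
    rw [mul_sum]
    refine sum_le_sum fun t _ => ?_
    rw [if_neg (Nat.succ_ne_zero t), Rat.cast_inv, Rat.cast_natCast]
    have ht : (1 : ℝ) ≤ ((t + 1 : ℕ) : ℝ) := by exact_mod_cast Nat.succ_pos t
    generalize ((t + 1 : ℕ) : ℝ) = x at ht
    rw [← div_eq_mul_inv, ← mul_div_assoc, div_le_div_iff₀ (by positivity) (by positivity)]
    nlinarith [mul_nonneg hC (mul_nonneg (sub_nonneg.2 ht) (by linarith : 0 ≤ x))]
  have h4 := mul_le_mul_of_nonneg_left h2 (by positivity : 0 ≤ 9 * C)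
  simp only [Nat.cast_zero, mul_zero, zero_add, if_true, one_mul]
  linarith

theorem exists_k {c E A B η r₀ : ℝ} (hc : 0 < c) (hη : 0 < η) (hr : 0 < r₀) (hA : 0 ≤ A)
    (hB : 0 ≤ B) : ∃ k : ℕ, 1 ≤ k ∧ 1 / (k : ℝ) ≤ r₀ ∧ E < c * Real.log k ∧
      A + B * Real.log k ≤ η * (c * Real.log k - E) ^ 2 := by
  have ht : Tendsto (fun k : ℕ => Real.log k) atTop atTop :=
    Real.tendsto_log_atTop.comp tendsto_natCast_atTop_atTop
  obtain ⟨k, h1, h2, h3, h4, h5⟩ := ((eventually_ge_atTop 1).and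
    ((tendsto_one_div_atTop_nhds_zero_nat.eventually (ge_mem_nhds hr)).and
    ((ht.eventually_ge_atTop (2 * |E| / c)).and ((ht.eventually_ge_atTop 1).and
    (ht.eventually_ge_atTop (4 * (A + B) / (η * c ^ 2))))))).exists
  refine ⟨k, h1, h2, ?_⟩
  generalize Real.log k = t at *
  rw [div_le_iff₀ hc] at h3
  rw [div_le_iff₀ (by positivity)] at h5
  have h6 : c * t / 2 ≤ c * t - E := by linarith [le_abs_self E]
  have h7 : 0 < c * t := by positivity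
  refine ⟨by linarith, ?_⟩
  have h8 : (c * t / 2) ^ 2 ≤ (c * t - E) ^ 2 := pow_le_pow_left₀ (by linarith) h6 2
  calc A + B * t ≤ (A + B) * t := by nlinarith
    _ ≤ η * (c * t / 2) ^ 2 := by nlinarith
    _ ≤ _ := mul_le_mul_of_nonneg_left h8 hη.le

/-! ### The estimates at a fixed mesh -/

/-- Body of `RowStmt`. -/
def RowAt (L M D C₁ c C r₀ n₀ : ℝ) : Prop :=
  ∀ V f a p (N : ℕ) (n : ℝ) (l : ℕ) W B, W = whites V → B = blacks V f → Loc M D V f a p N →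
    n₀ ≤ n → L * n ≤ l → l ≤ 4 * L * n → l ≤ r₀ * N → ∀ z : Pt, ‖z - p‖ + 4 * l ≤ N →
    (∀ (k : ℕ) (θ : ℤ → ℝ) (t : ℝ), k ≤ l → (∀ x, |θ x| ≤ t) →
      dmean W B a (fun m => vinc W B a z l k θ m ^ 2) ≤ C * (t * l) ^ 2 * Real.sqrt (k / l)) ∧
    ∀ Θ, Adm L C₁ n l Θ →
      ((∀ v ∈ V, ∀ j, a (pr v) j = 1) →
        ‖cmean W B a (rowT z l Θ)‖ ≤ C * (l / N + 1 / Real.sqrt n)) ∧
      (∀ Δ₀ : ℂ, (∀ u ∈ box p (4 * N), Primal u →
        ‖(N : ℂ) * ∑ j : Fin 3, ((a u j - 1 : ℝ) : ℂ) * tau ^ (j : ℕ) - Δ₀‖ ≤ ‖Δ₀‖ / 2) →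
        c * ‖Δ₀‖ * (n / N) * (Real.log (N / l) - 2) - C * (l / N + 1 / Real.sqrt n) ≤
          ‖cmean W B a (rowT z l Θ)‖) ∧
      ∀ z' Θ', ‖z' - p‖ + 4 * l ≤ N → Adm L C₁ n l Θ' → 8 * l ≤ ‖z - z'‖ →
        ‖ccov W B a (rowT z l Θ) (rowT z' l Θ')‖ ≤ C * (l / ‖z - z'‖) ^ 2

/-- Lattice part of `ObsStmt`. -/
def ObsAt (L : ℝ) (Φ : ℝ → ℝ) (C₁ C lam r e : ℝ) : Prop :=
  ∀ (x₀ y₀ δ : ℝ) W B a (z : Pt) (l : ℕ) (R s : ℝ), 0 < δ → 3 * L ≤ r / δ → 1 ≤ e / δ →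
    z = (⌊x₀ / δ⌋, ⌊y₀ / δ⌋ - 1) → l = ⌈3 * L * (r / δ)⌉₊ → Good W B a →
    (∀ x ∈ seg l, z + (x, 0) ∈ W) → (∀ y, ((W.filter fun w => w.2 = y).card : ℝ) ≤ R) →
    0 ≤ s → (∀ (k : ℕ) (θ : ℤ → ℝ), (k : ℝ) ≤ e / δ + 2 → (∀ x, |θ x| ≤ C₁ / (r / δ)) →
      dmean W B a (fun m => vinc W B a z l k θ m ^ 2) ≤ s ^ 2) →
    ∃ (Θ : ℤ → ℝ) (u : ℂ), Adm L C₁ (r / δ) l Θ ∧ ‖u‖ = 1 ∧
      dmean W B a (fun m => ‖chr lam δ W B a (tst Φ lam r e x₀ y₀) m - u * rowT z l Θ m‖) ≤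
        C * (s + R / (r / δ) ^ 2 + R / (e / δ) ^ 2)

/-- The lattice base point of the observable number `i`. -/
noncomputable def zpt (δ x₀ y₀ σ : ℝ) {k : ℕ} (i : Fin k × Fin k) : Pt :=
  (⌊(x₀ + σ * i.1) / δ⌋, ⌊(y₀ + σ * i.2) / δ⌋ - 1)

theorem floor_sub (δ x y : ℝ) (hδ : 0 < δ) :
    |δ * ((⌊x / δ⌋ - ⌊y / δ⌋ : ℤ) : ℝ) - (x - y)| ≤ δ := by
  have h1 := Int.floor_le (x / δ)
  have h2 := Int.lt_floor_add_one (x / δ)
  have h3 := Int.floor_le (y / δ)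
  have h4 := Int.lt_floor_add_one (y / δ)
  rw [le_div_iff₀ hδ] at h1 h3
  rw [div_lt_iff₀ hδ] at h2 h4
  push_cast
  exact abs_le.2 ⟨by nlinarith, by nlinarith⟩

theorem zpt_ctr {δ x₀ y₀ σ : ℝ} {k : ℕ} (hδ : 0 < δ) (hσ : 0 ≤ σ) (i : Fin k × Fin k) :
    δ * ‖zpt δ x₀ y₀ σ i - ctr δ x₀ y₀‖ ≤ σ * k + 2 * δ := by
  have a1 := abs_le.1 (floor_sub δ (x₀ + σ * i.1) x₀ hδ)
  have a2 := abs_le.1 (floor_sub δ (y₀ + σ * i.2) y₀ hδ)
  have b1 : σ * (i.1 : ℕ) ≤ σ * k := mul_le_mul_of_nonneg_left (by exact_mod_cast i.1.2.le) hσ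
  have b2 : σ * (i.2 : ℕ) ≤ σ * k := mul_le_mul_of_nonneg_left (by exact_mod_cast i.2.2.le) hσ
  have b3 : 0 ≤ σ * (i.1 : ℕ) := by positivity
  have b4 : 0 ≤ σ * (i.2 : ℕ) := by positivity
  rw [norm_pt, mul_max_of_nonneg _ _ hδ.le, max_le_iff, ← abs_of_pos hδ, ← abs_mul, ← abs_mul,
    abs_of_pos hδ]
  simp only [zpt, ctr, Prod.fst_sub, Prod.snd_sub]
  push_cast at *
  exact ⟨abs_le.2 ⟨by linarith [a1.1], by linarith [a1.2]⟩,
    abs_le.2 ⟨by linarith [a2.1], by linarith [a2.2]⟩⟩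

theorem zpt_sub {δ x₀ y₀ σ : ℝ} {k : ℕ} (hδ : 0 < δ) (hσ : 0 ≤ σ) (i j : Fin k × Fin k) :
    σ * ‖(((i.1 : ℤ), (i.2 : ℤ)) : Pt) - ((j.1 : ℤ), (j.2 : ℤ))‖ ≤
      δ * ‖zpt δ x₀ y₀ σ i - zpt δ x₀ y₀ σ j‖ + δ := by
  have a1 := abs_le.1 (floor_sub δ (x₀ + σ * i.1) (x₀ + σ * j.1) hδ)
  have a2 := abs_le.1 (floor_sub δ (y₀ + σ * i.2) (y₀ + σ * j.2) hδ)
  obtain ⟨t, ht⟩ : ∃ t, t = ‖zpt δ x₀ y₀ σ i - zpt δ x₀ y₀ σ j‖ := ⟨_, rfl⟩
  have b := ht.ge
  rw [norm_pt, max_le_iff, abs_le, abs_le] at b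
  rw [← ht, norm_pt, mul_max_of_nonneg _ _ hσ, max_le_iff, ← abs_of_nonneg hσ, ← abs_mul,
    ← abs_mul]
  simp only [zpt, Prod.fst_sub, Prod.snd_sub] at *
  push_cast at *
  have b1 := mul_le_mul_of_nonneg_left b.1.1 hδ.le
  have b2 := mul_le_mul_of_nonneg_left b.1.2 hδ.le
  have b3 := mul_le_mul_of_nonneg_left b.2.1 hδ.le
  have b4 := mul_le_mul_of_nonneg_left b.2.2 hδ.le
  exact ⟨abs_le.2 ⟨by linarith [a1.2], by linarith [a1.1]⟩,
    abs_le.2 ⟨by linarith [a2.2], by linarith [a2.1]⟩⟩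

theorem one_le_norm {p : Pt} (h : p ≠ 0) : 1 ≤ ‖p‖ := by
  have h1 : nn p ≠ 0 := fun e => h (by rw [← norm_eq_zero, norm_eq_nn, e, Nat.cast_zero])
  rw [norm_eq_nn]
  exact_mod_cast Nat.one_le_iff_ne_zero.2 h1

/-- Smallness conditions on the mesh. -/
structure Small (L M D C CO n₀ ρ r e ε δ : ℝ) (k : ℕ) : Prop where
  pos : 0 < δ
  h1 : 20 * δ ≤ ρ
  h2 : 3 * L * δ ≤ r
  h3 : δ ≤ e
  h4 : n₀ * δ ≤ r
  h5 : 4 * M * δ ≤ ρ
  h6 : CO * ((2 * (D * ρ) + 9 * ρ) * (δ / r ^ 2 + δ / e ^ 2)) ≤ ε / 2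
  h7 : C * (1 / Real.sqrt (r / δ)) ≤ 1 / k

theorem fixed {L M D C₁ c C r₀ n₀ CO lam ρ r e s ε δ x₀ y₀ : ℝ} {Φ : ℝ → ℝ} {k : ℕ}
    (hrow : RowAt L M D C₁ c C r₀ n₀) (hobs : ObsAt L Φ C₁ CO lam r e) (hL : 1 ≤ L) (hc : 0 < c)
    (hC : 0 < C) (hCO : 0 ≤ CO) (hD : 0 ≤ D) (hk : 1 ≤ k) (hkr : 1 / (k : ℝ) ≤ r₀)
    (hr0 : 0 < r) (hr : ρ = 160 * L * k * r) (he : e ≤ L * r) (hs : 0 ≤ s)
    (hs1 : C * (4 * L * C₁) ^ 2 * Real.sqrt (3 * e / (L * r)) ≤ s ^ 2) (hs2 : CO * s ≤ ε / 2)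
    (hδ : Small L M D C CO n₀ ρ r e ε δ k) {V : Finset Pt} {f : Pt} {a : Pt → Fin 3 → ℝ} {N : ℕ}
    (hN : N = ⌊ρ / δ⌋₊) (hloc : Loc M D V f a (ctr δ x₀ y₀) N) (X : Fin k × Fin k → Cfg → ℂ)
    (hX : ∀ i, X i = chr lam δ (whites V) (blacks V f) a
      (tst Φ lam r e (x₀ + 40 * L * r * i.1) (y₀ + 40 * L * r * i.2))) :
    ((∀ v ∈ V, ∀ j, a (pr v) j = 1) →
      ∀ i, ‖cmean (whites V) (blacks V f) a (X i)‖ ≤ (C + 1) / k + ε) ∧
    (∀ Δ₀ : ℂ, (∀ u ∈ box (ctr δ x₀ y₀) (4 * N), Primal u →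
      ‖(N : ℂ) * ∑ j : Fin 3, ((a u j - 1 : ℝ) : ℂ) * tau ^ (j : ℕ) - (N * δ : ℝ) * Δ₀‖ ≤
        ‖((N * δ : ℝ) : ℂ) * Δ₀‖ / 2) → ∀ i, c * ‖Δ₀‖ * r * Real.log k - (C + 1) / k - ε ≤
          ‖cmean (whites V) (blacks V f) a (X i)‖) ∧
    ∑ i, ∑ j, ‖ccov (whites V) (blacks V f) a (X i) (X j)‖ ≤
      k ^ 2 * (2 + 9 * C * (1 + Real.log k)) + 4 * ε * k ^ 4 := by
  have hδ0 := hδ.pos
  have hk' : (1 : ℝ) ≤ k := by exact_mod_cast hk
  have he0 : 0 < e := hδ0.trans_le hδ.h3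
  have hρ : 0 < ρ := by rw [hr]; positivity
  have hε : 0 ≤ ε := by have := mul_nonneg hCO hs; linarith
  obtain ⟨s1, s2⟩ := floor_scale hδ0 (by linarith [hδ.h1] : δ ≤ ρ)
  rw [← hN] at s1 s2
  obtain ⟨n, hn⟩ : ∃ n, n = r / δ := ⟨_, rfl⟩
  have hn' : r = δ * n := by rw [hn]; field_simp
  have hn3 : 3 * L ≤ n := by rw [hn, le_div_iff₀ hδ0]; exact hδ.h2
  have hn0 : 0 < n := by linarith
  have hLn : 3 ≤ L * n := by nlinarith
  obtain ⟨l, hl⟩ : ∃ l : ℕ, l = ⌈3 * L * n⌉₊ := ⟨_, rfl⟩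
  have l1 : 3 * L * n ≤ l := hl ▸ Nat.le_ceil _
  have l2 : (l : ℝ) ≤ 4 * L * n := by
    have : (l : ℝ) < 3 * L * n + 1 := hl ▸ Nat.ceil_lt_add_one (by positivity)
    linarith
  have l0 : (0 : ℝ) < l := by linarith
  have hN10 : (10 : ℝ) ≤ N := le_of_mul_le_mul_left (by linarith [hδ.h1]) hδ0
  have hNl : 20 * k * (l : ℝ) ≤ N := by
    refine le_of_mul_le_mul_left ?_ hδ0
    have := mul_le_mul_of_nonneg_left l2 (by positivity : 0 ≤ δ * (20 * k))
    rw [hr, hn'] at s2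
    nlinarith
  have hlN : (l : ℝ) / N ≤ 1 / k := by
    rw [div_le_div_iff₀ (by linarith) (by linarith)]; nlinarith
  have hG : Good (whites V) (blacks V f) a := hloc.good (by
    rw [div_le_iff₀ (by linarith)]
    exact le_of_mul_le_mul_left (by nlinarith [hδ.h5]) hδ0)
  have hz : ∀ i : Fin k × Fin k, ‖zpt δ x₀ y₀ (40 * L * r) i - ctr δ x₀ y₀‖ + 4 * l ≤ N :=
    fun i => by
      have h1 := zpt_ctr (x₀ := x₀) (y₀ := y₀) hδ0 (by positivity : 0 ≤ 40 * L * r) i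
      have h2 : ‖zpt δ x₀ y₀ (40 * L * r) i - ctr δ x₀ y₀‖ ≤ N / 2 + 2 :=
        le_of_mul_le_mul_left (by rw [hr] at s2; nlinarith) hδ0
      nlinarith
  have hR := fun i => hrow V f a _ N n l _ _ rfl rfl hloc
    (by rw [hn, le_div_iff₀ hδ0]; exact hδ.h4) (by linarith) l2
    (by
      rw [div_le_iff₀ (by linarith)] at hlN
      exact hlN.trans (mul_le_mul_of_nonneg_right hkr (by linarith))) _ (hz i)
  have hO : ∀ i : Fin k × Fin k, ∃ (Θ : ℤ → ℝ) (u : ℂ), Adm L C₁ n l Θ ∧ ‖u‖ = 1 ∧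
      dmean (whites V) (blacks V f) a
        (fun m => ‖X i m - u * rowT (zpt δ x₀ y₀ (40 * L * r) i) l Θ m‖) ≤ ε := fun i => by
    have e1 : 1 ≤ e / δ := (one_le_div hδ0).2 hδ.h3
    have e2 : e / δ ≤ L * n := by rw [div_le_iff₀ hδ0]; rw [hn'] at he; linarith
    obtain ⟨Θ, u, h1, h2, h3⟩ := hobs (x₀ + 40 * L * r * i.1) (y₀ + 40 * L * r * i.2) δ _ _ a
      (zpt δ x₀ y₀ (40 * L * r) i) l (2 * (D * N) + 9) s hδ0 (hn ▸ hn3) e1 rfl (hn ▸ hl) hG
      (fun x hx => by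
        refine (hloc.mem (by exact_mod_cast (by linarith : (1 : ℝ) ≤ N)) (mem_box.2 ?_)).1
        have h1 : ‖((x, 0) : Pt)‖ ≤ ((2 * l : ℤ) : ℝ) :=
          (norm_le_iff _ _).2 ⟨abs_le.2 (by have := mem_seg.1 hx; omega), by simp⟩
        rw [add_sub_right_comm]
        push_cast at h1 ⊢
        linarith [norm_add_le (zpt δ x₀ y₀ (40 * L * r) i - ctr δ x₀ y₀) ((x, 0) : Pt), hz i])
      (row_count hloc hD) hs fun q θ hq hθ => by
        refine ((hR i).1 q θ _ (by exact_mod_cast (by linarith : (q : ℝ) ≤ l)) hθ).trans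
          (le_trans ?_ hs1)
        rw [← hn] at hθ ⊢
        have hC₁ : 0 ≤ C₁ / n := (abs_nonneg _).trans (hθ 0)
        refine mul_le_mul (mul_le_mul_of_nonneg_left (pow_le_pow_left₀ (by positivity) ?_ 2) hC.le)
          (Real.sqrt_le_sqrt ?_) (Real.sqrt_nonneg _) (by positivity)
        · calc C₁ / n * l ≤ C₁ / n * (4 * L * n) := mul_le_mul_of_nonneg_left l2 hC₁
            _ = 4 * L * C₁ := by field_simp
        · calc (q : ℝ) / l ≤ (3 * (e / δ)) / (L * n) :=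
              div_le_div₀ (by positivity) (by linarith) (by linarith) (by linarith)
            _ = 3 * e / (L * r) := by rw [hn']; field_simp
    refine ⟨Θ, u, hn ▸ h1, h2, ?_⟩
    rw [hX]
    refine h3.trans ?_
    have h4 : (2 * (D * N) + 9) * δ ≤ 2 * (D * ρ) + 9 * ρ := by
      nlinarith [mul_le_mul_of_nonneg_left s1 hD, hδ.h1]
    have h5 : (2 * (D * N) + 9) / (r / δ) ^ 2 + (2 * (D * N) + 9) / (e / δ) ^ 2 =
        (2 * (D * N) + 9) * δ * (δ / r ^ 2 + δ / e ^ 2) := by field_simp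
    have h6 := mul_le_mul_of_nonneg_left
      (mul_le_mul_of_nonneg_right h4 (by positivity : 0 ≤ δ / r ^ 2 + δ / e ^ 2)) hCO
    rw [add_assoc, h5, mul_add]
    linarith [hδ.h6]
  choose Θ u hΘ hu hXu using hO
  have herr : C * (l / N + 1 / Real.sqrt n) ≤ (C + 1) / k := by
    have := hδ.h7
    rw [← hn] at this
    have h2 := mul_le_mul_of_nonneg_left hlN hC.le
    rw [mul_add, add_div, div_eq_mul_one_div C]
    linarith
  refine ⟨fun h1 i => ?_, fun Δ₀ h1 i => ?_, ?_⟩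
  · have h2 := ((hR i).2 _ (hΘ i)).1 h1
    linarith [(abs_le.1 (norm_mean_close hG (hu i) (hXu i))).2]
  · have h2 := ((hR i).2 _ (hΘ i)).2.1 _ h1
    have h3 : c * ‖((N * δ : ℝ) : ℂ) * Δ₀‖ * (n / N) = c * ‖Δ₀‖ * r := by
      rw [norm_mul, Complex.norm_real, Real.norm_of_nonneg (by positivity), hn']
      field_simp
    have h4 : Real.log k ≤ Real.log (N / l) - 2 := by
      have h5 : Real.log (20 * k) ≤ Real.log (N / l) :=
        Real.log_le_log (by positivity) (by rw [le_div_iff₀ l0]; exact hNl)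
      rw [Real.log_mul (by norm_num) (by positivity)] at h5
      have h6 : 2 ≤ Real.log 20 := by
        rw [Real.le_log_iff_exp_le (by norm_num), show (2 : ℝ) = 1 + 1 by norm_num, Real.exp_add]
        nlinarith [Real.exp_one_lt_d9, Real.exp_pos 1]
      linarith
    rw [h3] at h2
    linarith [(abs_le.1 (norm_mean_close hG (hu i) (hXu i))).1,
      mul_le_mul_of_nonneg_left h4 (by positivity : 0 ≤ c * ‖Δ₀‖ * r)]
  · have hX1 : ∀ i m, ‖X i m‖ ≤ 1 := fun i m => by rw [hX]; exact norm_chr _ _ _ _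
    have key : ∀ i j, ‖ccov (whites V) (blacks V f) a (X i) (X j)‖ ≤
        (if j = i then 2 else C / ‖(((i.1 : ℤ), (i.2 : ℤ)) : Pt) - ((j.1 : ℤ), (j.2 : ℤ))‖ ^ 2) +
          4 * ε := fun i j => by
      split_ifs with h
      · linarith [cov_le_two hG (hX1 i) (hX1 j)]
      · have h1 := zpt_sub (x₀ := x₀) (y₀ := y₀) hδ0 (by positivity : 0 ≤ 40 * L * r) i j
        have h2 : 1 ≤ ‖(((i.1 : ℤ), (i.2 : ℤ)) : Pt) - ((j.1 : ℤ), (j.2 : ℤ))‖ :=
          one_le_norm fun e => h (by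
            rw [sub_eq_zero, Prod.mk.injEq] at e
            exact Prod.ext (Fin.ext (by exact_mod_cast e.1.symm))
              (Fin.ext (by exact_mod_cast e.2.symm)))
        generalize ‖(((i.1 : ℤ), (i.2 : ℤ)) : Pt) - ((j.1 : ℤ), (j.2 : ℤ))‖ = d at *
        have h3 : 8 * l * d ≤ ‖zpt δ x₀ y₀ (40 * L * r) i - zpt δ x₀ y₀ (40 * L * r) j‖ := by
          have h4 : 40 * (L * n) * d ≤
              ‖zpt δ x₀ y₀ (40 * L * r) i - zpt δ x₀ y₀ (40 * L * r) j‖ + 1 :=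
            le_of_mul_le_mul_left (by
              rw [show δ * (40 * (L * n) * d) = 40 * L * (δ * n) * d by ring, ← hn']
              linarith) hδ0
          nlinarith [mul_le_mul_of_nonneg_right l2 (by linarith : 0 ≤ d)]
        have h4 := ((hR i).2 _ (hΘ i)).2.2 _ _ (hz j) (hΘ j) (by nlinarith)
        have h5 := cov_close hG (hu i) (hu j) (hX1 j) (norm_rowT _ _ _) (hXu i) (hXu j)
        refine h5.trans (add_le_add_left (h4.trans ?_) _)
        generalize ‖zpt δ x₀ y₀ (40 * L * r) i - zpt δ x₀ y₀ (40 * L * r) j‖ = t at *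
        have ht : 0 < t := by nlinarith
        rw [div_eq_mul_one_div C, ← one_pow 2, ← div_pow]
        refine mul_le_mul_of_nonneg_left (pow_le_pow_left₀ (by positivity) ?_ 2) hC.le
        rw [div_le_div_iff₀ ht (by linarith)]
        nlinarith
    refine (sum_le_sum fun i _ => (sum_le_sum fun j _ => key i j).trans
      ((sum_add_distrib.le).trans (add_le_add_left (grid_sum k hk C hC.le _ (fun _ => rfl) i) _))).trans
      (le_of_eq ?_)
    simp only [sum_const, card_univ, Fintype.card_prod, Fintype.card_fin, nsmul_eq_mul]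
    push_cast
    ring

theorem small_eventually {L M D C CO n₀ ρ r e ε : ℝ} {k : ℕ} {δ : ℕ → ℝ} (h0 : ∀ n, 0 < δ n)
    (h1 : Tendsto δ atTop (𝓝 0)) (hρ : 0 < ρ) (hr : 0 < r) (he : 0 < e) (hε : 0 < ε)
    (hk : 1 ≤ k) : ∀ᶠ n in atTop, Small L M D C CO n₀ ρ r e ε (δ n) k := by
  have lin : ∀ a b : ℝ, 0 < b → ∀ᶠ n in atTop, a * δ n ≤ b := fun a b hb =>
    (h1.const_mul a).eventually (ge_mem_nhds (by rwa [mul_zero]))
  have hk' : (0 : ℝ) < 1 / k := by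
    have : (1 : ℝ) ≤ k := by exact_mod_cast hk
    positivity
  have h7 : Tendsto (fun n => C * Real.sqrt (δ n / r)) atTop (𝓝 (C * Real.sqrt (0 / r))) :=
    ((h1.div_const r).sqrt).const_mul C
  rw [zero_div, Real.sqrt_zero, mul_zero] at h7
  filter_upwards [lin 20 ρ hρ, lin (3 * L) r hr, lin 1 e he, lin n₀ r hr, lin (4 * M) ρ hρ,
    lin (CO * ((2 * (D * ρ) + 9 * ρ) * (1 / r ^ 2 + 1 / e ^ 2))) (ε / 2) (by linarith),
    h7.eventually (ge_mem_nhds hk')] with n a1 a2 a3 a4 a5 a6 a7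
  refine ⟨h0 n, a1, a2, by linarith, a4, a5, le_of_eq_of_le (by ring) a6, le_of_eq_of_le ?_ a7⟩
  rw [one_div, ← Real.sqrt_inv, inv_div]

theorem exists_height {A B s : ℝ} (hA : 0 ≤ A) (hB : 0 < B) (hs : 0 < s) {ρ : ℝ} (hρ : 0 < ρ) :
    ∃ e > (0 : ℝ), e ≤ B ∧ e ≤ ρ ∧ A * Real.sqrt (3 * e / B) ≤ s ^ 2 := by
  have h1 : Tendsto (fun e : ℝ => A * Real.sqrt (3 * e / B)) (𝓝[>] 0)
      (𝓝 (A * Real.sqrt (3 * 0 / B))) :=
    (Continuous.tendsto (by fun_prop) 0).mono_left nhdsWithin_le_nhds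
  rw [mul_zero, zero_div, Real.sqrt_zero, mul_zero] at h1
  have b2 : ∀ᶠ e : ℝ in 𝓝[>] 0, 0 < e := self_mem_nhdsWithin
  have b3 : ∀ᶠ e : ℝ in 𝓝[>] 0, e ≤ B := nhdsWithin_le_nhds (ge_mem_nhds hB)
  have b4 : ∀ᶠ e : ℝ in 𝓝[>] 0, e ≤ ρ := nhdsWithin_le_nhds (ge_mem_nhds hρ)
  obtain ⟨e, a1, a2, a3, a4⟩ := ((h1.eventually (ge_mem_nhds (by positivity : 0 < s ^ 2))).and
    (b2.and (b3.and b4))).exists
  exact ⟨e, a2, a3, a4, a1⟩

end Key

open Key in
theorem key (hR : RowStmt) (hO : ObsStmt) : KeyStmt := by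
  intro Ω hΩ hΩb Δ hΔ ⟨M, hM⟩ ⟨z₀, hz₀, hΔ0⟩ c hc δ δ' V V' f f' hA hA' hS hS' hex hex' lam hlam η hη
  obtain ⟨L, hL, hR⟩ := hR
  obtain ⟨Φ, C₁, CO, hC₁, hCO, hO⟩ := hO L hL
  have hΔp : 0 < ‖Δ z₀‖ := norm_pos_iff.2 hΔ0
  obtain ⟨ρ₁, hρ₁, hball⟩ : ∃ ρ₁ > (0 : ℝ), ∀ z, ‖z - z₀‖ < ρ₁ →
      z ∈ Ω ∧ ‖Δ z - Δ z₀‖ ≤ ‖Δ z₀‖ / 2 := by
    have h1 := (hΔ.continuousAt (hΩ.mem_nhds hz₀)).eventually
      (Metric.closedBall_mem_nhds (Δ z₀) (half_pos hΔp))
    obtain ⟨ρ₁, h2, h3⟩ := Metric.eventually_nhds_iff.1 (h1.and (hΩ.mem_nhds hz₀))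
    refine ⟨ρ₁, h2, fun z hz => ?_⟩
    have := h3 (y := z) (by rwa [dist_eq_norm])
    exact ⟨this.2, by rw [← dist_eq_norm]; exact this.1⟩
  obtain ⟨ρ, hρ'⟩ : ∃ ρ, ρ = ρ₁ / 25 := ⟨_, rfl⟩
  have hρ : 0 < ρ := by rw [hρ']; positivity
  have hQ : ∀ z ∈ sbox (xi z₀) (ups z₀) (12 * ρ), z ∈ Ω ∧ ‖Δ z - Δ z₀‖ ≤ ‖Δ z₀‖ / 2 :=
    fun z hz => hball z (by linarith [norm_le_skew z z₀ hz.1 hz.2])
  obtain ⟨D₁, hD₁⟩ := hΩb.subset_closedBall z₀
  have hD₁0 : 0 ≤ D₁ := by simpa using hD₁ hz₀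
  have hb : Ω ⊆ sbox (xi z₀) (ups z₀) (3 * D₁) := fun z hz => by
    have h1 := mem_closedBall_iff_norm.1 (hD₁ hz)
    exact ⟨(skew_le_norm z z₀).1.trans (by linarith), (skew_le_norm z z₀).2.trans (by linarith)⟩
  have hM0 : 0 ≤ M := (norm_nonneg _).trans (hM z₀ hz₀)
  have hloc := loc_eventually (M := 3 * M) hρ
    (fun z hz => ⟨(hc z hz).1, c_bound (hM z hz) (hc z hz).1 (hc z hz).2⟩) hb
    (fun z hz => (hQ z hz).1) hA hS hex
  have hloc' := loc_eventually (c := fun _ _ => 0) (M := 3 * M) hρ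
    (fun z hz => ⟨by simp, fun j => by rw [abs_zero]; positivity⟩) hb
    (fun z hz => (hQ z hz).1) hA' hS' hex'
  obtain ⟨c₀, hc₀, C, hC, r₀, hr₀, n₀, hrow⟩ := hR (3 * M * ρ) (2 * (3 * D₁ + ρ) / ρ) C₁
  obtain ⟨k, hk, hkr, hk1, hk2⟩ := exists_k (c := c₀ * (3 * ‖Δ z₀‖) * (ρ / (160 * L)))
    (E := 2 * C + 4) (A := 6 + 9 * C) (B := 9 * C) (by positivity) hη hr₀ (by positivity)
    (by positivity)
  have hk' : (1 : ℝ) ≤ k := by exact_mod_cast hk
  obtain ⟨r, hr⟩ : ∃ r, r = ρ / (160 * L * k) := ⟨_, rfl⟩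
  have hr0 : 0 < r := by rw [hr]; positivity
  have hr' : ρ = 160 * L * k * r := by rw [hr]; field_simp
  obtain ⟨ε, hε⟩ : ∃ ε : ℝ, ε = 1 / k ^ 2 := ⟨_, rfl⟩
  have hε0 : 0 < ε := by rw [hε]; positivity
  have hε1 : ε ≤ 1 / k := by
    rw [hε]; exact one_div_le_one_div_of_le (by linarith) (by nlinarith)
  obtain ⟨e, he0, he1, he2, he3⟩ := exists_height (A := C * (4 * L * C₁) ^ 2) (B := L * r)
    (s := ε / (2 * (CO + 1))) (by positivity) (by positivity) (by positivity) hρ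
  have hs2 : CO * (ε / (2 * (CO + 1))) ≤ ε / 2 := by
    rw [← mul_div_assoc, div_le_div_iff₀ (by positivity) (by positivity)]; nlinarith
  have hobs : ObsAt L Φ C₁ CO lam r e := fun x₀ y₀ => (hO lam r e x₀ y₀ hlam hr0 he0).2
  have hD : 0 ≤ 2 * (3 * D₁ + ρ) / ρ := by positivity
  obtain ⟨E, -⟩ : ∃ E : Fin (k * k) ≃ Fin k × Fin k, True := ⟨finProdFinEquiv.symm, trivial⟩
  have hsum : ∀ g : Fin k × Fin k → Fin k × Fin k → ℝ,
      ∑ i, ∑ j, g (E i) (E j) = ∑ i, ∑ j, g i j := fun g => by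
    rw [← E.sum_comp fun i => ∑ j, g i j]
    exact sum_congr rfl fun i _ => E.sum_comp (g (E i))
  refine ⟨k * k, fun i => tst Φ lam r e (xi z₀ + 40 * L * r * (E i).1) (ups z₀ + 40 * L * r * (E i).2),
    (C + 2) / k, (c₀ * (3 * ‖Δ z₀‖) * (ρ / (160 * L)) * Real.log k - C - 2) / k,
    k ^ 2 * (6 + 9 * C + 9 * C * Real.log k), fun i => ?_, Nat.mul_pos hk hk, ?_, ?_, ?_, ?_⟩
  · refine (hO lam r e _ _ hlam hr0 he0).1 Ω fun z h1 h2 => (hQ z ?_).1
    have b : ∀ j : Fin k, 0 ≤ 40 * L * r * (j : ℕ) ∧ 40 * L * r * (j : ℕ) ≤ ρ := fun j => by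
      have : ((j : ℕ) : ℝ) ≤ k := by exact_mod_cast j.2.le
      have h0 : 0 < L * r := by positivity
      exact ⟨by positivity, by rw [hr']; nlinarith⟩
    have b3 : 2 * L * r ≤ ρ := by
      have h0 : 0 < L * r := by positivity
      rw [hr']; nlinarith
    rw [abs_le] at h1 h2
    exact ⟨abs_le.2 ⟨by linarith [h1.1, (b (E i).1).1], by linarith [h1.2, (b (E i).1).2]⟩,
      abs_le.2 ⟨by linarith [h2.1, (b (E i).2).1], by linarith [h2.2, (b (E i).2).2]⟩⟩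
  · exact div_lt_div_of_pos_right (by linarith) (by linarith)
  · refine (mul_le_mul_of_nonneg_left hk2 (by positivity)).trans (le_of_eq ?_)
    push_cast
    field_simp
    ring
  · filter_upwards [hloc, small_eventually (L := L) (M := 3 * M * ρ) (D := 2 * (3 * D₁ + ρ) / ρ)
      (C := C) (CO := CO) (n₀ := n₀) hA.1 hA.2.1 hρ hr0 he0 hε0 hk] with n h1 h2
    rintro W B a T rfl rfl rfl rfl
    obtain ⟨-, h3, h4⟩ := fixed hrow hobs hL hc₀ hC hCO hD hk hkr hr0 hr' he1 (by positivity) he3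
      hs2 h2 rfl h1 _ fun _ => rfl
    refine ⟨fun i => le_trans ?_ (h3 (3 * Δ z₀) (fun u hu hp => ?_) (E i)),
      (hsum _).le.trans (h4.trans (le_of_eq ?_))⟩
    · have h5 : c₀ * ‖3 * Δ z₀‖ * r * Real.log k =
          c₀ * (3 * ‖Δ z₀‖) * (ρ / (160 * L)) * Real.log k / k := by
        rw [norm_mul, hr, Complex.norm_ofNat]; field_simp
      rw [h5, sub_div, sub_div, add_div, show (2 : ℝ) / k = 1 / k + 1 / k by ring]
      linarith
    · obtain ⟨s1, -⟩ := floor_scale h2.pos (by linarith [h2.h1, h2.pos] : δ n ≤ ρ)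
      generalize ⌊ρ / δ n⌋₊ = N at *
      have h5 := skew_of_norm h2.pos (mem_box.1 hu)
      have h6 : δ n * (((4 * N : ℕ) : ℝ) + 1) ≤ 12 * ρ := by
        push_cast; linarith [h2.h1, h2.pos]
      obtain ⟨h7, h8⟩ := hQ _ ⟨h5.1.trans h6, h5.2.trans h6⟩
      have h9 : (N : ℂ) * ∑ j : Fin 3, ((ewt c (δ n) u j - 1 : ℝ) : ℂ) * tau ^ (j : ℕ) -
          (N * δ n : ℝ) * (3 * Δ z₀) = (N * δ n : ℝ) * (3 * (Δ (bpos (δ n) u) - Δ z₀)) := by
        rw [(hc _ h7).2]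
        simp only [ewt, if_pos hp, Fin.sum_univ_three, add_sub_cancel_left]
        push_cast
        simp only [Fin.val_zero, Fin.val_one, Fin.val_two]
        ring
      rw [h9, norm_mul, norm_mul, norm_mul, norm_mul, mul_div_assoc, mul_div_assoc]
      exact mul_le_mul_of_nonneg_left (mul_le_mul_of_nonneg_left h8 (norm_nonneg _))
        (norm_nonneg _)
    · rw [hε]; field_simp; ring
  · filter_upwards [hloc', small_eventually (L := L) (M := 3 * M * ρ) (D := 2 * (3 * D₁ + ρ) / ρ)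
      (C := C) (CO := CO) (n₀ := n₀) hA'.1 hA'.2.1 hρ hr0 he0 hε0 hk] with n h1 h2
    rintro W B a T rfl rfl rfl rfl
    obtain ⟨h3, -, h4⟩ := fixed hrow hobs hL hc₀ hC hCO hD hk hkr hr0 hr' he1 (by positivity) he3
      hs2 h2 rfl h1 _ fun _ => rfl
    refine ⟨fun i => (h3 (fun v _ j => by simp [ewt]) (E i)).trans ?_,
      (hsum _).le.trans (h4.trans (le_of_eq ?_))⟩
    · rw [show (C + 2) / k = (C + 1) / k + 1 / k by ring]
      linarith
    · rw [hε]; field_simp; ring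

end Pool.Agent.Lib.MP_60c5b4_pr.H
end
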