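import Pool.Agent.Lib.MP_60c5b4_pr.H.Sign

/-!
Passage to the limit: separation of the discrete characteristic functions gives mutual
singularity of the limit laws.
-/

namespace Pool.Agent.Lib.MP_60c5b4_pr.H

open MeasureTheory Filter Topology Complex
open scoped ComplexConjugate

namespace Limit

/-- Borel-Cantelli: two finite measures that live on nearly disjoint sets are singular. -/
theorem singular_of_cover {S : Type} [MeasurableSpace S] {μ ν : Measure S} [IsFiniteMeasure μ]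
    [IsFiniteMeasure ν]
    (h : ∀ η > (0 : ℝ), ∃ E E' : Set S, (∀ s, s ∈ E ∨ s ∈ E') ∧ μ.real E ≤ η ∧ ν.real E' ≤ η) :
    μ.MutuallySingular ν := by
  choose E E' hc h1 h2 using fun n : ℕ => h ((1 / 2) ^ n) (by positivity)
  have hsum : ∀ (m : Measure S) [IsFiniteMeasure m] (s : ℕ → Set S),
      (∀ n, m.real (s n) ≤ (1 / 2) ^ n) → m (limsup s atTop) = 0 := by
    intro m _ s hs
    refine measure_limsup_atTop_eq_zero (ne_top_of_le_ne_top
      summable_geometric_two.tsum_ofReal_ne_top (ENNReal.tsum_le_tsum fun n => ?_))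
    rw [← ofReal_measureReal]
    exact ENNReal.ofReal_le_ofReal (hs n)
  refine Measure.MutuallySingular.mk (hsum μ E h1) (hsum ν E' h2) fun x _ => ?_
  simp only [Set.mem_union, mem_limsup_iff_frequently_mem]
  rw [← frequently_or_distrib]
  exact Frequently.of_forall fun n => hc n x

section moments
variable {S : Type} [MeasurableSpace S] {μ : Measure S} [IsProbabilityMeasure μ]

theorem integrable_of_bdd {G : S → ℂ} (hm : Measurable G) {C : ℝ} (hb : ∀ s, ‖G s‖ ≤ C) :
    Integrable G μ :=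
  Integrable.of_bound hm.aestronglyMeasurable C (Eventually.of_forall hb)

theorem meas_conj {G : S → ℂ} (hm : Measurable G) : Measurable fun s => conj (G s) :=
  continuous_conj.measurable.comp hm

theorem cov_eq {F G : S → ℂ} (hF : Measurable F) (hG : Measurable G) (bF : ∀ s, ‖F s‖ ≤ 1)
    (bG : ∀ s, ‖G s‖ ≤ 1) :
    ∫ s, (F s - ∫ t, F t ∂μ) * conj (G s - ∫ t, G t ∂μ) ∂μ =
      ∫ s, F s * conj (G s) ∂μ - (∫ t, F t ∂μ) * conj (∫ t, G t ∂μ) := by
  obtain ⟨a, ha⟩ : ∃ a, a = ∫ t, F t ∂μ := ⟨_, rfl⟩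
  obtain ⟨b, hb⟩ : ∃ b, b = ∫ t, G t ∂μ := ⟨_, rfl⟩
  rw [← ha, ← hb]
  have i1 : Integrable F μ := integrable_of_bdd hF bF
  have i2 : Integrable (fun s => conj (G s)) μ :=
    integrable_of_bdd (meas_conj hG) (C := 1) fun s => by rw [norm_conj]; exact bG s
  have i3 : Integrable (fun s => F s * conj (G s)) μ :=
    integrable_of_bdd (hF.mul (meas_conj hG)) (C := 1) fun s => by
      rw [norm_mul, norm_conj]
      exact mul_le_one₀ (bF s) (norm_nonneg _) (bG s)
  have e : ∀ s, (F s - a) * conj (G s - b) =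
      F s * conj (G s) - conj b * F s - a * conj (G s) + a * conj b := fun s => by
    rw [map_sub]; ring
  simp only [e]
  have i4 : Integrable (fun s => F s * conj (G s) - conj b * F s) μ := i3.sub (i1.const_mul _)
  have i5 : Integrable (fun s => F s * conj (G s) - conj b * F s - a * conj (G s)) μ :=
    i4.sub (i2.const_mul _)
  rw [integral_add i5 (integrable_const _), integral_sub i4 (i2.const_mul _),
    integral_sub i3 (i1.const_mul _), integral_const_mul, integral_const_mul, integral_conj,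
    integral_const, ← ha, ← hb]
  simp only [probReal_univ, one_smul]
  ring

/-- Chebyshev for a unimodular combination of bounded observables. -/
theorem chebyshev {k : ℕ} {T : Fin k → S → ℂ} (hT : ∀ i, Measurable (T i))
    (bT : ∀ i s, ‖T i s‖ ≤ 1) {u : Fin k → ℂ} (hu : ∀ i, ‖u i‖ ≤ 1) {v : ℝ}
    (hv : ∑ i, ∑ j, ‖∫ s, T i s * conj (T j s) ∂μ - (∫ t, T i t ∂μ) * conj (∫ t, T j t ∂μ)‖ ≤ v)
    {d : ℝ} (hd : 0 ≤ d) :
    d ^ 2 * μ.real {s | d ≤ ‖∑ i, u i * T i s - ∑ i, u i * ∫ t, T i t ∂μ‖} ≤ v := by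
  obtain ⟨X, hX⟩ : ∃ X : Fin k → S → ℂ, X = fun i s => T i s - ∫ t, T i t ∂μ := ⟨_, rfl⟩
  have mX : ∀ i, Measurable (X i) := fun i => by
    rw [hX]; exact (hT i).sub measurable_const
  have bX : ∀ i s, ‖X i s‖ ≤ 1 + ‖∫ t, T i t ∂μ‖ := fun i s => by
    rw [hX]; exact (norm_sub_le _ _).trans (add_le_add (bT i s) le_rfl)
  have iX : ∀ i j, Integrable (fun s => u i * conj (u j) * (X i s * conj (X j s))) μ :=
    fun i j => Integrable.const_mul (integrable_of_bdd ((mX i).mul (meas_conj (mX j)))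
      (C := (1 + ‖∫ t, T i t ∂μ‖) * (1 + ‖∫ t, T j t ∂μ‖)) fun s => by
        rw [Pi.mul_apply, norm_mul, norm_conj]
        exact mul_le_mul (bX i s) (bX j s) (norm_nonneg _) (by positivity)) _
  have e1 : ∀ s, ∑ i, u i * T i s - ∑ i, u i * ∫ t, T i t ∂μ = ∑ i, u i * X i s := fun s => by
    rw [hX, ← Finset.sum_sub_distrib]
    exact Finset.sum_congr rfl fun i _ => by ring
  have e2 : ∀ s, ((‖∑ i, u i * X i s‖ ^ 2 : ℝ) : ℂ) =
      ∑ i, ∑ j, u i * conj (u j) * (X i s * conj (X j s)) := fun s => by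
    rw [← Complex.normSq_eq_norm_sq, ← Complex.mul_conj, map_sum, Finset.sum_mul_sum]
    refine Finset.sum_congr rfl fun i _ => Finset.sum_congr rfl fun j _ => ?_
    rw [map_mul]; ring
  have iS : Integrable (fun s => ∑ i, ∑ j, u i * conj (u j) * (X i s * conj (X j s))) μ :=
    integrable_finsetSum _ fun i _ => integrable_finsetSum _ fun j _ => iX i j
  have iN : Integrable (fun s => ‖∑ i, u i * X i s‖ ^ 2) μ := by
    have := iS.re
    simpa only [← e2, RCLike.re_to_complex, ofReal_re] using this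
  have e3 : ((∫ s, ‖∑ i, u i * X i s‖ ^ 2 ∂μ : ℝ) : ℂ) =
      ∑ i, ∑ j, u i * conj (u j) * (∫ s, T i s * conj (T j s) ∂μ -
        (∫ t, T i t ∂μ) * conj (∫ t, T j t ∂μ)) := by
    rw [← integral_complex_ofReal]
    simp only [e2]
    rw [integral_finsetSum _ fun i _ => integrable_finsetSum _ fun j _ => iX i j]
    refine Finset.sum_congr rfl fun i _ => ?_
    rw [integral_finsetSum _ fun j _ => iX i j]
    refine Finset.sum_congr rfl fun j _ => ?_
    rw [integral_const_mul, ← cov_eq (hT i) (hT j) (bT i) (bT j), hX]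
  have e4 : ∫ s, ‖∑ i, u i * X i s‖ ^ 2 ∂μ ≤ v := by
    refine (le_abs_self _).trans ?_
    rw [← Real.norm_eq_abs, ← Complex.norm_real, e3]
    refine le_trans ((norm_sum_le _ _).trans (Finset.sum_le_sum fun i _ =>
      (norm_sum_le _ _).trans (Finset.sum_le_sum fun j _ => ?_))) hv
    rw [norm_mul, norm_mul, norm_conj]
    exact mul_le_of_le_one_left (norm_nonneg _) (mul_le_one₀ (hu i) (norm_nonneg _) (hu j))
  have e5 := mul_meas_ge_le_integral_of_nonneg (μ := μ)
    (f := fun s => ‖∑ i, u i * X i s‖ ^ 2) (Eventually.of_forall fun s => by positivity) iN (d ^ 2)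
  simp only [e1]
  refine le_trans (le_of_eq ?_) (e5.trans e4)
  congr 2
  ext s
  exact (sq_le_sq₀ hd (norm_nonneg _)).symm

end moments

section limit
variable {Ω : Set ℂ} {lam : ℝ} {c : ℂ → Fin 3 → ℝ} {δ : ℕ → ℝ} {V : ℕ → Finset Pt} {f : ℕ → Pt}
  {S : Type} [MeasurableSpace S] {ev : (ℂ → ℝ) → S → ℝ} {μ : Measure S}

/-- Convergence in law tested against complex bounded continuous functions. -/
theorem tendsto_cmean (hm : ∀ φ, IsTest Ω φ → Measurable (ev φ))
    (h : HeightLimit Ω lam c δ V f ev μ) {k : ℕ} {φ : Fin k → ℂ → ℝ} (hφ : ∀ i, IsTest Ω (φ i))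
    {G : (Fin k → ℝ) → ℂ} (hG : Continuous G) (bG : ∀ x, ‖G x‖ ≤ 1) :
    Tendsto (fun n => cmean (whites (V n)) (blacks (V n) (f n)) (ewt c (δ n)) fun m =>
        G fun i => pairing lam (δ n) (whites (V n)) (blacks (V n) (f n)) (ewt c (δ n)) m (φ i))
      atTop (𝓝 (∫ s, G (fun i => ev (φ i) s) ∂μ)) := by
  have := h.1
  have h1 := h.2 k φ hφ (BoundedContinuousFunction.ofNormedAddCommGroup (fun x => (G x).re)
    (continuous_re.comp hG) 1 fun x => (abs_re_le_norm _).trans (bG x))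
  have h2 := h.2 k φ hφ (BoundedContinuousFunction.ofNormedAddCommGroup (fun x => (G x).im)
    (continuous_im.comp hG) 1 fun x => (abs_im_le_norm _).trans (bG x))
  simp only [BoundedContinuousFunction.coe_ofNormedAddCommGroup] at h1 h2
  have hi : Integrable (fun s => G fun i => ev (φ i) s) μ :=
    integrable_of_bdd (hG.measurable.comp (measurable_pi_lambda _ fun i => hm _ (hφ i)))
      fun s => bG _
  have h3 := h1.ofReal.add (h2.ofReal.mul_const I)
  have e := integral_re_add_im hi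
  simp only [RCLike.re_to_complex, RCLike.im_to_complex, RCLike.I_to_complex] at e
  have e' : ((∫ s, (G fun i => ev (φ i) s).re ∂μ : ℝ) : ℂ) +
      ((∫ s, (G fun i => ev (φ i) s).im ∂μ : ℝ) : ℂ) * I = ∫ s, G (fun i => ev (φ i) s) ∂μ := e
  rw [e'] at h3
  refine h3.congr fun n => ?_
  rw [← cmean_re, ← cmean_im, re_add_im]

/-- The limiting characteristic observables. -/
noncomputable def lchr (ev : (ℂ → ℝ) → S → ℝ) (φ : ℂ → ℝ) (s : S) : ℂ := exp (I * ev φ s)

omit [MeasurableSpace S] in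
theorem norm_lchr (φ : ℂ → ℝ) (s : S) : ‖lchr ev φ s‖ ≤ 1 := (norm_exp_I_mul_ofReal _).le

theorem meas_lchr {φ : ℂ → ℝ} (hm : Measurable (ev φ)) : Measurable (lchr ev φ) :=
  measurable_exp.comp (measurable_const.mul (measurable_ofReal.comp hm))

theorem tendsto_mean (hm : ∀ φ, IsTest Ω φ → Measurable (ev φ))
    (h : HeightLimit Ω lam c δ V f ev μ) {k : ℕ} {φ : Fin k → ℂ → ℝ} (hφ : ∀ i, IsTest Ω (φ i))
    (i : Fin k) :
    Tendsto (fun n => cmean (whites (V n)) (blacks (V n) (f n)) (ewt c (δ n))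
        (chr lam (δ n) (whites (V n)) (blacks (V n) (f n)) (ewt c (δ n)) (φ i)))
      atTop (𝓝 (∫ s, lchr ev (φ i) s ∂μ)) :=
  tendsto_cmean hm h hφ (G := fun x => exp (I * x i)) (by fun_prop)
    fun x => (norm_exp_I_mul_ofReal _).le

theorem tendsto_cov (hm : ∀ φ, IsTest Ω φ → Measurable (ev φ))
    (h : HeightLimit Ω lam c δ V f ev μ) {k : ℕ} {φ : Fin k → ℂ → ℝ} (hφ : ∀ i, IsTest Ω (φ i))
    (i j : Fin k) :
    Tendsto (fun n => ccov (whites (V n)) (blacks (V n) (f n)) (ewt c (δ n))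
        (chr lam (δ n) (whites (V n)) (blacks (V n) (f n)) (ewt c (δ n)) (φ i))
        (chr lam (δ n) (whites (V n)) (blacks (V n) (f n)) (ewt c (δ n)) (φ j)))
      atTop (𝓝 (∫ s, lchr ev (φ i) s * conj (lchr ev (φ j) s) ∂μ -
        (∫ s, lchr ev (φ i) s ∂μ) * conj (∫ s, lchr ev (φ j) s ∂μ))) := by
  have h1 := tendsto_cmean hm h hφ (G := fun x => exp (I * x i) * conj (exp (I * x j)))
    (by fun_prop) fun x => by
      rw [norm_mul, norm_conj, norm_exp_I_mul_ofReal, norm_exp_I_mul_ofReal, one_mul]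
  exact h1.sub ((tendsto_mean hm h hφ i).mul
    ((continuous_conj.tendsto _).comp (tendsto_mean hm h hφ j)))

theorem cov_le (hm : ∀ φ, IsTest Ω φ → Measurable (ev φ))
    (h : HeightLimit Ω lam c δ V f ev μ) {k : ℕ} {φ : Fin k → ℂ → ℝ} (hφ : ∀ i, IsTest Ω (φ i))
    {v : ℝ} (hv : ∀ᶠ n in atTop, ∑ i, ∑ j, ‖ccov (whites (V n)) (blacks (V n) (f n)) (ewt c (δ n))
        (chr lam (δ n) (whites (V n)) (blacks (V n) (f n)) (ewt c (δ n)) (φ i))
        (chr lam (δ n) (whites (V n)) (blacks (V n) (f n)) (ewt c (δ n)) (φ j))‖ ≤ v) :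
    ∑ i, ∑ j, ‖∫ s, lchr ev (φ i) s * conj (lchr ev (φ j) s) ∂μ -
        (∫ s, lchr ev (φ i) s ∂μ) * conj (∫ s, lchr ev (φ j) s ∂μ)‖ ≤ v :=
  le_of_tendsto (tendsto_finsetSum _ fun i _ => tendsto_finsetSum _ fun j _ =>
    (tendsto_cov hm h hφ i j).norm) hv

end limit

theorem exists_unit (z : ℂ) : ∃ u : ℂ, ‖u‖ ≤ 1 ∧ (u * z).re = ‖z‖ := by
  by_cases hz : z = 0
  · exact ⟨0, by simp, by simp [hz]⟩
  · have h : ‖z‖ ≠ 0 := norm_ne_zero_iff.2 hz
    refine ⟨conj z / (‖z‖ : ℂ), ?_, ?_⟩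
    · rw [norm_div, norm_conj, Complex.norm_real, norm_norm, div_self h]
    · rw [div_mul_eq_mul_div, mul_comm, Complex.mul_conj, Complex.normSq_eq_norm_sq,
        ← ofReal_div, ofReal_re, sq, mul_div_assoc, div_self h, mul_one]

end Limit

open Limit in
theorem limit : LimitStmt where
  ex := by
    intro Ω lam c δ V f S _ ev μ h
    have := h.1
    have h1 := h.2 0 (fun i => i.elim0) (fun i => i.elim0) 1
    simp only [BoundedContinuousFunction.coe_one, Pi.one_apply, integral_const, probReal_univ,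
      smul_eq_mul, mul_one] at h1
    filter_upwards [h1.eventually_ne one_ne_zero] with n hn
    rw [dmean_eq] at hn
    obtain ⟨σ, -, hσ⟩ := Finset.exists_ne_zero_of_sum_ne_zero hn
    exact ⟨_, matching_of_pw (left_ne_zero_of_mul hσ)⟩
  sing := by
    intro Ω lam c c' δ δ' V V' f f' S _ ev μ ν hm hμ hν hs
    have := hμ.1
    have := hν.1
    have key : μ.MutuallySingular ν := by
      refine singular_of_cover fun η hη => ?_
      obtain ⟨k, φ, m₀, m₁, v, hφ, hk, hm01, hv, e1, e2⟩ := hs (η / 4) (by positivity)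
      replace e1 := e1.mono fun n hn => hn _ _ _ _ rfl rfl rfl rfl
      replace e2 := e2.mono fun n hn => hn _ _ _ _ rfl rfl rfl rfl
      have a1 : ∀ i, m₁ ≤ ‖∫ s, lchr ev (φ i) s ∂μ‖ := fun i =>
        ge_of_tendsto (tendsto_mean hm hμ hφ i).norm (e1.mono fun n hn => hn.1 i)
      have a2 : ∀ i, ‖∫ s, lchr ev (φ i) s ∂ν‖ ≤ m₀ := fun i =>
        le_of_tendsto (tendsto_mean hm hν hφ i).norm (e2.mono fun n hn => hn.1 i)
      have c1 := cov_le hm hμ hφ (e1.mono fun n hn => hn.2)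
      have c2 := cov_le hm hν hφ (e2.mono fun n hn => hn.2)
      choose u hu hu' using fun i => exists_unit (∫ s, lchr ev (φ i) s ∂μ)
      obtain ⟨d, hd⟩ : ∃ d : ℝ, d = k * (m₁ - m₀) / 2 := ⟨_, rfl⟩
      have hk' : (0 : ℝ) < k := by exact_mod_cast hk
      have hd0 : 0 < d := by rw [hd]; have := sub_pos.2 hm01; positivity
      have hv' : v ≤ d ^ 2 * η := by rw [hd]; linarith
      have b1 := chebyshev (μ := μ) (fun i => meas_lchr (hm _ (hφ i)))
        (fun i s => norm_lchr (φ i) s) hu c1 hd0.le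
      have b2 := chebyshev (μ := ν) (fun i => meas_lchr (hm _ (hφ i)))
        (fun i s => norm_lchr (φ i) s) hu c2 hd0.le
      refine ⟨_, _, fun s => ?_, le_of_mul_le_mul_left (b1.trans hv') (by positivity),
        le_of_mul_le_mul_left (b2.trans hv') (by positivity)⟩
      have s1 : k * m₁ ≤ (∑ i, u i * ∫ s, lchr ev (φ i) s ∂μ).re := by
        rw [re_sum]
        refine le_trans (by simp) (Finset.sum_le_sum fun i _ => (a1 i).trans (hu' i).ge)
      have s2 : (∑ i, u i * ∫ s, lchr ev (φ i) s ∂ν).re ≤ k * m₀ := by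
        rw [re_sum]
        refine le_trans (Finset.sum_le_sum fun i _ => (re_le_norm _).trans
          (?_ : _ ≤ m₀)) (by simp)
        rw [norm_mul]
        exact (mul_le_of_le_one_left (norm_nonneg _) (hu i)).trans (a2 i)
      simp only [Set.mem_ofPred_eq]
      by_contra hc
      push Not at hc
      have t1 := (abs_le.1 ((abs_re_le_norm _).trans hc.1.le)).1
      have t2 := (re_le_norm _).trans_lt hc.2
      rw [sub_re] at t1 t2
      linarith
    exact ⟨key, fun hac => IsProbabilityMeasure.ne_zero μ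
      (Measure.eq_zero_of_absolutelyContinuous_of_mutuallySingular hac key)⟩

end Pool.Agent.Lib.MP_60c5b4_pr.H
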