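import Pool.Agent.Lib.MP_60c5b4_pr.H.Sign

/-!
Invertibility of the cyclic model after a rank one correction, and the overlaps of the
corresponding modes with the plane waves.
-/

namespace Pool.Agent.Lib.MP_60c5b4_pr.H

open MeasureTheory Filter Topology Matrix Complex
open scoped ComplexConjugate

namespace Mode

/-! ### Euclidean norm and inner product -/

section Norm

variable {ι : Type} [Fintype ι]

/-- Euclidean norm. -/
noncomputable def nm (v : ι → ℂ) : ℝ := Real.sqrt (ns v)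

/-- Inner product. -/
noncomputable def ip (u v : ι → ℂ) : ℂ := star u ⬝ᵥ v

theorem ns_nonneg (v : ι → ℂ) : 0 ≤ ns v := Finset.sum_nonneg fun _ _ => by positivity

theorem nm_nonneg (v : ι → ℂ) : 0 ≤ nm v := Real.sqrt_nonneg _

theorem nm_sq (v : ι → ℂ) : nm v ^ 2 = ns v := Real.sq_sqrt (ns_nonneg v)

theorem nm_eq (v : ι → ℂ) : nm v = ‖(WithLp.toLp 2 v : EuclideanSpace ℂ ι)‖ := by
  rw [EuclideanSpace.norm_eq]; rfl

theorem nm_le_of_ns {v : ι → ℂ} {c : ℝ} (hc : 0 ≤ c) (h : ns v ≤ c ^ 2) : nm v ≤ c :=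
  Real.sqrt_le_iff.2 ⟨hc, h⟩

theorem ns_le_of_nm {v : ι → ℂ} {c : ℝ} (h : nm v ≤ c) : ns v ≤ c ^ 2 := by
  rw [← nm_sq]; exact pow_le_pow_left₀ (nm_nonneg v) h 2

theorem nm_add_le (u v : ι → ℂ) : nm (u + v) ≤ nm u + nm v := by
  rw [nm_eq, nm_eq, nm_eq, WithLp.toLp_add]; exact norm_add_le _ _

theorem nm_sub_le (u v : ι → ℂ) : nm (u - v) ≤ nm u + nm v := by
  rw [nm_eq, nm_eq, nm_eq, WithLp.toLp_sub]; exact norm_sub_le _ _

theorem nm_smul (c : ℂ) (v : ι → ℂ) : nm (c • v) = ‖c‖ * nm v := by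
  rw [nm_eq, nm_eq, WithLp.toLp_smul, norm_smul]

theorem ip_le (u v : ι → ℂ) : ‖ip u v‖ ≤ nm u * nm v := by
  rw [nm_eq, nm_eq, ip, dotProduct_comm, ← EuclideanSpace.inner_toLp_toLp]
  exact norm_inner_le_norm _ _

theorem ip_self (v : ι → ℂ) : ip v v = (ns v : ℂ) := by
  simp only [ip, ns, dotProduct, Pi.star_apply, ofReal_sum, ofReal_pow]
  refine Finset.sum_congr rfl fun i _ => ?_
  rw [RCLike.star_def, Complex.conj_mul']

theorem ip_add_right (u v w : ι → ℂ) : ip u (v + w) = ip u v + ip u w := dotProduct_add _ _ _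

theorem ip_sub_right (u v w : ι → ℂ) : ip u (v - w) = ip u v - ip u w := dotProduct_sub _ _ _

theorem ip_sub_left (u v w : ι → ℂ) : ip (u - v) w = ip u w - ip v w := by
  rw [ip, star_sub, sub_dotProduct]; rfl

theorem ip_smul_right (c : ℂ) (u v : ι → ℂ) : ip u (c • v) = c * ip u v := by
  rw [ip, dotProduct_smul]; rfl

theorem ip_mulVec (A : Matrix ι ι ℂ) (u v : ι → ℂ) : ip u (A *ᵥ v) = ip (Aᴴ *ᵥ u) v := by
  rw [ip, ip, star_mulVec, conjTranspose_conjTranspose, dotProduct_mulVec]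

theorem ip_mul (d u v : ι → ℂ) : ip u (d * v) = ip (star d * u) v := by
  simp only [ip, dotProduct, Pi.star_apply, Pi.mul_apply, star_mul', star_star]
  exact Finset.sum_congr rfl fun i _ => by ring

theorem nm_mul_le {d : ι → ℂ} {c : ℝ} (hc : 0 ≤ c) (hd : ∀ i, ‖d i‖ ≤ c) (v : ι → ℂ) :
    nm (d * v) ≤ c * nm v := by
  refine nm_le_of_ns (mul_nonneg hc (nm_nonneg v)) ?_
  rw [mul_pow, nm_sq, ns, ns, Finset.mul_sum]
  refine Finset.sum_le_sum fun i _ => ?_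
  rw [Pi.mul_apply, norm_mul, mul_pow]
  exact mul_le_mul_of_nonneg_right (pow_le_pow_left₀ (norm_nonneg _) (hd i) 2) (by positivity)

theorem nm_mul_unit {d : ι → ℂ} (hd : ∀ i, ‖d i‖ = 1) (v : ι → ℂ) : nm (d * v) = nm v := by
  simp only [nm, ns, Pi.mul_apply, norm_mul, hd, one_mul]

theorem vmv (p q v : ι → ℂ) : vecMulVec p (star q) *ᵥ v = ip q v • p := by
  rw [vecMulVec_mulVec, op_smul_eq_smul]; rfl

theorem dmv [DecidableEq ι] (d v : ι → ℂ) : diagonal d *ᵥ v = d * v :=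
  funext fun i => mulVec_diagonal d v i

theorem nm_proj {P : Matrix ι ι ℂ} (h1 : Pᴴ = P) (h2 : P * P = P) (v : ι → ℂ) :
    nm (P *ᵥ v) ≤ nm v := by
  have e : (ns (P *ᵥ v) : ℂ) = ip (P *ᵥ v) v := by
    rw [← ip_self, ip_mulVec, h1, mulVec_mulVec, h2]
  have h3 := ip_le (P *ᵥ v) v
  rw [← e, Complex.norm_real, Real.norm_of_nonneg (ns_nonneg _), ← nm_sq, sq] at h3
  rcases (nm_nonneg (P *ᵥ v)).eq_or_lt with h | h
  · rw [← h]; exact nm_nonneg v
  · exact le_of_mul_le_mul_left h3 h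

theorem nm_coproj [DecidableEq ι] {P : Matrix ι ι ℂ} (h1 : Pᴴ = P) (h2 : P * P = P) (v : ι → ℂ) :
    nm (v - P *ᵥ v) ≤ nm v := by
  have := nm_proj (P := 1 - P) (by rw [conjTranspose_sub, conjTranspose_one, h1])
    (by rw [sub_mul, mul_sub, mul_sub, h2]; simp) v
  rwa [sub_mulVec, one_mulVec] at this

end Norm

/-! ### The abstract perturbation argument -/

section Alg

variable {ι : Type} [Fintype ι] [DecidableEq ι]

/-- The algebraic data of the model, with all errors at most `ε`. -/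
structure Hyp (P : Matrix ι ι ℂ) (B g p0 p1 q0 q1 : ι → ℂ) (ε ν : ℝ) : Prop where
  herm : Pᴴ = P
  idem : P * P = P
  hB : ∀ i, ‖B i‖ = 1
  hg : ∀ i, ‖g i‖ = 1
  close : ∀ i, ‖g i - B i‖ ≤ ε
  comm : diagonal B * P - P * diagonal B = vecMulVec p0 (star q0) - vecMulVec p1 (star q1)
  e0 : ∀ i, B i * q0 i = -p0 i
  e1 : ∀ i, B i * q1 i = -p1 i
  np0 : ns p0 = ν
  np1 : ns p1 = ν
  nq1 : ns q1 = ν
  one_le : 1 ≤ ν
  le_one : ν ≤ 1 + ε
  s1 : nm (p0 - P *ᵥ p0) ≤ ε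
  s2 : nm (q1 - P *ᵥ q1) ≤ ε
  s3 : nm (P *ᵥ p1) ≤ ε
  s4 : nm (P *ᵥ q0) ≤ ε
  le : ε ≤ 1 / 100

/-- The corrected matrix. -/
noncomputable def Ym (P : Matrix ι ι ℂ) (g p q : ι → ℂ) : Matrix ι ι ℂ :=
  1 + diagonal (fun x => g x - 1) * P + vecMulVec p (star q)

theorem Ym_mulVec (P : Matrix ι ι ℂ) (g p q v : ι → ℂ) :
    Ym P g p q *ᵥ v = v + (g - 1) * (P *ᵥ v) + ip q v • p := by
  rw [Ym, add_mulVec, add_mulVec, one_mulVec, ← mulVec_mulVec, dmv, vmv]; rfl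

theorem Ym_adj {P : Matrix ι ι ℂ} (h : Pᴴ = P) (g p q v : ι → ℂ) :
    (Ym P g p q)ᴴ *ᵥ v = v + P *ᵥ (star (g - 1) * v) + ip p v • q := by
  rw [Ym, conjTranspose_add, conjTranspose_add, conjTranspose_one, conjTranspose_mul, h,
    diagonal_conjTranspose, conjTranspose_vecMulVec, star_star, add_mulVec, add_mulVec, one_mulVec,
    ← mulVec_mulVec, dmv, vmv]
  rfl

variable {P : Matrix ι ι ℂ} {B g p0 p1 q0 q1 : ι → ℂ} {ε ν : ℝ}

namespace Hyp

variable (H : Hyp P B g p0 p1 q0 q1 ε ν)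
include H

theorem pos : 0 ≤ ε := (nm_nonneg _).trans H.s1

theorem b0 : nm p0 ≤ 2 := nm_le_of_ns (by norm_num) (by linarith [H.np0, H.le_one, H.le])

theorem b1 : nm p1 ≤ 2 := nm_le_of_ns (by norm_num) (by linarith [H.np1, H.le_one, H.le])

theorem b2 : nm q1 ≤ 2 := nm_le_of_ns (by norm_num) (by linarith [H.nq1, H.le_one, H.le])

theorem star_mul : star B * p0 = -q0 := by
  funext i
  have h1 : conj (B i) * B i = 1 := by
    rw [Complex.conj_mul', H.hB]; simp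
  have h2 := H.e0 i
  simp only [Pi.mul_apply, Pi.star_apply, Pi.neg_apply, RCLike.star_def]
  linear_combination conj (B i) * h2 - q0 i * h1

theorem ip_P (u v : ι → ℂ) : ip u (P *ᵥ v) = ip (P *ᵥ u) v := by rw [ip_mulVec, H.herm]

theorem PP (v : ι → ℂ) : P *ᵥ (P *ᵥ v) = P *ᵥ v := by rw [mulVec_mulVec, H.idem]

theorem close_le (v : ι → ℂ) : nm ((g - B) * v) ≤ ε * nm v := nm_mul_le H.pos H.close v

theorem lower0 (v w : ι → ℂ) (hw : w = (v - P *ᵥ v) + B * (P *ᵥ v) + ip q1 v • p0) :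
    nm v ≤ 17 * nm w + 22 * ε * nm v := by
  have hε := H.pos
  have hv := nm_nonneg v
  have hw0 := nm_nonneg w
  have hεv : 0 ≤ ε * nm v := mul_nonneg hε hv
  set u := P *ᵥ v with hu
  set c := ip q1 v with hc
  have hc0 := norm_nonneg c
  -- the coefficient
  have h1 : ip p0 w = ip (p0 - P *ᵥ p0) v - ip (P *ᵥ q0) v + c * ν := by
    rw [hw, ip_add_right, ip_add_right, ip_sub_right, ip_smul_right, ip_self, H.np0, ip_mul,
      H.star_mul, hu, H.ip_P, H.ip_P, ip_sub_left, mulVec_neg, ip, ip, ip, ip, star_neg,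
      neg_dotProduct]
    ring
  have h2 : ‖c‖ ≤ 2 * nm w + 2 * (ε * nm v) := by
    have a1 := (ip_le p0 w).trans (mul_le_mul_of_nonneg_right H.b0 hw0)
    have a2 := (ip_le (p0 - P *ᵥ p0) v).trans (mul_le_mul_of_nonneg_right H.s1 hv)
    have a3 := (ip_le (P *ᵥ q0) v).trans (mul_le_mul_of_nonneg_right H.s4 hv)
    have a4 : c * ν = ip p0 w - ip (p0 - P *ᵥ p0) v + ip (P *ᵥ q0) v := by rw [h1]; ring
    have a5 : ‖c‖ * ν ≤ ‖ip p0 w‖ + ‖ip (p0 - P *ᵥ p0) v‖ + ‖ip (P *ᵥ q0) v‖ := by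
      have : ‖c * (ν : ℂ)‖ = ‖c‖ * ν := by
        rw [norm_mul, Complex.norm_real, Real.norm_of_nonneg (by linarith [H.one_le])]
      rw [← this, a4]
      exact (norm_add_le _ _).trans (add_le_add_left (norm_sub_le _ _) _)
    nlinarith [H.one_le]
  -- the commutator
  have h3 : B * u - P *ᵥ (B * u) = ip q0 u • p0 - ip q1 u • p1 := by
    have := congrArg (fun A => A *ᵥ u) H.comm
    simp only [sub_mulVec, ← mulVec_mulVec, dmv, vmv] at this
    rwa [hu, H.PP] at this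
  have h4 : nm (B * u - P *ᵥ (B * u)) ≤ 2 * ‖c‖ + 4 * (ε * nm v) := by
    rw [h3]
    refine (nm_sub_le _ _).trans ?_
    rw [nm_smul, nm_smul]
    have a1 : ‖ip q0 u‖ ≤ ε * nm v := by
      rw [hu, H.ip_P]
      exact (ip_le _ _).trans (mul_le_mul_of_nonneg_right H.s4 hv)
    have a2 : ‖ip q1 u‖ ≤ ‖c‖ + ε * nm v := by
      have : ip q1 u = c - ip (q1 - P *ᵥ q1) v := by rw [hu, H.ip_P, ip_sub_left, hc]; ring
      rw [this]
      exact (norm_sub_le _ _).trans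
        (add_le_add_right ((ip_le _ _).trans (mul_le_mul_of_nonneg_right H.s2 hv)) _)
    have a3 := mul_le_mul a1 H.b0 (nm_nonneg _) hεv
    have a4 := mul_le_mul a2 H.b1 (nm_nonneg _) (by positivity)
    linarith
  -- the component off the range
  have h5 : v - u = (w - P *ᵥ w) - (B * u - P *ᵥ (B * u)) - c • (p0 - P *ᵥ p0) := by
    rw [hw, mulVec_add, mulVec_add, mulVec_sub, mulVec_smul, hu, H.PP, smul_sub]
    abel
  have h6 : nm (v - u) ≤ nm w + 2 * ‖c‖ + 4 * (ε * nm v) + ‖c‖ * ε := by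
    rw [h5]
    refine (nm_sub_le _ _).trans ?_
    have a1 := nm_sub_le (w - P *ᵥ w) (B * u - P *ᵥ (B * u))
    have a2 := nm_coproj H.herm H.idem w
    have a3 := mul_le_mul_of_nonneg_left H.s1 hc0
    rw [nm_smul]
    linarith
  have h7 : nm u ≤ nm w + nm (v - u) + ‖c‖ * 2 := by
    have : B * u = w - (v - u) - c • p0 := by rw [hw]; abel
    rw [← nm_mul_unit H.hB u, this]
    refine (nm_sub_le _ _).trans ?_
    rw [nm_smul]
    have a1 := nm_sub_le w (v - u)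
    have a2 := mul_le_mul_of_nonneg_left H.b0 hc0
    linarith
  have h8 : nm v ≤ nm u + nm (v - u) := by
    have := nm_add_le u (v - u)
    rwa [add_sub_cancel] at this
  have h9 : ‖c‖ * ε ≤ ‖c‖ * (1 / 100) := mul_le_mul_of_nonneg_left H.le hc0
  linarith

theorem lower (v : ι → ℂ) : nm v ≤ 34 * nm (Ym P g p0 q1 *ᵥ v) := by
  have h1 := H.lower0 v _ rfl
  have h2 : (v - P *ᵥ v) + B * (P *ᵥ v) + ip q1 v • p0 =
      Ym P g p0 q1 *ᵥ v - (g - B) * (P *ᵥ v) := by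
    rw [Ym_mulVec]; ring
  rw [h2] at h1
  have h3 := nm_sub_le (Ym P g p0 q1 *ᵥ v) ((g - B) * (P *ᵥ v))
  have h4 := (H.close_le (P *ᵥ v)).trans
    (mul_le_mul_of_nonneg_left (nm_proj H.herm H.idem v) H.pos)
  have h5 : ε * nm v ≤ 1 / 100 * nm v := mul_le_mul_of_nonneg_right H.le (nm_nonneg v)
  have h6 := nm_nonneg v
  linarith

theorem isUnit : IsUnit (Ym P g p0 q1) := by
  refine mulVec_injective_iff_isUnit.1 fun u v huv => ?_
  have h1 := H.lower (u - v)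
  rw [mulVec_sub, huv, sub_self, nm_eq (0 : ι → ℂ), WithLp.toLp_zero, norm_zero, mul_zero,
    nm_eq, norm_le_zero_iff, WithLp.toLp_eq_zero] at h1
  exact sub_eq_zero.1 h1

theorem lower_adj (v : ι → ℂ) : nm v ≤ 34 * nm ((Ym P g p0 q1)ᴴ *ᵥ v) := by
  obtain ⟨w, hw⟩ := mulVec_surjective_iff_isUnit.2 H.isUnit v
  have h1 : (ns v : ℂ) = ip ((Ym P g p0 q1)ᴴ *ᵥ v) w := by rw [← ip_mulVec, hw, ip_self]
  have h2 := ip_le ((Ym P g p0 q1)ᴴ *ᵥ v) w
  have h3 := H.lower w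
  rw [hw] at h3
  rw [← h1, Complex.norm_real, Real.norm_of_nonneg (ns_nonneg _), ← nm_sq, sq] at h2
  have h4 := h2.trans (mul_le_mul_of_nonneg_left h3 (nm_nonneg _))
  rcases (nm_nonneg v).eq_or_lt with h | h
  · rw [← h]; exact mul_nonneg (by norm_num) (nm_nonneg _)
  · exact le_of_mul_le_mul_left (by linarith) h

theorem sub_one_le (v : ι → ℂ) : nm ((B - 1) * v) ≤ 2 * nm v :=
  nm_mul_le (by norm_num) (fun i => (norm_sub_le _ _).trans (by simp [H.hB i]; norm_num)) v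

theorem approx_y : nm (Ym P g p0 q1 *ᵥ (p1 + q1) - p0) ≤ 18 * ε := by
  have hε := H.pos
  have e1 : B * q1 = -p1 := funext H.e1
  have h1 : Ym P g p0 q1 *ᵥ (p1 + q1) - p0 = (g - B) * (P *ᵥ (p1 + q1)) +
      ((B - 1) * (P *ᵥ p1) - (B - 1) * (q1 - P *ᵥ q1)) + (ip q1 (p1 + q1) - 1) • p0 := by
    rw [Ym_mulVec, mulVec_add, sub_smul, one_smul]
    linear_combination e1
  have h2 : ‖ip q1 (p1 + q1) - 1‖ ≤ 5 * ε := by
    have a0 : ip q1 (p1 + q1) - 1 =
        ip (q1 - P *ᵥ q1) p1 + ip q1 (P *ᵥ p1) + ((ν - 1 : ℝ) : ℂ) := by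
      rw [ip_add_right, ip_self, H.nq1, ip_sub_left, H.ip_P]; push_cast; ring
    have a1 := (ip_le (q1 - P *ᵥ q1) p1).trans (mul_le_mul H.s2 H.b1 (nm_nonneg _) hε)
    have a2 := (ip_le q1 (P *ᵥ p1)).trans (mul_le_mul H.b2 H.s3 (nm_nonneg _) (by norm_num))
    have a3 : ‖((ν - 1 : ℝ) : ℂ)‖ ≤ ε := by
      rw [Complex.norm_real, Real.norm_of_nonneg (by linarith [H.one_le])]
      linarith [H.le_one]
    rw [a0]
    refine (norm_add₃_le).trans (by linarith)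
  have h3 : nm ((g - B) * (P *ᵥ (p1 + q1))) ≤ ε * 4 :=
    (H.close_le _).trans (mul_le_mul_of_nonneg_left ((nm_proj H.herm H.idem _).trans
      ((nm_add_le _ _).trans (by linarith [H.b1, H.b2]))) hε)
  have h4 := H.sub_one_le (P *ᵥ p1)
  have h5 := H.sub_one_le (q1 - P *ᵥ q1)
  have h6 := nm_sub_le ((B - 1) * (P *ᵥ p1)) ((B - 1) * (q1 - P *ᵥ q1))
  have h7 := mul_le_mul h2 H.b0 (nm_nonneg _) (by positivity)
  rw [h1]
  refine (nm_add_le _ _).trans ?_
  rw [nm_smul]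
  have h8 := nm_add_le ((g - B) * (P *ᵥ (p1 + q1)))
    ((B - 1) * (P *ᵥ p1) - (B - 1) * (q1 - P *ᵥ q1))
  linarith [H.s2, H.s3]

theorem close_star (v : ι → ℂ) : nm (star (g - B) * v) ≤ ε * nm v :=
  nm_mul_le H.pos (fun i => by rw [Pi.star_apply, norm_star]; exact H.close i) v

theorem approx_z : nm ((Ym P g p0 q1)ᴴ *ᵥ p0 - q1) ≤ 6 * ε := by
  have hε := H.pos
  have h0 : star (g - 1) * p0 = star (g - B) * p0 - q0 - p0 := by
    rw [star_sub, star_sub, star_one]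
    linear_combination H.star_mul
  have h1 : (Ym P g p0 q1)ᴴ *ᵥ p0 - q1 = (p0 - P *ᵥ p0) + (P *ᵥ (star (g - B) * p0) - P *ᵥ q0) +
      ((ν - 1 : ℝ) : ℂ) • q1 := by
    rw [Ym_adj H.herm, h0, mulVec_sub, mulVec_sub, ip_self, H.np0, ofReal_sub, sub_smul,
      ofReal_one, one_smul]
    abel
  have h2 := (nm_proj H.herm H.idem _).trans ((H.close_star p0).trans
    (mul_le_mul_of_nonneg_left H.b0 hε))
  have h3 := nm_sub_le (P *ᵥ (star (g - B) * p0)) (P *ᵥ q0)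
  have h4 := nm_add_le (p0 - P *ᵥ p0) (P *ᵥ (star (g - B) * p0) - P *ᵥ q0)
  have h5 : (ν - 1) * nm q1 ≤ ε * 2 :=
    mul_le_mul (by linarith [H.le_one]) H.b2 (nm_nonneg _) hε
  rw [h1]
  refine (nm_add_le _ _).trans ?_
  rw [nm_smul, Complex.norm_real, Real.norm_of_nonneg (by linarith [H.one_le])]
  linarith [H.s1, H.s4]

/-- The modes and their approximate forms. -/
theorem modes : ∃ y z : ι → ℂ, Ym P g p0 q1 *ᵥ y = p0 ∧ (Ym P g p0 q1)ᴴ *ᵥ z = q1 ∧
    nm y ≤ 68 ∧ nm z ≤ 68 ∧ nm (y - (p1 + q1)) ≤ 1000 * ε ∧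
    nm (-(star (g - 1) * z) - (p0 + q0)) ≤ 1000 * ε := by
  have hε := H.pos
  obtain ⟨y, hy⟩ := mulVec_surjective_iff_isUnit.2 H.isUnit p0
  obtain ⟨z, hz⟩ := mulVec_surjective_iff_isUnit.2 ((isUnit_conjTranspose _).2 H.isUnit) q1
  refine ⟨y, z, hy, hz, ?_, ?_, ?_, ?_⟩
  · have := H.lower y
    rw [hy] at this
    linarith [H.b0]
  · have := H.lower_adj z
    rw [hz] at this
    linarith [H.b2]
  · have h1 := H.lower (p1 + q1 - y)
    rw [mulVec_sub, hy] at h1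
    rw [← neg_sub, ← neg_one_smul ℂ, nm_smul, norm_neg, norm_one, one_mul]
    linarith [H.approx_y]
  · have h1 := H.lower_adj (p0 - z)
    rw [mulVec_sub, hz] at h1
    have h2 : -(star (g - 1) * z) - (p0 + q0) = star (g - 1) * (p0 - z) - star (g - B) * p0 := by
      rw [star_sub, star_sub, star_one]
      linear_combination -H.star_mul
    have h3 : nm (star (g - 1) * (p0 - z)) ≤ 2 * nm (p0 - z) :=
      nm_mul_le (by norm_num) (fun i => by
        rw [Pi.star_apply, norm_star]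
        exact (norm_sub_le _ _).trans (by simp [H.hg i]; norm_num)) _
    have h4 := (H.close_star p0).trans (mul_le_mul_of_nonneg_left H.b0 hε)
    rw [h2]
    refine (nm_sub_le _ _).trans ?_
    linarith [H.approx_z]

end Hyp

end Alg

/-! ### Scalar estimates -/

section Scalar

/-- The overlap density. -/
noncomputable def Ef (a : ℝ) (ζ : ℂ) : ℂ := 1 / (1 - a * ζ) + conj ζ / (1 - a * conj ζ)

/-- The Blaschke factor. -/
noncomputable def Bf (a : ℝ) (ζ : ℂ) : ℂ := -(ζ - a) / (1 - a * ζ)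

/-- The point of the unit circle. -/
noncomputable def ze (h s : ℝ) : ℂ := exp (I * (2 * h * s : ℝ))

/-- The parameters. -/
structure Par (h a : ℝ) : Prop where
  pos : 0 < h
  le : h ≤ 1 / 3
  eq : 1 - a = h * (1 + a)

theorem norm_ze (h s : ℝ) : ‖ze h s‖ = 1 := by
  rw [ze, mul_comm, Complex.norm_exp_ofReal_mul_I]

theorem ze_sub_le {h : ℝ} (hh : 0 < h) (s : ℝ) : ‖ze h s - 1‖ ≤ 2 * h * |s| := by
  refine Real.norm_exp_I_mul_ofReal_sub_one_le.trans (le_of_eq ?_)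
  rw [Real.norm_eq_abs, abs_mul, abs_of_pos (by positivity)]

theorem le_ze_sub {h s : ℝ} (hh : 0 < h) (hs : |2 * h * s| ≤ Real.pi) :
    h * |s| ≤ ‖ze h s - 1‖ := by
  rw [ze, Complex.norm_exp_I_mul_ofReal_sub_one, Real.norm_eq_abs, abs_mul, abs_two]
  have e : |2 * h * s / 2| = h * |s| := by
    rw [show 2 * h * s / 2 = h * s by ring, abs_mul, abs_of_pos hh]
  have e' : |2 * h * s| = 2 * (h * |s|) := by
    rw [mul_assoc, abs_mul, abs_two, abs_mul, abs_of_pos hh]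
  have h1 := Real.mul_abs_le_abs_sin (x := 2 * h * s / 2) (by rw [e]; linarith)
  rw [e] at h1
  have h2 : 1 / 2 ≤ 2 / Real.pi := by
    rw [div_le_div_iff₀ (by norm_num) Real.pi_pos]; linarith [Real.pi_le_four]
  have h3 : 0 ≤ h * |s| := by positivity
  nlinarith

theorem le_of_sq_le_sq₀ {x y : ℝ} (hy : 0 ≤ y) (h : x ^ 2 ≤ y ^ 2) : x ≤ y :=
  (abs_le_of_sq_le_sq' h hy).2

theorem den_sq (a : ℝ) {ζ : ℂ} (h : ‖ζ‖ = 1) :
    ‖1 - a * ζ‖ ^ 2 = (1 - a) ^ 2 + a * ‖ζ - 1‖ ^ 2 := by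
  have h1 : ζ.re ^ 2 + ζ.im ^ 2 = 1 := by
    have := Complex.sq_norm ζ
    rw [h, Complex.normSq_apply] at this
    nlinarith
  rw [Complex.sq_norm, Complex.sq_norm, Complex.normSq_apply, Complex.normSq_apply]
  simp
  linear_combination (a ^ 2 - a) * h1

namespace Par

variable {h a : ℝ} (H : Par h a)
include H

theorem lt_one : a < 1 := by nlinarith [H.pos, H.le, H.eq]

theorem half_le : 1 / 2 ≤ a := by nlinarith [H.pos, H.le, H.eq]

theorem le_sub : h ≤ 1 - a := by nlinarith [H.pos, H.half_le, H.eq]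

theorem sub_le : 1 - a ≤ 2 * h := by nlinarith [H.pos, H.lt_one, H.eq]

theorem le_den {ζ : ℂ} (hζ : ‖ζ‖ = 1) : 1 - a ≤ ‖1 - a * ζ‖ := by
  refine le_of_sq_le_sq₀ (norm_nonneg _) ?_
  rw [den_sq a hζ]
  nlinarith [H.half_le, sq_nonneg ‖ζ - 1‖]

theorem den_pos {ζ : ℂ} (hζ : ‖ζ‖ = 1) : 0 < ‖1 - a * ζ‖ :=
  lt_of_lt_of_le (by linarith [H.lt_one]) (H.le_den hζ)

theorem den_ge {s : ℝ} (hs : |2 * h * s| ≤ Real.pi) :
    (h * |s|) ^ 2 / 2 ≤ ‖1 - a * ze h s‖ ^ 2 := by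
  rw [den_sq a (norm_ze h s)]
  have h1 := pow_le_pow_left₀ (mul_nonneg H.pos.le (abs_nonneg s)) (le_ze_sub H.pos hs) 2
  nlinarith [H.half_le, sq_nonneg (1 - a), sq_nonneg ‖ze h s - 1‖]

theorem Ef_eq {ζ : ℂ} (hζ : ‖ζ‖ = 1) :
    Ef a ζ = (((1 - a) / ‖1 - a * ζ‖ ^ 2 : ℝ) : ℂ) * (1 + conj ζ) := by
  have h0 : 1 - a * ζ ≠ 0 := norm_pos_iff.1 (H.den_pos hζ)
  have h1 : conj (1 - a * ζ) = 1 - a * conj ζ := by simp
  have h2 : 1 - a * conj ζ ≠ 0 := by rw [← h1]; exact (map_ne_zero _).2 h0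
  have h3 : ((‖1 - a * ζ‖ : ℝ) : ℂ) ^ 2 = (1 - a * ζ) * (1 - a * conj ζ) := by
    rw [← h1, Complex.mul_conj']
  have h4 : ζ * conj ζ = 1 := by rw [Complex.mul_conj', hζ]; simp
  rw [Ef]
  push_cast
  rw [h3]
  field_simp
  linear_combination (-a : ℂ) * h4

theorem Ef_re_nonneg {ζ : ℂ} (hζ : ‖ζ‖ = 1) : 0 ≤ (Ef a ζ).re := by
  rw [H.Ef_eq hζ, Complex.re_ofReal_mul]
  refine mul_nonneg (div_nonneg (by linarith [H.lt_one]) (by positivity)) ?_
  have := (abs_le.1 (Complex.abs_re_le_norm ζ)).1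
  simp only [add_re, one_re, conj_re]
  linarith

theorem Ef_re_ge {s : ℝ} (hs : |s| ≤ 1) : 1 / (8 * h) ≤ (Ef a (ze h s)).re := by
  have hh := H.pos
  have hζ := norm_ze h s
  have h1 : ‖ze h s - 1‖ ≤ 2 * h := (ze_sub_le hh s).trans (by nlinarith)
  have h2 : ‖1 - a * ze h s‖ ^ 2 ≤ 8 * h ^ 2 := by
    rw [den_sq a hζ]
    have a1 := pow_le_pow_left₀ (norm_nonneg _) h1 2
    have a2 := pow_le_pow_left₀ (by linarith [H.lt_one]) H.sub_le 2
    nlinarith [H.lt_one, sq_nonneg ‖ze h s - 1‖]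
  have h3 : 1 ≤ (1 + conj (ze h s)).re := by
    have := (abs_le.1 (Complex.abs_re_le_norm (ze h s - 1))).1
    simp only [add_re, one_re, conj_re, sub_re] at this ⊢
    linarith [H.le]
  have h4 : 1 / (8 * h) ≤ (1 - a) / ‖1 - a * ze h s‖ ^ 2 := by
    rw [div_le_div_iff₀ (by positivity) (pow_pos (H.den_pos hζ) 2)]
    nlinarith [H.le_sub]
  rw [H.Ef_eq hζ, Complex.re_ofReal_mul]
  exact h4.trans (le_mul_of_one_le_right (le_trans (by positivity) h4) h3)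

theorem Ef_norm_le {s : ℝ} (hs : |2 * h * s| ≤ Real.pi) (h0 : s ≠ 0) :
    ‖Ef a (ze h s)‖ ≤ 8 / (h * s ^ 2) := by
  have hh := H.pos
  have hζ := norm_ze h s
  have h1 := H.den_ge hs
  rw [mul_pow, sq_abs] at h1
  have h2 : ‖1 + conj (ze h s)‖ ≤ 2 :=
    (norm_add_le _ _).trans (by rw [Complex.norm_conj, hζ, norm_one]; norm_num)
  have h3 : (1 - a) / ‖1 - a * ze h s‖ ^ 2 ≤ 4 / (h * s ^ 2) := by
    rw [div_le_div_iff₀ (pow_pos (H.den_pos hζ) 2) (by positivity)]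
    have := mul_le_mul_of_nonneg_right H.sub_le (show 0 ≤ h * s ^ 2 by positivity)
    nlinarith
  rw [H.Ef_eq hζ, norm_mul, Complex.norm_real,
    Real.norm_of_nonneg (div_nonneg (by linarith [H.lt_one]) (by positivity))]
  refine (mul_le_mul h3 h2 (norm_nonneg _) (by positivity)).trans (le_of_eq ?_)
  ring

theorem Bf_far {s : ℝ} (hs : |2 * h * s| ≤ Real.pi) (h0 : s ≠ 0) :
    ‖Bf a (ze h s) - 1‖ ≤ 8 / |s| := by
  have hh := H.pos
  have hζ := norm_ze h s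
  have hp := H.den_pos hζ
  have hs0 := abs_pos.2 h0
  have h1 : h * |s| / 2 ≤ ‖1 - a * ze h s‖ := by
    refine le_of_sq_le_sq₀ (norm_nonneg _) (le_trans ?_ (H.den_ge hs))
    nlinarith [sq_nonneg (h * |s|)]
  have h2 : Bf a (ze h s) - 1 = -(((1 - a : ℝ) : ℂ) * (1 + ze h s)) / (1 - a * ze h s) := by
    rw [Bf, div_sub_one (norm_pos_iff.1 hp)]
    push_cast
    congr 1
    ring
  have h3 : ‖1 + ze h s‖ ≤ 2 := (norm_add_le _ _).trans (by rw [hζ, norm_one]; norm_num)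
  rw [h2, norm_div, norm_neg, norm_mul, Complex.norm_real,
    Real.norm_of_nonneg (by linarith [H.lt_one]), div_le_div_iff₀ hp hs0]
  have h4 := mul_le_mul H.sub_le h3 (norm_nonneg _) (by positivity)
  have h5 := mul_le_mul_of_nonneg_right h4 hs0.le
  linarith

theorem Bf_near {s : ℝ} (hs : 2 * h * |s| ≤ 1) :
    ‖Bf a (ze h s) - -(1 + I * s) / (1 - I * s)‖ ≤ 6 * h * s ^ 2 := by
  have hh := H.pos
  have hζ := norm_ze h s
  have hp := H.den_pos hζ
  have h1 : 1 ≤ ‖1 - I * s‖ := by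
    have := (abs_le.1 (Complex.abs_re_le_norm (1 - I * s))).2
    simpa using this
  have h2 : (1 - a : ℂ) = h * (1 + a) := by exact_mod_cast congrArg ((↑) : ℝ → ℂ) H.eq
  have h3 : Bf a (ze h s) - -(1 + I * s) / (1 - I * s) =
      ((1 + a : ℝ) : ℂ) * (I * s * h * (ze h s - 1) - (ze h s - 1 - I * (2 * h * s : ℝ))) /
        ((1 - a * ze h s) * (1 - I * s)) := by
    have b1 := norm_pos_iff.1 hp
    have b2 : (1 - I * s) ≠ 0 := norm_pos_iff.1 (by linarith)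
    rw [Bf, div_sub_div _ _ b1 b2]
    push_cast
    congr 1
    linear_combination (I * s * (1 + ze h s)) * h2
  have h4 : ‖I * ((2 * h * s : ℝ) : ℂ)‖ = 2 * h * |s| := by
    rw [norm_mul, norm_I, one_mul, Complex.norm_real, Real.norm_eq_abs, abs_mul,
      abs_of_pos (by positivity)]
  have h5 : ‖ze h s - 1 - I * (2 * h * s : ℝ)‖ ≤ (2 * h * |s|) ^ 2 := by
    rw [← h4]; exact Complex.norm_exp_sub_one_sub_id_le (by rwa [h4])
  have h6 : ‖I * s * h * (ze h s - 1)‖ ≤ |s| * h * (2 * h * |s|) := by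
    rw [norm_mul, norm_mul, norm_mul, norm_I, one_mul, Complex.norm_real, Complex.norm_real,
      Real.norm_eq_abs, Real.norm_of_nonneg hh.le]
    exact mul_le_mul_of_nonneg_left (ze_sub_le hh s) (by positivity)
  have h7 : ‖I * s * h * (ze h s - 1) - (ze h s - 1 - I * (2 * h * s : ℝ))‖ ≤ 6 * h ^ 2 * s ^ 2 := by
    refine (norm_sub_le _ _).trans ((add_le_add h6 h5).trans (le_of_eq ?_))
    rw [← sq_abs s]; ring
  have ha : 0 ≤ 1 + a := by linarith [H.half_le]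
  have h8 : h * (1 + a) ≤ ‖1 - a * ze h s‖ * ‖1 - I * s‖ := by
    rw [← H.eq]
    exact (H.le_den hζ).trans (le_mul_of_one_le_right hp.le h1)
  rw [h3, norm_div, norm_mul, norm_mul, Complex.norm_real, Real.norm_of_nonneg ha,
    div_le_iff₀ (mul_pos hp (by linarith))]
  have h9 := mul_le_mul_of_nonneg_left h7 ha
  have h10 := mul_le_mul_of_nonneg_left h8 (show 0 ≤ 6 * h * s ^ 2 by positivity)
  nlinarith

end Par

theorem exp_arctan (s : ℝ) :
    exp (I * (Real.pi + 2 * Real.arctan s : ℝ)) = -(1 + I * s) / (1 - I * s) := by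
  have h0 : (1 - I * s) ≠ 0 := fun h => by simpa using congrArg re h
  have hc := Real.cos_sq_arctan s
  have hc1 : Real.cos (Real.arctan s) ^ 2 * (1 + s ^ 2) = 1 := by rw [hc]; field_simp
  have hs : Real.sin (Real.arctan s) = s * Real.cos (Real.arctan s) := by
    rw [Real.sin_arctan, Real.cos_arctan]; ring
  have h1 : exp (I * (Real.arctan s : ℝ)) = (Real.cos (Real.arctan s) : ℝ) * (1 + I * s) := by
    rw [mul_comm, Complex.exp_mul_I, ← Complex.ofReal_cos, ← Complex.ofReal_sin, hs]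
    push_cast; ring
  have h2 : I * (Real.pi + 2 * Real.arctan s : ℝ) =
      Real.pi * I + (I * (Real.arctan s : ℝ) + I * (Real.arctan s : ℝ)) := by push_cast; ring
  have h3 : ((Real.cos (Real.arctan s) : ℝ) : ℂ) ^ 2 * (1 + s ^ 2) = 1 := by exact_mod_cast hc1
  rw [h2, Complex.exp_add, Complex.exp_add, Complex.exp_pi_mul_I, h1, eq_div_iff h0]
  generalize ((Real.cos (Real.arctan s) : ℝ) : ℂ) = c at h3
  linear_combination (-(1 + I * s)) * h3 + (c ^ 2 * s ^ 2 * (1 + I * s)) * I_sq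

theorem blaschke_far {s : ℝ} (h0 : s ≠ 0) : ‖-(1 + I * s) / (1 - I * s) - 1‖ ≤ 2 / |s| := by
  have h1 : |s| ≤ ‖1 - I * s‖ := by simpa using Complex.abs_im_le_norm (1 - I * s)
  have hs := abs_pos.2 h0
  have h2 : (1 - I * s) ≠ 0 := norm_pos_iff.1 (by linarith)
  have h3 : -(1 + I * s) / (1 - I * s) - 1 = -2 / (1 - I * s) := by field_simp; ring
  rw [h3, norm_div, norm_neg, Complex.norm_two]
  exact div_le_div_of_nonneg_left (by norm_num) hs h1

theorem exp_sub_exp_le (α β : ℝ) : ‖exp (I * α) - exp (I * β)‖ ≤ |α - β| := by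
  have h : exp (I * α) - exp (I * β) = exp (β * I) * (exp (I * (α - β : ℝ)) - 1) := by
    rw [mul_sub, ← Complex.exp_add, mul_one, mul_comm I β]
    congr 2
    push_cast; ring
  rw [h, norm_mul, Complex.norm_exp_ofReal_mul_I, one_mul]
  exact Real.norm_exp_I_mul_ofReal_sub_one_le

theorem Par.close {h a L s Θ : ℝ} (H : Par h a) (hL : 1 ≤ L) (hh : 6 * h * L ^ 3 ≤ 1)
    (hs : |2 * h * s| ≤ Real.pi) (hΘ : |Θ - (Real.pi + 2 * Real.arctan s)| ≤ 3 / L) :
    ‖exp (I * Θ) - Bf a (ze h s)‖ ≤ 13 / L := by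
  have h0 := H.pos
  have hL0 : 0 < L := by linarith
  have h1 := (exp_sub_exp_le _ _).trans hΘ
  rw [exp_arctan] at h1
  have h2 : ‖Bf a (ze h s) - -(1 + I * s) / (1 - I * s)‖ ≤ 10 / L := by
    rcases le_or_gt |s| L with hs' | hs'
    · have a0 : L ≤ L ^ 3 := le_self_pow₀ hL (by norm_num)
      have a1 : 2 * h * |s| ≤ 1 := by nlinarith
      have a2 : s ^ 2 ≤ L ^ 2 := by
        rw [← sq_abs s]; exact pow_le_pow_left₀ (abs_nonneg s) hs' 2
      refine (H.Bf_near a1).trans ?_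
      rw [le_div_iff₀ hL0]
      have a3 := mul_le_mul_of_nonneg_left a2 (show 0 ≤ 6 * h * L by positivity)
      nlinarith
    · have a0 : s ≠ 0 := abs_pos.1 (by linarith)
      have a1 := (H.Bf_far hs a0).trans (div_le_div_of_nonneg_left (by norm_num) hL0 hs'.le)
      have a2 := (blaschke_far a0).trans (div_le_div_of_nonneg_left (by norm_num) hL0 hs'.le)
      refine (norm_sub_le_norm_sub_add_norm_sub _ 1 _).trans ?_
      rw [norm_sub_rev 1]
      refine (add_le_add a1 a2).trans (le_of_eq ?_)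
      ring
  refine (norm_sub_le_norm_sub_add_norm_sub _ (-(1 + I * s) / (1 - I * s)) _).trans ?_
  rw [norm_sub_rev _ (Bf a _)]
  refine (add_le_add h1 h2).trans (le_of_eq ?_)
  ring

end Scalar

/-! ### Sums over the cyclic group -/

section Cyclic

theorem tail_int (f : ℤ → ℂ) (K : ℝ) (m : ℕ) (hm : 1 ≤ m) (R : ℕ) (hR : m ≤ R)
    (hf : ∀ x : ℤ, x ≠ 0 → |x| ≤ R → ‖f x‖ ≤ K / (x : ℝ) ^ 2) (hK : 0 ≤ K) :
    ‖∑ x ∈ Finset.Icc (-(R : ℤ)) R, f x - ∑ x ∈ Finset.Icc (-(m : ℤ)) m, f x‖ ≤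
      2 * K * (1 / m - 1 / R) := by
  induction R, hR using Nat.le_induction with
  | base => simp
  | succ R hR ih =>
    have h1 : Finset.Icc (-((R + 1 : ℕ) : ℤ)) (R + 1 : ℕ) =
        insert ((R : ℤ) + 1) (insert (-((R : ℤ) + 1)) (Finset.Icc (-(R : ℤ)) R)) := by
      ext x
      simp only [Finset.mem_Icc, Finset.mem_insert]
      omega
    have h2 := ih fun x h0 hx => hf x h0 (by push_cast; omega)
    have h3 := hf (R + 1) (by omega) (by push_cast; rw [abs_of_nonneg (by omega)])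
    have h4 := hf (-(R + 1)) (by omega) (by push_cast; rw [abs_neg, abs_of_nonneg (by omega)])
    push_cast at h3 h4
    rw [neg_sq] at h4
    have hR0 : (0 : ℝ) < R := by exact_mod_cast (by omega : 0 < R)
    have h5 : K / ((R : ℝ) + 1) ^ 2 ≤ K * (1 / R - 1 / (R + 1)) := by
      rw [div_eq_mul_one_div]
      refine mul_le_mul_of_nonneg_left ?_ hK
      rw [div_sub_div _ _ hR0.ne' (by positivity), div_le_div_iff₀ (by positivity) (by positivity)]
      nlinarith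
    rw [h1, Finset.sum_insert (by simp only [Finset.mem_Icc, Finset.mem_insert]; omega),
      Finset.sum_insert (by simp only [Finset.mem_Icc]; omega), add_sub_assoc, add_sub_assoc]
    refine (norm_add_le _ _).trans ((add_le_add_right (norm_add_le _ _) _).trans ?_)
    push_cast
    linarith

variable {k : ℕ}

theorem abs_vma (y : Cy k) : |y.valMinAbs| ≤ (3 * k + 1 : ℕ) := by
  have := ZMod.valMinAbs_mem_Ioc y
  rw [Set.mem_Ioc] at this
  push_cast at this ⊢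
  rw [abs_le]
  omega

theorem vma_int {x : ℤ} (hx : |x| ≤ (3 * k + 1 : ℕ)) : (x : Cy k).valMinAbs = x := by
  rw [ZMod.valMinAbs_spec, Set.mem_Ioc]
  rw [abs_le] at hx
  push_cast at hx ⊢
  exact ⟨rfl, by omega, by omega⟩

theorem sum_cy (F : Cy k → ℂ) :
    ∑ y, F y = ∑ x ∈ Finset.Icc (-((3 * k + 1 : ℕ) : ℤ)) (3 * k + 1 : ℕ), F x := by
  refine Finset.sum_nbij' ZMod.valMinAbs (fun x => (x : Cy k)) (fun y _ => ?_)
    (fun x _ => Finset.mem_univ _) (fun y _ => ZMod.coe_valMinAbs y) (fun x hx => ?_)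
    fun y _ => by rw [ZMod.coe_valMinAbs]
  · exact Finset.mem_Icc.2 (abs_le.1 (abs_vma y))
  · exact vma_int (abs_le.2 (Finset.mem_Icc.1 hx))

theorem seg_eq (l : ℕ) : seg l = Finset.Icc (-((2 * l : ℕ) : ℤ)) (2 * l : ℕ) := by
  rw [seg]; push_cast; rw [neg_mul]

theorem vma_seg {l : ℕ} (hl : l ≤ k) {x : ℤ} (hx : x ∈ seg l) : (x : Cy k).valMinAbs = x := by
  rw [seg, Finset.mem_Icc] at hx
  refine vma_int (abs_le.2 ?_)
  push_cast
  omega

theorem chi_int {n h : ℝ} (hn : 0 < n) (hh : h = Real.pi * n / (6 * k + 3)) (x : ℤ) :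
    chi (x : Cy k) = ze h (x / n) := by
  have h1 : (n : ℂ) ≠ 0 := by exact_mod_cast hn.ne'
  have h2 : (6 * (k : ℂ) + 3) ≠ 0 := by exact_mod_cast (by omega : 6 * k + 3 ≠ 0)
  rw [chi, ZMod.stdAddChar_coe, ze, hh]
  congr 1
  push_cast
  field_simp

theorem angle_le {n h : ℝ} (hn : 0 < n) (hh : h = Real.pi * n / (6 * k + 3)) {x : ℤ}
    (hx : |x| ≤ (3 * k + 1 : ℕ)) : |2 * h * (x / n)| ≤ Real.pi := by
  have h1 : 2 * h * (x / n) = Real.pi * (2 * x / (6 * k + 3)) := by rw [hh]; field_simp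
  have h2 : |(x : ℝ)| ≤ 3 * k + 1 := by exact_mod_cast hx
  rw [h1, abs_mul, abs_of_pos Real.pi_pos]
  refine mul_le_of_le_one_right Real.pi_pos.le ?_
  rw [abs_div, abs_mul, abs_two, abs_of_pos (a := 6 * (k : ℝ) + 3) (by positivity),
    div_le_one (by positivity)]
  linarith

theorem norm_chi (y : Cy k) : ‖chi y‖ = 1 := by
  rw [← ZMod.coe_valMinAbs y, chi_int one_pos rfl, norm_ze]

theorem norm_psi (s : Fin 2) (y : Cy k) : ‖cψ k s y‖ = 1 := norm_chi _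

theorem add_eq (a : ℝ) (s : Fin 2) (y : Cy k) :
    (cp k a s + cq k a s) y = cψ k s y * (cκ k a * Ef a (chi y)) := by
  rw [Pi.add_apply, cp, cq, Ef]; ring

/-- Overlap with a plane wave on the segment. -/
noncomputable def ov (l : ℕ) (s : Fin 2) (u : Cy k → ℂ) : ℂ :=
  ∑ x ∈ seg l, conj (cψ k s x) * u x

theorem ov_sub (l : ℕ) (s : Fin 2) (u v : Cy k → ℂ) : ov l s (u - v) = ov l s u - ov l s v := by
  simp only [ov, Pi.sub_apply, mul_sub, Finset.sum_sub_distrib]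

theorem ov_sq_le {l : ℕ} (hl : l ≤ k) (s : Fin 2) (u : Cy k → ℂ) :
    ‖ov l s u‖ ^ 2 ≤ (4 * l + 1) * ns u := by
  have h1 : ‖ov l s u‖ ≤ ∑ x ∈ seg l, ‖u x‖ :=
    (norm_sum_le _ _).trans (le_of_eq (Finset.sum_congr rfl fun x _ => by
      rw [norm_mul, Complex.norm_conj, norm_psi, one_mul]))
  have h2 : ((seg l).card : ℝ) = 4 * l + 1 := by
    have : (seg l).card = 4 * l + 1 := by rw [seg, Int.card_Icc]; omega
    rw [this]; push_cast; ring
  have h3 : ∑ x ∈ seg l, ‖u x‖ ^ 2 ≤ ns u := by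
    rw [← Finset.sum_image (s := seg l) (g := fun x : ℤ => (x : Cy k)) (f := fun y => ‖u y‖ ^ 2)
      fun x hx y hy hxy => by rw [← vma_seg hl hx, ← vma_seg hl hy]; exact congrArg _ hxy]
    exact Finset.sum_le_univ_sum_of_nonneg fun _ => by positivity
  refine (pow_le_pow_left₀ (norm_nonneg _) h1 2).trans (sq_sum_le_card_mul_sum_sq.trans ?_)
  rw [h2]
  exact mul_le_mul_of_nonneg_left h3 (by positivity)

theorem ov_diag {n h a : ℝ} {l : ℕ} (hn : 0 < n) (hh : h = Real.pi * n / (6 * k + 3))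
    (H : Par h a) (hl : n ≤ l) (s : Fin 2) :
    n * (cκ k a / (8 * h)) ≤ ‖ov l s (cp k a s + cq k a s)‖ := by
  have hκ : 0 ≤ cκ k a := Real.sqrt_nonneg _
  have h0 := H.pos
  refine le_trans ?_ (Complex.re_le_norm _)
  have h1 : (ov l s (cp k a s + cq k a s)).re =
      ∑ x ∈ seg l, cκ k a * (Ef a (ze h (x / n))).re := by
    rw [ov, Complex.re_sum]
    refine Finset.sum_congr rfl fun x _ => ?_
    rw [add_eq, ← mul_assoc, Complex.conj_mul', norm_psi, chi_int hn hh]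
    simp
  have h2 : Finset.Icc (0 : ℤ) ⌊n⌋ ⊆ seg l := fun x hx => by
    rw [Finset.mem_Icc] at hx
    have : ⌊n⌋ ≤ l := Int.floor_le_iff.2 (by push_cast; linarith)
    rw [seg, Finset.mem_Icc]
    omega
  have h3 : n ≤ ((Finset.Icc (0 : ℤ) ⌊n⌋).card : ℝ) := by
    have a1 : 0 ≤ ⌊n⌋ := Int.floor_nonneg.2 hn.le
    have a2 : (((Finset.Icc (0 : ℤ) ⌊n⌋).card : ℕ) : ℤ) = ⌊n⌋ + 1 := by rw [Int.card_Icc]; omega
    have a3 : (((Finset.Icc (0 : ℤ) ⌊n⌋).card : ℕ) : ℝ) = ⌊n⌋ + 1 := by exact_mod_cast a2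
    rw [a3]
    exact (Int.lt_floor_add_one n).le
  rw [h1]
  refine le_trans ?_ (Finset.sum_le_sum_of_subset_of_nonneg h2 fun x _ _ =>
    mul_nonneg hκ (H.Ef_re_nonneg (norm_ze _ _)))
  refine (mul_le_mul_of_nonneg_right h3 (by positivity)).trans ?_
  rw [← nsmul_eq_mul]
  refine Finset.card_nsmul_le_sum _ _ _ fun x hx => ?_
  rw [Finset.mem_Icc] at hx
  rw [div_eq_mul_one_div]
  refine mul_le_mul_of_nonneg_left (H.Ef_re_ge ?_) hκ
  have a1 : (0 : ℝ) ≤ x := by exact_mod_cast hx.1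
  rw [abs_of_nonneg (by positivity), div_le_one hn]
  exact Int.le_floor.1 hx.2

theorem ov_tail {n h a : ℝ} {l : ℕ} (hn : 0 < n) (hh : h = Real.pi * n / (6 * k + 3))
    (H : Par h a) (hl : 1 ≤ l) (hk : l ≤ k) (s t : Fin 2) :
    ‖∑ x, conj (cψ k s x) * (cp k a t x + cq k a t x) - ov l s (cp k a t + cq k a t)‖ ≤
      8 * (cκ k a / h) * n ^ 2 / l := by
  have hκ : 0 ≤ cκ k a := Real.sqrt_nonneg _
  have h0 := H.pos
  rw [sum_cy, ov, seg_eq]
  refine (tail_int (fun x => conj (cψ k s x) * (cp k a t + cq k a t) x) (8 * (cκ k a / h) * n ^ 2)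
    (2 * l) (by omega) (3 * k + 1) (by omega) (fun x hx0 hx => ?_) (by positivity)).trans ?_
  · have a1 : (x : ℝ) ≠ 0 := by exact_mod_cast hx0
    rw [add_eq, norm_mul, norm_mul, norm_mul, Complex.norm_conj, norm_psi, norm_psi, one_mul,
      one_mul, Complex.norm_real, Real.norm_of_nonneg hκ, chi_int hn hh]
    refine (mul_le_mul_of_nonneg_left
      (H.Ef_norm_le (angle_le hn hh hx) (div_ne_zero a1 hn.ne')) hκ).trans (le_of_eq ?_)
    field_simp
  · have a1 : (0 : ℝ) < l := by exact_mod_cast hl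
    have a2 : (0 : ℝ) ≤ 1 / (3 * k + 1 : ℕ) := by positivity
    refine (mul_le_mul_of_nonneg_left (sub_le_self _ a2) (by positivity)).trans (le_of_eq ?_)
    push_cast
    field_simp

end Cyclic

/-! ### The choice of the parameters -/

section Final

theorem par {h : ℝ} (h0 : 0 < h) (h1 : h ≤ 1 / 3) : Par h ((1 - h) / (1 + h)) :=
  ⟨h0, h1, by field_simp; ring⟩

theorem Par.pow_le {h a : ℝ} (H : Par h a) (j : ℕ) : a ^ j * (1 + j * (2 * h)) ≤ 1 := by
  have h0 := H.pos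
  have ha : 0 ≤ a := by linarith [H.half_le]
  have h1 : a * (1 + 2 * h) ≤ 1 := by nlinarith [H.eq, H.lt_one]
  refine (mul_le_mul_of_nonneg_left (one_add_mul_le_pow (by linarith) j) (pow_nonneg ha j)).trans ?_
  rw [← mul_pow]
  exact pow_le_one₀ (by positivity) h1

variable {k : ℕ} {n h a : ℝ}

theorem pow_small (hn : 0 < n) (hh : h = Real.pi * n / (6 * k + 3)) (H : Par h a) :
    a ^ (2 * k + 1) ≤ 1 / (2 * n) := by
  have h1 := H.pow_le (2 * k + 1)
  have h2 : ((2 * k + 1 : ℕ) : ℝ) * (2 * h) = 2 * Real.pi * n / 3 := by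
    rw [hh]; push_cast; field_simp; ring
  have h3 : 0 ≤ a ^ (2 * k + 1) := pow_nonneg (by linarith [H.half_le]) _
  have h4 : 2 * n ≤ 1 + 2 * Real.pi * n / 3 := by nlinarith [Real.pi_gt_three]
  rw [h2] at h1
  rw [le_div_iff₀ (by positivity)]
  exact (mul_le_mul_of_nonneg_left h4 h3).trans h1

theorem pow_small' (hn : 0 < n) (hh : h = Real.pi * n / (6 * k + 3)) (H : Par h a) :
    a ^ (6 * k + 3) ≤ 1 / (2 * n) :=
  (pow_le_pow_of_le_one (by linarith [H.half_le]) H.lt_one.le (by omega)).trans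
    (pow_small hn hh H)

theorem kappa_bounds (hn : 0 < n) (hh : h = Real.pi * n / (6 * k + 3)) (H : Par h a) :
    1 / 2 ≤ cκ k a / h * Real.sqrt n ∧ cκ k a / h * Real.sqrt n ≤ 2 := by
  have h0 := H.pos
  have hπ := Real.pi_pos
  have ha := H.half_le
  have ha' := H.lt_one
  have h1 : 1 - a ^ 2 = h * (1 + a) ^ 2 := by linear_combination (1 + a) * H.eq
  have h2 : (cκ k a / h * Real.sqrt n) ^ 2 = (1 + a) ^ 2 / Real.pi := by
    have a1 : (6 * k + 3 : ℝ) = Real.pi * n / h := by rw [hh]; field_simp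
    rw [mul_pow, div_pow, cκ, Real.sq_sqrt hn.le, h1, Real.sq_sqrt (by positivity), a1]
    field_simp
  have h3 : 0 ≤ cκ k a / h * Real.sqrt n :=
    mul_nonneg (div_nonneg (Real.sqrt_nonneg _) h0.le) (Real.sqrt_nonneg _)
  constructor
  · refine le_of_sq_le_sq₀ h3 ?_
    rw [h2, le_div_iff₀ hπ]
    nlinarith [Real.pi_le_four]
  · refine le_of_sq_le_sq₀ (by norm_num) ?_
    rw [h2, div_le_iff₀ hπ]
    nlinarith [Real.pi_gt_three]

theorem overlap (hc : CycStmt) {L : ℝ} {l : ℕ} (hL : L = 10 ^ 16) (hn : L ≤ n) (h1 : L * n ≤ l)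
    (h2 : l ≤ 4 * L * n) (hk : l ≤ k) (hh : h = Real.pi * n / (6 * k + 3)) (H : Par h a)
    (t : Fin 2) (u : Cy k → ℂ) (hu : nm (u - (cp k a t + cq k a t)) ≤ 1000 * (13 / L)) :
    Real.sqrt n / 20 ≤ ‖ov l t u‖ ∧ ∀ s, s ≠ t → ‖ov l s u‖ ≤ Real.sqrt n / 20 / 10 := by
  have hn1 : 1 ≤ n := by linarith
  have hn0 : 0 < n := by linarith
  have h0 := H.pos
  obtain ⟨k1, k2⟩ := kappa_bounds hn0 hh H
  have hr : Real.sqrt n * Real.sqrt n = n := Real.mul_self_sqrt hn0.le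
  have hr0 : 0 < Real.sqrt n := Real.sqrt_pos.2 hn0
  set r := Real.sqrt n
  have hκ : 0 ≤ cκ k a / h := div_nonneg (Real.sqrt_nonneg _) h0.le
  have hnl : n ≤ l := by nlinarith
  have hl1 : 1 ≤ l := by exact_mod_cast hn1.trans hnl
  have err : ∀ s, ‖ov l s u - ov l s (cp k a t + cq k a t)‖ ≤ r / 1000 := fun s => by
    rw [← ov_sub]
    refine le_of_sq_le_sq₀ (by positivity) ((ov_sq_le hk s _).trans ?_)
    have a1 : (4 * l + 1 : ℝ) ≤ 17 * 10 ^ 16 * n := by rw [hL] at h2; linarith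
    refine (mul_le_mul a1 (ns_le_of_nm hu) (ns_nonneg _) (by positivity)).trans ?_
    rw [hL, div_pow r, sq r, hr]
    norm_num
    linarith
  refine ⟨?_, fun s hs => ?_⟩
  · have a1 := ov_diag hn0 hh H hnl t
    have a2 : n * (cκ k a / (8 * h)) = r * (cκ k a / h * r) / 8 := by rw [← hr]; field_simp
    have a3 := norm_sub_norm_le (ov l t (cp k a t + cq k a t)) (ov l t u)
    rw [norm_sub_rev] at a3
    have a4 := mul_le_mul_of_nonneg_left k1 hr0.le
    linarith [err t]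
  · have a1 := ov_tail hn0 hh H hl1 hk s t
    have a2 : 8 * (cκ k a / h) * n ^ 2 / l ≤ 16 / 10 ^ 16 * r := by
      rw [div_le_iff₀ (by positivity)]
      have b1 : 8 * (cκ k a / h) * n ^ 2 = 8 * (r * n) * (cκ k a / h * r) := by
        rw [sq]; nth_rewrite 1 [← hr]; ring
      have b2 := mul_le_mul_of_nonneg_left k2 (show 0 ≤ 8 * (r * n) by positivity)
      have b3 := mul_le_mul_of_nonneg_left h1 hr0.le
      rw [hL] at b3
      linarith
    have a3 := hc.osc k a (by linarith [H.half_le]) H.lt_one s t hs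
    have a4 : 2 * cκ k a * (6 * k + 3) * a ^ (2 * k) / (1 - a ^ (6 * k + 3)) ≤
        32 / 10 ^ 16 * r := by
      have b1 : 1 / (2 * n) ≤ 1 / (2 * 10 ^ 16) :=
        one_div_le_one_div_of_le (by norm_num) (by linarith)
      have b2 := (pow_small hn0 hh H).trans b1
      have b3 := (pow_small' hn0 hh H).trans b1
      have b4 : 0 ≤ a ^ (2 * k) := pow_nonneg (by linarith [H.half_le]) _
      have b5 : a ^ (2 * k) ≤ 1 / 10 ^ 16 := by
        rw [pow_succ] at b2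
        have := mul_le_mul_of_nonneg_left H.half_le b4
        linarith
      have b6 : cκ k a * (6 * k + 3) = Real.pi * r * (cκ k a / h * r) := by
        have : (6 * k + 3 : ℝ) = Real.pi * (r * r) / h := by rw [hr, hh]; field_simp
        rw [this]; field_simp
      have b7 : cκ k a * (6 * k + 3) ≤ 8 * r := by
        rw [b6]
        refine (mul_le_mul (mul_le_mul_of_nonneg_right Real.pi_le_four hr0.le) k2 (by linarith)
          (by positivity)).trans (by linarith)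
      have b8 := mul_le_mul b7 b5 b4 (by positivity)
      have b9 := mul_le_mul_of_nonneg_left (show 1 / 2 ≤ 1 - a ^ (6 * k + 3) by linarith) hr0.le
      rw [div_le_iff₀ (by linarith)]
      linarith
    have a5 := norm_sub_norm_le (ov l s (cp k a t + cq k a t))
      (∑ x, conj (cψ k s x) * (cp k a t x + cq k a t x))
    rw [norm_sub_rev] at a5
    have a6 := norm_sub_norm_le (ov l s u) (ov l s (cp k a t + cq k a t))
    linarith [err s]

theorem hyp (hc : CycStmt) {L C₁ : ℝ} {l : ℕ} {Θ : ℤ → ℝ} (hL : L = 10 ^ 16) (hn : L ≤ n)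
    (hΘ : Adm L C₁ n l Θ) (hh : h = Real.pi * n / (6 * k + 3)) (H : Par h a)
    (hs : 6 * h * L ^ 3 ≤ 1) :
    Hyp (cP k) (cB k a) (cg k Θ) (cp k a 0) (cp k a 1) (cq k a 0) (cq k a 1) (13 / L)
      ((1 + a ^ (6 * k + 3)) / (1 - a ^ (6 * k + 3))) := by
  have hn0 : 0 < n := by linarith
  have ha : 0 < a := by linarith [H.half_le]
  have ha' := H.lt_one
  have b1 : 1 / (2 * n) ≤ 1 / (2 * 10 ^ 16) :=
    one_div_le_one_div_of_le (by norm_num) (by linarith)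
  have b2 := (pow_small hn0 hh H).trans b1
  have b3 := (pow_small' hn0 hh H).trans b1
  have b4 := pow_pos ha (2 * k + 1)
  have b5 := pow_pos ha (6 * k + 3)
  have b6 : 0 < 1 - a ^ (6 * k + 3) := by linarith
  have hε : 13 / L = 13 / 10 ^ 16 := by rw [hL]
  have b7 : (a ^ (2 * k + 1) / (1 - a ^ (6 * k + 3))) ^ 2 ≤ (13 / L) ^ 2 := by
    refine pow_le_pow_left₀ (by positivity) ?_ 2
    rw [div_le_iff₀ b6, hε]
    linarith
  obtain ⟨s1, s2, s3, s4⟩ := hc.small k a _ ha ha' rfl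
  have hε0 : 0 ≤ 13 / L := by rw [hε]; norm_num
  refine ⟨hc.herm k, hc.idem k, fun x => (hc.unit k a ha ha' x).1, fun x => ?_, fun x => ?_,
    hc.comm k a ha ha', fun x => (hc.unit k a ha ha' x).2 0, fun x => (hc.unit k a ha ha' x).2 1,
    (hc.norm k a ha ha' 0).1, (hc.norm k a ha ha' 1).1, (hc.norm k a ha ha' 1).2, ?_, ?_,
    nm_le_of_ns hε0 (s1.trans b7), nm_le_of_ns hε0 (s2.trans b7), nm_le_of_ns hε0 (s3.trans b7),
    nm_le_of_ns hε0 (s4.trans b7), by rw [hε]; norm_num⟩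
  · rw [cg, mul_comm, Complex.norm_exp_ofReal_mul_I]
  · have e : cB k a x = Bf a (ze h (x.valMinAbs / n)) := by
      rw [← chi_int hn0 hh, ZMod.coe_valMinAbs]; rfl
    rw [e, cg]
    exact H.close (by linarith) hs (angle_le hn0 hh (abs_vma x)) (hΘ.far _)
  · rw [le_div_iff₀ b6]; linarith
  · rw [div_le_iff₀ b6, hε]; linarith

theorem four (κ : Fin 2 → Fin 2 → ℂ) (α β : Fin 2 → ℂ) (A : ℝ) (hA : 0 ≤ A)
    (hκ : ∀ s t, ‖κ s t‖ ≤ 3 * ‖κ 0 1‖) (h1 : A ≤ ‖α 0‖) (h2 : A ≤ ‖β 1‖) (h3 : ‖α 1‖ ≤ A / 10)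
    (h4 : ‖β 0‖ ≤ A / 10) : A ^ 2 / 3 * ‖κ 0 1‖ ≤ ‖∑ s, ∑ t, κ s t * (α s * β t)‖ := by
  have e : κ 0 1 * (α 0 * β 1) = ∑ s, ∑ t, κ s t * (α s * β t) -
      (κ 0 0 * (α 0 * β 0) + κ 1 0 * (α 1 * β 0) + κ 1 1 * (α 1 * β 1)) := by
    simp only [Fin.sum_univ_two]; ring
  have a1 := norm_sub_le (∑ s, ∑ t, κ s t * (α s * β t))
    (κ 0 0 * (α 0 * β 0) + κ 1 0 * (α 1 * β 0) + κ 1 1 * (α 1 * β 1))
  rw [← e] at a1
  have a2 := norm_add₃_le (a := κ 0 0 * (α 0 * β 0)) (b := κ 1 0 * (α 1 * β 0))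
    (c := κ 1 1 * (α 1 * β 1))
  simp only [norm_mul] at a1 a2
  have x0 := norm_nonneg (α 0)
  have x1 := norm_nonneg (α 1)
  have y0 := norm_nonneg (β 0)
  have y1 := norm_nonneg (β 1)
  have k0 := norm_nonneg (κ 0 1)
  have c0 : A ^ 2 ≤ ‖α 0‖ * ‖β 1‖ := by rw [sq]; exact mul_le_mul h1 h2 hA x0
  have c1 : ‖α 0‖ * ‖β 0‖ ≤ ‖α 0‖ * ‖β 1‖ / 10 := by nlinarith
  have c2 : ‖α 1‖ * ‖β 0‖ ≤ ‖α 0‖ * ‖β 1‖ / 100 := by
    have := mul_le_mul h3 h4 y0 (by positivity)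
    nlinarith
  have c3 : ‖α 1‖ * ‖β 1‖ ≤ ‖α 0‖ * ‖β 1‖ / 10 := by nlinarith
  have d1 := mul_le_mul (hκ 0 0) c1 (by positivity) (by positivity)
  have d2 := mul_le_mul (hκ 1 0) c2 (by positivity) (by positivity)
  have d3 := mul_le_mul (hκ 1 1) c3 (by positivity) (by positivity)
  have d4 := mul_le_mul_of_nonneg_left c0 k0
  have d5 : 0 ≤ ‖κ 0 1‖ * A ^ 2 := by positivity
  linarith

theorem double_sum (hc : CycStmt) {l : ℕ} (hk : l ≤ k) (Θ : ℤ → ℝ) (κ : Fin 2 → Fin 2 → ℂ)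
    (y z : Cy k → ℂ) :
    ∑ x ∈ seg l, ∑ x' ∈ seg l, conj (z x) * (exp (I * Θ x) - 1) * wave κ x x' * y x' =
      ∑ s, ∑ t, κ s t * (-conj (ov l s (-(star (cg k Θ - 1) * z))) * ov l t y) := by
  have h1 : ∀ s, -conj (ov l s (-(star (cg k Θ - 1) * z))) =
      ∑ x ∈ seg l, conj (z x) * (exp (I * Θ x) - 1) * cψ k s x := fun s => by
    rw [ov, map_sum, ← Finset.sum_neg_distrib]
    refine Finset.sum_congr rfl fun x hx => ?_
    have : cg k Θ x = exp (I * Θ x) := by rw [cg, vma_seg hk hx]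
    simp only [Pi.neg_apply, Pi.mul_apply, Pi.star_apply, Pi.sub_apply, Pi.one_apply, this,
      RCLike.star_def, map_mul, map_neg, Complex.conj_conj]
    ring
  simp only [h1]
  simp only [ov, Finset.sum_mul_sum]
  simp only [wave, ← hc.psi k, Fin.sum_univ_two, Finset.mul_sum, ← Finset.sum_add_distrib]
  exact Finset.sum_congr rfl fun x _ => Finset.sum_congr rfl fun x' _ => by ring

theorem ev_small (n L : ℝ) : ∀ᶠ k : ℕ in atTop, 6 * (Real.pi * n / (6 * k + 3)) * L ^ 3 ≤ 1 := by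
  filter_upwards [eventually_ge_atTop ⌈Real.pi * n * L ^ 3⌉₊] with k hk
  have h1 := Nat.ceil_le.1 hk
  rw [show 6 * (Real.pi * n / (6 * k + 3)) * L ^ 3 = 6 * (Real.pi * n * L ^ 3) / (6 * k + 3) by
    ring, div_le_one (by positivity)]
  linarith

end Final

end Mode

open Mode in
theorem mode (h : CycStmt) : ModeStmt := by
  obtain ⟨L, hL⟩ : ∃ L : ℝ, L = 10 ^ 16 := ⟨_, rfl⟩
  have hL1 : 1 ≤ L := by rw [hL]; norm_num
  refine ⟨L, hL1, 1 / 2000, by norm_num, 5000, fun C₁ => ⟨L, fun n l Θ hn h1 h2 hΘ => ?_⟩⟩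
  have hn0 : 0 < n := by linarith
  filter_upwards [eventually_ge_atTop l, ev_small n L] with k hk hs
  obtain ⟨b, hb⟩ : ∃ b, b = Real.pi * n / (6 * k + 3) := ⟨_, rfl⟩
  rw [← hb] at hs
  have hb0 : 0 < b := by rw [hb]; have := Real.pi_pos; positivity
  have H := par hb0 (by nlinarith [one_le_pow₀ hL1 (n := 3)])
  generalize (1 - b) / (1 + b) = a at H
  have G := hyp h hL hn hΘ hb H hs
  obtain ⟨y, z, hy, hz, by1, bz, ay, az⟩ := G.modes
  refine ⟨Ym (cP k) (cg k Θ) (cp k a 0) (cq k a 1), cp k a 0, cq k a 1, y, z, rfl,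
    (ns_le_of_nm G.b0).trans (by norm_num), (ns_le_of_nm G.b2).trans (by norm_num),
    (ns_le_of_nm by1).trans (by norm_num), (ns_le_of_nm bz).trans (by norm_num), fun v => ?_,
    hy, hz, fun κ hκ => ?_⟩
  · have a1 := ns_le_of_nm (G.lower v)
    rw [mul_pow, nm_sq] at a1
    linarith [ns_nonneg v]
  · obtain ⟨c1, c2⟩ := overlap h hL hn h1 h2 hk hb H 0 _ az
    obtain ⟨c3, c4⟩ := overlap h hL hn h1 h2 hk hb H 1 _ ay
    rw [double_sum h hk]
    refine le_trans ?_ (four κ _ _ (Real.sqrt n / 20) (by positivity) hκ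
      (by rwa [norm_neg, Complex.norm_conj]) c3
      (by rw [norm_neg, Complex.norm_conj]; exact c2 1 (by decide)) (c4 0 (by decide)))
    rw [div_pow, Real.sq_sqrt hn0.le]
    exact mul_le_mul_of_nonneg_right (by linarith) (norm_nonneg _)

end Pool.Agent.Lib.MP_60c5b4_pr.H
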