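import Pool.Agent.Lib.MP_60c5b4_pr.H.Sign

-- part Pool.Agent.Lib.MP_60c5b4_pr.H.Max
section

/-!
Solvability of the Dirichlet problem and the discrete maximum principle.
-/

namespace Pool.Agent.Lib.MP_60c5b4_pr.H

open Finset

namespace MaxP

variable {X : Finset Pt} {a : Pt → Fin 3 → ℝ}

/-- The maximum principle. -/
theorem mp (ha : ∀ b ∈ X, ∀ j, 0 < a b j) {h : Pt → ℝ} (h0 : ∀ b ∉ X, h b ≤ 0)
    (h1 : ∀ b ∈ X, lap a h b ≤ 0) (b : Pt) : h b ≤ 0 := by
  by_contra c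
  have hb : b ∈ X := by
    by_contra c'
    exact c (h0 b c')
  obtain ⟨q, hq, h2⟩ := exists_max_image X h ⟨b, hb⟩
  obtain ⟨r, hr, h3⟩ := exists_max_image (X.filter fun r => h r = h q) (fun r => r.1)
    ⟨q, mem_filter.2 ⟨hq, rfl⟩⟩
  obtain ⟨hr, e⟩ := mem_filter.1 hr
  have pos : 0 < h q := (not_le.1 c).trans_le (h2 b hb)
  have h4 : ∀ x, h x ≤ h r := fun x => by
    rw [e]
    by_cases hx : x ∈ X
    exacts [h2 x hx, (h0 x hx).trans pos.le]
  have h5 : h (r + dd 0) < h r := by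
    refine (h4 _).lt_of_ne fun e' => ?_
    by_cases hx : r + dd 0 ∈ X
    · have := h3 _ (mem_filter.2 ⟨hx, e'.trans e⟩)
      simp at this
    · have := h0 _ hx
      linarith
  refine absurd (h1 r hr) (not_le.2 (sum_pos' (fun j _ => ?_) ⟨0, mem_univ _, ?_⟩))
  · exact mul_nonneg (ha r hr j).le (sub_nonneg.2 (h4 _))
  · exact mul_pos (ha r hr 0) (sub_pos.2 h5)

theorem lap_comb (c d : ℝ) (u v : Pt → ℝ) (b : Pt) :
    lap a (fun x => c * u x + d * v x) b = c * lap a u b + d * lap a v b := by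
  simp only [lap, Fin.sum_univ_three]
  ring

/-- The comparison principle. -/
theorem comp (ha : ∀ b ∈ X, ∀ j, 0 < a b j) {u v : Pt → ℝ} (h0 : ∀ b ∉ X, u b = 0)
    (hv : ∀ b ∉ X, 0 ≤ v b) (h1 : ∀ b ∈ X, |lap a u b| ≤ lap a v b) (b : Pt) : |u b| ≤ v b := by
  have key : ∀ c : ℝ, |c| = 1 → c * u b + -1 * v b ≤ 0 := fun c hc =>
    mp ha (h := fun x => c * u x + -1 * v x)
      (fun x hx => by rw [h0 x hx]; linarith [hv x hx]) (fun x hx => by
        rw [lap_comb]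
        have := le_abs_self (c * lap a u x)
        rw [abs_mul, hc] at this
        linarith [h1 x hx]) b
  rw [abs_le]
  constructor
  · linarith [key (-1) (by simp)]
  · linarith [key 1 (by simp)]

/-- Extension by zero. -/
noncomputable def ext0 (X : Finset Pt) (u : X → ℝ) (b : Pt) : ℝ :=
  if h : b ∈ X then u ⟨b, h⟩ else 0

/-- The operator on functions supported in `X`. -/
noncomputable def op (X : Finset Pt) (a : Pt → Fin 3 → ℝ) : (X → ℝ) →ₗ[ℝ] (X → ℝ) where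
  toFun u b := lap a (ext0 X u) b
  map_add' u v := by
    funext b
    have : ext0 X (u + v) = fun x => 1 * ext0 X u x + 1 * ext0 X v x := by
      funext x
      unfold ext0
      split_ifs <;> simp
    rw [this, lap_comb, one_mul, one_mul]
    rfl
  map_smul' c u := by
    funext b
    have : ext0 X (c • u) = fun x => c * ext0 X u x + 0 * ext0 X u x := by
      funext x
      unfold ext0
      split_ifs <;> simp
    rw [this, lap_comb, zero_mul, add_zero]
    rfl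

theorem solve (ha : ∀ b ∈ X, ∀ j, 0 < a b j) (s : Pt → ℝ) :
    ∃ u : Pt → ℝ, (∀ b ∉ X, u b = 0) ∧ ∀ b ∈ X, lap a u b = s b := by
  have h0 : ∀ u : X → ℝ, ∀ b ∉ X, ext0 X u b = 0 := fun u b hb => dif_neg hb
  have inj : Function.Injective (op X a) := by
    rw [injective_iff_map_eq_zero]
    intro u hu
    funext b
    have := comp ha (v := fun _ => 0) (h0 u) (fun _ _ => le_rfl) (fun x hx => by
      rw [show lap a (ext0 X u) x = 0 from congrFun hu ⟨x, hx⟩]
      simp [lap]) b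
    simpa [ext0] using this
  obtain ⟨u, hu⟩ := LinearMap.injective_iff_surjective.1 inj fun b => s b
  exact ⟨ext0 X u, h0 u, fun b hb => congrFun hu ⟨b, hb⟩⟩

theorem exp_ge {t : ℝ} (ht : -2 ≤ t) : 1 + t + t ^ 2 / 4 ≤ Real.exp t := by
  have h1 := Real.add_one_le_exp (t / 2)
  rw [show t = t / 2 + t / 2 by ring, Real.exp_add]
  nlinarith

/-- The one dimensional inequality behind the barrier. -/
theorem barrier {m n a0 a1 a2 : ℝ} (hm : 0 ≤ m) (hn : 8 * m + 2 ≤ n) (h0 : |a0 - 1| ≤ m / n)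
    (h1 : |a1 - 1| ≤ m / n) (h2 : |a2 - 1| ≤ m / n) :
    1 / n ^ 2 ≤ a0 * (Real.exp ((8 * m + 2) / n) - 1) +
      a1 * (Real.exp (-2 * ((8 * m + 2) / n)) - 1) + a2 * (Real.exp ((8 * m + 2) / n) - 1) := by
  have hn0 : 0 < n := by linarith
  obtain ⟨t, ht⟩ : ∃ t, t = 1 / n := ⟨_, rfl⟩
  have t0 : 0 < t := by rw [ht]; positivity
  have e1 : m / n = m * t := by rw [ht]; ring
  have e2 : (8 * m + 2) / n = 8 * (m * t) + 2 * t := by rw [ht]; ring
  have e3 : 8 * (m * t) + 2 * t ≤ 1 := by rw [← e2, div_le_one hn0]; exact hn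
  have e4 : 1 / n ^ 2 = t ^ 2 := by rw [ht]; ring
  rw [e1] at h0 h1 h2
  rw [e2, e4]
  have μ0 : 0 ≤ m * t := by positivity
  generalize m * t = μ at *
  obtain ⟨y, hy⟩ : ∃ y, y = 8 * μ + 2 * t := ⟨_, rfl⟩
  rw [← hy] at e3 ⊢
  have y0 : 0 < y := by linarith
  have b1 := exp_ge (t := y) (by linarith)
  have b2 := exp_ge (t := -2 * y) (by linarith)
  rw [abs_le] at h0 h1 h2
  have c0 := mul_le_mul_of_nonneg_left b1 (show 0 ≤ a0 by linarith)
  have c1 := mul_le_mul_of_nonneg_left b2 (show 0 ≤ a1 by linarith)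
  have c2 := mul_le_mul_of_nonneg_left b1 (show 0 ≤ a2 by linarith)
  have d1 : 0 ≤ y * (a0 - 2 * a1 + a2 + 4 * μ) := mul_nonneg y0.le (by linarith)
  have d2 : 0 ≤ y ^ 2 * (a0 + 4 * a1 + a2 - 3) := mul_nonneg (sq_nonneg y) (by linarith)
  have d3 : t ^ 2 ≤ y * (3 / 4 * y - 4 * μ) := by
    rw [hy]
    nlinarith
  nlinarith

end MaxP

open MaxP in
theorem maxp : MaxStmt := by
  intro M D
  obtain ⟨l, hl⟩ : ∃ l, l = 8 * |M| + 2 := ⟨_, rfl⟩
  have M0 := abs_nonneg M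
  have D0 := abs_nonneg D
  have l0 : 0 < l := by linarith
  refine ⟨Real.exp (l * |D|) * Real.exp (l * (|D| + 1)), ⌈l⌉₊, by positivity,
    fun N X p a hN hd hX s => ?_⟩
  have h1 : l ≤ N := Nat.ceil_le.1 hN
  have N0 : (0 : ℝ) < N := by linarith
  have hd' : ∀ b ∈ X, ∀ j, |a b j - 1| ≤ |M| / N := fun b hb j =>
    ((hd b hb).2 j).trans (div_le_div_of_nonneg_right (le_abs_self M) N0.le)
  have ha : ∀ b ∈ X, ∀ j, 0 < a b j := fun b hb j => by
    have h2 := (abs_le.1 (hd' b hb j)).1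
    have h3 : |M| / N < 1 := by rw [div_lt_one N0]; linarith
    linarith
  obtain ⟨u, u0, u1⟩ := solve ha s
  have u2 : ∀ v : Pt → ℝ, (∀ b ∉ X, 0 ≤ v b) → (∀ b ∈ X, |s b| ≤ lap a v b) →
      ∀ b, |u b| ≤ v b := fun v v0 v1 => comp ha u0 v0 fun b hb => by
    rw [u1 b hb]
    exact v1 b hb
  refine ⟨u, u0, u1, fun S S0 hS b => ?_, u2⟩
  obtain ⟨β, hβ⟩ : ∃ β : Pt → ℝ, ∀ x, β x = Real.exp (l / N * ((x.1 : ℝ) - p.1)) :=
    ⟨_, fun _ => rfl⟩
  obtain ⟨E, hE⟩ : ∃ E, E = Real.exp (l * (|D| + 1)) := ⟨_, rfl⟩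
  obtain ⟨K, hK⟩ : ∃ K, K = Real.exp (l * |D|) * N ^ 2 * S := ⟨_, rfl⟩
  have K0 : 0 ≤ K := by rw [hK]; positivity
  have β0 : ∀ x, 0 < β x := fun x => by rw [hβ]; positivity
  refine (u2 (fun x => K * max (E - β x) 0) (fun x _ => by positivity) (fun x hx => ?_) b).trans ?_
  · have x1 : |(x.1 : ℝ) - p.1| ≤ |D| * N := by
      have := hX x hx
      rw [norm_pt, max_le_iff, Prod.fst_sub, Int.cast_sub] at this
      exact this.1.trans (mul_le_mul_of_nonneg_right (le_abs_self D) N0.le)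
    rw [abs_le] at x1
    have x2 : ∀ y : Pt, (y.1 : ℝ) ≤ x.1 + 1 → max (E - β y) 0 = E - β y := fun y hy => by
      refine max_eq_left (sub_nonneg.2 ?_)
      rw [hβ, hE, Real.exp_le_exp, div_mul_eq_mul_div, mul_div_assoc]
      refine mul_le_mul_of_nonneg_left ?_ l0.le
      rw [div_le_iff₀ N0]
      linarith
    have x3 : ∀ j, β (x + dd j) = β x * Real.exp (((dd j).1 : ℝ) * (l / N)) := fun j => by
      rw [hβ, hβ, ← Real.exp_add, Prod.fst_add, Int.cast_add]
      congr 1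
      ring
    have x4 := barrier M0 (hl ▸ h1) (hd' x hx 0) (hd' x hx 1) (hd' x hx 2)
    rw [← hl] at x4
    have x5 : 1 ≤ Real.exp (l * |D|) * β x := by
      rw [hβ, ← Real.exp_add, Real.one_le_exp_iff, div_mul_eq_mul_div, mul_div_assoc, ← mul_add]
      refine mul_nonneg l0.le ?_
      rw [← neg_le_iff_add_nonneg', le_div_iff₀ N0]
      linarith
    have x6 : S ≤ K * β x * (1 / N ^ 2) := by
      rw [show K * β x * (1 / N ^ 2) = S * (Real.exp (l * |D|) * β x) by rw [hK]; field_simp]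
      exact le_mul_of_one_le_right S0 x5
    refine ((hS x hx).trans x6).trans
      ((mul_le_mul_of_nonneg_left x4 (mul_nonneg K0 (β0 x).le)).trans (le_of_eq ?_))
    simp only [lap, Fin.sum_univ_three]
    rw [x2 x (by linarith), x2 (x + dd 0) (by simp), x2 (x + dd 1) (by simp; linarith),
      x2 (x + dd 2) (by simp), x3, x3, x3]
    simp only [dd_zero, dd_one, dd_two, Int.cast_one, one_mul, Int.cast_neg, Int.cast_ofNat]
    ring
  · have : max (E - β b) 0 ≤ E := max_le (by linarith [β0 b]) (by rw [hE]; positivity)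
    refine (mul_le_mul_of_nonneg_left this K0).trans (le_of_eq ?_)
    rw [hK, hE]
    ring

end Pool.Agent.Lib.MP_60c5b4_pr.H
end

-- part Pool.Agent.Lib.MP_60c5b4_pr.H.Energy
section

/-!
Energy estimate, Caccioppoli inequality and Nash inequality on the lattice.
-/

namespace Pool.Agent.Lib.MP_60c5b4_pr.H

open Finset

namespace Energy

variable {X : Finset Pt} {u : Pt → ℝ}

/-- Shifted sums of finitely supported functions. -/
theorem sum_shift_le (g : Pt → ℝ) (hg : ∀ b ∉ X, g b = 0) (S : Finset Pt) (d : Pt)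
    (h0 : ∀ b, 0 ≤ g b) : ∑ b ∈ S, g (b + d) ≤ ∑ b ∈ X, g b := by
  rw [← sum_image (s := S) (g := fun b => b + d) (f := g) fun x _ y _ h => add_right_cancel h]
  refine le_of_le_of_eq (sum_le_sum_of_subset_of_nonneg (subset_union_left (s₂ := X))
    fun b _ _ => h0 b) (sum_subset subset_union_right fun b _ hb => hg b hb).symm

theorem sum_shift_eq (g : Pt → ℝ) (hg : ∀ b ∉ X, g b = 0) (S : Finset Pt) (d : Pt)
    (hS : ∀ b ∈ X, b - d ∈ S) : ∑ b ∈ S, g (b + d) = ∑ b ∈ X, g b := by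
  rw [← sum_image (s := S) (g := fun b => b + d) (f := g) fun x _ y _ h => add_right_cancel h]
  refine (sum_subset (fun b hb => mem_image.2 ⟨b - d, hS b hb, sub_add_cancel _ _⟩)
    fun b _ hb => hg b hb).symm

/-- Summation by parts in one direction. -/
theorem parts (hu : ∀ b ∉ X, u b = 0) (φ : Pt → ℝ) (S : Finset Pt) (d : Pt) (hX : X ⊆ S)
    (hS : ∀ b ∈ X, b - d ∈ S) :
    ∑ b ∈ S, φ b * (u b - u (b + d)) ^ 2 = 2 * ∑ b ∈ X, φ b * (u b * (u b - u (b + d))) +
      ∑ b ∈ X, u b ^ 2 * (φ (b - d) - φ b) := by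
  have h1 : ∑ b ∈ S, φ b * u (b + d) ^ 2 = ∑ b ∈ X, φ (b - d) * u b ^ 2 := by
    rw [← sum_shift_eq (fun b => φ (b - d) * u b ^ 2) (fun b hb => by simp [hu b hb]) S d hS]
    simp only [add_sub_cancel_right]
  have h2 : ∑ b ∈ S, (2 * (φ b * (u b * (u b - u (b + d)))) - φ b * u b ^ 2) =
      ∑ b ∈ X, (2 * (φ b * (u b * (u b - u (b + d)))) - φ b * u b ^ 2) :=
    (sum_subset hX fun b _ hb => by simp [hu b hb]).symm
  calc ∑ b ∈ S, φ b * (u b - u (b + d)) ^ 2
      = ∑ b ∈ S, ((2 * (φ b * (u b * (u b - u (b + d)))) - φ b * u b ^ 2) +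
          φ b * u (b + d) ^ 2) := sum_congr rfl fun b _ => by ring
    _ = _ := by
      rw [sum_add_distrib, h1, h2, mul_sum, ← sum_add_distrib, ← sum_add_distrib]
      exact sum_congr rfl fun b _ => by ring

/-- The weighted energy inequality. -/
theorem weighted (hu : ∀ b ∉ X, u b = 0) {a : Pt → Fin 3 → ℝ} {m : ℝ} (ha : Drift a X m)
    (φ : Pt → ℝ) (hφ : ∀ b, 0 ≤ φ b) (U : Finset Pt) :
    ∑ b ∈ U, φ b * ∑ j, (u b - u (b + dd j)) ^ 2 ≤ 4 * ∑ b ∈ X, φ b * (u b * lap a u b) +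
      12 * m ^ 2 * ∑ b ∈ X, φ b * u b ^ 2 +
      2 * ∑ b ∈ X, u b ^ 2 * ∑ j, (φ (b - dd j) - φ b) := by
  set S : Finset Pt := U ∪ X ∪ univ.biUnion fun j => X.image fun b => b - dd j with hS
  have hX : X ⊆ S := subset_union_right.trans subset_union_left
  have hU : U ⊆ S := subset_union_left.trans subset_union_left
  have hn : ∀ b, 0 ≤ φ b * ∑ j, (u b - u (b + dd j)) ^ 2 := fun b =>
    mul_nonneg (hφ b) (sum_nonneg fun j _ => sq_nonneg _)
  have h1 : ∑ b ∈ S, φ b * ∑ j, (u b - u (b + dd j)) ^ 2 =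
      2 * ∑ b ∈ X, φ b * (u b * ∑ j, (u b - u (b + dd j))) +
        ∑ b ∈ X, u b ^ 2 * ∑ j, (φ (b - dd j) - φ b) := by
    simp only [mul_sum]
    rw [sum_comm, sum_comm (s := X), sum_comm (s := X), ← sum_add_distrib]
    refine sum_congr rfl fun j _ => ?_
    rw [parts hu φ S (dd j) hX fun b hb => mem_union_right _
      (mem_biUnion.2 ⟨j, mem_univ _, mem_image_of_mem _ hb⟩), mul_sum]
  have h2 : ∑ b ∈ X, φ b * (u b * ∑ j, (u b - u (b + dd j))) ≤
      ∑ b ∈ X, (φ b * (u b * lap a u b) + 3 * m ^ 2 * (φ b * u b ^ 2) +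
        1 / 4 * (φ b * ∑ j, (u b - u (b + dd j)) ^ 2)) := by
    refine sum_le_sum fun b hb => ?_
    have key : ∀ j, u b * (u b - u (b + dd j)) ≤ u b * (a b j * (u b - u (b + dd j))) +
        m ^ 2 * u b ^ 2 + 1 / 4 * (u b - u (b + dd j)) ^ 2 := fun j => by
      have h3 : (a b j - 1) ^ 2 ≤ m ^ 2 := by
        rw [← sq_abs (a b j - 1)]
        exact pow_le_pow_left₀ (abs_nonneg _) ((ha b hb).2 j) 2
      nlinarith [sq_nonneg ((a b j - 1) * u b + (u b - u (b + dd j)) / 2),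
        mul_le_mul_of_nonneg_right h3 (sq_nonneg (u b))]
    have h4 : u b * ∑ j, (u b - u (b + dd j)) ≤ u b * lap a u b + 3 * m ^ 2 * u b ^ 2 +
        1 / 4 * ∑ j, (u b - u (b + dd j)) ^ 2 := by
      have := key 0
      have := key 1
      have := key 2
      simp only [lap, Fin.sum_univ_three]
      linarith
    nlinarith [mul_le_mul_of_nonneg_left h4 (hφ b)]
  rw [sum_add_distrib, sum_add_distrib, ← mul_sum, ← mul_sum] at h2
  have h3 := sum_le_sum_of_subset_of_nonneg hX fun b _ _ => hn b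
  have h4 := sum_le_sum_of_subset_of_nonneg hU fun b _ _ => hn b
  linarith

/-- The cutoff function. -/
noncomputable def cut (p : Pt) (N : ℕ) (b : Pt) : ℝ :=
  max (1 - (((b.1 - p.1 : ℤ) : ℝ) ^ 2 + ((b.2 - p.2 : ℤ) : ℝ) ^ 2) / (64 * (N : ℝ) ^ 2)) 0 ^ 2

theorem cut_nonneg (p : Pt) (N : ℕ) (b : Pt) : 0 ≤ cut p N b := sq_nonneg _

theorem cut_le_one (p : Pt) (N : ℕ) (b : Pt) : cut p N b ≤ 1 := by
  refine pow_le_one₀ (le_max_right _ _) (max_le ?_ zero_le_one)
  have : 0 ≤ (((b.1 - p.1 : ℤ) : ℝ) ^ 2 + ((b.2 - p.2 : ℤ) : ℝ) ^ 2) / (64 * (N : ℝ) ^ 2) := by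
    positivity
  linarith

theorem cut_eq_zero (p : Pt) {N : ℕ} (hN : 3 ≤ N) {b : Pt} (hb : b ∉ box p (8 * N)) :
    cut p N b = 0 := by
  have hN' : (3 : ℝ) ≤ N := by exact_mod_cast hN
  have h1 : (64 * (N : ℤ) ^ 2) ≤ (b.1 - p.1) ^ 2 + (b.2 - p.2) ^ 2 := by
    rw [mem_box'] at hb
    push_cast at hb
    have h0 : (0 : ℤ) ≤ N := Int.natCast_nonneg N
    by_cases h : p.1 - 8 * N ≤ b.1 ∧ b.1 ≤ p.1 + 8 * N
    · have : b.2 - p.2 < -(8 * N) ∨ 8 * N < b.2 - p.2 := by omega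
      rcases this with h2 | h2 <;> nlinarith [sq_nonneg (b.1 - p.1)]
    · have : b.1 - p.1 < -(8 * N) ∨ 8 * N < b.1 - p.1 := by omega
      rcases this with h2 | h2 <;> nlinarith [sq_nonneg (b.2 - p.2)]
  have h2 : (64 * (N : ℝ) ^ 2) ≤ ((b.1 - p.1 : ℤ) : ℝ) ^ 2 + ((b.2 - p.2 : ℤ) : ℝ) ^ 2 := by
    exact_mod_cast h1
  rw [cut, max_eq_right, zero_pow two_ne_zero]
  rw [sub_nonpos, le_div_iff₀ (by positivity), one_mul]
  exact h2

theorem le_cut (p : Pt) {N : ℕ} (hN : 3 ≤ N) {b : Pt} (hb : b ∈ box p (4 * N + 3)) :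
    1 / 25 ≤ cut p N b := by
  have hN' : (3 : ℝ) ≤ N := by exact_mod_cast hN
  have h1 : (b.1 - p.1) ^ 2 + (b.2 - p.2) ^ 2 ≤ 50 * (N : ℤ) ^ 2 := by
    rw [mem_box'] at hb
    push_cast at hb
    have h0 : (3 : ℤ) ≤ N := by exact_mod_cast hN
    have e1 : (b.1 - p.1) ^ 2 ≤ (5 * N) ^ 2 := sq_le_sq' (by omega) (by omega)
    have e2 : (b.2 - p.2) ^ 2 ≤ (5 * N) ^ 2 := sq_le_sq' (by omega) (by omega)
    nlinarith
  have h2 : ((b.1 - p.1 : ℤ) : ℝ) ^ 2 + ((b.2 - p.2 : ℤ) : ℝ) ^ 2 ≤ 50 * (N : ℝ) ^ 2 := by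
    exact_mod_cast h1
  have h3 : (((b.1 - p.1 : ℤ) : ℝ) ^ 2 + ((b.2 - p.2 : ℤ) : ℝ) ^ 2) / (64 * (N : ℝ) ^ 2) ≤
      4 / 5 := by
    rw [div_le_iff₀ (by positivity)]
    nlinarith [sq_nonneg (N : ℝ)]
  rw [cut, show (1 / 25 : ℝ) = (1 / 5) ^ 2 by norm_num]
  exact pow_le_pow_left₀ (by norm_num) (le_max_of_le_left (by linarith)) 2

theorem pos_sq_le (t h : ℝ) : max (t + h) 0 ^ 2 ≤ max t 0 ^ 2 + 2 * max t 0 * h + h ^ 2 := by
  rcases le_total t 0 with ht | ht <;> rcases le_total (t + h) 0 with hh | hh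
  · rw [max_eq_right ht, max_eq_right hh]; nlinarith [sq_nonneg h]
  · rw [max_eq_right ht, max_eq_left hh]; nlinarith
  · rw [max_eq_left ht, max_eq_right hh]; nlinarith [sq_nonneg (t + h)]
  · rw [max_eq_left ht, max_eq_left hh]; nlinarith

theorem cut_aux {x y D n : ℝ} (hn : 3 ≤ n) (hD : D = 64 * n ^ 2) (hx : |x| ≤ 9 * n)
    (hy : |y| ≤ 9 * n) :
    (max (1 - ((x - 1) ^ 2 + (y - 1) ^ 2) / D) 0 ^ 2 - max (1 - (x ^ 2 + y ^ 2) / D) 0 ^ 2) +
      (max (1 - ((x + 2) ^ 2 + (y - 1) ^ 2) / D) 0 ^ 2 - max (1 - (x ^ 2 + y ^ 2) / D) 0 ^ 2) +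
      (max (1 - ((x - 1) ^ 2 + (y + 2) ^ 2) / D) 0 ^ 2 - max (1 - (x ^ 2 + y ^ 2) / D) 0 ^ 2) ≤
      3 / n ^ 2 := by
  have hn0 : 0 < n := by linarith
  have hD0 : 0 < D := by rw [hD]; positivity
  obtain ⟨hx1, hx2⟩ := abs_le.1 hx
  obtain ⟨hy1, hy2⟩ := abs_le.1 hy
  have hb : ∀ z : ℝ, -(64 * n) ≤ z → z ≤ 64 * n → (z / D) ^ 2 ≤ 1 / n ^ 2 := fun z h1 h2 => by
    rw [div_pow, div_le_div_iff₀ (by positivity) (by positivity), hD]
    have := sq_le_sq' h1 h2
    nlinarith [mul_le_mul_of_nonneg_right this (sq_nonneg n)]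
  have e1 := pos_sq_le (1 - (x ^ 2 + y ^ 2) / D) ((2 * x + 2 * y - 2) / D)
  have e2 := pos_sq_le (1 - (x ^ 2 + y ^ 2) / D) ((-4 * x + 2 * y - 5) / D)
  have e3 := pos_sq_le (1 - (x ^ 2 + y ^ 2) / D) ((2 * x - 4 * y - 5) / D)
  rw [show 1 - (x ^ 2 + y ^ 2) / D + (2 * x + 2 * y - 2) / D =
    1 - ((x - 1) ^ 2 + (y - 1) ^ 2) / D by ring] at e1
  rw [show 1 - (x ^ 2 + y ^ 2) / D + (-4 * x + 2 * y - 5) / D =
    1 - ((x + 2) ^ 2 + (y - 1) ^ 2) / D by ring] at e2
  rw [show 1 - (x ^ 2 + y ^ 2) / D + (2 * x - 4 * y - 5) / D =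
    1 - ((x - 1) ^ 2 + (y + 2) ^ 2) / D by ring] at e3
  have b1 := hb (2 * x + 2 * y - 2) (by linarith) (by linarith)
  have b2 := hb (-4 * x + 2 * y - 5) (by linarith) (by linarith)
  have b3 := hb (2 * x - 4 * y - 5) (by linarith) (by linarith)
  have h0 : 0 ≤ max (1 - (x ^ 2 + y ^ 2) / D) 0 * (12 / D) :=
    mul_nonneg (le_max_right _ _) (by positivity)
  have h1 : max (1 - (x ^ 2 + y ^ 2) / D) 0 * ((2 * x + 2 * y - 2) / D) +
      max (1 - (x ^ 2 + y ^ 2) / D) 0 * ((-4 * x + 2 * y - 5) / D) +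
      max (1 - (x ^ 2 + y ^ 2) / D) 0 * ((2 * x - 4 * y - 5) / D) =
      -(max (1 - (x ^ 2 + y ^ 2) / D) 0 * (12 / D)) := by ring
  have h2 : 3 / n ^ 2 = 3 * (1 / n ^ 2) := by ring
  linarith

theorem cut_lap (p : Pt) {N : ℕ} (hN : 3 ≤ N) (b : Pt) :
    ∑ j, (cut p N (b - dd j) - cut p N b) ≤
      if b ∈ box p (8 * N + 3) then 3 / (N : ℝ) ^ 2 else 0 := by
  split_ifs with hb
  · have hN' : (3 : ℝ) ≤ N := by exact_mod_cast hN
    have h0 : (3 : ℤ) ≤ N := by exact_mod_cast hN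
    rw [mem_box'] at hb
    push_cast at hb
    have hx : |b.1 - p.1| ≤ 9 * (N : ℤ) := abs_le.2 ⟨by omega, by omega⟩
    have hy : |b.2 - p.2| ≤ 9 * (N : ℤ) := abs_le.2 ⟨by omega, by omega⟩
    have := cut_aux (x := ((b.1 - p.1 : ℤ) : ℝ)) (y := ((b.2 - p.2 : ℤ) : ℝ)) hN' rfl
      (by exact_mod_cast hx) (by exact_mod_cast hy)
    refine le_of_eq_of_le ?_ this
    simp only [Fin.sum_univ_three, cut, dd_zero, dd_one, dd_two, Prod.fst_sub, Prod.snd_sub]
    push_cast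
    ring_nf
  · refine sum_nonpos fun j _ => ?_
    rw [cut_eq_zero p hN (b := b - dd j), zero_sub, neg_nonpos]
    · exact cut_nonneg _ _ _
    · intro h
      refine hb ?_
      rw [mem_box'] at h ⊢
      push_cast at h ⊢
      fin_cases j <;> simp at h <;> omega

theorem local_bound (hu : ∀ b ∉ X, u b = 0) {a : Pt → Fin 3 → ℝ} {m : ℝ} (ha : Drift a X m)
    (p : Pt) {N : ℕ} (hN : 3 ≤ N) : grad2 u (box p (4 * N + 3)) ≤
      300 * (∑ b ∈ X ∩ box p (8 * N), |u b * lap a u b| +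
        (m ^ 2 + 1 / (N : ℝ) ^ 2) * ∑ b ∈ box p (8 * N + 3), u b ^ 2) := by
  have h := weighted hu ha (cut p N) (cut_nonneg p N) (box p (4 * N + 3))
  have h1 : 1 / 25 * grad2 u (box p (4 * N + 3)) ≤
      ∑ b ∈ box p (4 * N + 3), cut p N b * ∑ j, (u b - u (b + dd j)) ^ 2 := by
    rw [grad2, mul_sum]
    exact sum_le_sum fun b hb => mul_le_mul_of_nonneg_right (le_cut p hN hb)
      (sum_nonneg fun j _ => sq_nonneg _)
  have h2 : ∑ b ∈ X, cut p N b * (u b * lap a u b) ≤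
      ∑ b ∈ X ∩ box p (8 * N), |u b * lap a u b| := by
    rw [← sum_subset (inter_subset_left (s₂ := box p (8 * N))) fun b hb hb' => by
      rw [cut_eq_zero p hN fun h => hb' (mem_inter.2 ⟨hb, h⟩), zero_mul]]
    refine sum_le_sum fun b _ => ?_
    refine (mul_le_mul_of_nonneg_left (le_abs_self _) (cut_nonneg _ _ _)).trans ?_
    exact mul_le_of_le_one_left (abs_nonneg _) (cut_le_one _ _ _)
  have hs : ∀ c : ℝ, 0 ≤ c → ∑ b ∈ X, u b ^ 2 * (if b ∈ box p (8 * N + 3) then c else 0) ≤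
      c * ∑ b ∈ box p (8 * N + 3), u b ^ 2 := fun c hc => by
    simp only [mul_ite, mul_zero]
    rw [sum_ite_mem, ← sum_mul, mul_comm]
    exact mul_le_mul_of_nonneg_left
      (sum_le_sum_of_subset_of_nonneg inter_subset_right fun b _ _ => sq_nonneg _) hc
  have h3 : ∑ b ∈ X, cut p N b * u b ^ 2 ≤ ∑ b ∈ box p (8 * N + 3), u b ^ 2 := by
    refine le_trans (sum_le_sum fun b _ => ?_) ((hs 1 zero_le_one).trans (one_mul _).le)
    rw [mul_comm]
    refine mul_le_mul_of_nonneg_left ?_ (sq_nonneg _)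
    split_ifs with hb
    · exact cut_le_one _ _ _
    · exact (cut_eq_zero p hN fun h => hb (box_mono p (by omega) h)).le
  have h4 : ∑ b ∈ X, u b ^ 2 * ∑ j, (cut p N (b - dd j) - cut p N b) ≤
      3 / (N : ℝ) ^ 2 * ∑ b ∈ box p (8 * N + 3), u b ^ 2 :=
    le_trans (sum_le_sum fun b _ => mul_le_mul_of_nonneg_left (cut_lap p hN b) (sq_nonneg _))
      (hs _ (by positivity))
  have h5 : 0 ≤ ∑ b ∈ X ∩ box p (8 * N), |u b * lap a u b| := sum_nonneg fun b _ => abs_nonneg _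
  have h6 : 0 ≤ 1 / (N : ℝ) ^ 2 * ∑ b ∈ box p (8 * N + 3), u b ^ 2 :=
    mul_nonneg (by positivity) (sum_nonneg fun b _ => sq_nonneg _)
  have h7 := mul_le_mul_of_nonneg_left h3 (sq_nonneg m)
  have h8 : 3 / (N : ℝ) ^ 2 * ∑ b ∈ box p (8 * N + 3), u b ^ 2 =
      3 * (1 / (N : ℝ) ^ 2 * ∑ b ∈ box p (8 * N + 3), u b ^ 2) := by ring
  nlinarith

/-- A function is bounded by its variation along a ray. -/
theorem abs_le_ray (g : Pt → ℝ) (q d : Pt) (K : ℕ) (h : g (q + K • d) = 0) :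
    |g q| ≤ ∑ k ∈ range K, |g (q + k • d) - g (q + k • d + d)| := by
  refine le_trans (le_of_eq ?_) (abs_sum_le_sum_abs _ _)
  have := sum_range_sub' (fun k : ℕ => g (q + k • d)) K
  simp only [succ_nsmul, ← add_assoc, zero_nsmul, add_zero, h, sub_zero] at this
  rw [this]

/-- The Gagliardo-Nirenberg inequality. -/
theorem gn (g : Pt → ℝ) (hg : ∀ b ∉ X, g b = 0) : ∃ S : Finset Pt, ∑ b ∈ X, g b ^ 2 ≤
    (∑ b ∈ S, |g b - g (b + dd 0)|) * ∑ b ∈ S, |g b - g (b + dd 1)| := by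
  obtain ⟨R, hR⟩ : ∃ R : ℕ, ∀ b ∈ X, b.2.natAbs ≤ R :=
    ⟨X.sup fun b => b.2.natAbs, fun b hb => le_sup (f := fun b : Pt => b.2.natAbs) hb⟩
  set K := 2 * R + 1 with hK
  have hout : ∀ b ∈ X, ∀ d : Pt, d.2 = 1 → g (b + K • d) = 0 := fun b hb d hd => hg _ fun h => by
    have h1 := hR b hb
    have h2 := hR _ h
    rw [Prod.snd_add, Prod.smul_snd, hd, nsmul_eq_mul, mul_one] at h2
    omega
  set S : Finset Pt := ((X ×ˢ range K).image fun x => x.1 + x.2 • dd 0) ∪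
    (X ×ˢ range K).image fun x => x.1 + x.2 • dd 1 with hS
  refine ⟨S, ?_⟩
  set F : Pt × Pt → ℝ := fun x => |g x.1 - g (x.1 + dd 0)| * |g x.2 - g (x.2 + dd 1)| with hF
  set f : Pt × ℕ × ℕ → Pt × Pt := fun x => (x.1 + x.2.1 • dd 0, x.1 + x.2.2 • dd 1) with hf
  have hinj : ∀ x ∈ X ×ˢ range K ×ˢ range K, ∀ y ∈ X ×ˢ range K ×ˢ range K, f x = f y → x = y := by
    rintro ⟨⟨x1, x2⟩, k, l⟩ - ⟨⟨y1, y2⟩, k', l'⟩ - h
    simp only [hf, dd_zero, dd_one, Prod.smul_mk, nsmul_eq_mul, Prod.mk_add_mk,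
      Prod.mk.injEq] at h ⊢
    omega
  calc ∑ b ∈ X, g b ^ 2 ≤ ∑ b ∈ X, ∑ y ∈ range K ×ˢ range K, F (f (b, y)) := by
        refine sum_le_sum fun b hb => ?_
        rw [← sq_abs, sq, sum_product]
        refine (mul_le_mul (abs_le_ray g b (dd 0) K (hout b hb _ rfl))
          (abs_le_ray g b (dd 1) K (hout b hb _ rfl)) (abs_nonneg _)
          (sum_nonneg fun _ _ => abs_nonneg _)).trans (le_of_eq ?_)
        rw [sum_mul_sum]
    _ = ∑ x ∈ (X ×ˢ range K ×ˢ range K).image f, F x := by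
        rw [sum_image hinj, sum_product]
    _ ≤ ∑ x ∈ S ×ˢ S, F x := by
        refine sum_le_sum_of_subset_of_nonneg (fun x hx => ?_)
          fun x _ _ => mul_nonneg (abs_nonneg _) (abs_nonneg _)
        obtain ⟨⟨b, k, l⟩, hb, rfl⟩ := mem_image.1 hx
        simp only [mem_product] at hb
        exact mem_product.2 ⟨mem_union_left _ (mem_image.2 ⟨(b, k), mem_product.2 ⟨hb.1, hb.2.1⟩,
          rfl⟩), mem_union_right _ (mem_image.2 ⟨(b, l), mem_product.2 ⟨hb.1, hb.2.2⟩, rfl⟩)⟩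
    _ = _ := by rw [sum_product, sum_mul_sum]

theorem nash (hu : ∀ b ∉ X, u b = 0) {E : ℝ} (hE : ∀ U, grad2 u U ≤ E) :
    (∑ b ∈ X, u b ^ 2) ^ 2 ≤ 4 * (∑ b ∈ X, |u b|) ^ 2 * E := by
  have hE0 : 0 ≤ E := by simpa [grad2] using hE ∅
  set P := ∑ b ∈ X, u b ^ 2 with hP
  have hP0 : 0 ≤ P := sum_nonneg fun b _ => sq_nonneg _
  obtain ⟨S, hS⟩ := gn (X := X) (fun b => u b ^ 2) fun b hb => by simp [hu b hb]
  have h1 : ∀ j, (∑ b ∈ S, |u b ^ 2 - u (b + dd j) ^ 2|) ^ 2 ≤ E * (4 * P) := fun j => by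
    refine (sum_sq_le_sum_mul_sum_of_sq_le_mul S (f := fun b => (u b - u (b + dd j)) ^ 2)
      (g := fun b => (u b + u (b + dd j)) ^ 2) (fun _ _ => sq_nonneg _) (fun _ _ => sq_nonneg _)
      fun b _ => le_of_eq (by rw [sq_abs]; ring)).trans (mul_le_mul ?_ ?_
        (sum_nonneg fun _ _ => sq_nonneg _) hE0)
    · refine le_trans (sum_le_sum fun b _ => ?_) (hE S)
      exact single_le_sum (f := fun j => (u b - u (b + dd j)) ^ 2) (fun _ _ => sq_nonneg _)
        (mem_univ j)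
    · have e1 := sum_shift_le (X := X) (fun b => u b ^ 2) (fun b hb => by simp [hu b hb]) S 0
        fun b => sq_nonneg _
      have e2 := sum_shift_le (X := X) (fun b => u b ^ 2) (fun b hb => by simp [hu b hb]) S (dd j)
        fun b => sq_nonneg _
      simp only [add_zero] at e1
      calc ∑ b ∈ S, (u b + u (b + dd j)) ^ 2
          ≤ ∑ b ∈ S, (2 * u b ^ 2 + 2 * u (b + dd j) ^ 2) :=
            sum_le_sum fun b _ => by nlinarith [sq_nonneg (u b - u (b + dd j))]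
        _ ≤ 4 * P := by rw [sum_add_distrib, ← mul_sum, ← mul_sum]; linarith
  have h2 : ∑ b ∈ X, (u b ^ 2) ^ 2 ≤ E * (4 * P) := by
    refine hS.trans ?_
    nlinarith [h1 0, h1 1, sq_nonneg (∑ b ∈ S, |u b ^ 2 - u (b + dd 0) ^ 2| -
      ∑ b ∈ S, |u b ^ 2 - u (b + dd 1) ^ 2|)]
  have h3 : P ^ 2 ≤ (∑ b ∈ X, |u b|) * ∑ b ∈ X, |u b| ^ 3 :=
    sum_sq_le_sum_mul_sum_of_sq_le_mul X (fun _ _ => abs_nonneg _) (fun _ _ => by positivity)
      fun b _ => le_of_eq (by rw [← sq_abs (u b)]; ring)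
  have h4 : (∑ b ∈ X, |u b| ^ 3) ^ 2 ≤ P * ∑ b ∈ X, (u b ^ 2) ^ 2 :=
    sum_sq_le_sum_mul_sum_of_sq_le_mul X (fun _ _ => sq_nonneg _) (fun _ _ => sq_nonneg _)
      fun b _ => le_of_eq (by rw [← sq_abs (u b)]; ring)
  rcases hP0.eq_or_lt with h | h
  · rw [← h, zero_pow two_ne_zero]
    positivity
  · have h5 : (P ^ 2) ^ 2 ≤ (∑ b ∈ X, |u b|) ^ 2 * (P * (E * (4 * P))) := by
      refine (pow_le_pow_left₀ (sq_nonneg _) h3 2).trans ?_
      rw [mul_pow]
      exact mul_le_mul_of_nonneg_left (h4.trans (mul_le_mul_of_nonneg_left h2 hP0)) (sq_nonneg _)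
    refine le_of_mul_le_mul_right ?_ (pow_pos h 2)
    linarith

end Energy

theorem energy : EnergyStmt := by
  refine ⟨300, by norm_num, fun X u hu => ⟨fun a m ha => ⟨fun U => ?_, fun p N hN =>
    Energy.local_bound hu ha p hN⟩, fun E hE => (Energy.nash hu hE).trans ?_⟩⟩
  · simpa [grad2] using Energy.weighted hu ha (fun _ => 1) (fun _ => zero_le_one) U
  · have hE0 : 0 ≤ E := by simpa [grad2] using hE ∅
    nlinarith [mul_nonneg (sq_nonneg (∑ b ∈ X, |u b|)) hE0]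

end Pool.Agent.Lib.MP_60c5b4_pr.H
end

-- part Pool.Agent.Lib.MP_60c5b4_pr.H.Bdry
section

/-! Values on the boundary faces are controlled by the jumps across the exit edges. -/

namespace Pool.Agent.Lib.MP_60c5b4_pr.H

open Finset MeasureTheory

namespace Bdry

/-- The two triangles bordering the edge from `v` to `v + dir j`. -/
def t1 (v : Pt) (j : Fin 3) : Pt := pr v - eps j + eps (j + 1)

def t2 (v : Pt) (j : Fin 3) : Pt := pr v - eps j + eps (j + 2)

theorem t1_next (v : Pt) (j : Fin 3) : t1 (v + dir j) (j + 2) = t1 v j := by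
  fin_cases j <;> simp [t1, pr, dir, eps, Prod.ext_iff] <;> omega

theorem t2_next (v : Pt) (j : Fin 3) : t2 (v + dir j) (j + 1) = t2 v j := by
  fin_cases j <;> simp [t2, pr, dir, eps, Prod.ext_iff] <;> omega

/-- Exactly one end of the edge lies in `V`. -/
def Bd (V : Finset Pt) (v : Pt) (j : Fin 3) : Prop := ¬ (v ∈ V ↔ v + dir j ∈ V)

theorem root_side {V : Finset Pt} {t : Pt} (h : IsRoot V t) :
    ∃ v j, Bd V v j ∧ (t = t1 v j ∨ t = t2 v j) := by
  obtain ⟨h1, v, hv, i, j, e⟩ := h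
  obtain ⟨hp, i', hw⟩ := mem_faces.1 h1
  obtain ⟨u, k, e'⟩ := exists_edge (t - eps i')
  rw [e', edge_mem_whites] at hw
  have ht : t = pr v - eps j + eps i := eq_add_of_sub_eq e
  have hij : i ≠ j := fun c => hp (ht ▸ primal_edge_iff.2 c)
  have hi : i = j + 1 ∨ i = j + 2 := by
    revert hij; generalize i = a; generalize j = b; revert a b; decide
  by_contra hno
  push Not at hno
  rcases hi with rfl | rfl
  · have a1 : v + dir j ∉ V := fun c => (hno v j fun d => hv (d.2 c)).1 ht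
    have a2 : v + dir j + dir (j + 2) ∉ V := fun c =>
      (hno (v + dir j) (j + 2) fun d => a1 (d.2 c)).1 (ht.trans (t1_next v j).symm)
    have key : (u = v ∨ u = v + dir j ∨ u = v + dir j + dir (j + 2)) ∧
        (u + dir k = v ∨ u + dir k = v + dir j ∨ u + dir k = v + dir j + dir (j + 2)) := by
      rw [ht] at e'
      clear hno hw a1 a2 hp h1 e ht hij
      fin_cases j <;> fin_cases i' <;> fin_cases k <;>
        simp [pr, dir, eps, Prod.ext_iff] at e' ⊢ <;> omega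
    rcases hw with c | c
    · rcases key.1 with d | d | d <;> rw [d] at c <;> contradiction
    · rcases key.2 with d | d | d <;> rw [d] at c <;> contradiction
  · have a1 : v + dir j ∉ V := fun c => (hno v j fun d => hv (d.2 c)).2 ht
    have a2 : v + dir j + dir (j + 1) ∉ V := fun c =>
      (hno (v + dir j) (j + 1) fun d => a1 (d.2 c)).2 (ht.trans (t2_next v j).symm)
    have key : (u = v ∨ u = v + dir j ∨ u = v + dir j + dir (j + 1)) ∧
        (u + dir k = v ∨ u + dir k = v + dir j ∨ u + dir k = v + dir j + dir (j + 1)) := by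
      rw [ht] at e'
      clear hno hw a1 a2 hp h1 e ht hij
      fin_cases j <;> fin_cases i' <;> fin_cases k <;>
        simp [pr, dir, eps, Prod.ext_iff] at e' ⊢ <;> omega
    rcases hw with c | c
    · rcases key.1 with d | d | d <;> rw [d] at c <;> contradiction
    · rcases key.2 with d | d | d <;> rw [d] at c <;> contradiction

theorem const_on {A : Type} {S : Set Pt} (hS : Conn S) (φ : Pt → A)
    (h : ∀ v j, v ∈ S → v + dir j ∈ S → φ (v + dir j) = φ v) {v w : Pt} (hv : v ∈ S)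
    (hw : w ∈ S) : φ v = φ w := by
  have := hS v hv w hw
  clear hw
  induction this with
  | refl => rfl
  | tail _ s ih =>
    obtain ⟨a, b, j, rfl | rfl⟩ := s
    · rw [ih, h _ j a b]
    · rw [ih, h _ j b a]

/-- A function on the triangles that does not jump across boundary edges is constant along the
boundary. -/
theorem cocycle {V : Finset Pt} (hV : SimplyConn V) (c : Pt → ZMod 2)
    (hc : ∀ v j, Bd V v j → c (t1 v j) = c (t2 v j)) {v v' : Pt} {j j' : Fin 3}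
    (h : Bd V v j) (h' : Bd V v' j') : c (t1 v j) = c (t1 v' j') := by
  have two : (2 : ZMod 2) = 0 := rfl
  obtain ⟨χ, hχ⟩ : ∃ χ : Pt → ZMod 2, ∀ v, χ v = if v ∈ V then 1 else 0 := ⟨_, fun _ => rfl⟩
  have b1 : ∀ v j, Bd V v j → χ v + χ (v + dir j) = 1 := fun v j h => by
    rw [hχ, hχ]
    by_cases a : v ∈ V <;> by_cases b : v + dir j ∈ V <;> simp [Bd, a, b] at h ⊢
  have b0 : ∀ v j, ¬ Bd V v j → χ v + χ (v + dir j) = 0 := fun v j h => by
    rw [hχ, hχ]
    by_cases a : v ∈ V <;> by_cases b : v + dir j ∈ V <;> simp [Bd, a, b] at h ⊢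
    rfl
  obtain ⟨ω, hω⟩ : ∃ ω : Pt → Fin 3 → ZMod 2, ∀ v j, ω v j = (χ v + χ (v + dir j)) * c (t1 v j) :=
    ⟨_, fun _ _ => rfl⟩
  have hω2 : ∀ v j, ω v j = (χ v + χ (v + dir j)) * c (t2 v j) := fun v j => by
    rw [hω]
    by_cases a : Bd V v j
    · rw [hc v j a]
    · rw [b0 v j a, zero_mul, zero_mul]
  have up : ∀ p, ω p 0 + ω (p + dir 0) 1 + ω (p + dir 0 + dir 1) 2 = 0 := fun p => by
    have e1 : t2 (p + dir 0) 1 = t2 p 0 := t2_next p 0
    have e2 : t2 (p + dir 0 + dir 1) 2 = t2 (p + dir 0) 1 := t2_next _ 1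
    have e3 : p + dir 0 + dir 1 + dir 2 = p := by simp [dir, Prod.ext_iff]
    rw [hω2, hω2, hω2, e2, e1, e3]
    linear_combination (χ p + χ (p + dir 0) + χ (p + dir 0 + dir 1)) * c (t2 p 0) * two
  have down : ∀ p, ω p 0 + ω (p + dir 0) 2 + ω (p + dir 0 + dir 2) 1 = 0 := fun p => by
    have e1 : t1 (p + dir 0) 2 = t1 p 0 := t1_next p 0
    have e2 : t1 (p + dir 0 + dir 2) 1 = t1 (p + dir 0) 2 := t1_next _ 2
    have e3 : p + dir 0 + dir 2 + dir 1 = p := by simp [dir, Prod.ext_iff]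
    rw [hω, hω, hω, e2, e1, e3]
    linear_combination (χ p + χ (p + dir 0) + χ (p + dir 0 + dir 2)) * c (t1 p 0) * two
  obtain ⟨φ, hφ⟩ := poincare (fun p => ω p 0) (fun p => ω p 1) fun p => by
    have a1 := up p
    have a2 := down (p + dir 1)
    have e1 : p + dir 1 + dir 0 = p + dir 0 + dir 1 := add_right_comm _ _ _
    have e2 : p + dir 0 + dir 1 + dir 2 = p := by simp [dir, Prod.ext_iff]
    rw [e1, e2] at a2
    change ω p 0 + ω (p + dir 0) 1 = ω p 1 + ω (p + dir 1) 0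
    linear_combination a1 - a2
  have hd : ∀ v j, φ (v + dir j) + φ v = ω v j := fun v j => by
    fin_cases j
    · change φ (v + (1, 0)) + φ v = ω v 0
      linear_combination (hφ v).1 + φ v * two
    · change φ (v + (0, 1)) + φ v = ω v 1
      linear_combination (hφ v).2 + φ v * two
    · have a1 := up (v + dir 2)
      have a2 := (hφ (v + dir 2)).1
      have a3 := (hφ (v + dir 2 + dir 0)).2
      have e : v + dir 2 + dir 0 + dir 1 = v := by simp [dir, Prod.ext_iff]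
      change φ (v + dir 2 + dir 0) - _ = _ at a2
      change φ (v + dir 2 + dir 0 + dir 1) - _ = _ at a3
      rw [e] at a1 a3
      change φ (v + dir 2) + φ v = ω v 2
      linear_combination a1 + a2 + a3 + (φ (v + dir 2) - ω v 2) * two
  have hz : ∀ v j, ¬ Bd V v j → φ (v + dir j) = φ v := fun v j h => by
    have := hd v j
    rw [hω, b0 v j h, zero_mul] at this
    linear_combination this - φ v * two
  have cin : ∀ {v w}, v ∈ V → w ∈ V → φ v = φ w := fun a b =>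
    const_on hV.1 φ (fun v j a b => hz v j fun h => h (iff_of_true a b)) a b
  have cout : ∀ {v w}, v ∉ V → w ∉ V → φ v = φ w := fun a b =>
    const_on hV.2 φ (fun v j a b => hz v j fun h => h (iff_of_false a b)) a b
  have val : ∀ v j, Bd V v j → ∃ a ∈ V, ∃ b ∉ V, c (t1 v j) = φ a + φ b := fun v j h => by
    have e := hd v j
    rw [hω, b1 v j h, one_mul] at e
    by_cases a : v ∈ V
    · exact ⟨v, a, v + dir j, fun b => h (iff_of_true a b), by rw [← e, add_comm]⟩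
    · exact ⟨v + dir j, by_contra fun b => h (iff_of_false a b), v, a, e.symm⟩
  obtain ⟨a, ha, b, hb, e⟩ := val v j h
  obtain ⟨a', ha', b', hb', e'⟩ := val v' j' h'
  rw [e, e', cin ha ha', cout hb hb']

theorem level {V : Finset Pt} (hV : SimplyConn V) {f t : Pt} (hf : IsRoot V f) (ht : IsRoot V t)
    (P : Pt → Prop) (h0 : ¬ P f) (h1 : P t) : ∃ v j, Bd V v j ∧ ¬ (P (t1 v j) ↔ P (t2 v j)) := by
  classical
  by_contra hno
  push Not at hno
  have hc : ∀ v j, Bd V v j → (if P (t1 v j) then (1 : ZMod 2) else 0) =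
      if P (t2 v j) then 1 else 0 := fun v j h => by simp only [hno v j h]
  obtain ⟨v, j, h, e⟩ := root_side hf
  obtain ⟨v', j', h', e'⟩ := root_side ht
  have a : ¬ P (t1 v j) := by
    rcases e with rfl | rfl
    · exact h0
    · exact fun c => h0 ((hno v j h).1 c)
  have b : P (t1 v' j') := by
    rcases e' with rfl | rfl
    · exact h1
    · exact (hno v' j' h').2 h1
  have := cocycle hV (fun x => if P x then 1 else 0) hc h h'
  simp only [a, b, if_true, if_false] at this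
  exact zero_ne_one this

end Bdry

open Bdry in
theorem bdry : BdryStmt := by
  intro V f hV hf F h0 hin t ht
  obtain ⟨S, hS⟩ : ∃ S : Pt × Fin 3 → Set ℝ, ∀ x, S x = if x.1 + dir x.2 ∈ V then ∅ else
      Set.Ico (min |F (t1 x.1 x.2)| |F (t2 x.1 x.2)|) (max |F (t1 x.1 x.2)| |F (t2 x.1 x.2)|) :=
    ⟨_, fun _ => rfl⟩
  have hcov : Set.Ico 0 |F t| ⊆ ⋃ x ∈ V ×ˢ (univ : Finset (Fin 3)), S x := by
    intro l hl
    obtain ⟨v, j, h, e⟩ := level hV hf ht (fun x => l < |F x|)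
      (by rw [h0, abs_zero]; exact not_lt.2 hl.1) hl.2
    have hv : v ∈ V := by
      by_contra a
      have b : v + dir j ∈ V := by_contra fun b => h (iff_of_false a b)
      have : F (t1 v j) = -F (t2 v j) := eq_neg_of_add_eq_zero_left (hin v a j b)
      exact e (by rw [this, abs_neg])
    have hw : v + dir j ∉ V := fun b => h (iff_of_true hv b)
    refine Set.mem_iUnion₂.2 ⟨(v, j), mem_product.2 ⟨hv, mem_univ _⟩, ?_⟩
    rw [hS, if_neg hw, Set.mem_Ico, min_le_iff, lt_max_iff]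
    by_cases a : l < |F (t1 v j)|
    · exact ⟨Or.inr (not_lt.1 fun b => e (iff_of_true a b)), Or.inl a⟩
    · exact ⟨Or.inl (not_lt.1 a), Or.inr (by_contra fun b => e (iff_of_false a b))⟩
  have hfin : volume (⋃ x ∈ V ×ˢ (univ : Finset (Fin 3)), S x) ≠ ⊤ := by
    refine ((measure_biUnion_finset_le _ _).trans_lt (ENNReal.sum_lt_top.2 fun x _ => ?_)).ne
    rw [hS]
    split_ifs
    · simp
    · exact measure_Ico_lt_top
  have h1 := (measureReal_mono hcov hfin).trans (measureReal_biUnion_finset_le _ _)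
  rw [Real.volume_real_Ico_of_le (abs_nonneg _), sub_zero, sum_product] at h1
  refine h1.trans (sum_le_sum fun v _ => sum_le_sum fun j _ => ?_)
  rw [hS]
  split_ifs
  · simp
  · rw [Real.volume_real_Ico_of_le min_le_max, max_sub_min_eq_abs, abs_sub_comm]
    have := abs_abs_sub_abs_le_abs_sub (F (t1 v j)) (-F (t2 v j))
    rwa [abs_neg, sub_neg_eq_add] at this

end Pool.Agent.Lib.MP_60c5b4_pr.H
end

-- part Pool.Agent.Lib.MP_60c5b4_pr.H.Param
section

/-!
The two-sided parametrix of the inverse Kasteleyn matrix.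
-/

namespace Pool.Agent.Lib.MP_60c5b4_pr.H

open Finset

namespace Param

/-- The cutoff function. -/
noncomputable def cut (p : Pt) (N : ℕ) (q : Pt) : ℝ := max 0 (min 1 ((3 * N - ‖q - p‖) / N))

variable {p : Pt} {N : ℕ}

theorem cut_abs (q : Pt) : |cut p N q| ≤ 1 := by
  rw [cut, abs_of_nonneg (le_max_left _ _)]
  exact max_le zero_le_one (min_le_left _ _)

theorem cut_one (hN : 1 ≤ N) {q : Pt} (h : ‖q - p‖ ≤ 2 * N) : cut p N q = 1 := by
  have h0 : (0 : ℝ) < N := by exact_mod_cast hN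
  rw [cut, min_eq_left ((one_le_div h0).2 (by linarith)), max_eq_right zero_le_one]

theorem cut_zero {q : Pt} (h : 3 * N ≤ ‖q - p‖) : cut p N q = 0 :=
  max_eq_left ((min_le_right _ _).trans
    (div_nonpos_of_nonpos_of_nonneg (by linarith) (Nat.cast_nonneg N)))

theorem near (w s c : Pt) (hs : ‖s‖ ≤ 1) : |‖w + s - c‖ - ‖w - c‖| ≤ 1 :=
  (abs_norm_sub_norm_le _ _).trans (by rwa [show w + s - c - (w - c) = s by abel])

theorem cut_lip (hN : 1 ≤ N) (w s : Pt) (hs : ‖s‖ ≤ 1) :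
    |cut p N (w + s) - cut p N w| ≤ 1 / N := by
  have h0 : (0 : ℝ) < N := by exact_mod_cast hN
  have h1 : |(3 * N - ‖w + s - p‖) / N - (3 * N - ‖w - p‖) / N| ≤ 1 / N := by
    rw [← sub_div, abs_div, abs_of_pos h0, sub_sub_sub_cancel_left, abs_sub_comm]
    exact div_le_div_of_nonneg_right (near w s p hs) h0.le
  have h2 : (0 : ℝ) ≤ 1 / N := by positivity
  unfold cut
  generalize (3 * N - ‖w + s - p‖) / (N : ℝ) = x at h1
  generalize (3 * N - ‖w - p‖) / (N : ℝ) = y at h1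
  rw [abs_le] at h1 ⊢
  simp only [max_def, min_def]
  split_ifs <;> constructor <;> linarith [h1.1, h1.2]

theorem not_mem_box {q : Pt} {R : ℕ} (h : q ∉ box p R) : (R : ℝ) + 1 ≤ ‖q - p‖ := by
  rw [mem_box, not_le, norm_eq_nn] at h
  rw [norm_eq_nn]
  exact_mod_cast h

theorem add_mem (hN : 1 ≤ N) {w s : Pt} (hw : w ∈ box p (3 * N)) (hs : ‖s‖ ≤ 1) :
    w + s ∈ box p (4 * N) := by
  have h0 : (1 : ℝ) ≤ N := by exact_mod_cast hN
  have h1 := (abs_le.1 (near w s p hs)).2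
  rw [mem_box] at hw ⊢
  push_cast at hw ⊢
  linarith

theorem dist_le {q c : Pt} {R R' : ℕ} (hq : q ∈ box p R) (hc : c ∈ box p R') :
    ‖q - c‖ ≤ R + R' := by
  have := norm_sub_le_norm_sub_add_norm_sub q p c
  rw [norm_sub_rev p c] at this
  linarith [mem_box.1 hq, mem_box.1 hc]

theorem sum_shift (hN : 1 ≤ N) {f : Pt → ℝ} (hf : ∀ x ∉ box p (3 * N), f x = 0) {s : Pt}
    (hs : ‖s‖ ≤ 1) : ∑ w ∈ box p (4 * N), f (w + s) = ∑ x ∈ box p (3 * N), f x := by
  have h1 : ∑ w ∈ (box p (3 * N)).image (· - s), f (w + s) = ∑ x ∈ box p (3 * N), f x := by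
    rw [sum_image fun _ _ _ _ h => sub_left_injective h]
    simp
  rw [← h1]
  refine (sum_subset (fun w hw => ?_) fun w _ hw => hf _ fun h => hw ?_).symm
  · obtain ⟨x, hx, rfl⟩ := mem_image.1 hw
    rw [sub_eq_add_neg]
    exact add_mem hN hx (by rwa [norm_neg])
  · exact mem_image.2 ⟨_, h, add_sub_cancel_right _ _⟩

/-- The weight `16 N / (1 + ‖w - c‖)`. -/
noncomputable def wt (N : ℕ) (c w : Pt) : ℝ := 16 * N / (1 + ‖w - c‖)

theorem wt_nonneg (c w : Pt) : 0 ≤ wt N c w := by unfold wt; positivity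

theorem one_le_wt (hN : 1 ≤ N) {c w : Pt} (hc : c ∈ box p N) (hw : w ∈ box p (4 * N)) :
    1 ≤ wt N c w := by
  have h0 : (1 : ℝ) ≤ N := by exact_mod_cast hN
  have := dist_le hw hc
  push_cast at this
  exact (one_le_div (by positivity)).2 (by linarith)

theorem sum_wt (hN : 1 ≤ N) {c : Pt} (hc : c ∈ box p N) {s : ℝ} (h1 : 1 ≤ s) (h2 : s < 2) :
    ∑ w ∈ box p (4 * N), wt N c w ^ s ≤ 8 * (16 * N) ^ 2 / (2 - s) := by
  have h0 : (1 : ℝ) ≤ N := by exact_mod_cast hN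
  have h3 := sum_ball_rpow_le s h1 h2 c (5 * N) (box p (4 * N)) fun u hu => by
    have := dist_le hu hc
    push_cast at this ⊢
    linarith
  have h4 : ∀ w, wt N c w ^ s = (16 * N : ℝ) ^ s * (1 + ‖w - c‖) ^ (-s) := fun w => by
    rw [wt, Real.div_rpow (by positivity) (by positivity), Real.rpow_neg (by positivity),
      div_eq_mul_inv]
  have h5 : (((5 * N : ℕ) : ℝ) + 1) ^ (2 - s) ≤ (16 * N : ℝ) ^ (2 - s) :=
    Real.rpow_le_rpow (by positivity) (by push_cast; linarith) (by linarith)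
  have h6 : (16 * N : ℝ) ^ s * (16 * N : ℝ) ^ (2 - s) = (16 * N) ^ 2 := by
    rw [← Real.rpow_add (by positivity), add_sub_cancel, Real.rpow_two]
  have h7 : 0 < 2 - s := by linarith
  simp only [h4, ← mul_sum]
  calc _ ≤ (16 * N : ℝ) ^ s * (8 * (16 * N : ℝ) ^ (2 - s) / (2 - s)) := by
        refine mul_le_mul_of_nonneg_left (h3.trans ?_) (by positivity)
        gcongr
    _ = _ := by rw [← h6]; ring

theorem mul_sqrt_le {x y : ℝ} (hx : 0 ≤ x) (hy : 0 ≤ y) :
    x * √y ≤ x ^ (3 / 2 : ℝ) + y ^ (3 / 2 : ℝ) := by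
  have h : ∀ {z : ℝ}, 0 ≤ z → z ^ (3 / 2 : ℝ) = z * √z := fun {z} hz => by
    rw [Real.sqrt_eq_rpow, show (3 / 2 : ℝ) = 1 + 1 / 2 by norm_num,
      Real.rpow_add' hz (by norm_num), Real.rpow_one]
  rw [h hx, h hy]
  rcases le_total x y with h1 | h1
  · have := mul_le_mul_of_nonneg_right h1 (Real.sqrt_nonneg y)
    have := mul_nonneg hx (Real.sqrt_nonneg x)
    linarith
  · have := mul_le_mul_of_nonneg_left (Real.sqrt_le_sqrt h1) hx
    have := mul_nonneg hy (Real.sqrt_nonneg y)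
    linarith

/-- The error of the truncated parametrix. -/
theorem half (hN : 1 ≤ N) {c : Pt} (hc : c ∈ box p N) {s : Fin 3 → Pt} (hs : ∀ j, ‖s j‖ ≤ 1)
    {α : Pt → Fin 3 → ℝ} {q β : Pt → ℝ} {M C : ℝ} (hM : 0 ≤ M) (hC : 0 ≤ C)
    (h1 : ∀ w ∈ box p (3 * N), ∑ j, α w j * q (w + s j) =
      (if w = c then 1 else 0) - ∑ j, (α w j - 1) * β (w + s j))
    (h2 : ∀ w ∈ box p (3 * N), ∀ j, |α w j - 1| ≤ M / N)
    (h3 : ∀ x ∈ box p (4 * N), |q x| ≤ C / (1 + ‖x - c‖))
    (h4 : ∀ x ∈ box p (4 * N), |β x| ≤ C * (M / N) * √(8 * N / (1 + ‖x - c‖))) {w : Pt}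
    (hw : w ∈ box p (4 * N)) :
    |∑ j, α w j * (cut p N (w + s j) * q (w + s j)) - if w = c then 1 else 0| ≤
      3 * C * (M ^ 2 + M + 1) / N ^ 2 * √(wt N c w) := by
  have h0 : (1 : ℝ) ≤ N := by exact_mod_cast hN
  have hc' := mem_box.1 hc
  by_cases hw3 : w ∈ box p (3 * N)
  swap
  · have h5 := not_mem_box hw3
    push_cast at h5
    rw [if_neg (by rintro rfl; linarith), sum_eq_zero fun j _ => by
      rw [cut_zero (by linarith [(abs_le.1 (near w (s j) p (hs j))).1]), zero_mul, mul_zero]]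
    simp only [sub_self, abs_zero]
    positivity
  have h5 : (∑ j, α w j * (cut p N (w + s j) * q (w + s j)) - if w = c then 1 else 0) =
      ∑ j, (α w j * (cut p N (w + s j) - cut p N w) * q (w + s j) -
        cut p N w * ((α w j - 1) * β (w + s j))) := by
    have h6 : (if w = c then (1 : ℝ) else 0) = cut p N w * if w = c then 1 else 0 := by
      split_ifs with h
      · rw [h, cut_one hN (by linarith), one_mul]
      · rw [mul_zero]
    rw [h6, ← sub_add_cancel (if w = c then (1 : ℝ) else 0) (∑ j, (α w j - 1) * β (w + s j)),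
      ← h1 w hw3]
    simp only [Fin.sum_univ_three]
    ring
  have h6 : 1 ≤ √(wt N c w) := Real.one_le_sqrt.2 (one_le_wt hN hc hw)
  have h7 : ∀ j, |α w j * (cut p N (w + s j) - cut p N w) * q (w + s j) -
      cut p N w * ((α w j - 1) * β (w + s j))| ≤ C * (M ^ 2 + M + 1) / N ^ 2 * √(wt N c w) := by
    intro j
    have hx := add_mem hN hw3 (hs j)
    have k1 : |α w j| ≤ M + 1 := by
      have := abs_le.1 ((h2 w hw3 j).trans (div_le_self hM h0))
      exact abs_le.2 ⟨by linarith, by linarith⟩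
    have k2 : |(cut p N (w + s j) - cut p N w) * q (w + s j)| ≤ 1 / N * (C / N) := by
      by_cases h : ‖w + s j - p‖ ≤ 2 * N - 1
      · rw [cut_one hN (by linarith), cut_one hN
          (by linarith [(abs_le.1 (near w (s j) p (hs j))).1]), sub_self, zero_mul, abs_zero]
        positivity
      · rw [abs_mul]
        refine mul_le_mul (cut_lip hN w _ (hs j)) ((h3 _ hx).trans ?_) (abs_nonneg _)
          (by positivity)
        have := norm_sub_le_norm_sub_add_norm_sub (w + s j) c p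
        exact div_le_div_of_nonneg_left hC (by positivity) (by linarith)
    have k3 : |β (w + s j)| ≤ C * (M / N) * √(wt N c w) := by
      refine (h4 _ hx).trans (mul_le_mul_of_nonneg_left (Real.sqrt_le_sqrt ?_) (by positivity))
      have := (abs_le.1 (near w (s j) c (hs j))).1
      have := norm_nonneg (w + s j - c)
      rw [wt, div_le_div_iff₀ (by positivity) (by positivity)]
      nlinarith
    have k4 : |α w j * (cut p N (w + s j) - cut p N w) * q (w + s j)| ≤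
        (M + 1) * (1 / N * (C / N)) * √(wt N c w) := by
      rw [mul_assoc, abs_mul]
      exact (mul_le_mul k1 k2 (abs_nonneg _) (by positivity)).trans
        (le_mul_of_one_le_right (by positivity) h6)
    have k5 : |cut p N w * ((α w j - 1) * β (w + s j))| ≤
        1 * (M / N * (C * (M / N) * √(wt N c w))) := by
      rw [abs_mul, abs_mul]
      exact mul_le_mul (cut_abs w) (mul_le_mul (h2 w hw3 j) k3 (abs_nonneg _) (by positivity))
        (by positivity) zero_le_one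
    refine (abs_sub _ _).trans ((add_le_add k4 k5).trans_eq ?_)
    ring
  rw [h5]
  refine (abs_sum_le_sum_abs _ _).trans ((sum_le_sum fun j _ => h7 j).trans_eq ?_)
  simp only [Fin.sum_univ_three]
  ring

variable {A : Pt → ℝ} {C₀ : ℝ} {a : Pt → Fin 3 → ℝ} {U : Finset Pt}

theorem born_right (hA : KerSpec A C₀) {w : Pt} (hw : ∀ j, w + eps j ∈ U) (w' : Pt) :
    ∑ j, born A a U (w + eps j) w' = ∑ j, (a (w + eps j) j - 1) * A (w + eps j - w') := by
  unfold born
  rw [sum_comm]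
  simp only [sum_comm (s := univ) (t := univ) (f := fun j i =>
    A (w + eps j - _ + eps i) * (a _ i - 1) * A (_ - w'))]
  rw [sum_comm]
  refine sum_congr rfl fun i _ => ?_
  have h : ∀ u, ∑ j, A (w + eps j - u + eps i) * (a u i - 1) * A (u - w') =
      if u = w + eps i then (a u i - 1) * A (u - w') else 0 := fun u => by
    simp only [show ∀ j, w + eps j - u + eps i = w + eps i - u + eps j from fun j => by abel,
      ← sum_mul, hA.sum, sub_eq_zero, eq_comm (a := u)]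
    split_ifs <;> simp
  simp only [h, sum_ite_eq', if_pos (hw i)]

theorem born_left (hA : KerSpec A C₀) {b' : Pt} (hb : b' ∈ U) (b : Pt) :
    ∑ j, born A a U b (b' + -eps j) = ∑ j, (a b' j - 1) * A (b - (b' + -eps j)) := by
  unfold born
  rw [sum_comm]
  have h : ∀ u, ∑ j, ∑ i, A (b - u + eps i) * (a u i - 1) * A (u - (b' + -eps j)) =
      if u = b' then ∑ i, A (b - u + eps i) * (a u i - 1) else 0 := fun u => by
    simp only [show ∀ j, u - (b' + -eps j) = u - b' + eps j from fun j => by abel,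
      ← sum_mul, ← mul_sum, hA.sum, sub_eq_zero]
    split_ifs <;> simp
  simp only [h, sum_ite_eq', if_pos hb]
  exact sum_congr rfl fun j _ => by rw [mul_comm, show b - (b' + -eps j) = b - b' + eps j by abel]

variable {W B : Finset Pt} {G : Pt → Pt → ℝ}

theorem inv_left (hN : 1 ≤ N) (hG : IsInv W B a G) (hB : ∀ q ∈ box p (3 * N), q ∈ B) {F : Pt → ℝ}
    (hF : ∀ x ∉ box p (3 * N), F x = 0) (b : Pt) :
    ∑ w ∈ box p (4 * N), G b w * ∑ j, a (w + eps j) j * F (w + eps j) = F b := by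
  simp only [mul_sum]
  rw [sum_comm]
  have h : ∀ j, ∑ w ∈ box p (4 * N), G b w * (a (w + eps j) j * F (w + eps j)) =
      ∑ x ∈ box p (3 * N), G b (x - eps j) * a x j * F x := fun j => by
    rw [← sum_shift hN (fun x hx => by rw [hF x hx, mul_zero]) (norm_eps j)]
    exact sum_congr rfl fun w _ => by rw [add_sub_cancel_right, mul_assoc]
  simp only [h]
  rw [sum_comm, sum_congr rfl fun x hx => by rw [← sum_mul, hG.left b x (hB x hx)]]
  simp only [ite_mul, one_mul, zero_mul, sum_ite_eq]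
  split_ifs with h
  exacts [rfl, (hF b h).symm]

theorem inv_right (hN : 1 ≤ N) (hG : IsInv W B a G) (hW : ∀ q ∈ box p (3 * N), q ∈ W)
    {F : Pt → ℝ} (hF : ∀ x ∉ box p (3 * N), F x = 0) (w : Pt) :
    ∑ b ∈ box p (4 * N), (∑ j, a b j * F (b + -eps j)) * G b w = F w := by
  simp only [sum_mul]
  rw [sum_comm]
  have h : ∀ j, ∑ b ∈ box p (4 * N), a b j * F (b + -eps j) * G b w =
      ∑ x ∈ box p (3 * N), a (x + eps j) j * G (x + eps j) w * F x := fun j => by
    rw [← sum_shift hN (fun x hx => by rw [hF x hx, mul_zero]) (s := -eps j)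
      (by rw [norm_neg]; exact norm_eps j)]
    exact sum_congr rfl fun b _ => by rw [neg_add_cancel_right, mul_right_comm]
  simp only [h]
  rw [sum_comm, sum_congr rfl fun x hx => by rw [← sum_mul, hG.right x (hW x hx) w]]
  simp only [ite_mul, one_mul, zero_mul, sum_ite_eq']
  split_ifs with h
  exacts [rfl, (hF w h).symm]

theorem sum_sq_le (hN : 1 ≤ N) {c : Pt} (hc : c ∈ box p N) {E : Pt → ℝ} {K : ℝ}
    (hE : ∀ w ∈ box p (4 * N), |E w| ≤ K / N ^ 2 * √(wt N c w)) :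
    ∑ w ∈ box p (4 * N), E w ^ 2 ≤ 2048 * K ^ 2 / N ^ 2 := by
  have h0 : (0 : ℝ) < N := by exact_mod_cast hN
  have h1 := sum_wt hN hc le_rfl one_lt_two
  simp only [Real.rpow_one] at h1
  calc _ ≤ ∑ w ∈ box p (4 * N), (K / N ^ 2) ^ 2 * wt N c w := sum_le_sum fun w hw => by
        have := pow_le_pow_left₀ (abs_nonneg _) (hE w hw) 2
        rwa [sq_abs, mul_pow, Real.sq_sqrt (wt_nonneg c w)] at this
    _ ≤ (K / N ^ 2) ^ 2 * (8 * (16 * N) ^ 2 / (2 - 1)) := by
        rw [← mul_sum]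
        exact mul_le_mul_of_nonneg_left h1 (sq_nonneg _)
    _ = _ := by field_simp; ring

theorem sum_mul_le (hN : 1 ≤ N) {c c' : Pt} (hc : c ∈ box p N) (hc' : c' ∈ box p N)
    {E F : Pt → ℝ} {K C : ℝ} (hK : 0 ≤ K) (hC : 0 ≤ C)
    (hE : ∀ w ∈ box p (4 * N), |E w| ≤ K / N ^ 2 * √(wt N c w))
    (hF : ∀ w ∈ box p (4 * N), |F w| ≤ C / (1 + ‖w - c'‖)) :
    |∑ w ∈ box p (4 * N), F w * E w| ≤ 512 * C * K / N := by
  have h0 : (0 : ℝ) < N := by exact_mod_cast hN
  have h1 := sum_wt hN hc (s := 3 / 2) (by norm_num) (by norm_num)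
  have h2 := sum_wt hN hc' (s := 3 / 2) (by norm_num) (by norm_num)
  calc _ ≤ ∑ w ∈ box p (4 * N), C * K / (16 * N ^ 3) *
          (wt N c' w ^ (3 / 2 : ℝ) + wt N c w ^ (3 / 2 : ℝ)) := by
        refine (abs_sum_le_sum_abs _ _).trans (sum_le_sum fun w hw => ?_)
        rw [abs_mul]
        refine (mul_le_mul (hF w hw) (hE w hw) (abs_nonneg _) (by positivity)).trans
          (le_trans (le_of_eq ?_) (mul_le_mul_of_nonneg_left
            (mul_sqrt_le (wt_nonneg c' w) (wt_nonneg c w)) (by positivity)))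
        rw [wt, wt]
        field_simp
    _ ≤ C * K / (16 * N ^ 3) * (8 * (16 * N) ^ 2 / (2 - 3 / 2) +
          8 * (16 * N) ^ 2 / (2 - 3 / 2)) := by
        rw [← mul_sum, sum_add_distrib]
        exact mul_le_mul_of_nonneg_left (add_le_add h2 h1) (by positivity)
    _ = _ := by field_simp; ring

end Param

open Param in
theorem param (h : BornStmt) : ParamStmt := by
  intro A C₀ hA M₀ C₁
  obtain ⟨C₂, hC₂, hB⟩ := h A C₀ hA
  have hC₀ : 0 ≤ C₀ := by simpa using (abs_nonneg _).trans (hA.bound 0)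
  obtain ⟨M, hM, hM₀⟩ : ∃ M, 0 ≤ M ∧ M₀ ≤ M := ⟨|M₀|, abs_nonneg _, le_abs_self _⟩
  obtain ⟨C, hC, c1, c2⟩ : ∃ C, 0 ≤ C ∧ C₀ + 8 * C₂ * M ≤ C ∧ C₂ ≤ C :=
    ⟨C₀ + 8 * C₂ * M + C₂, by positivity, by linarith, le_add_of_nonneg_left (by positivity)⟩
  obtain ⟨K, hK⟩ : ∃ K, K = 3 * C * (M ^ 2 + M + 1) := ⟨_, rfl⟩
  have hK0 : 0 ≤ K := by rw [hK]; positivity
  refine ⟨512 * C * K + 2048 * K ^ 2 * |C₁|, fun W B a G p N hN hG hWB ha hL b₀ hb₀ w₀ hw₀ => ?_⟩
  have h0 : (1 : ℝ) ≤ N := by exact_mod_cast hN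
  have ha' : ∀ b ∈ box p (4 * N), ∀ j, |a b j - 1| ≤ M / N := fun b hb j =>
    (ha b hb j).trans (div_le_div_of_nonneg_right hM₀ (by positivity))
  have s34 : box p (3 * N) ⊆ box p (4 * N) := box_mono p (by omega)
  have s14 : box p N ⊆ box p (4 * N) := box_mono p (by omega)
  have key : ∀ b ∈ box p (4 * N), ∀ w ∈ box p (4 * N), ‖b - w‖ ≤ 5 * N →
      |born A a (box p (4 * N)) b w| ≤ C * (M / N) * √(8 * N / (1 + ‖b - w‖)) ∧
      |A (b - w) - born A a (box p (4 * N)) b w| ≤ C / (1 + ‖b - w‖) := by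
    intro b hb w hw hd
    have k0 : (1 : ℝ) ≤ 8 * N / (1 + ‖b - w‖) := (one_le_div (by positivity)).2 (by linarith)
    have k1 := hB a (box p (4 * N)) b w (M / N) (8 * N) (by linarith) (by positivity)
      fun u hu => ⟨by have := dist_le hu hb; push_cast at this; linarith,
        by have := dist_le hu hw; push_cast at this; linarith, ha' u hu⟩
    constructor
    · refine k1.trans (mul_le_mul (mul_le_mul_of_nonneg_right c2 (by positivity)) ?_
        (by positivity) (by positivity))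
      rw [Real.sqrt_eq_rpow]
      exact Real.rpow_le_rpow_of_exponent_le k0 (by norm_num)
    · have k2 := Real.rpow_le_rpow_of_exponent_le k0 (show (1 / 4 : ℝ) ≤ 1 by norm_num)
      rw [Real.rpow_one] at k2
      refine (abs_sub _ _).trans ((add_le_add (hA.bound _) (k1.trans
        (mul_le_mul_of_nonneg_left k2 (by positivity)))).trans (le_trans (le_of_eq ?_)
          (div_le_div_of_nonneg_right c1 (by positivity))))
      field_simp
  have d1 : ∀ x ∈ box p (4 * N), ∀ c ∈ box p N, ‖x - c‖ ≤ 5 * N := fun x hx c hc => by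
    have := dist_le hx hc
    push_cast at this
    linarith
  have key' := fun w hw => key b₀ (s14 hb₀) w hw (by rw [norm_sub_rev]; exact d1 w hw b₀ hb₀)
  simp only [norm_sub_rev b₀] at key'
  obtain ⟨Q, hQ⟩ : ∃ Q : Pt → Pt → ℝ, Q = fun b w => A (b - w) - born A a (box p (4 * N)) b w :=
    ⟨_, rfl⟩
  have hz : ∀ x ∉ box p (3 * N), cut p N x = 0 := fun x hx =>
    cut_zero (by have := not_mem_box hx; push_cast at this; linarith)
  have hE := fun w hw => half hN hw₀ norm_eps (α := fun w j => a (w + eps j) j)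
    (q := fun b => Q b w₀) (β := fun b => born A a (box p (4 * N)) b w₀) hM hC
    (fun w hw => by
      have e1 := born_right (a := a) hA (fun j => add_mem hN hw (norm_eps j)) w₀
      have e2 := hA.sum (w - w₀)
      simp only [sub_eq_zero, sub_add_eq_add_sub] at e2
      simp only [hQ, ← e2, Fin.sum_univ_three] at e1 ⊢
      linear_combination -e1)
    (fun w hw j => ha' _ (add_mem hN hw (norm_eps j)) j)
    (fun x hx => hQ ▸ (key x hx w₀ (s14 hw₀) (d1 x hx w₀ hw₀)).2)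
    (fun x hx => (key x hx w₀ (s14 hw₀) (d1 x hx w₀ hw₀)).1) (w := w) hw
  have hE' := fun b hb => half hN hb₀ (s := fun j => -eps j)
    (fun j => by rw [norm_neg]; exact norm_eps j) (α := a)
    (q := fun w => Q b₀ w) (β := fun w => born A a (box p (4 * N)) b₀ w) hM hC
    (fun b hb => by
      have e1 := born_left (a := a) hA (s34 hb) b₀
      have e2 := hA.sum (b₀ - b)
      simp only [sub_eq_zero, eq_comm (a := b₀),
        show ∀ j, b₀ - b + eps j = b₀ - (b + -eps j) from fun j => by abel] at e2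
      simp only [hQ, ← e2, Fin.sum_univ_three] at e1 ⊢
      linear_combination -e1)
    (fun b hb j => ha' _ (s34 hb) j) (fun x hx => hQ ▸ (key' x hx).2)
    (fun x hx => (key' x hx).1) (w := b) hb
  rw [← hK] at hE hE'
  have i1 := inv_left hN hG (fun q hq => (hWB q (box_mono p (by omega) hq)).2)
    (F := fun b => cut p N b * Q b w₀) (fun x hx => by rw [hz x hx, zero_mul]) b₀
  have i2 := inv_right hN hG (fun q hq => (hWB q (box_mono p (by omega) hq)).1)
    (F := fun w => cut p N w * Q b₀ w) fun x hx => by rw [hz x hx, zero_mul]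
  obtain ⟨E, hEd⟩ : ∃ E : Pt → ℝ, ∀ w, E w = ∑ j, a (w + eps j) j *
    (cut p N (w + eps j) * Q (w + eps j) w₀) - if w = w₀ then 1 else 0 := ⟨_, fun _ => rfl⟩
  obtain ⟨E', hEd'⟩ : ∃ E' : Pt → ℝ, ∀ b, E' b = ∑ j, a b j *
    (cut p N (b + -eps j) * Q b₀ (b + -eps j)) - if b = b₀ then 1 else 0 := ⟨_, fun _ => rfl⟩
  simp only [← hEd] at hE
  simp only [← hEd'] at hE'
  have hS := fun w => eq_add_of_sub_eq (hEd w).symm
  have hS' := fun b => eq_add_of_sub_eq (hEd' b).symm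
  simp only [hS, mul_add, sum_add_distrib, mul_ite, mul_one, mul_zero,
    sum_ite_eq', if_pos (s14 hw₀)] at i1
  simp only [hS', add_mul, sum_add_distrib, ite_mul, one_mul,
    zero_mul, sum_ite_eq', if_pos (s14 hb₀)] at i2
  rw [cut_one hN (by linarith [mem_box.1 hb₀]), one_mul] at i1
  have e : G b₀ w₀ - A (b₀ - w₀) + born A a (box p (4 * N)) b₀ w₀ =
      ∑ b ∈ box p (4 * N), E' b * ∑ w ∈ box p (4 * N), G b w * E w -
        ∑ w ∈ box p (4 * N), cut p N w * Q b₀ w * E w := by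
    simp only [← i2, add_mul, sum_add_distrib, mul_sum, sum_mul, mul_assoc]
    rw [sum_comm]
    simp only [hQ] at i1
    linarith
  have b1 := sum_mul_le hN hw₀ hb₀ hK0 hC hE (F := fun w => cut p N w * Q b₀ w) fun w hw => by
    rw [abs_mul]
    exact (mul_le_of_le_one_left (abs_nonneg _) (cut_abs w)).trans (hQ ▸ (key' w hw).2)
  have b2 : |∑ b ∈ box p (4 * N), E' b * ∑ w ∈ box p (4 * N), G b w * E w| ≤
      2048 * K ^ 2 * |C₁| / N := by
    refine abs_le_of_sq_le_sq ((sum_mul_sq_le_sq_mul_sq _ _ _).trans ((mul_le_mul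
      (sum_sq_le hN hb₀ hE') ((hL E).trans (mul_le_mul_of_nonneg_left (sum_sq_le hN hw₀ hE)
        (sq_nonneg _))) (sum_nonneg fun _ _ => sq_nonneg _) (by positivity)).trans_eq ?_))
      (by positivity)
    rw [div_pow, mul_pow _ |C₁|, sq_abs]
    field_simp
  rw [e, add_div]
  exact (abs_sub _ _).trans (by linarith)

end Pool.Agent.Lib.MP_60c5b4_pr.H
end
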