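import Pool.Agent.Lib.MP_60c5b4_pr.H.Sign

-- part Pool.Agent.Lib.MP_60c5b4_pr.H.Green
section

/-!
The discrete Green identity and its consequences for the row kernel and the height increments.
-/

namespace Pool.Agent.Lib.MP_60c5b4_pr.H

open Finset

namespace Green

/-! ### Sums over integers -/

theorem tele (f : ℤ → ℝ) {a b : ℤ} (h : a ≤ b) :
    ∑ x ∈ Ioc a b, (f x - f (x - 1)) = f b - f a := by
  induction b, h using Int.leInduction with
  | base => simp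
  | succ n hn ih =>
    rw [← insert_Ioc_right_eq_Ioc_add_one hn, sum_insert (by simp), ih, add_sub_cancel_right]
    ring

theorem shell (F : ℝ → ℝ) (hF : ∀ d : ℕ, 0 ≤ F d) (S : Finset ℤ) (c : ℤ) (R : ℕ)
    (hS : ∀ y ∈ S, |y - c| < R) :
    ∑ y ∈ S, F ((|y - c| : ℤ) : ℝ) ≤ 2 * ∑ d ∈ range R, F d := by
  rw [← sum_fiberwise_of_maps_to (g := fun y => (y - c).natAbs) (t := range R) fun y hy => by
    have := hS y hy
    rw [Int.abs_eq_natAbs] at this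
    exact mem_range.2 (by omega), mul_sum]
  refine sum_le_sum fun d _ => ?_
  refine (sum_le_card_nsmul _ _ (F d) fun y hy => ?_).trans ?_
  · rw [← (mem_filter.1 hy).2, Int.abs_eq_natAbs, Int.cast_natCast]
  · rw [nsmul_eq_mul]
    refine mul_le_mul_of_nonneg_right ?_ (hF d)
    have h1 : S.filter (fun y => (y - c).natAbs = d) ⊆ {c + d, c - d} := fun y hy => by
      have := (mem_filter.1 hy).2
      simp only [mem_insert, mem_singleton]
      omega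
    exact_mod_cast (card_le_card h1).trans card_le_two

theorem tail (c : ℝ) (hc : 0 < c) (n : ℕ) :
    ∑ d ∈ range n, 1 / (c + d + 1) ^ 2 ≤ 1 / c - 1 / (c + n) := by
  induction n with
  | zero => simp
  | succ n ih =>
    rw [sum_range_succ]
    have h1 : 0 < c + n := by positivity
    have h2 : 1 / (c + n + 1) ^ 2 ≤ 1 / (c + n) - 1 / (c + n + 1) := by
      rw [div_sub_div _ _ h1.ne' (by positivity), div_le_div_iff₀ (by positivity) (by positivity)]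
      nlinarith
    push_cast
    rw [← add_assoc]
    linarith

theorem sum_sq_le (c : ℝ) (hc : 0 < c) (S : Finset ℤ) (y₀ : ℤ) :
    ∑ y ∈ S, 1 / (c + ((|y - y₀| : ℤ) : ℝ) + 1) ^ 2 ≤ 2 / c := by
  refine (shell (fun d => 1 / (c + d + 1) ^ 2) (fun d => by positivity) S y₀
    (S.sup (fun y => (y - y₀).natAbs) + 1) fun y hy => ?_).trans ?_
  · have := le_sup (f := fun y => (y - y₀).natAbs) hy
    rw [Int.abs_eq_natAbs]
    omega
  · generalize S.sup (fun y => (y - y₀).natAbs) + 1 = n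
    have h1 := tail c hc n
    have h2 : 0 ≤ 1 / (c + n) := by positivity
    rw [div_eq_mul_one_div 2 c]
    linarith

theorem sum_sqrt (n : ℕ) : ∑ d ∈ range n, 1 / √(1 + (d : ℝ)) ≤ 2 * √n := by
  induction n with
  | zero => simp
  | succ n ih =>
    rw [sum_range_succ]
    push_cast
    rw [add_comm (n : ℝ) 1]
    have hB : 0 < √(1 + (n : ℝ)) := by positivity
    have h1 : 1 / √(1 + (n : ℝ)) ≤ 2 * √(1 + (n : ℝ)) - 2 * √n := by
      rw [div_le_iff₀ hB]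
      nlinarith [Real.mul_self_sqrt (show (0 : ℝ) ≤ 1 + n by positivity),
        Real.mul_self_sqrt (show (0 : ℝ) ≤ n by positivity), sq_nonneg (√(1 + (n : ℝ)) - √n)]
    linarith

theorem sum_sqrt_le (S : Finset ℤ) (y₀ : ℤ) (R : ℕ) (hS : ∀ y ∈ S, |y - y₀| < R) :
    ∑ y ∈ S, 1 / √(1 + ((|y - y₀| : ℤ) : ℝ)) ≤ 4 * √R := by
  have := shell (fun d => 1 / √(1 + d)) (fun d => by positivity) S y₀ R hS
  linarith [sum_sqrt R]

theorem abs_sum_le {S : Finset ℤ} {f : ℤ → ℝ} {M n : ℝ} (h : ∀ x ∈ S, |f x| ≤ M) (hM : 0 ≤ M)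
    (hn : (S.card : ℝ) ≤ n) : |∑ x ∈ S, f x| ≤ n * M := by
  refine (abs_sum_le_sum_abs _ _).trans ((sum_le_card_nsmul _ _ M h).trans ?_)
  rw [nsmul_eq_mul]
  exact mul_le_mul_of_nonneg_right hn hM

theorem card_Ioc' (a b : ℤ) (h : a ≤ b) : ((Ioc a b).card : ℝ) = b - a := by
  rw [Int.card_Ioc]
  have : (((b - a).toNat : ℤ) : ℝ) = ((b - a : ℤ) : ℝ) := by rw [Int.toNat_of_nonneg (by omega)]
  exact_mod_cast this

/-! ### The local inverse -/

/-- The point lies in the square of radius `4 l`. -/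
def In (l : ℕ) (x y : ℤ) : Prop := -4 * l ≤ x ∧ x ≤ 4 * l ∧ -4 * l ≤ y ∧ y ≤ 4 * l

/-- `r` is a lower bound for the distance of `x` and `y`. -/
def Far (r x y : ℤ) : Prop := 0 ≤ r ∧ (r ≤ x - y ∨ r ≤ y - x)

structure Lc (l : ℕ) (C : ℝ) (α : Pt → Fin 3 → ℝ) (g : Pt → Pt → ℝ) : Prop where
  right : ∀ x y, In l x y → ∀ w', α (x, y) 0 * g (x, y) w' + α (x + 1, y) 1 * g (x + 1, y) w' +
    α (x, y + 1) 2 * g (x, y + 1) w' = if (x, y) = w' then 1 else 0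
  left : ∀ b x y, In l x y → g b (x, y) * α (x, y) 0 + g b (x - 1, y) * α (x, y) 1 +
    g b (x, y - 1) * α (x, y) 2 = if b = (x, y) then 1 else 0
  abd : ∀ x y, In l x y → ∀ j, |α (x, y) j| ≤ 2
  gbd : ∀ x y x' y' r s, In l x y → In l x' y' → Far r x x' → Far s y y' →
    |g (x, y) (x', y')| ≤ C / (2 + r + s)

theorem lc_of {W B : Finset Pt} {a : Pt → Fin 3 → ℝ} {G : Pt → Pt → ℝ} {p z : Pt} {N l : ℕ}
    {C₂ : ℝ} (hG : IsInv W B a G) (hq : ∀ q ∈ box p N, q ∈ W ∧ q ∈ B ∧ ∀ j, |a q j| ≤ 2)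
    (hb : ∀ b ∈ box p N, ∀ w ∈ box p N, |G b w| ≤ C₂ / (1 + ‖b - w‖))
    (hz : ‖z - p‖ + 4 * l ≤ N) :
    (∀ x y, In l x y → z + (x, y) ∈ W) ∧
      Lc l (2 * |C₂|) (fun q => a (z + q)) fun b w => G (z + b) (z + w) := by
  have hin : ∀ x y, In l x y → z + (x, y) ∈ box p N := fun x y h => by
    rw [mem_box]
    have h1 : ‖((x, y) : Pt)‖ ≤ ((4 * l : ℤ) : ℝ) :=
      (norm_le_iff _ _).2 ⟨abs_le.2 (by unfold In at h; constructor <;> omega),
        abs_le.2 (by unfold In at h; constructor <;> omega)⟩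
    have h2 := norm_add_le (z - p) (x, y)
    rw [show z - p + (x, y) = z + (x, y) - p by abel] at h2
    push_cast at h1
    linarith
  refine ⟨fun x y h => (hq _ (hin x y h)).1, fun x y h w' => ?_, fun b x y h => ?_,
    fun x y h j => (hq _ (hin x y h)).2.2 j, fun x y x' y' r s h h' hr hs => ?_⟩
  · have := hG.right _ (hq _ (hin x y h)).1 (z + w')
    simpa only [Fin.sum_univ_three, eps_zero, eps_one, eps_two, add_zero, add_assoc,
      Prod.mk_add_mk, add_right_inj] using this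
  · have := hG.left (z + b) _ (hq _ (hin x y h)).2.1
    simpa only [Fin.sum_univ_three, eps_zero, eps_one, eps_two, sub_zero, add_sub_assoc,
      Prod.mk_sub_mk, add_right_inj] using this
  · refine (hb _ (hin x y h) _ (hin x' y' h')).trans ?_
    rw [add_sub_add_left_eq_sub, norm_pt]
    have h1 : (r : ℝ) ≤ |((x - x' : ℤ) : ℝ)| := by
      rw [← Int.cast_abs, Int.cast_le, le_abs]
      unfold Far at hr
      omega
    have h2 : (s : ℝ) ≤ |((y - y' : ℤ) : ℝ)| := by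
      rw [← Int.cast_abs, Int.cast_le, le_abs]
      unfold Far at hs
      omega
    have h3 : (0 : ℝ) ≤ r := by exact_mod_cast hr.1
    have h4 : (0 : ℝ) ≤ s := by exact_mod_cast hs.1
    simp only [Prod.mk_sub_mk]
    have h5 := le_max_left |((x - x' : ℤ) : ℝ)| |((y - y' : ℤ) : ℝ)|
    have h6 := le_max_right |((x - x' : ℤ) : ℝ)| |((y - y' : ℤ) : ℝ)|
    generalize max |((x - x' : ℤ) : ℝ)| |((y - y' : ℤ) : ℝ)| = M at *
    rw [div_le_div_iff₀ (by linarith) (by linarith)]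
    have h7 : C₂ * (2 + r + s) ≤ |C₂| * (2 + r + s) :=
      mul_le_mul_of_nonneg_right (le_abs_self _) (by linarith)
    have h8 : |C₂| * (2 + r + s) ≤ |C₂| * (2 * (1 + M)) :=
      mul_le_mul_of_nonneg_left (by linarith) (abs_nonneg _)
    linarith

section loc

variable {l : ℕ} {C : ℝ} {α : Pt → Fin 3 → ℝ} {g : Pt → Pt → ℝ}

/-- The flux through a horizontal edge. -/
def T1 (α : Pt → Fin 3 → ℝ) (g : Pt → Pt → ℝ) (b w : Pt) (x y : ℤ) : ℝ :=
  g b (x, y) * α (x + 1, y) 1 * g (x + 1, y) w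

/-- The flux through a vertical edge. -/
def T2 (α : Pt → Fin 3 → ℝ) (g : Pt → Pt → ℝ) (b w : Pt) (x y : ℤ) : ℝ :=
  g b (x, y) * α (x, y + 1) 2 * g (x, y + 1) w

theorem green_id (h : Lc l C α g) (b w : Pt) {x₀ x₁ y₀ y₁ : ℤ} (hx : x₀ ≤ x₁) (hy : y₀ ≤ y₁)
    (h₀ : In l x₀ y₀) (h₁ : In l x₁ y₁) :
    (if w ∈ Ioc x₀ x₁ ×ˢ Ioc y₀ y₁ then g b w else 0) -
      (if b ∈ Ioc x₀ x₁ ×ˢ Ioc y₀ y₁ then g b w else 0) =
    ∑ y ∈ Ioc y₀ y₁, T1 α g b w x₁ y - ∑ y ∈ Ioc y₀ y₁, T1 α g b w x₀ y +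
      (∑ x ∈ Ioc x₀ x₁, T2 α g b w x y₁ - ∑ x ∈ Ioc x₀ x₁, T2 α g b w x y₀) := by
  have key : ∀ q ∈ Ioc x₀ x₁ ×ˢ Ioc y₀ y₁,
      (if q = w then g b w else 0) - (if b = q then g b w else 0) =
      (T1 α g b w q.1 q.2 - T1 α g b w (q.1 - 1) q.2) +
        (T2 α g b w q.1 q.2 - T2 α g b w q.1 (q.2 - 1)) := by
    rintro ⟨x, y⟩ hq
    simp only [mem_product, mem_Ioc] at hq
    have hin : In l x y := by unfold In at *; omega
    have h1 := h.right x y hin w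
    have h2 := h.left b x y hin
    have e1 : (if (x, y) = w then g b w else 0) = g b (x, y) * if (x, y) = w then 1 else 0 := by
      split_ifs with e
      · rw [e, mul_one]
      · rw [mul_zero]
    have e2 : (if b = (x, y) then g b w else 0) = (if b = (x, y) then 1 else 0) * g (x, y) w := by
      split_ifs with e
      · rw [e, one_mul]
      · rw [zero_mul]
    rw [e1, e2, ← h1, ← h2]
    simp only [T1, T2, sub_add_cancel]
    ring
  have h1 := sum_congr rfl key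
  rw [sum_sub_distrib, sum_ite_eq', sum_ite_eq, sum_add_distrib, sum_product_right,
    sum_product] at h1
  rw [h1, ← sum_sub_distrib, ← sum_sub_distrib]
  congr 1
  · exact sum_congr rfl fun y _ => tele (fun x => T1 α g b w x y) hx
  · exact sum_congr rfl fun x _ => tele (fun y => T2 α g b w x y) hy

theorem tb (h : Lc l C α g) (j : Fin 3) {b₁ b₂ x y u v w₁ w₂ : ℤ} (r s : ℤ)
    (H : (In l b₁ b₂ ∧ In l x y ∧ In l u v ∧ In l w₁ w₂) ∧
      Far r b₁ x ∧ Far s b₂ y ∧ Far r u w₁ ∧ Far s v w₂) :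
    |g (b₁, b₂) (x, y) * α (u, v) j * g (u, v) (w₁, w₂)| ≤ 2 * C ^ 2 * (1 / (2 + r + s) ^ 2) := by
  obtain ⟨⟨h1, h2, h3, h4⟩, h5, h6, h7, h8⟩ := H
  have a1 := h.gbd _ _ _ _ r s h1 h2 h5 h6
  have a2 := h.gbd _ _ _ _ r s h3 h4 h7 h8
  have a3 := h.abd _ _ h3 j
  have a4 := (abs_nonneg _).trans a1
  rw [abs_mul, abs_mul]
  calc _ ≤ C / (2 + r + s) * 2 * (C / (2 + r + s)) := by gcongr
    _ = _ := by rw [mul_one_div, mul_div_assoc, ← div_pow]; ring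

/-- The row kernel is a projection up to boundary terms. -/
theorem part1 (h : Lc l C α g) (hl : 1 ≤ l) :
    ∑ x ∈ Icc (-l : ℤ) l, |α (x, 1) 2 * g (x, 1) (x, 0) - ∑ y ∈ seg l,
      α (x, 1) 2 * g (x, 1) (y, 0) * (α (y, 1) 2 * g (y, 1) (x, 0))| ≤ 64 * C ^ 2 := by
  set M : ℝ := 2 * C ^ 2 * (1 / (2 + l) ^ 2) with hM
  have hM0 : 0 ≤ M := by positivity
  have key : ∀ x ∈ Icc (-l : ℤ) l, |α (x, 1) 2 * g (x, 1) (x, 0) - ∑ y ∈ seg l,
      α (x, 1) 2 * g (x, 1) (y, 0) * (α (y, 1) 2 * g (y, 1) (x, 0))| ≤ 2 * ((8 * l + 3) * M) := by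
    intro x hx
    rw [mem_Icc] at hx
    have h1 := green_id h (x, 1) (x, 0) (x₀ := -2 * l - 1) (x₁ := 2 * l) (y₀ := -2 * l - 1)
      (y₁ := 0) (by omega) (by omega) (by unfold In; omega) (by unfold In; omega)
    rw [if_pos (by simp only [mem_product, mem_Ioc]; omega),
      if_neg (by simp only [mem_product, mem_Ioc]; omega), sub_zero] at h1
    have e : seg l = Ioc (-2 * l - 1 : ℤ) (2 * l) := by
      ext y; rw [mem_seg, mem_Ioc]; omega
    have e2 : ∑ y ∈ seg l, α (x, 1) 2 * g (x, 1) (y, 0) * (α (y, 1) 2 * g (y, 1) (x, 0)) =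
        α (x, 1) 2 * ∑ y ∈ Ioc (-2 * l - 1 : ℤ) (2 * l), T2 α g (x, 1) (x, 0) y 0 := by
      rw [e, mul_sum]
      exact sum_congr rfl fun y _ => by simp only [T2, zero_add]; ring
    have b1 : |∑ y ∈ Ioc (-2 * l - 1 : ℤ) 0, T1 α g (x, 1) (x, 0) (2 * l) y| ≤ (2 * l + 1) * M :=
      abs_sum_le (fun y hy => by
        rw [mem_Ioc] at hy
        simpa [T1, hM] using tb h 1 (b₁ := x) (b₂ := 1) (x := 2 * l) (y := y) (u := 2 * l + 1)
          (v := y) (w₁ := x) (w₂ := 0) l 0 (by unfold In Far; omega)) hM0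
        (by rw [card_Ioc' _ _ (by omega)]; push_cast; linarith)
    have b2 : |∑ y ∈ Ioc (-2 * l - 1 : ℤ) 0, T1 α g (x, 1) (x, 0) (-2 * l - 1) y| ≤
        (2 * l + 1) * M :=
      abs_sum_le (fun y hy => by
        rw [mem_Ioc] at hy
        simpa [T1, hM] using tb h 1 (b₁ := x) (b₂ := 1) (x := -2 * l - 1) (y := y)
          (u := -2 * l - 1 + 1) (v := y) (w₁ := x) (w₂ := 0) l 0 (by unfold In Far; omega)) hM0
        (by rw [card_Ioc' _ _ (by omega)]; push_cast; linarith)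
    have b3 : |∑ y ∈ Ioc (-2 * l - 1 : ℤ) (2 * l), T2 α g (x, 1) (x, 0) y (-2 * l - 1)| ≤
        (4 * l + 1) * M :=
      abs_sum_le (fun y hy => by
        rw [mem_Ioc] at hy
        simpa [T2, hM] using tb h 2 (b₁ := x) (b₂ := 1) (x := y) (y := -2 * l - 1)
          (u := y) (v := -2 * l - 1 + 1) (w₁ := x) (w₂ := 0) 0 l (by unfold In Far; omega)) hM0
        (by rw [card_Ioc' _ _ (by omega)]; push_cast; linarith)
    rw [e2, ← mul_sub, abs_mul]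
    refine mul_le_mul (h.abd x 1 (by unfold In; omega) 2) ?_ (abs_nonneg _) zero_le_two
    rw [h1]
    rw [abs_le] at b1 b2 b3 ⊢
    constructor <;> linarith [b1.1, b1.2, b2.1, b2.2, b3.1, b3.2]
  refine (sum_le_card_nsmul _ _ _ key).trans ?_
  have hc : (Icc (-l : ℤ) l).card = 2 * l + 1 := by
    rw [Int.card_Icc]; omega
  rw [hc, nsmul_eq_mul, hM]
  push_cast
  have h0 : (0 : ℝ) ≤ l := Nat.cast_nonneg l
  have h2 : (2 * l + 1 : ℝ) * (8 * l + 3) * (1 / (2 + l) ^ 2) ≤ 16 := by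
    rw [mul_one_div, div_le_iff₀ (by positivity)]
    nlinarith
  nlinarith [sq_nonneg C]

/-- The kernel of the edges of type `1`. -/
def K1 (α : Pt → Fin 3 → ℝ) (g : Pt → Pt → ℝ) (x y x' y' : ℤ) : ℝ :=
  α (x + 1, y) 1 * g (x + 1, y) (x', y')

theorem inv_le_sqrt {d s : ℝ} (hd : 0 ≤ d) (hs : 0 ≤ s) :
    2 / (1 + d + s) ≤ 2 * (1 / √(1 + d) * (1 / √(1 + s))) := by
  rw [div_mul_div_comm, one_mul, ← Real.sqrt_mul (by linarith), mul_one_div]
  refine div_le_div_of_nonneg_left zero_le_two (by positivity) ?_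
  refine Real.sqrt_le_iff.2 ⟨by positivity, ?_⟩
  nlinarith [mul_nonneg hd hs]

theorem row_bd (h : Lc l C α g) {x x' i y : ℤ} (s : ℤ) (hx : x ∈ seg l) (hx' : x' ∈ seg l)
    (hlt : x' < x) (hl : 1 ≤ l) (hi : 0 < i ∧ i ≤ l) (hy : 0 ≤ y ∧ y ≤ l) (h1 : Far s i y)
    (h2 : Far s (y + 1) i) :
    |∑ u ∈ Ioc (x' - l) x', T2 α g (x + 1, i) (x, i) u y| ≤
      4 * C ^ 2 * (1 / √(1 + ((|x' - x| : ℤ) : ℝ)) * (1 / √(1 + s))) := by
  rw [mem_seg] at hx hx'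
  have hd : (0 : ℝ) ≤ ((|x' - x| : ℤ) : ℝ) := by exact_mod_cast abs_nonneg _
  have hs : (0 : ℝ) ≤ s := by exact_mod_cast h1.1
  have h3 := sum_sq_le (1 + ((|x' - x| : ℤ) : ℝ) + s) (by positivity) (Ioc (x' - l) x') x'
  refine (abs_sum_le_sum_abs _ _).trans ((sum_le_sum (g := fun u => 2 * C ^ 2 *
    (1 / (1 + ((|x' - x| : ℤ) : ℝ) + s + ((|u - x'| : ℤ) : ℝ) + 1) ^ 2)) fun u hu => ?_).trans ?_)
  · rw [mem_Ioc] at hu
    have := tb h 2 (b₁ := x + 1) (b₂ := i) (x := u) (y := y) (u := u) (v := y + 1) (w₁ := x)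
      (w₂ := i) (x - u) s (by unfold In Far at *; omega)
    rw [abs_of_nonpos (by omega : x' - x ≤ 0), abs_of_nonpos (by omega : u - x' ≤ 0)]
    refine this.trans (le_of_eq ?_)
    push_cast
    ring
  · rw [← mul_sum]
    have h4 := h3.trans (inv_le_sqrt hd hs)
    nlinarith [sq_nonneg C]

/-- Correlation of two distinct columns. -/
theorem cols (h : Lc l C α g) {x x' : ℤ} {k : ℕ} (hx : x ∈ seg l) (hx' : x' ∈ seg l)
    (hlt : x' < x) (hl : 1 ≤ l) (hk : k ≤ l) :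
    |∑ i ∈ Ioc (0 : ℤ) k, ∑ i' ∈ Ioc (0 : ℤ) k, K1 α g x i x' i' * K1 α g x' i' x i| ≤
      4 * C ^ 2 * (k ^ 2 * (1 / (2 + l) ^ 2)) +
        64 * C ^ 2 * (√k * (1 / √(1 + ((|x' - x| : ℤ) : ℝ)))) := by
  set q : ℝ := 1 / √(1 + ((|x' - x| : ℤ) : ℝ)) with hq
  set M : ℝ := 2 * C ^ 2 * (1 / (2 + l) ^ 2) with hM
  have hM0 : 0 ≤ M := by positivity
  have hq0 : 0 ≤ q := by positivity
  have hx1 := mem_seg.1 hx
  have hx2 := mem_seg.1 hx'
  have key : ∀ i ∈ Ioc (0 : ℤ) k, |∑ i' ∈ Ioc (0 : ℤ) k, K1 α g x i x' i' * K1 α g x' i' x i| ≤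
      2 * (k * M) + 8 * C ^ 2 * q * (1 / √(1 + ((|i - k| : ℤ) : ℝ))) +
        8 * C ^ 2 * q * (1 / √(1 + ((|i - 1| : ℤ) : ℝ))) := by
    intro i hi
    rw [mem_Ioc] at hi
    have h1 := green_id h (x + 1, i) (x, i) (x₀ := x' - l) (x₁ := x') (y₀ := 0) (y₁ := k)
      (by omega) (by omega) (by unfold In; omega) (by unfold In; omega)
    rw [if_neg (by simp only [mem_product, mem_Ioc]; omega),
      if_neg (by simp only [mem_product, mem_Ioc]; omega), sub_zero] at h1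
    have e : ∑ i' ∈ Ioc (0 : ℤ) k, K1 α g x i x' i' * K1 α g x' i' x i =
        α (x + 1, i) 1 * ∑ i' ∈ Ioc (0 : ℤ) k, T1 α g (x + 1, i) (x, i) x' i' := by
      rw [mul_sum]
      exact sum_congr rfl fun y _ => by simp only [T1, K1]; ring
    have b1 : |∑ y ∈ Ioc (0 : ℤ) k, T1 α g (x + 1, i) (x, i) (x' - l) y| ≤ k * M :=
      abs_sum_le (fun y hy => by
        rw [mem_Ioc] at hy
        simpa [T1, hM] using tb h 1 (b₁ := x + 1) (b₂ := i) (x := x' - l) (y := y)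
          (u := x' - l + 1) (v := y) (w₁ := x) (w₂ := i) l 0 (by unfold In Far; omega)) hM0
        (by rw [card_Ioc' _ _ (by omega)]; push_cast; linarith)
    have b2 := row_bd h (i := i) (y := k) |i - k| hx hx' hlt hl (by omega) (by omega)
      (by rw [abs_of_nonpos (by omega)]; unfold Far; omega)
      (by rw [abs_of_nonpos (by omega)]; unfold Far; omega)
    have b3 := row_bd h (i := i) (y := 0) |i - 1| hx hx' hlt hl (by omega) (by omega)
      (by rw [abs_of_nonneg (by omega)]; unfold Far; omega)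
      (by rw [abs_of_nonneg (by omega)]; unfold Far; omega)
    rw [← hq] at b2 b3
    rw [e, abs_mul]
    refine (mul_le_mul_of_nonneg_right (h.abd _ _ (by unfold In; omega) 1) (abs_nonneg _)).trans ?_
    have b4 : |∑ i' ∈ Ioc (0 : ℤ) k, T1 α g (x + 1, i) (x, i) x' i'| ≤ k * M +
        4 * C ^ 2 * (q * (1 / √(1 + ((|i - k| : ℤ) : ℝ)))) +
        4 * C ^ 2 * (q * (1 / √(1 + ((|i - 1| : ℤ) : ℝ)))) := by
      rw [abs_le] at b1 b2 b3 ⊢
      constructor <;> linarith [b1.1, b1.2, b2.1, b2.2, b3.1, b3.2]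
    linarith
  refine (abs_sum_le_sum_abs _ _).trans ((sum_le_sum key).trans ?_)
  rw [sum_add_distrib, sum_add_distrib, sum_const, nsmul_eq_mul, card_Ioc' _ _ (by omega),
    ← mul_sum, ← mul_sum]
  have s1 := sum_sqrt_le (Ioc (0 : ℤ) k) k k fun y hy => by
    rw [mem_Ioc] at hy; rw [abs_lt]; omega
  have s2 := sum_sqrt_le (Ioc (0 : ℤ) k) 1 k fun y hy => by
    rw [mem_Ioc] at hy; rw [abs_lt]; omega
  have hc : 0 ≤ 8 * C ^ 2 * q := by positivity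
  have t1 := mul_le_mul_of_nonneg_left s1 hc
  have t2 := mul_le_mul_of_nonneg_left s2 hc
  rw [hM]
  push_cast at t1 t2 ⊢
  linarith

end loc

/-! ### Covariances -/

section cov

variable {W B : Finset Pt} {a : Pt → Fin 3 → ℝ} {G : Pt → Pt → ℝ}

/-- The centred indicator of the edge of type `1` at `w`. -/
noncomputable def ce (W B : Finset Pt) (a : Pt → Fin 3 → ℝ) (w : Pt) (m : Cfg) : ℝ :=
  eta W m w 1 - dmean W B a fun m' => eta W m' w 1

noncomputable def cv (W B : Finset Pt) (a : Pt → Fin 3 → ℝ) (w w' : Pt) : ℝ :=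
  dmean W B a fun m => ce W B a w m * ce W B a w' m

theorem cv_comm (w w' : Pt) : cv W B a w w' = cv W B a w' w := by
  simp only [cv, mul_comm]

theorem cv_self (hG : Good W B a) (w : Pt) : |cv W B a w w| ≤ 1 := by
  have h1 : ∀ m, 0 ≤ eta W m w 1 ∧ eta W m w 1 ≤ 1 := fun m => by
    unfold eta; split_ifs <;> norm_num
  have h2 : 0 ≤ dmean W B a fun m' => eta W m' w 1 :=
    (hG.dmean_const 0).ge.trans (hG.dmean_mono fun m _ => (h1 m).1)
  have h3 : (dmean W B a fun m' => eta W m' w 1) ≤ 1 :=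
    (hG.dmean_mono fun m _ => (h1 m).2).trans (hG.dmean_const 1).le
  rw [abs_le]
  refine ⟨(hG.dmean_const (-1)).ge.trans (hG.dmean_mono fun m _ => ?_),
    (hG.dmean_mono fun m _ => ?_).trans (hG.dmean_const 1).le⟩
  · linarith [mul_self_nonneg (ce W B a w m)]
  · unfold ce
    nlinarith [(h1 m).1, (h1 m).2]

theorem two_point (hD : DetFormula W B a G) {w w' : Pt} (hw : w ∈ W) (hw' : w' ∈ W) (hne : w ≠ w')
    (s t : ℝ) : dmean W B a (fun m => (1 + s * eta W m w 1) * (1 + t * eta W m w' 1)) =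
      (1 + s * (a (w + eps 1) 1 * G (w + eps 1) w)) *
        (1 + t * (a (w' + eps 1) 1 * G (w' + eps 1) w')) -
      s * (a (w + eps 1) 1 * G (w + eps 1) w') * (t * (a (w' + eps 1) 1 * G (w' + eps 1) w)) := by
  have h := hD (Fin 2) ![w, w'] (by
    intro i j hij
    fin_cases i <;> fin_cases j
    exacts [rfl, absurd hij hne, absurd hij.symm hne, rfl]) (by
    intro i
    fin_cases i
    exacts [hw, hw']) 1 ![1 + s, 1 + t]
  have e : (fun m : Cfg => ∏ i : Fin 2, if m (![w, w'] i) = 1 then ![(1 + s : ℂ), 1 + t] i else 1) =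
      fun m => (((1 + s * eta W m w 1) * (1 + t * eta W m w' 1) : ℝ) : ℂ) := by
    funext m
    simp only [Fin.prod_univ_two, Matrix.cons_val_zero, Matrix.cons_val_one, eta, hw, hw',
      true_and]
    split_ifs <;> simp
  rw [e, cmean_ofReal, Matrix.det_fin_two] at h
  simp only [Matrix.add_apply, Matrix.of_apply, Matrix.cons_val_zero, Matrix.cons_val_one,
    Matrix.one_apply_eq, Matrix.one_apply_ne (zero_ne_one' (Fin 2)),
    Matrix.one_apply_ne (one_ne_zero' (Fin 2)), zero_add, add_sub_cancel_left] at h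
  exact_mod_cast h

theorem cv_ne (hG : Good W B a) (hD : DetFormula W B a G) {w w' : Pt} (hw : w ∈ W) (hw' : w' ∈ W)
    (hne : w ≠ w') : cv W B a w w' =
      -(a (w + eps 1) 1 * G (w + eps 1) w' * (a (w' + eps 1) 1 * G (w' + eps 1) w)) := by
  have h1 := two_point hD hw hw' hne 1 0
  have h2 := two_point hD hw hw' hne 0 1
  have h3 := two_point hD hw hw' hne 1 1
  simp only [zero_mul, one_mul, add_zero, mul_one, mul_zero, sub_zero] at h1 h2 h3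
  rw [dmean_add, hG.dmean_const, add_right_inj] at h1 h2
  have e : ∀ m, ce W B a w m * ce W B a w' m = (1 + eta W m w 1) * (1 + eta W m w' 1) -
      (1 + dmean W B a fun m' => eta W m' w' 1) * eta W m w 1 -
      (1 + dmean W B a fun m' => eta W m' w 1) * eta W m w' 1 +
      ((dmean W B a fun m' => eta W m' w 1) * (dmean W B a fun m' => eta W m' w' 1) - 1) := by
    intro m; unfold ce; ring
  simp only [cv, e]
  rw [dmean_add, dmean_sub, dmean_sub, dmean_mul, dmean_mul, hG.dmean_const, h3, h1, h2]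
  ring

theorem vinc_eq (hG : Good W B a) {m : Cfg} (hm : IsMatching W B m) (z : Pt) (l k : ℕ)
    (θ : ℤ → ℝ) : vinc W B a z l k θ m =
      -∑ x ∈ seg l, θ x * ∑ i ∈ Ioc (0 : ℤ) k, ce W B a (z + (x, i)) m := by
  rw [vinc, ← sum_neg_distrib]
  refine sum_congr rfl fun x _ => ?_
  rw [← tele (fun i => cheight W B a m (z + (x, i))) (Int.natCast_nonneg k), ← mul_neg,
    ← sum_neg_distrib]
  congr 1
  refine sum_congr rfl fun i _ => ?_
  have h := hG.cheight_incr hm (z + (x, i)) 1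
  have e1 : z + (x, i) - eps (1 + 1) = z + (x, i - 1) := by
    rw [show (1 + 1 : Fin 3) = 2 from rfl, eps_two, add_sub_assoc, Prod.mk_sub_mk, sub_zero]
  have e2 : z + (x, i) - eps (1 + 2) = z + (x, i) := by
    rw [show (1 + 2 : Fin 3) = 0 from rfl, eps_zero, sub_zero]
  rw [e1, e2] at h
  unfold ce
  linarith

theorem var_eq (hG : Good W B a) (z : Pt) (l k : ℕ) (θ : ℤ → ℝ) :
    dmean W B a (fun m => vinc W B a z l k θ m ^ 2) = ∑ x ∈ seg l, ∑ x' ∈ seg l, θ x * θ x' *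
      ∑ i ∈ Ioc (0 : ℤ) k, ∑ i' ∈ Ioc (0 : ℤ) k, cv W B a (z + (x, i)) (z + (x', i')) := by
  rw [dmean_congr (F' := fun m => ∑ x ∈ seg l, ∑ x' ∈ seg l, θ x * θ x' * ∑ i ∈ Ioc (0 : ℤ) k,
    ∑ i' ∈ Ioc (0 : ℤ) k, ce W B a (z + (x, i)) m * ce W B a (z + (x', i')) m) fun m hm => by
      rw [vinc_eq hG hm, neg_sq, sq, sum_mul_sum]
      refine sum_congr rfl fun x _ => sum_congr rfl fun x' _ => ?_
      rw [← sum_mul_sum]
      ring]
  simp only [dmean_sum, dmean_mul, cv]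

theorem part2 {l : ℕ} {C : ℝ} {z : Pt} (hG : Good W B a) (hD : DetFormula W B a G)
    (hW : ∀ x y, In l x y → z + (x, y) ∈ W)
    (h : Lc l C (fun q => a (z + q)) fun b w => G (z + b) (z + w)) (hl : 1 ≤ l) {k : ℕ}
    (hk : k ≤ l) {θ : ℤ → ℝ} {t : ℝ} (hθ : ∀ x, |θ x| ≤ t) :
    dmean W B a (fun m => vinc W B a z l k θ m ^ 2) ≤
      (40 + 5000 * C ^ 2) * (t * l) ^ 2 * √(k / l) := by
  set α : Pt → Fin 3 → ℝ := fun q => a (z + q)
  set g : Pt → Pt → ℝ := fun b w => G (z + b) (z + w)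
  set S : ℤ → ℤ → ℝ := fun x x' =>
    ∑ i ∈ Ioc (0 : ℤ) k, ∑ i' ∈ Ioc (0 : ℤ) k, cv W B a (z + (x, i)) (z + (x', i')) with hS
  have hK : ∀ x ∈ seg l, ∀ x' ∈ seg l, ∀ i ∈ Ioc (0 : ℤ) k, ∀ i' ∈ Ioc (0 : ℤ) k,
      x ≠ x' ∨ i ≠ i' → cv W B a (z + (x, i)) (z + (x', i')) =
        -(K1 α g x i x' i' * K1 α g x' i' x i) := by
    intro x hx x' hx' i hi i' hi' hne
    rw [mem_seg] at hx hx'
    rw [mem_Ioc] at hi hi'
    rw [cv_ne hG hD (hW _ _ (by unfold In; omega)) (hW _ _ (by unfold In; omega))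
      (by rw [ne_eq, add_right_inj, Prod.mk.injEq]; omega)]
    simp only [K1, α, g, eps_one, add_assoc, Prod.mk_add_mk, add_zero]
  have hdiag : ∀ x ∈ seg l, |S x x| ≤ k * (8 + 8 * C ^ 2) := by
    intro x hx
    refine abs_sum_le (fun i hi => ?_) (by positivity)
      (by rw [card_Ioc' _ _ (by omega)]; push_cast; linarith)
    have h1 := sum_sq_le 1 one_pos (Ioc (0 : ℤ) k) i
    refine (abs_sum_le_sum_abs _ _).trans ((sum_le_sum (g := fun i' => (4 + 4 * C ^ 2) *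
      (1 / (1 + ((|i' - i| : ℤ) : ℝ) + 1) ^ 2)) fun i' hi' => ?_).trans ?_)
    · by_cases e : i = i'
      · subst e
        refine (cv_self hG _).trans ?_
        norm_num
        nlinarith [sq_nonneg C]
      · rw [hK x hx x hx i hi i' hi' (Or.inr e), abs_neg]
        rw [mem_seg] at hx
        rw [mem_Ioc] at hi hi'
        have h2 := tb h 1 (b₁ := x + 1) (b₂ := i) (x := x) (y := i') (u := x + 1) (v := i')
          (w₁ := x) (w₂ := i) 0 |i' - i| (by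
            rcases abs_cases (i' - i) with e' | e' <;> rw [e'.1] <;> unfold In Far <;> omega)
        have h3 := h.abd (x + 1) i (by unfold In; omega) 1
        have e1 : K1 α g x i x i' * K1 α g x i' x i = α (x + 1, i) 1 *
            (g (x + 1, i) (x, i') * α (x + 1, i') 1 * g (x + 1, i') (x, i)) := by
          simp only [K1]; ring
        rw [e1, abs_mul]
        refine (mul_le_mul h3 h2 (abs_nonneg _) zero_le_two).trans ?_
        have e2 : (2 + ((0 : ℤ) : ℝ) + ((|i' - i| : ℤ) : ℝ)) = 1 + ((|i' - i| : ℤ) : ℝ) + 1 := by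
          push_cast; ring
        rw [e2]
        have : 0 ≤ 1 / (1 + ((|i' - i| : ℤ) : ℝ) + 1) ^ 2 := by positivity
        nlinarith
    · rw [← mul_sum]
      nlinarith [sq_nonneg C]
  have hoff : ∀ x ∈ seg l, ∀ x' ∈ seg l, x' < x → |S x x'| ≤
      4 * C ^ 2 * (k ^ 2 * (1 / (2 + l) ^ 2)) +
        64 * C ^ 2 * (√k * (1 / √(1 + ((|x' - x| : ℤ) : ℝ)))) := by
    intro x hx x' hx' hlt
    have e : S x x' =
        -∑ i ∈ Ioc (0 : ℤ) k, ∑ i' ∈ Ioc (0 : ℤ) k, K1 α g x i x' i' * K1 α g x' i' x i := by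
      simp only [hS, ← sum_neg_distrib]
      exact sum_congr rfl fun i hi => sum_congr rfl fun i' hi' =>
        hK x hx x' hx' i hi i' hi' (Or.inl hlt.ne')
    rw [e, abs_neg]
    exact cols h hx hx' hlt hl hk
  have hsym : ∀ x x', S x x' = S x' x := fun x x' => by
    simp only [hS]
    rw [sum_comm]
    exact sum_congr rfl fun i _ => sum_congr rfl fun i' _ => cv_comm _ _
  have ht : 0 ≤ t := (abs_nonneg _).trans (hθ 0)
  have hall : ∀ x ∈ seg l, ∀ x' ∈ seg l, θ x * θ x' * S x x' ≤ t ^ 2 *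
      ((if x = x' then k * (8 + 8 * C ^ 2) else 0) + 4 * C ^ 2 * (k ^ 2 * (1 / (2 + l) ^ 2)) +
        64 * C ^ 2 * √k * (1 / √(1 + ((|x' - x| : ℤ) : ℝ)))) := by
    intro x hx x' hx'
    refine (le_abs_self _).trans ?_
    rw [abs_mul, abs_mul]
    refine mul_le_mul (by rw [sq]; exact mul_le_mul (hθ x) (hθ x') (abs_nonneg _) ht) ?_
      (abs_nonneg _) (sq_nonneg t)
    rcases lt_trichotomy x' x with e | e | e
    · rw [if_neg e.ne']
      linarith [hoff x hx x' hx' e]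
    · subst e
      rw [if_pos rfl, add_assoc]
      exact (hdiag x' hx).trans (le_add_of_nonneg_right (by positivity))
    · rw [if_neg e.ne, hsym, abs_sub_comm]
      linarith [hoff x' hx' x hx e]
  have hl0 : (1 : ℝ) ≤ l := by exact_mod_cast hl
  have hk0 : (0 : ℝ) ≤ k := Nat.cast_nonneg k
  have hkl : (k : ℝ) ≤ l := by exact_mod_cast hk
  have hrow : ∀ x ∈ seg l, ∑ x' ∈ seg l, θ x * θ x' * S x x' ≤ t ^ 2 *
      (k * (8 + 8 * C ^ 2) + (4 * l + 1) * (4 * C ^ 2 * (k ^ 2 * (1 / (2 + l) ^ 2))) +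
        64 * C ^ 2 * √k * (12 * √l)) := by
    intro x hx
    refine (sum_le_sum (hall x hx)).trans ?_
    rw [← mul_sum, sum_add_distrib, sum_add_distrib, sum_ite_eq, if_pos hx, sum_const, card_seg,
      nsmul_eq_mul, ← mul_sum]
    have h1 := sum_sqrt_le (seg l) x (9 * l) fun y hy => by
      rw [mem_seg] at hx hy; rw [abs_lt]; push_cast; omega
    have h2 : √((9 * l : ℕ) : ℝ) = 3 * √l := by
      push_cast
      rw [Real.sqrt_mul (by norm_num), show (9 : ℝ) = 3 ^ 2 by norm_num,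
        Real.sqrt_sq (by norm_num)]
    rw [h2] at h1
    push_cast at h1 ⊢
    gcongr
    linarith
  rw [var_eq hG]
  refine (sum_le_card_nsmul _ _ _ hrow).trans ?_
  rw [card_seg, nsmul_eq_mul]
  push_cast
  have hsl : 0 < √(l : ℝ) := by positivity
  have e1 : (l : ℝ) * √(k / l) = √k * √l := by
    rw [Real.sqrt_div hk0, ← mul_div_assoc, div_eq_iff hsl.ne', mul_assoc,
      Real.mul_self_sqrt (by positivity), mul_comm]
  have h1 : (k : ℝ) ≤ √k * √l := by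
    calc (k : ℝ) = √k * √k := (Real.mul_self_sqrt hk0).symm
      _ ≤ √k * √l := by gcongr
  have h2 : (4 * l + 1 : ℝ) * (4 * l + 1) * (1 / (2 + l) ^ 2) ≤ 16 := by
    rw [mul_one_div, div_le_iff₀ (by positivity)]
    nlinarith
  have e2 : (40 + 5000 * C ^ 2) * (t * l) ^ 2 * √(k / l) =
      t ^ 2 * ((40 + 5000 * C ^ 2) * (l * (√k * √l))) := by
    rw [← e1]; ring
  rw [e2, mul_left_comm]
  refine mul_le_mul_of_nonneg_left ?_ (sq_nonneg t)
  generalize hs : √(k : ℝ) * √(l : ℝ) = s at h1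
  have e3 : 64 * C ^ 2 * √k * (12 * √l) = 768 * C ^ 2 * s := by rw [← hs]; ring
  rw [e3]
  have hs0 : 0 ≤ s := hk0.trans h1
  have hC := sq_nonneg C
  have a1 : (4 * l + 1 : ℝ) * (k * (8 + 8 * C ^ 2)) ≤ 5 * l * (s * (8 + 8 * C ^ 2)) := by
    gcongr
    linarith
  have a2 : (4 * l + 1 : ℝ) * (768 * C ^ 2 * s) ≤ 5 * l * (768 * C ^ 2 * s) := by
    gcongr
    linarith
  have a3 : (k : ℝ) ^ 2 ≤ l * s := by rw [sq]; gcongr
  have a4 : (4 * l + 1 : ℝ) * (4 * l + 1) * (1 / (2 + l) ^ 2) * (4 * C ^ 2 * k ^ 2) ≤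
      16 * (4 * C ^ 2 * (l * s)) := by gcongr
  have a5 : 0 ≤ C ^ 2 * (l * s) := by positivity
  nlinarith

end cov

end Green

theorem green : GreenStmt := by
  intro C₂
  refine ⟨40 + 5000 * (2 * |C₂|) ^ 2, fun W B a G p z N l hG hq hb hl hz => ?_⟩
  obtain ⟨hW, h⟩ := Green.lc_of hG hq hb hz
  refine ⟨(Green.part1 h hl).trans ?_, fun hg hD k θ t hk hθ => Green.part2 hg hD hW h hl hk hθ⟩
  nlinarith [sq_nonneg (2 * |C₂|)]

end Pool.Agent.Lib.MP_60c5b4_pr.H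
end

-- part Pool.Agent.Lib.MP_60c5b4_pr.H.Row
section

/-!
Assembly of the estimates for the row observables.
-/

namespace Pool.Agent.Lib.MP_60c5b4_pr.H

open Finset Matrix Complex
open scoped ComplexConjugate

namespace Row

theorem seg_sum {l : ℕ} {x : ℤ} (hx : x ∈ seg l) :
    ∑ y ∈ seg l, (1 + |((x - y : ℤ) : ℝ)|) ^ (-(1 / 2) : ℝ) ≤
      4 * ((4 * l + 1 : ℕ) : ℝ) ^ (1 / 2 : ℝ) := by
  rw [← sum_fiberwise_of_maps_to (g := fun y => (x - y).natAbs) (t := range (4 * l + 1))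
    fun y hy => by rw [mem_seg] at hx hy; exact mem_range.2 (by omega)]
  have h := sum_rpow_le (1 / 2) (by norm_num) (by norm_num) (4 * l + 1)
  rw [show (1 : ℝ) - 1 / 2 = 1 / 2 by norm_num] at h
  refine le_trans (sum_le_sum (g := fun k : ℕ => 2 * (1 + k : ℝ) ^ (-(1 / 2) : ℝ)) fun k _ => ?_)
    (by rw [← mul_sum]; linarith)
  refine (sum_le_card_nsmul _ _ ((1 + k : ℝ) ^ (-(1 / 2) : ℝ)) fun y hy => ?_).trans ?_
  · rw [← (mem_filter.1 hy).2, Nat.cast_natAbs, Int.cast_abs]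
  · rw [nsmul_eq_mul]
    refine mul_le_mul_of_nonneg_right ?_ (by positivity)
    have : (seg l).filter (fun y => (x - y).natAbs = k) ⊆ {x - k, x + k} := fun y hy => by
      have := (mem_filter.1 hy).2
      simp only [mem_insert, mem_singleton]
      omega
    exact_mod_cast (card_le_card this).trans card_le_two

theorem card_le {l : ℕ} (hl : 1 ≤ l) : ((seg l).card : ℝ) ≤ 5 * l := by
  rw [card_seg]
  exact_mod_cast (by omega : 4 * l + 1 ≤ 5 * l)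

theorem sum2_le {l : ℕ} (hl : 1 ≤ l) {F : ℤ → ℤ → ℝ} {e : ℝ}
    (h : ∀ x ∈ seg l, ∀ y ∈ seg l, F x y ≤ e ^ 2) :
    ∑ x ∈ seg l, ∑ y ∈ seg l, F x y ≤ (5 * l * e) ^ 2 := by
  have h1 := card_le hl
  have h2 : (0 : ℝ) ≤ (seg l).card := Nat.cast_nonneg _
  refine (sum_le_card_nsmul _ _ ((seg l).card • e ^ 2) fun x hx =>
    sum_le_card_nsmul _ _ _ (h x hx)).trans ?_
  rw [nsmul_eq_mul, nsmul_eq_mul, ← mul_assoc, mul_pow]
  exact mul_le_mul_of_nonneg_right (by nlinarith) (sq_nonneg e)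

theorem norm_off {l : ℕ} (hl : 1 ≤ l) {x : ℤ} (hx : x ∈ seg l) {i : ℤ} (h0 : 0 ≤ i) (h1 : i ≤ 1) :
    ‖((x, i) : Pt)‖ ≤ 2 * l := by
  rw [mem_seg] at hx
  have := (norm_le_iff (x, i) (2 * l)).2 ⟨by rw [abs_le]; omega, by rw [abs_le]; omega⟩
  exact_mod_cast this

theorem mem_box_off {p z : Pt} {N l : ℕ} (hl : 1 ≤ l) (hz : ‖z - p‖ + 4 * l ≤ N) {x : ℤ}
    (hx : x ∈ seg l) {i : ℤ} (h0 : 0 ≤ i) (h1 : i ≤ 1) : z + (x, i) ∈ box p N := by
  rw [mem_box, add_sub_right_comm]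
  have := norm_off hl hx h0 h1
  have h2 : (0 : ℝ) ≤ l := Nat.cast_nonneg l
  linarith [norm_add_le (z - p) (x, i)]

theorem add_eps (z : Pt) (x : ℤ) : z + (x, 0) + eps 2 = z + (x, 1) := by
  simp [add_assoc]

variable {W B : Finset Pt} {a : Pt → Fin 3 → ℝ} {G : Pt → Pt → ℝ}

theorem cmean_rowT (hD : DetFormula W B a G) {z : Pt} {l : ℕ} (hz : ∀ x ∈ seg l, z + (x, 0) ∈ W)
    (Θ : ℤ → ℝ) : cmean W B a (rowT z l Θ) = (segMat l Θ (rowK a G z)).det := by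
  have h := hD (seg l) (fun x => z + (x.1, 0))
    (fun x y e => Subtype.ext (by simpa using e)) (fun x => hz x.1 x.2) 2
    fun x => exp (I * Θ x)
  simp only [add_eps] at h
  rw [segMat]
  simp only [rowK]
  rw [← h]
  congr 1
  funext m
  exact (prod_coe_sort (seg l) fun x => if m (z + (x, 0)) = 2 then exp (I * Θ x) else 1).symm

theorem norm_rowT (z : Pt) (l : ℕ) (Θ : ℤ → ℝ) (m : Cfg) : ‖rowT z l Θ m‖ = 1 := by
  rw [rowT, norm_prod]
  refine prod_eq_one fun x _ => ?_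
  split_ifs
  · exact norm_exp_I_mul_ofReal _
  · exact norm_one

theorem ccov_le_two (hG : Good W B a) (z z' : Pt) (l : ℕ) (Θ Θ' : ℤ → ℝ) :
    ‖ccov W B a (rowT z l Θ) (rowT z' l Θ')‖ ≤ 2 := by
  have h1 : ‖cmean W B a fun m => rowT z l Θ m * conj (rowT z' l Θ' m)‖ ≤ 1 :=
    hG.norm_cmean_le_one fun m => by rw [norm_mul, RCLike.norm_conj, norm_rowT, norm_rowT, mul_one]
  have h2 : ‖cmean W B a (rowT z l Θ)‖ ≤ 1 := hG.norm_cmean_le_one fun m => (norm_rowT _ _ _ _).le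
  have h3 : ‖cmean W B a (rowT z' l Θ')‖ ≤ 1 :=
    hG.norm_cmean_le_one fun m => (norm_rowT _ _ _ _).le
  refine (norm_sub_le _ _).trans ?_
  rw [norm_mul, RCLike.norm_conj]
  nlinarith [norm_nonneg (cmean W B a (rowT z l Θ)), norm_nonneg (cmean W B a (rowT z' l Θ'))]

/-- The off-diagonal block. -/
noncomputable def off (a : Pt → Fin 3 → ℝ) (G : Pt → Pt → ℝ) (z z' : Pt) (l : ℕ) (t : ℤ → ℂ) :
    Matrix (seg l) (seg l) ℂ :=
  Matrix.of fun x y => (t x - 1) * ((a (z + (x.1, 1)) 2 * G (z + (x.1, 1)) (z' + (y.1, 0)) : ℝ) : ℂ)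

theorem cmean_pair (hD : DetFormula W B a G) {z z' : Pt} {l : ℕ}
    (hz : ∀ x ∈ seg l, z + (x, 0) ∈ W) (hz' : ∀ x ∈ seg l, z' + (x, 0) ∈ W)
    (hne : ∀ x ∈ seg l, ∀ y ∈ seg l, z + (x, 0) ≠ z' + (y, 0)) (Θ Θ' : ℤ → ℝ) :
    cmean W B a (fun m => rowT z l Θ m * conj (rowT z' l Θ' m)) =
      (fromBlocks (segMat l Θ (rowK a G z)) (off a G z z' l fun x => exp (I * Θ x))
        (off a G z' z l fun x => conj (exp (I * Θ' x)))
        ((segMat l Θ' (rowK a G z')).map conj)).det := by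
  have h := hD (seg l ⊕ seg l) (Sum.elim (fun x => z + (x.1, 0)) fun x => z' + (x.1, 0))
    (by
      rintro (x | x) (y | y) e
      · exact congrArg _ (Subtype.ext (by simpa using e))
      · exact absurd e (hne _ x.2 _ y.2)
      · exact absurd e.symm (hne _ y.2 _ x.2)
      · exact congrArg _ (Subtype.ext (by simpa using e)))
    (by
      rintro (x | x)
      · exact hz _ x.2
      · exact hz' _ x.2) 2
    (Sum.elim (fun x => exp (I * Θ x)) fun x => conj (exp (I * Θ' x)))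
  refine Eq.trans ?_ (h.trans ?_)
  · congr 1
    funext m
    rw [Fintype.prod_sum_type, rowT, rowT, map_prod, ← prod_coe_sort (seg l),
      ← prod_coe_sort (seg l)]
    simp only [Sum.elim_inl, Sum.elim_inr, apply_ite conj, map_one]
  · congr 1
    ext (x | x) (y | y) <;>
      simp [segMat, off, rowK, one_apply, add_assoc, apply_ite conj]

theorem hs_off {p z z' : Pt} {N l : ℕ} {C₂ : ℝ} (hl : 1 ≤ l) (hz : ‖z - p‖ + 4 * l ≤ N)
    (hz' : ‖z' - p‖ + 4 * l ≤ N) (hd : 8 * l ≤ ‖z - z'‖) (ha : ∀ q ∈ box p N, ∀ j, |a q j| ≤ 2)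
    (hG : ∀ b ∈ box p N, ∀ w ∈ box p N, |G b w| ≤ C₂ / (1 + ‖b - w‖)) (hC : 0 ≤ C₂) {t : ℤ → ℂ}
    (ht : ∀ x, ‖t x‖ = 1) : hs (off a G z z' l t) ≤ (40 * C₂) ^ 2 * (l / ‖z - z'‖) ^ 2 := by
  have hl' : (1 : ℝ) ≤ l := by exact_mod_cast hl
  have hpos : 0 < ‖z - z'‖ := by linarith
  have key : ∑ x ∈ seg l, ∑ y ∈ seg l,
      ‖(t x - 1) * ((a (z + (x, 1)) 2 * G (z + (x, 1)) (z' + (y, 0)) : ℝ) : ℂ)‖ ^ 2 ≤
      (5 * l * (8 * C₂ / ‖z - z'‖)) ^ 2 := by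
    refine sum2_le hl fun x hx y hy => pow_le_pow_left₀ (norm_nonneg _) ?_ 2
    have hb := mem_box_off hl hz hx zero_le_one le_rfl
    have hw := mem_box_off hl hz' hy le_rfl zero_le_one
    have h1 : ‖t x - 1‖ ≤ 2 := (norm_sub_le _ _).trans (by rw [ht, norm_one]; norm_num)
    have h2 : ‖z - z'‖ / 2 ≤ 1 + ‖z + (x, 1) - (z' + (y, 0))‖ := by
      have e : z - z' = z + (x, 1) - (z' + (y, 0)) - (x, 1) + (y, 0) := by abel
      have k1 := norm_add_le (z + (x, 1) - (z' + (y, 0)) - (x, 1)) (y, 0)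
      have k2 := norm_sub_le (z + (x, 1) - (z' + (y, 0))) (x, 1)
      have k3 := norm_off hl hx zero_le_one le_rfl
      have k4 := norm_off hl hy le_rfl zero_le_one
      rw [← e] at k1
      linarith
    have h3 : |G (z + (x, 1)) (z' + (y, 0))| ≤ C₂ / (‖z - z'‖ / 2) :=
      (hG _ hb _ hw).trans (div_le_div_of_nonneg_left hC (by linarith) h2)
    rw [norm_mul, norm_real, Real.norm_eq_abs, abs_mul]
    calc _ ≤ 2 * (2 * (C₂ / (‖z - z'‖ / 2))) :=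
          mul_le_mul h1 (mul_le_mul (ha _ hb 2) h3 (abs_nonneg _) zero_le_two) (by positivity)
            zero_le_two
      _ = _ := by field_simp; ring
  refine le_trans (le_of_eq ?_) (key.trans (le_of_eq (by ring)))
  rw [hs, ← sum_coe_sort (seg l)]
  refine sum_congr rfl fun x _ => ?_
  rw [← sum_coe_sort (seg l)]
  rfl

theorem ccov_le (hT : ToolStmt) (hgood : Good W B a) (hD : DetFormula W B a G) {p z z' : Pt}
    {N l : ℕ} {C₂ t : ℝ} (hl : 1 ≤ l) (hz : ‖z - p‖ + 4 * l ≤ N) (hz' : ‖z' - p‖ + 4 * l ≤ N)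
    (hd : 8 * l ≤ ‖z - z'‖) (hW : ∀ q ∈ box p N, q ∈ W) (ha : ∀ q ∈ box p N, ∀ j, |a q j| ≤ 2)
    (hG : ∀ b ∈ box p N, ∀ w ∈ box p N, |G b w| ≤ C₂ / (1 + ‖b - w‖)) (hC : 0 ≤ C₂) (ht : 0 ≤ t)
    {Θ Θ' : ℤ → ℝ} (h1 : hs (segMat l Θ (rowK a G z)) - Fintype.card (seg l) ≤ t)
    (h2 : hs (segMat l Θ' (rowK a G z')) - Fintype.card (seg l) ≤ t) :
    ‖ccov W B a (rowT z l Θ) (rowT z' l Θ')‖ ≤
      2 * Real.exp (t + 1) * (2 * (40 * C₂) ^ 2 + 1) * (l / ‖z - z'‖) ^ 2 := by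
  have hl' : (1 : ℝ) ≤ l := by exact_mod_cast hl
  have hpos : 0 < ‖z - z'‖ := by linarith
  have hq : 0 < ((l : ℝ) / ‖z - z'‖) ^ 2 := by positivity
  rw [mul_assoc]
  obtain ⟨s, hs'⟩ : ∃ s, s = (2 * (40 * C₂) ^ 2 + 1) * ((l : ℝ) / ‖z - z'‖) ^ 2 := ⟨_, rfl⟩
  have hs0 : 0 < s := by rw [hs']; positivity
  rw [← hs']
  rcases le_or_gt s 1 with hs1 | hs1
  · have m1 : ∀ x ∈ seg l, z + (x, 0) ∈ W := fun x hx =>
      hW _ (mem_box_off hl hz hx le_rfl zero_le_one)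
    have m2 : ∀ x ∈ seg l, z' + (x, 0) ∈ W := fun x hx =>
      hW _ (mem_box_off hl hz' hx le_rfl zero_le_one)
    have hne : ∀ x ∈ seg l, ∀ y ∈ seg l, z + (x, 0) ≠ z' + (y, 0) := fun x hx y hy e => by
      have e' : z - z' = ((y, 0) : Pt) - (x, 0) := by
        rw [sub_eq_sub_iff_add_eq_add, e, add_comm]
      have k2 := norm_sub_le ((y, 0) : Pt) (x, 0)
      have k3 := norm_off hl hx le_rfl zero_le_one
      have k4 := norm_off hl hy le_rfl zero_le_one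
      rw [← e'] at k2
      linarith
    rw [ccov, cmean_pair hD m1 m2 hne, cmean_rowT hD m1, cmean_rowT hD m2, RingHom.map_det]
    refine hT.block _ _ _ _ _ _ t s h1 ?_ ?_ hs0 hs1
    · refine le_trans (le_of_eq ?_) h2
      simp only [hs, map_apply, RCLike.norm_conj]
    · have k1 := hs_off hl hz hz' hd ha hG hC (t := fun x => exp (I * Θ x))
        fun x => norm_exp_I_mul_ofReal _
      have k2 := hs_off hl hz' hz (by rwa [norm_sub_rev]) ha hG hC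
        (t := fun x => conj (exp (I * Θ' x)))
        fun x => by rw [RCLike.norm_conj, norm_exp_I_mul_ofReal]
      rw [norm_sub_rev] at k2
      rw [hs']
      linarith
  · have := Real.one_le_exp (show 0 ≤ t + 1 by linarith)
    have := ccov_le_two hgood z z' l Θ Θ'
    nlinarith

theorem adm_mono {L C C' n : ℝ} {l : ℕ} {Θ : ℤ → ℝ} (h : Adm L C n l Θ) (hC : C ≤ C')
    (hn : 0 ≤ n) : Adm L C' n l Θ :=
  ⟨h.left, h.right, fun x => (h.lip x).trans (div_le_div_of_nonneg_right hC hn),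
    fun x hx => (h.near x hx).trans (div_le_div_of_nonneg_right hC hn), h.far⟩

theorem one_add_le {p b w : Pt} {N : ℕ} (hN : 1 ≤ N) (hb : b ∈ box p N) (hw : w ∈ box p N) :
    1 + ‖b - w‖ ≤ 3 * N := by
  have h1 := mem_box.1 hb
  have h2 := mem_box.1 hw
  have h3 : (1 : ℝ) ≤ N := by exact_mod_cast hN
  have h4 := norm_sub_le (b - p) (w - p)
  rw [sub_sub_sub_cancel_right] at h4
  linarith

theorem dist_five {p b u : Pt} {N : ℕ} (hb : b ∈ box p N) (hu : u ∈ box p (4 * N)) :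
    ‖u - b‖ ≤ 5 * N := by
  have h1 := mem_box.1 hb
  have h2 := mem_box.1 hu
  have h4 := norm_sub_le (u - p) (b - p)
  rw [sub_sub_sub_cancel_right] at h4
  push_cast at h2
  linarith

/-- Pointwise bound of the inverse Kasteleyn matrix. -/
theorem G_le {g α β C₀ Cb Cp M N d : ℝ} (hN : 1 ≤ N) (hd : 1 ≤ d) (hdN : d ≤ 3 * N)
    (hCb : 0 ≤ Cb) (h1 : |α| ≤ C₀ / d) (h2 : |β| ≤ Cb * (M / N) * (5 * N / d) ^ (1 / 4 : ℝ))
    (h3 : |g - α + β| ≤ Cp / N) : |g| ≤ (|C₀| + 5 * Cb * |M| + 3 * |Cp|) / d := by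
  have hd0 : 0 < d := by linarith
  have hN0 : 0 < N := by linarith
  have k1 : C₀ / d ≤ |C₀| / d := div_le_div_of_nonneg_right (le_abs_self _) hd0.le
  have k2 : (5 * N / d) ^ (1 / 4 : ℝ) ≤ 5 * N / d :=
    Real.rpow_le_self_of_one_le ((one_le_div hd0).2 (by linarith)) (by norm_num)
  have k3 : Cb * (M / N) * (5 * N / d) ^ (1 / 4 : ℝ) ≤ 5 * Cb * |M| / d :=
    calc _ ≤ Cb * (|M| / N) * (5 * N / d) :=
          mul_le_mul (mul_le_mul_of_nonneg_left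
            (div_le_div_of_nonneg_right (le_abs_self _) hN0.le) hCb) k2 (by positivity)
            (by positivity)
      _ = _ := by field_simp
  have k4 : Cp / N ≤ 3 * |Cp| / d := by
    rw [div_le_div_iff₀ hN0 hd0]
    nlinarith [le_abs_self Cp, abs_nonneg Cp]
  have k5 : |g| ≤ |g - α + β| + |α| + |β| := by
    have e : g = g - α + β + α - β := by ring
    calc |g| = |g - α + β + α - β| := by rw [← e]
      _ ≤ |g - α + β + α| + |β| := abs_sub _ _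
      _ ≤ _ := by linarith [abs_add_le (g - α + β) α]
  rw [add_div, add_div]
  linarith

theorem born_sum {l N : ℕ} (hl : 1 ≤ l) (hN : l ≤ N) {F : ℤ → ℤ → ℝ} {K : ℝ}
    (h : ∀ x ∈ seg l, ∀ y ∈ seg l,
      |F x y| ≤ K * (5 * N / (1 + ‖((x - y, 1) : Pt)‖)) ^ (1 / 4 : ℝ)) :
    ∑ x ∈ seg l, ∑ y ∈ seg l, F x y ^ 2 ≤ 100 * K ^ 2 * l * N := by
  have hN0 : (0 : ℝ) ≤ 5 * N := by positivity
  have h1 : ∀ x ∈ seg l, ∀ y ∈ seg l, F x y ^ 2 ≤
      K ^ 2 * (5 * N : ℝ) ^ (1 / 2 : ℝ) * (1 + |((x - y : ℤ) : ℝ)|) ^ (-(1 / 2) : ℝ) := by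
    intro x hx y hy
    have k0 : (0 : ℝ) < 1 + |((x - y : ℤ) : ℝ)| := by positivity
    have k1 : 1 + |((x - y : ℤ) : ℝ)| ≤ 1 + ‖((x - y, 1) : Pt)‖ := by
      rw [norm_pt]
      linarith [le_max_left |((x - y : ℤ) : ℝ)| |((1 : ℤ) : ℝ)|]
    rw [← sq_abs]
    refine (pow_le_pow_left₀ (abs_nonneg _) (h x hx y hy) 2).trans ?_
    rw [mul_pow, mul_assoc]
    refine mul_le_mul_of_nonneg_left ?_ (sq_nonneg K)
    rw [← Real.rpow_natCast, ← Real.rpow_mul (by positivity), Real.rpow_neg k0.le,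
      ← div_eq_mul_inv, ← Real.div_rpow hN0 k0.le,
      show (1 / 4 : ℝ) * ((2 : ℕ) : ℝ) = 1 / 2 by norm_num]
    exact Real.rpow_le_rpow (by positivity) (div_le_div_of_nonneg_left hN0 k0 k1) (by norm_num)
  have h2 : ((4 * l + 1 : ℕ) : ℝ) ^ (1 / 2 : ℝ) ≤ (5 * N : ℝ) ^ (1 / 2 : ℝ) :=
    Real.rpow_le_rpow (Nat.cast_nonneg _) (by exact_mod_cast (by omega : 4 * l + 1 ≤ 5 * N))
      (by norm_num)
  have h3 : (5 * N : ℝ) ^ (1 / 2 : ℝ) * (5 * N : ℝ) ^ (1 / 2 : ℝ) = 5 * N := by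
    rw [← Real.rpow_add' hN0 (by norm_num)]
    norm_num
  have h4 : ∀ x ∈ seg l, ∑ y ∈ seg l, F x y ^ 2 ≤ 20 * K ^ 2 * N := fun x hx => by
    refine (sum_le_sum (h1 x hx)).trans ?_
    rw [← mul_sum]
    calc _ ≤ K ^ 2 * (5 * N : ℝ) ^ (1 / 2 : ℝ) * (4 * (5 * N : ℝ) ^ (1 / 2 : ℝ)) :=
          mul_le_mul_of_nonneg_left ((seg_sum hx).trans (by linarith)) (by positivity)
      _ = 4 * K ^ 2 * ((5 * N : ℝ) ^ (1 / 2 : ℝ) * (5 * N : ℝ) ^ (1 / 2 : ℝ)) := by ring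
      _ = _ := by rw [h3]; ring
  refine (sum_le_card_nsmul _ _ _ h4).trans ?_
  rw [nsmul_eq_mul]
  calc _ ≤ 5 * l * (20 * K ^ 2 * N) := mul_le_mul_of_nonneg_right (card_le hl) (by positivity)
    _ = _ := by ring

theorem sum2_add {s : Finset ℤ} {F F₁ F₂ : ℤ → ℤ → ℝ} {u v : ℝ}
    (h : ∀ x y, F x y ≤ 2 * F₁ x y + 2 * F₂ x y) (h1 : ∑ x ∈ s, ∑ y ∈ s, F₁ x y ≤ u)
    (h2 : ∑ x ∈ s, ∑ y ∈ s, F₂ x y ≤ v) : ∑ x ∈ s, ∑ y ∈ s, F x y ≤ 2 * u + 2 * v := by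
  refine (sum_le_sum fun x _ => sum_le_sum fun y _ => h x y).trans ?_
  simp only [sum_add_distrib, ← mul_sum]
  linarith

theorem norm_add_sq_le (u v : ℂ) : ‖u + v‖ ^ 2 ≤ 2 * ‖u‖ ^ 2 + 2 * ‖v‖ ^ 2 := by
  have := pow_le_pow_left₀ (norm_nonneg _) (norm_add_le u v) 2
  nlinarith [sq_nonneg (‖u‖ - ‖v‖)]

/-- Kernel estimates on one row. -/
theorem row_est {A : Pt → ℝ} {C₀ C₂ Cb Cp M : ℝ} (hA : KerSpec A C₀) {p z : Pt} {N l : ℕ}
    (hl : 1 ≤ l) (hz : ‖z - p‖ + 4 * l ≤ N) (hC₂ : 0 ≤ C₂)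
    (ha : ∀ q ∈ box p N, ∀ j, |a q j - 1| ≤ M / N)
    (hG : ∀ b ∈ box p N, ∀ w ∈ box p N, |G b w| ≤ C₂ / (1 + ‖b - w‖))
    (hP : ∀ b ∈ box p N, ∀ w ∈ box p N,
      |G b w - A (b - w) + born A a (box p (4 * N)) b w| ≤ Cp / N)
    (hB : ∀ b ∈ box p N, ∀ w ∈ box p N, |born A a (box p (4 * N)) b w| ≤
      Cb * (M / N) * (5 * N / (1 + ‖b - w‖)) ^ (1 / 4 : ℝ)) :
    ∑ x ∈ seg l, ∑ y ∈ seg l, (rowK a G z x y - sinK (x - y) +
      born A a (box p (4 * N)) (z + (x, 1)) (z + (y, 0))) ^ 2 ≤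
        (5 * (|M| * C₂ + |Cp|) * (l / N)) ^ 2 ∧
    ∑ x ∈ seg l, ∑ y ∈ seg l, born A a (box p (4 * N)) (z + (x, 1)) (z + (y, 0)) ^ 2 ≤
      100 * (Cb * M) ^ 2 * (l / N) := by
  have hl' : (1 : ℝ) ≤ l := by exact_mod_cast hl
  have hlN : (l : ℝ) ≤ N := by linarith [norm_nonneg (z - p)]
  have hN0 : (0 : ℝ) < N := by linarith
  have e : ∀ x y : ℤ, z + (x, 1) - (z + (y, 0)) = (x - y, 1) := fun x y => by
    rw [add_sub_add_left_eq_sub]
    simp
  constructor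
  · refine (sum2_le hl (e := (|M| * C₂ + |Cp|) / N) fun x hx y hy => ?_).trans (le_of_eq ?_)
    · have hb := mem_box_off hl hz hx zero_le_one le_rfl
      have hw := mem_box_off hl hz hy le_rfl zero_le_one
      have k1 := hP _ hb _ hw
      rw [e, hA.row] at k1
      have k2 : |G (z + (x, 1)) (z + (y, 0))| ≤ C₂ :=
        (hG _ hb _ hw).trans (div_le_self hC₂ (le_add_of_nonneg_right (norm_nonneg _)))
      have k3 : |(a (z + (x, 1)) 2 - 1) * G (z + (x, 1)) (z + (y, 0))| ≤ |M| / N * C₂ := by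
        rw [abs_mul]
        exact mul_le_mul ((ha _ hb 2).trans (div_le_div_of_nonneg_right (le_abs_self _) hN0.le))
          k2 (abs_nonneg _) (by positivity)
      have k4 : Cp / N ≤ |Cp| / N := div_le_div_of_nonneg_right (le_abs_self _) hN0.le
      rw [← sq_abs]
      refine pow_le_pow_left₀ (abs_nonneg _) ?_ 2
      have k5 := abs_add_le ((a (z + (x, 1)) 2 - 1) * G (z + (x, 1)) (z + (y, 0)))
        (G (z + (x, 1)) (z + (y, 0)) - sinK (x - y) +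
          born A a (box p (4 * N)) (z + (x, 1)) (z + (y, 0)))
      rw [rowK, add_div, mul_div_right_comm]
      refine le_trans (le_of_eq ?_) (k5.trans (by linarith))
      congr 1
      ring
    · ring
  · refine (born_sum hl (by exact_mod_cast hlN) (K := Cb * (M / N)) fun x hx y hy => ?_).trans
      (le_of_eq ?_)
    · rw [← e]
      exact hB _ (mem_box_off hl hz hx zero_le_one le_rfl) _
        (mem_box_off hl hz hy le_rfl zero_le_one)
    · field_simp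

theorem ar1 {K₁ Cf K x y : ℝ} (h1 : 0 ≤ K₁) (h2 : 0 ≤ Cf) (h3 : 0 < K) (hx : 0 < x) (hy : 0 ≤ y) :
    K₁ * x + y ≤ (2 * (K₁ + Cf) + K + 1) * (x + y) ∧
      2 * (K₁ + Cf) * x + K * x + y ≤ (2 * (K₁ + Cf) + K + 1) * (x + y) := by
  have := mul_nonneg h1 hx.le
  have := mul_nonneg h2 hx.le
  have := mul_nonneg h3.le hx.le
  have := mul_nonneg h1 hy
  have := mul_nonneg h2 hy
  have := mul_nonneg h3.le hy
  constructor <;> linarith

theorem ar2 {K₁ Cf l N : ℝ} (h1 : 0 ≤ K₁) :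
    2 * (K₁ * (l / N)) ^ 2 + 2 * (Cf * l / N) ^ 2 ≤ (2 * (K₁ + |Cf|) * (l / N)) ^ 2 := by
  rw [mul_div_assoc, mul_pow, mul_pow, mul_pow, ← sq_abs Cf]
  have h := mul_nonneg h1 (abs_nonneg Cf)
  have k : 2 * K₁ ^ 2 + 2 * |Cf| ^ 2 ≤ (2 * (K₁ + |Cf|)) ^ 2 := by
    nlinarith [sq_nonneg K₁, sq_nonneg |Cf|]
  have := mul_le_mul_of_nonneg_right k (sq_nonneg (l / N))
  linarith

theorem ar3 (u b : ℝ) : u ^ 2 ≤ 2 * (u + b) ^ 2 + 2 * b ^ 2 := by
  nlinarith [sq_nonneg (u + 2 * b)]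

end Row

open Row in
theorem row (h1 : SignStmt) (h2 : DetStmt) (h3 : KerStmt) (h4 : AprioriStmt) (h5 : BornStmt)
    (h6 : ParamStmt) (h7 : FarStmt) (h8 : ToolStmt) (h9 : CoreStmt) (h10 : GreenStmt) :
    RowStmt := by
  obtain ⟨A, C₀, hA⟩ := h3
  obtain ⟨L, hL, hcore⟩ := h9
  refine ⟨L, hL, fun M D C₁ => ?_⟩
  obtain ⟨Ca, N₀, hap⟩ := h4 M D
  obtain ⟨Cb, hCb, hborn⟩ := h5 A C₀ hA
  obtain ⟨Cp, hpar⟩ := h6 A C₀ hA M Ca
  obtain ⟨cf, hcf, Cf, hfar⟩ := h7 A C₀ hA M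
  obtain ⟨C₂, hC₂⟩ : ∃ C₂, C₂ = |C₀| + 5 * Cb * |M| + 3 * |Cp| := ⟨_, rfl⟩
  have hC₂0 : 0 ≤ C₂ := by rw [hC₂]; positivity
  obtain ⟨Cg, hgreen⟩ := h10 C₂
  obtain ⟨c, hc, C, hC, σ₀, hσ₀, n₀, hcr⟩ := hcore (max C₁ Cg)
  obtain ⟨K₁, hK₁⟩ : ∃ K₁, K₁ = 5 * (|M| * C₂ + |Cp|) := ⟨_, rfl⟩
  have hK₁0 : 0 ≤ K₁ := by rw [hK₁]; positivity
  obtain ⟨K, hK⟩ : ∃ K, K = 2 * K₁ ^ 2 + 200 * (Cb * M) ^ 2 + 1 := ⟨_, rfl⟩
  have hK0 : 0 < K := by rw [hK]; positivity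
  obtain ⟨C₃, hC₃⟩ : ∃ C₃, C₃ = 2 * Real.exp (C + 1) * (2 * (40 * C₂) ^ 2 + 1) := ⟨_, rfl⟩
  have hC₃0 : 0 < C₃ := by rw [hC₃]; positivity
  obtain ⟨C₄, hC₄⟩ : ∃ C₄, C₄ = C * (2 * (K₁ + |Cf|) + K + 1) := ⟨_, rfl⟩
  have hC₄0 : 0 < C₄ := by rw [hC₄]; positivity
  refine ⟨c * cf, mul_pos hc hcf, |Cg| + C₃ + C₄, by positivity, σ₀ ^ 2 / K, by positivity,
    |n₀| + 1 + N₀ + 2 * |M|, ?_⟩
  intro V f a p N n l W B hW hB hloc hn hLn hl4 hr z hz
  subst hW hB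
  have hM0 := abs_nonneg M
  have hn0 := abs_nonneg n₀
  have hN₀0 : (0 : ℝ) ≤ N₀ := Nat.cast_nonneg _
  have hn1 : 1 ≤ n := by linarith
  have hnl : n ≤ l := (le_mul_of_one_le_left (by linarith) hL).trans hLn
  have hl' : (1 : ℝ) ≤ l := by linarith
  have hl : 1 ≤ l := by exact_mod_cast hl'
  have hlN : (l : ℝ) ≤ N := by linarith [norm_nonneg (z - p)]
  have hN' : (1 : ℝ) ≤ N := by linarith
  have hN0 : (0 : ℝ) < N := by linarith
  have hN : 1 ≤ N := by exact_mod_cast hN'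
  have hMN : M / N ≤ 1 / 2 := by
    rw [div_le_iff₀ hN0]
    linarith [le_abs_self M]
  have hgood := hloc.good hMN
  obtain ⟨G, hinv, hdet⟩ := h2 _ _ a (h1 V f hloc.conn.2 hloc.root) hgood
  have hmem : ∀ k, k ≤ 9 → ∀ q ∈ box p (k * N), q ∈ whites V ∧ q ∈ blacks V f := fun k hk q hq =>
    have := hloc.mem hN (box_mono p (Nat.mul_le_mul_right N hk) hq)
    ⟨this.1, this.2.1⟩
  have ha4 : ∀ q ∈ box p (4 * N), ∀ j, |a q j - 1| ≤ M / N := fun q hq =>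
    hloc.abs_le (hmem 4 (by norm_num) q hq).2
  have hsub : box p N ⊆ box p (4 * N) := box_mono p (by omega)
  have hpN : p ∈ box p N := mem_box.2 (by simp)
  have hM : 0 ≤ M / N := (abs_nonneg _).trans (ha4 p (hsub hpN) 0)
  have hP := hpar _ _ a G p N hN hinv (hmem 5 (by norm_num)) ha4
    (hap V f a p N G (by exact_mod_cast (by linarith : (N₀ : ℝ) ≤ N)) hloc hinv)
  have hBn : ∀ b ∈ box p N, ∀ w ∈ box p N, |born A a (box p (4 * N)) b w| ≤
      Cb * (M / N) * (5 * N / (1 + ‖b - w‖)) ^ (1 / 4 : ℝ) := fun b hb w hw =>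
    hborn a _ b w _ _ (by linarith) hM fun u hu => ⟨dist_five hb hu, dist_five hw hu, ha4 u hu⟩
  have hG : ∀ b ∈ box p N, ∀ w ∈ box p N, |G b w| ≤ C₂ / (1 + ‖b - w‖) := fun b hb w hw =>
    hC₂ ▸ G_le hN' (le_add_of_nonneg_right (norm_nonneg _)) (one_add_le hN hb hw) hCb
      (hA.bound _) (hBn b hb w hw) (hP b hb w hw)
  have ha2 : ∀ q ∈ box p N, ∀ j, |a q j| ≤ 2 := fun q hq j => by
    have := abs_le.1 (ha4 q (hsub hq) j)
    rw [abs_le]
    constructor <;> linarith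
  have hq1 : ∀ q ∈ box p N, q ∈ whites V ∧ q ∈ blacks V f ∧ ∀ j, |a q j| ≤ 2 := fun q hq =>
    have := hmem 4 (by norm_num) q (hsub hq)
    ⟨this.1, this.2, ha2 q hq⟩
  have hgr := fun (z : Pt) (hz : ‖z - p‖ + 4 * l ≤ N) =>
    hgreen _ _ a G p z N l hinv hq1 hG hl hz
  have hest := fun (z : Pt) (hz : ‖z - p‖ + 4 * l ≤ N) =>
    row_est hA hl hz hC₂0 (fun q hq => ha4 q (hsub hq)) hG hP hBn
  rw [← hK₁] at hest
  have hx0 : (0 : ℝ) < l / N := by positivity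
  have hx1 : (l : ℝ) / N ≤ 1 := (div_le_one hN0).2 hlN
  have hxK : K * (l / N) ≤ σ₀ ^ 2 := by
    rw [← le_div_iff₀' hK0, div_le_iff₀ hN0]
    exact hr
  have hK₁x : (K₁ * (l / N)) ^ 2 ≤ K₁ ^ 2 * (l / N) := by
    rw [mul_pow]
    exact mul_le_mul_of_nonneg_left (pow_le_of_le_one hx0.le hx1 two_ne_zero) (sq_nonneg _)
  have hσ : ∀ z : Pt, ‖z - p‖ + 4 * l ≤ N → ∑ x ∈ seg l, ∑ y ∈ seg l,
      (rowK a G z x y - sinK (x - y)) ^ 2 ≤ Real.sqrt (K * (l / N)) ^ 2 := fun z hz => by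
    rw [Real.sq_sqrt (by positivity)]
    refine (sum2_add (fun x y => ar3 _ _) (hest z hz).1 (hest z hz).2).trans ?_
    rw [hK]
    linarith only [hK₁x, hx0]
  have hcz := fun (z : Pt) (hz : ‖z - p‖ + 4 * l ≤ N) (Θ : ℤ → ℝ) (hΘ : Adm L C₁ n l Θ) (σ : ℝ)
      (s0 : 0 ≤ σ) (s1 : σ ≤ σ₀) (s2 : ∑ x ∈ seg l, ∑ y ∈ seg l,
        (rowK a G z x y - sinK (x - y)) ^ 2 ≤ σ ^ 2) =>
    hcr n l Θ (rowK a G z) σ (by linarith [le_abs_self n₀]) hLn hl4
      (adm_mono hΘ (le_max_left _ _) (by linarith)) s0 s1 s2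
      ((hgr z hz).1.trans (le_max_right _ _))
  have hsq : Real.sqrt (K * (l / N)) ≤ σ₀ := Real.sqrt_le_iff.2 ⟨hσ₀.le, hxK⟩
  have hrow : ∀ x ∈ seg l, z + (x, 0) ∈ whites V := fun x hx =>
    (hq1 _ (mem_box_off hl hz hx le_rfl zero_le_one)).1
  have hy : 0 ≤ 1 / Real.sqrt n := by positivity
  have hCg := abs_nonneg Cg
  have hCf := abs_nonneg Cf
  refine ⟨fun k θ t hk hθ => ((hgr z hz).2 hgood hdet k θ t hk hθ).trans ?_, fun Θ hΘ =>
    ⟨fun hu => ?_, fun Δ₀ hΔ => ?_, fun z' Θ' hz' hΘ' hd => ?_⟩⟩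
  · refine mul_le_mul_of_nonneg_right (mul_le_mul_of_nonneg_right ?_ (sq_nonneg _))
      (Real.sqrt_nonneg _)
    linarith [le_abs_self Cg]
  · have hone : ∀ u ∈ box p (4 * N), ∀ j, a u j = 1 := fun u hu' j => by
      by_cases hp : Primal u
      · obtain ⟨v, rfl⟩ := primal_iff.1 hp
        exact hu v (pr_mem_blacks.1 (hmem 4 (by norm_num) _ hu').2) j
      · exact hloc.face u j hp
    have hb0 : ∀ b w, born A a (box p (4 * N)) b w = 0 := fun b w =>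
      sum_eq_zero fun u hu' => sum_eq_zero fun j _ => by rw [hone u hu' j]; ring
    have k1 := (hest z hz).1
    simp only [hb0, add_zero] at k1
    have k2 : K₁ * (l / N) ≤ σ₀ := by
      refine (abs_le_of_sq_le_sq' (hK₁x.trans (le_trans ?_ hxK)) hσ₀.le).2
      refine mul_le_mul_of_nonneg_right ?_ hx0.le
      rw [hK]
      linarith only [sq_nonneg (Cb * M), sq_nonneg K₁]
    rw [cmean_rowT hdet hrow]
    refine (hcz z hz Θ hΘ _ (by positivity) k2 k1).2.1.trans ?_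
    calc _ ≤ C * ((2 * (K₁ + |Cf|) + K + 1) * (l / N + 1 / Real.sqrt n)) :=
          mul_le_mul_of_nonneg_left (ar1 hK₁0 hCf hK0 hx0 hy).1 hC.le
      _ = C₄ * (l / N + 1 / Real.sqrt n) := by rw [hC₄]; ring
      _ ≤ _ := mul_le_mul_of_nonneg_right (by linarith) (by positivity)
  · obtain ⟨κ, k1, k2, k3⟩ := hfar a p z N l Δ₀ hl hz fun u hu =>
      ⟨fun hp j => hloc.face u j hp, ha4 u hu, hΔ u hu⟩
    have k4 : ∑ x ∈ seg l, ∑ y ∈ seg l, ‖((rowK a G z x y - sinK (x - y) : ℝ) : ℂ) -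
        wave κ x y‖ ^ 2 ≤ (2 * (K₁ + |Cf|) * (l / N)) ^ 2 := by
      refine (sum2_add (fun x y => ?_) (hest z hz).1 k3).trans ?_
      · have := norm_add_sq_le ((rowK a G z x y - sinK (x - y) +
          born A a (box p (4 * N)) (z + (x, 1)) (z + (y, 0)) : ℝ) : ℂ)
          (((-born A a (box p (4 * N)) (z + (x, 1)) (z + (y, 0)) : ℝ) : ℂ) - wave κ x y)
        rw [norm_real, Real.norm_eq_abs, sq_abs] at this
        refine le_trans (le_of_eq ?_) this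
        congr 2
        push_cast
        ring
      · exact ar2 hK₁0
    have k5 := (hcz z hz Θ hΘ _ (Real.sqrt_nonneg _) hsq (hσ z hz)).2.2 κ _ (by positivity) k1 k4
    rw [Real.sq_sqrt (by positivity)] at k5
    rw [cmean_rowT hdet hrow]
    refine le_trans ?_ k5
    have k6 : c * cf * ‖Δ₀‖ * (n / N) * (Real.log (N / l) - 2) ≤ c * n * ‖κ 0 1‖ :=
      calc _ = c * n * (cf * ‖Δ₀‖ * (Real.log (N / l) - 2) / N) := by ring
        _ ≤ _ := mul_le_mul_of_nonneg_left k2 (by positivity)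
    have k7 : C * (2 * (K₁ + |Cf|) * (l / N) + K * (l / N) + 1 / Real.sqrt n) ≤
        (|Cg| + C₃ + C₄) * (l / N + 1 / Real.sqrt n) :=
      calc _ ≤ C * ((2 * (K₁ + |Cf|) + K + 1) * (l / N + 1 / Real.sqrt n)) :=
            mul_le_mul_of_nonneg_left (ar1 hK₁0 hCf hK0 hx0 hy).2 hC.le
        _ = C₄ * (l / N + 1 / Real.sqrt n) := by rw [hC₄]; ring
        _ ≤ _ := mul_le_mul_of_nonneg_right (by linarith) (by positivity)
    linarith
  · refine (ccov_le h8 hgood hdet hl hz hz' hd (fun q hq => (hq1 q hq).1) ha2 hG hC₂0 hC.le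
      (hcz z hz Θ hΘ _ (Real.sqrt_nonneg _) hsq (hσ z hz)).1
      (hcz z' hz' Θ' hΘ' _ (Real.sqrt_nonneg _) hsq (hσ z' hz')).1).trans ?_
    rw [← hC₃]
    exact mul_le_mul_of_nonneg_right (by linarith) (sq_nonneg _)

end Pool.Agent.Lib.MP_60c5b4_pr.H
end
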