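import Pool.Agent.Lib.MP_60c5b4_pr.H.Sign
import Pool.Agent.Lib.MP_60c5b4_pr.H.Ker

import Pool.Agent.Lib.MP_60c5b4_pr.H.Param


import Pool.Agent.Lib.MP_60c5b4_pr.H.Born


import Pool.Agent.Lib.MP_60c5b4_pr.H.Cyc


import Pool.Agent.Lib.MP_60c5b4_pr.H.CoreDet
import Pool.Agent.Lib.MP_60c5b4_pr.H.Mode

import Pool.Agent.Lib.MP_60c5b4_pr.H.Row

import Pool.Agent.Lib.MP_60c5b4_pr.H.Key

import Pool.Agent.Lib.MP_60c5b4_pr.H.Limit

/-!
Assembly of the modules.
-/

namespace Pool.Agent.Lib.MP_60c5b4_pr.H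

theorem key_all : KeyStmt :=
  key (row sign det_formula ker (apriori maxp energy bdry) born_bound (param born_bound)
    (far born_bound) tool (core (pert tool) cyc (soft tool cyc) (mode cyc)) green) obs

end Pool.Agent.Lib.MP_60c5b4_pr.H
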