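import Pool.Agent.Lib.MP_60c5b4_pr.H.Defs

-- part Pool.Agent.Lib.MP_60c5b4_pr.H.Stmts
section

/-!
Internal definitions and the statements of the modules of the proof that the near-critical
height function is singular to the critical one. Plan: `hs_PLAN.md` in the team store.
The norm on `Pt = ℤ × ℤ` is the sup norm of Mathlib.
-/

namespace Pool.Agent.Lib.MP_60c5b4_pr.H

open MeasureTheory Filter Topology Matrix Complex
open scoped ContDiff ComplexConjugate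

/-! ### Lattice notions -/

/-- The steps of the triangular lattice in hexagonal coordinates: `(1,1), (-2,1), (1,-2)`. -/
def dd (j : Fin 3) : Pt := pr (dir j)

/-- The sup norm ball. -/
noncomputable def box (c : Pt) (R : ℕ) : Finset Pt :=
  Finset.Icc (c.1 - R) (c.1 + R) ×ˢ Finset.Icc (c.2 - R) (c.2 + R)

/-- The row segment `[-2 l, 2 l]`. -/
noncomputable def seg (l : ℕ) : Finset ℤ := Finset.Icc (-2 * l : ℤ) (2 * l)

open Classical in
/-- Probability of a configuration. -/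
noncomputable def pw (W B : Finset Pt) (a : Pt → Fin 3 → ℝ) (σ : W → Fin 3) : ℝ :=
  (if IsMatching W B (ext W σ) then mwt W a (ext W σ) else 0) /
    ∑ σ' : W → Fin 3, if IsMatching W B (ext W σ') then mwt W a (ext W σ') else 0

/-- Expectation of a complex observable. -/
noncomputable def cmean (W B : Finset Pt) (a : Pt → Fin 3 → ℝ) (F : Cfg → ℂ) : ℂ :=
  ∑ σ : W → Fin 3, (pw W B a σ : ℂ) * F (ext W σ)

/-- Covariance of two complex observables. -/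
noncomputable def ccov (W B : Finset Pt) (a : Pt → Fin 3 → ℝ) (F F' : Cfg → ℂ) : ℂ :=
  cmean W B a (fun m => F m * conj (F' m)) - cmean W B a F * conj (cmean W B a F')

/-- The dimer measure is a probability measure. -/
def Good (W B : Finset Pt) (a : Pt → Fin 3 → ℝ) : Prop :=
  (∃ m, IsMatching W B m) ∧ ∀ b ∈ B, ∀ j, 0 < a b j

/-- `G b w` is the inverse of the Kasteleyn matrix, extended by zero. -/
structure IsInv (W B : Finset Pt) (a : Pt → Fin 3 → ℝ) (G : Pt → Pt → ℝ) : Prop where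
  zero : ∀ b w, ¬ (b ∈ B ∧ w ∈ W) → G b w = 0
  right : ∀ w ∈ W, ∀ w', ∑ j, a (w + eps j) j * G (w + eps j) w' = if w = w' then 1 else 0
  left : ∀ b, ∀ b' ∈ B, ∑ j, G b (b' - eps j) * a b' j = if b = b' then 1 else 0

/-- The edges of type `j` form a determinantal process. -/
def DetFormula (W B : Finset Pt) (a : Pt → Fin 3 → ℝ) (G : Pt → Pt → ℝ) : Prop :=
  ∀ (J : Type) [Fintype J] [DecidableEq J] (ι : J → Pt), Function.Injective ι → (∀ i, ι i ∈ W) →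
    ∀ (j : Fin 3) (t : J → ℂ), cmean W B a (fun m => ∏ i, if m (ι i) = j then t i else 1) =
      (1 + Matrix.of fun i i' : J =>
        (t i - 1) * ((a (ι i + eps j) j * G (ι i + eps j) (ι i') : ℝ) : ℂ)).det

/-- Any two dimer covers differ by an even permutation. -/
def EvenPerm (W B : Finset Pt) : Prop :=
  ∀ m m', IsMatching W B m → IsMatching W B m' → ∀ s : Equiv.Perm W,
    (∀ w : W, (s w : Pt) + eps (m' (s w)) = (w : Pt) + eps (m w)) → Equiv.Perm.sign s = 1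

/-- The lattice hypotheses at scale `N` around the centre `p`. -/
structure Loc (M D : ℝ) (V : Finset Pt) (f : Pt) (a : Pt → Fin 3 → ℝ) (p : Pt) (N : ℕ) :
    Prop where
  conn : SimplyConn V
  root : IsRoot V f
  face : ∀ b j, ¬ Primal b → a b j = 1
  drift : ∀ v ∈ V, ∑ j, a (pr v) j = 3 ∧ ∀ j, |a (pr v) j - 1| ≤ M / N
  bdd : ∀ v ∈ V, ‖pr v - p‖ ≤ D * N
  inner : ∀ v, ‖pr v - p‖ ≤ 10 * N → v ∈ V
  ex : ∃ m, IsMatching (whites V) (blacks V f) m

/-! ### B: Kasteleyn theory -/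

def SignStmt : Prop :=
  ∀ (V : Finset Pt) (f : Pt), Conn (V : Set Pt)ᶜ → IsRoot V f → EvenPerm (whites V) (blacks V f)

def DetStmt : Prop :=
  ∀ W B a, EvenPerm W B → Good W B a → ∃ G, IsInv W B a G ∧ DetFormula W B a G

/-! ### C: the plane kernel -/

/-- The discrete sine kernel of density `1 / 3`. -/
noncomputable def sinK (k : ℤ) : ℝ :=
  if k = 0 then 1 / 3 else -Real.sin (2 * Real.pi * k / 3) / (Real.pi * k)

structure KerSpec (A : Pt → ℝ) (C : ℝ) : Prop where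
  sum : ∀ p, ∑ j, A (p + eps j) = if p = 0 then 1 else 0
  bound : ∀ p, |A p| ≤ C / (1 + ‖p‖)
  asym : ∀ p : Pt, p ≠ 0 →
    |A p - (tau ^ (p.2 - p.1 - 1) / ((p.1 : ℂ) - p.2 * tau)).im / Real.pi| ≤ C / ‖p‖ ^ 2
  row : ∀ k : ℤ, A (k, 1) = sinK k

def KerStmt : Prop := ∃ A C, KerSpec A C

/-! ### D: the a priori bound -/

/-- The directed Laplacian with weights `a`. -/
noncomputable def lap (a : Pt → Fin 3 → ℝ) (u : Pt → ℝ) (b : Pt) : ℝ :=
  ∑ j, a b j * (u b - u (b + dd j))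

/-- Dirichlet energy over `U`. -/
noncomputable def grad2 (u : Pt → ℝ) (U : Finset Pt) : ℝ :=
  ∑ b ∈ U, ∑ j, (u b - u (b + dd j)) ^ 2

def Drift (a : Pt → Fin 3 → ℝ) (X : Finset Pt) (m : ℝ) : Prop :=
  ∀ b ∈ X, ∑ j, a b j = 3 ∧ ∀ j, |a b j - 1| ≤ m

/-- Solvability and the maximum principle. -/
def MaxStmt : Prop :=
  ∀ M D : ℝ, ∃ (C : ℝ) (N₀ : ℕ), 0 ≤ C ∧ ∀ (N : ℕ) (X : Finset Pt) (p : Pt)
    (a : Pt → Fin 3 → ℝ), N₀ ≤ N → Drift a X (M / N) → (∀ b ∈ X, ‖b - p‖ ≤ D * N) →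
    ∀ s : Pt → ℝ, ∃ u : Pt → ℝ, (∀ b ∉ X, u b = 0) ∧ (∀ b ∈ X, lap a u b = s b) ∧
      (∀ S, 0 ≤ S → (∀ b ∈ X, |s b| ≤ S) → ∀ b, |u b| ≤ C * N ^ 2 * S) ∧
      ∀ v : Pt → ℝ, (∀ b ∉ X, 0 ≤ v b) → (∀ b ∈ X, |s b| ≤ lap a v b) → ∀ b, |u b| ≤ v b

/-- Global energy estimate, Caccioppoli inequality and Nash inequality. -/
def EnergyStmt : Prop :=
  ∃ C : ℝ, 0 ≤ C ∧ ∀ (X : Finset Pt) (u : Pt → ℝ), (∀ b ∉ X, u b = 0) →
    (∀ (a : Pt → Fin 3 → ℝ) (m : ℝ), Drift a X m →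
      (∀ U, grad2 u U ≤ 4 * ∑ b ∈ X, u b * lap a u b + 12 * m ^ 2 * ∑ b ∈ X, u b ^ 2) ∧
      ∀ (p : Pt) (N : ℕ), 3 ≤ N → grad2 u (box p (4 * N + 3)) ≤
        C * (∑ b ∈ X ∩ box p (8 * N), |u b * lap a u b| +
          (m ^ 2 + 1 / (N : ℝ) ^ 2) * ∑ b ∈ box p (8 * N + 3), u b ^ 2)) ∧
    ∀ E : ℝ, (∀ U, grad2 u U ≤ E) → (∑ b ∈ X, u b ^ 2) ^ 2 ≤ C * (∑ b ∈ X, |u b|) ^ 2 * E

/-- Values on the boundary faces are controlled by the jumps across the exit edges. -/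
def BdryStmt : Prop :=
  ∀ V f, SimplyConn V → IsRoot V f → ∀ F : Pt → ℝ, F f = 0 →
    (∀ v ∉ V, ∀ j, v + dir j ∈ V →
      F (pr v - eps j + eps (j + 1)) + F (pr v - eps j + eps (j + 2)) = 0) →
    ∀ t, IsRoot V t → |F t| ≤ ∑ v ∈ V, ∑ j, if v + dir j ∈ V then 0 else
      |F (pr v - eps j + eps (j + 1)) + F (pr v - eps j + eps (j + 2))|

/-- Operator norm bound on a box. -/
def L2B (G : Pt → Pt → ℝ) (p : Pt) (R : ℕ) (C : ℝ) : Prop :=
  ∀ ξ : Pt → ℝ, ∑ b ∈ box p R, (∑ w ∈ box p R, G b w * ξ w) ^ 2 ≤ C ^ 2 * ∑ w ∈ box p R, ξ w ^ 2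

def AprioriStmt : Prop :=
  ∀ M D : ℝ, ∃ (C : ℝ) (N₀ : ℕ), ∀ V f a p (N : ℕ) G, N₀ ≤ N → Loc M D V f a p N →
    IsInv (whites V) (blacks V f) a G → L2B G p (4 * N) (C * N)

/-! ### E: the parametrix -/

/-- First order (Born) term. -/
noncomputable def born (A : Pt → ℝ) (a : Pt → Fin 3 → ℝ) (U : Finset Pt) (b w : Pt) : ℝ :=
  ∑ u ∈ U, ∑ j, A (b - u + eps j) * (a u j - 1) * A (u - w)

def BornStmt : Prop :=
  ∀ A C₀, KerSpec A C₀ → ∃ C : ℝ, 0 ≤ C ∧ ∀ a (U : Finset Pt) (b w : Pt) (m ρ : ℝ), 1 ≤ ρ → 0 ≤ m →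
    (∀ u ∈ U, ‖u - b‖ ≤ ρ ∧ ‖u - w‖ ≤ ρ ∧ ∀ j, |a u j - 1| ≤ m) →
    |born A a U b w| ≤ C * m * (ρ / (1 + ‖b - w‖)) ^ (1 / 4 : ℝ)

def ParamStmt : Prop :=
  ∀ A C₀, KerSpec A C₀ → ∀ M C₁ : ℝ, ∃ C : ℝ, ∀ W B a G p (N : ℕ), 1 ≤ N → IsInv W B a G →
    (∀ q ∈ box p (5 * N), q ∈ W ∧ q ∈ B) → (∀ b ∈ box p (4 * N), ∀ j, |a b j - 1| ≤ M / N) →
    L2B G p (4 * N) (C₁ * N) → ∀ b ∈ box p N, ∀ w ∈ box p N,
      |G b w - A (b - w) + born A a (box p (4 * N)) b w| ≤ C / N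

/-- Combination of the plane waves at the two Fermi momenta. -/
noncomputable def wave (κ : Fin 2 → Fin 2 → ℂ) (x y : ℤ) : ℂ :=
  ∑ s : Fin 2, ∑ t : Fin 2,
    κ s t * tau ^ (((s : ℕ) + 1 : ℤ) * x) * conj (tau ^ (((t : ℕ) + 1 : ℤ) * y))

def FarStmt : Prop :=
  ∀ A C₀, KerSpec A C₀ → ∀ M : ℝ, ∃ c > (0 : ℝ), ∃ C : ℝ, ∀ (a : Pt → Fin 3 → ℝ) (p z : Pt)
    (N l : ℕ) (Δ₀ : ℂ), 1 ≤ l → ‖z - p‖ + 4 * l ≤ N →
    (∀ u ∈ box p (4 * N), (¬ Primal u → ∀ j, a u j = 1) ∧ (∀ j, |a u j - 1| ≤ M / N) ∧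
      (Primal u → ‖(N : ℂ) * ∑ j : Fin 3, ((a u j - 1 : ℝ) : ℂ) * tau ^ (j : ℕ) - Δ₀‖ ≤ ‖Δ₀‖ / 2)) →
    ∃ κ : Fin 2 → Fin 2 → ℂ, (∀ s t, ‖κ s t‖ ≤ 3 * ‖κ 0 1‖) ∧
      c * ‖Δ₀‖ * (Real.log (N / l) - 2) / N ≤ ‖κ 0 1‖ ∧
      ∑ x ∈ seg l, ∑ y ∈ seg l, ‖((-born A a (box p (4 * N)) (z + (x, 1)) (z + (y, 0)) : ℝ) : ℂ) -
        wave κ x y‖ ^ 2 ≤ (C * l / N) ^ 2

/-! ### F: determinant toolkit -/

/-- Squared Hilbert-Schmidt norm. -/
noncomputable def hs {ι κ : Type} [Fintype ι] [Fintype κ] (Y : Matrix ι κ ℂ) : ℝ :=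
  ∑ i, ∑ j, ‖Y i j‖ ^ 2

/-- Squared Euclidean norm. -/
noncomputable def ns {ι : Type} [Fintype ι] (v : ι → ℂ) : ℝ := ∑ i, ‖v i‖ ^ 2

structure ToolStmt : Prop where
  upper : ∀ (ι : Type) [Fintype ι] [DecidableEq ι] (Y : Matrix ι ι ℂ),
    ‖Y.det‖ ^ 2 ≤ Real.exp (hs Y - Fintype.card ι)
  lower : ∀ (ι : Type) [Fintype ι] [DecidableEq ι] (Y : Matrix ι ι ℂ) (c C : ℝ), 0 < c →
    (∀ v, c * ns v ≤ ns (Y *ᵥ v)) → hs (Yᴴ * Y - 1) ≤ C → -C ≤ hs Y - Fintype.card ι →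
    Real.exp (-C - C / c) ≤ ‖Y.det‖ ^ 2
  schwarz : ∀ (f : ℂ → ℂ) (K ρ : ℝ), Differentiable ℂ f → 1 ≤ ρ →
    (∀ z, ‖z‖ = ρ → ‖f z‖ ≤ K) → ‖f 1 - f 0‖ ≤ 2 * K / ρ
  block : ∀ (ι κ : Type) [Fintype ι] [DecidableEq ι] [Fintype κ] [DecidableEq κ]
    (Y : Matrix ι ι ℂ) (U : Matrix ι κ ℂ) (U' : Matrix κ ι ℂ) (Y' : Matrix κ κ ℂ) (t s : ℝ),
    hs Y - Fintype.card ι ≤ t → hs Y' - Fintype.card κ ≤ t → hs U + hs U' ≤ s → 0 < s → s ≤ 1 →
    ‖(fromBlocks Y U U' Y').det - Y.det * Y'.det‖ ≤ 2 * Real.exp (t + 1) * s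

/-! ### G: the determinant with one unit of winding -/

/-- Abstract perturbation lemma. -/
def PertStmt : Prop :=
  ∀ C₁ c₁ : ℝ, 0 < c₁ → ∃ c > (0 : ℝ), ∃ C > (0 : ℝ), ∃ σ₀ > (0 : ℝ),
    ∀ (ι : Type) [Fintype ι] [DecidableEq ι] (P S X Y : Matrix ι ι ℂ) (g p q y z : ι → ℂ) (σ : ℝ),
      Pᴴ = P → P * P = P → (∀ i, ‖g i‖ = 1) → hs (diagonal g * P - P * diagonal g) ≤ C₁ →
      ns p ≤ C₁ → ns q ≤ C₁ → X = 1 + diagonal (fun i => g i - 1) * P →
      Y = X + vecMulVec p (star q) → (∀ v, c₁ * ns v ≤ ns (Y *ᵥ v)) → Y *ᵥ y = p → Yᴴ *ᵥ z = q →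
      0 ≤ σ → σ ≤ σ₀ → hs S ≤ σ ^ 2 → |(Xᴴ * S).trace.re| ≤ C₁ →
      hs (X + S) - Fintype.card ι ≤ C ∧ ‖(X + S).det‖ ≤ C * (‖X.det‖ + σ) ∧
        c * ‖star z ⬝ᵥ S *ᵥ y‖ - C * (‖X.det‖ + σ ^ 2) ≤ ‖(X + S).det‖

/-- Admissible phase: winds once, at scale `n`, close to the phase of a Blaschke factor. -/
structure Adm (L C₁ n : ℝ) (l : ℕ) (Θ : ℤ → ℝ) : Prop where
  left : ∀ x : ℤ, x ≤ -l → Θ x = 0
  right : ∀ x : ℤ, (l : ℤ) ≤ x → Θ x = 2 * Real.pi
  lip : ∀ x, |Θ (x + 1) - Θ x| ≤ C₁ / n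
  near : ∀ x : ℤ, |(x : ℝ)| ≤ L * n → |Θ x - (Real.pi + 2 * Real.arctan (x / n))| ≤ C₁ / n
  far : ∀ x : ℤ, |Θ x - (Real.pi + 2 * Real.arctan (x / n))| ≤ 3 / L

/-- The cyclic group of order `3 (2 k + 1)`. -/
abbrev Cy (k : ℕ) := ZMod (6 * k + 3)

/-- `exp (2 π i x / (6 k + 3))`. -/
noncomputable def chi {k : ℕ} (x : Cy k) : ℂ := ZMod.stdAddChar x

/-- Projection on the momenta in the middle third. -/
noncomputable def cP (k : ℕ) : Matrix (Cy k) (Cy k) ℂ := Matrix.of fun x y =>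
  (∑ j ∈ Finset.range (2 * k + 1), chi (((2 * k + 1 + j : ℕ) : Cy k) * (x - y))) / (6 * k + 3)

/-- The plane waves at the ends of the middle third: `τ ^ x` and `τ ^ (2 x)`. -/
noncomputable def cψ (k : ℕ) (s : Fin 2) (x : Cy k) : ℂ :=
  chi (((((s : ℕ) + 1) * (2 * k + 1) : ℕ) : Cy k) * x)

noncomputable def cκ (k : ℕ) (a : ℝ) : ℝ := Real.sqrt ((1 - a ^ 2) / (6 * k + 3))

noncomputable def cp (k : ℕ) (a : ℝ) (s : Fin 2) (x : Cy k) : ℂ :=
  cκ k a * cψ k s x / (1 - a * chi x)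

noncomputable def cq (k : ℕ) (a : ℝ) (s : Fin 2) (x : Cy k) : ℂ :=
  cκ k a * cψ k s x * conj (chi x) / (1 - a * conj (chi x))

/-- The Blaschke factor. -/
noncomputable def cB (k : ℕ) (a : ℝ) (x : Cy k) : ℂ := -(chi x - a) / (1 - a * chi x)

/-- The truncated phase on the cyclic group. -/
noncomputable def cg (k : ℕ) (Θ : ℤ → ℝ) (x : Cy k) : ℂ := exp (I * Θ x.valMinAbs)

/-- Exact algebra of the cyclic model. -/
structure CycStmt : Prop where
  herm : ∀ k, (cP k)ᴴ = cP k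
  idem : ∀ k, cP k * cP k = cP k
  diag : ∀ k x, cP k x x = 1 / 3
  entry : ∀ k (x y : Cy k), x ≠ y → ‖cP k x y‖ ≤ 1 / (2 * |((x - y).valMinAbs : ℝ)|)
  limit : ∀ x y : ℤ, Tendsto (fun k : ℕ => cP k x y) atTop (𝓝 (sinK (x - y)))
  shift : ∀ k (h : Cy k → ℂ), (1 + diagonal (fun x => h (x + 1) - 1) * cP k).det =
    (1 + diagonal (fun x => h x - 1) * cP k).det
  psi : ∀ k (s : Fin 2) (x : ℤ), cψ k s (x : Cy k) = tau ^ (((s : ℕ) + 1 : ℤ) * x)
  comm : ∀ k (a : ℝ), 0 < a → a < 1 → diagonal (cB k a) * cP k - cP k * diagonal (cB k a) =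
    vecMulVec (cp k a 0) (star (cq k a 0)) - vecMulVec (cp k a 1) (star (cq k a 1))
  unit : ∀ k (a : ℝ), 0 < a → a < 1 → ∀ x, ‖cB k a x‖ = 1 ∧ ∀ s, cB k a x * cq k a s x = -cp k a s x
  norm : ∀ k (a : ℝ), 0 < a → a < 1 → ∀ s,
    ns (cp k a s) = (1 + a ^ (6 * k + 3)) / (1 - a ^ (6 * k + 3)) ∧
    ns (cq k a s) = (1 + a ^ (6 * k + 3)) / (1 - a ^ (6 * k + 3))
  small : ∀ k (a E : ℝ), 0 < a → a < 1 → E = (a ^ (2 * k + 1) / (1 - a ^ (6 * k + 3))) ^ 2 →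
    ns (cp k a 0 - cP k *ᵥ cp k a 0) ≤ E ∧ ns (cq k a 1 - cP k *ᵥ cq k a 1) ≤ E ∧
    ns (cP k *ᵥ cp k a 1) ≤ E ∧ ns (cP k *ᵥ cq k a 0) ≤ E
  osc : ∀ k (a : ℝ), 0 < a → a < 1 → ∀ s t : Fin 2, s ≠ t →
    ‖∑ x, conj (cψ k s x) * (cp k a t x + cq k a t x)‖ ≤
      2 * cκ k a * (6 * k + 3) * a ^ (2 * k) / (1 - a ^ (6 * k + 3))

/-- Soft estimates for the truncated phase. -/
def SoftStmt : Prop :=
  ∀ L C₁ : ℝ, 1 ≤ L → ∃ C : ℝ, ∀ (n : ℝ) (l : ℕ) (Θ : ℤ → ℝ), 1 ≤ n → L * n ≤ l → l ≤ 4 * L * n →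
    Adm L C₁ n l Θ → ∀ k : ℕ, l ≤ k →
      hs (diagonal (cg k Θ) * cP k - cP k * diagonal (cg k Θ)) ≤ C ∧
      ‖(1 + diagonal (fun x => cg k Θ x - 1) * cP k).det‖ ≤ C / Real.sqrt n ∧
      ∑ x ∈ Finset.Icc (-l : ℤ) l, ‖cP k x x - ∑ y ∈ seg l, cP k x y * cP k y x‖ ≤ C

/-- Invertibility after a rank one correction, and the overlaps with the plane waves. -/
def ModeStmt : Prop :=
  ∃ L : ℝ, 1 ≤ L ∧ ∃ c > (0 : ℝ), ∃ C : ℝ, ∀ C₁ : ℝ, ∃ n₀ : ℝ, ∀ (n : ℝ) (l : ℕ) (Θ : ℤ → ℝ),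
    n₀ ≤ n → L * n ≤ l → l ≤ 4 * L * n → Adm L C₁ n l Θ → ∀ᶠ k : ℕ in atTop,
      ∃ (Y : Matrix (Cy k) (Cy k) ℂ) (p q y z : Cy k → ℂ),
        Y = 1 + diagonal (fun x => cg k Θ x - 1) * cP k + vecMulVec p (star q) ∧
        ns p ≤ C ∧ ns q ≤ C ∧ ns y ≤ C ∧ ns z ≤ C ∧ (∀ v, c * ns v ≤ ns (Y *ᵥ v)) ∧
        Y *ᵥ y = p ∧ Yᴴ *ᵥ z = q ∧
        ∀ κ : Fin 2 → Fin 2 → ℂ, (∀ s t, ‖κ s t‖ ≤ 3 * ‖κ 0 1‖) → c * n * ‖κ 0 1‖ ≤
          ‖∑ x ∈ seg l, ∑ x' ∈ seg l, conj (z x) * (exp (I * Θ x) - 1) * wave κ x x' * y x'‖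

/-- The matrix `1 + (exp (i Θ) - 1) K` on the segment. -/
noncomputable def segMat (l : ℕ) (Θ : ℤ → ℝ) (K : ℤ → ℤ → ℝ) : Matrix (seg l) (seg l) ℂ :=
  1 + Matrix.of fun x y : seg l => (exp (I * Θ x) - 1) * (K x y : ℂ)

def CoreStmt : Prop :=
  ∃ L : ℝ, 1 ≤ L ∧ ∀ C₁ : ℝ, ∃ c > (0 : ℝ), ∃ C > (0 : ℝ), ∃ σ₀ > (0 : ℝ), ∃ n₀ : ℝ,
    ∀ (n : ℝ) (l : ℕ) (Θ : ℤ → ℝ) (K : ℤ → ℤ → ℝ) (σ : ℝ), n₀ ≤ n → L * n ≤ l → l ≤ 4 * L * n →
      Adm L C₁ n l Θ → 0 ≤ σ → σ ≤ σ₀ →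
      ∑ x ∈ seg l, ∑ y ∈ seg l, (K x y - sinK (x - y)) ^ 2 ≤ σ ^ 2 →
      ∑ x ∈ Finset.Icc (-l : ℤ) l, |K x x - ∑ y ∈ seg l, K x y * K y x| ≤ C₁ →
      hs (segMat l Θ K) - Fintype.card (seg l) ≤ C ∧
      ‖(segMat l Θ K).det‖ ≤ C * (σ + 1 / Real.sqrt n) ∧
      ∀ (κ : Fin 2 → Fin 2 → ℂ) (σ' : ℝ), 0 ≤ σ' → (∀ s t, ‖κ s t‖ ≤ 3 * ‖κ 0 1‖) →
        ∑ x ∈ seg l, ∑ y ∈ seg l, ‖((K x y - sinK (x - y) : ℝ) : ℂ) - wave κ x y‖ ^ 2 ≤ σ' ^ 2 →
        c * n * ‖κ 0 1‖ - C * (σ' + σ ^ 2 + 1 / Real.sqrt n) ≤ ‖(segMat l Θ K).det‖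

/-! ### H: consequences of the Green identity -/

/-- Kernel of the edges of type `2` on the row of `z`. -/
noncomputable def rowK (a : Pt → Fin 3 → ℝ) (G : Pt → Pt → ℝ) (z : Pt) (x y : ℤ) : ℝ :=
  a (z + (x, 1)) 2 * G (z + (x, 1)) (z + (y, 0))

/-- Vertical increment of a row average of the centred height. -/
noncomputable def vinc (W B : Finset Pt) (a : Pt → Fin 3 → ℝ) (z : Pt) (l k : ℕ) (θ : ℤ → ℝ)
    (m : Cfg) : ℝ :=
  ∑ x ∈ seg l, θ x * (cheight W B a m (z + (x, (k : ℤ))) - cheight W B a m (z + (x, 0)))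

def GreenStmt : Prop :=
  ∀ C₂ : ℝ, ∃ C : ℝ, ∀ W B a G (p z : Pt) (N l : ℕ), IsInv W B a G →
    (∀ q ∈ box p N, q ∈ W ∧ q ∈ B ∧ ∀ j, |a q j| ≤ 2) →
    (∀ b ∈ box p N, ∀ w ∈ box p N, |G b w| ≤ C₂ / (1 + ‖b - w‖)) → 1 ≤ l → ‖z - p‖ + 4 * l ≤ N →
    ∑ x ∈ Finset.Icc (-l : ℤ) l,
      |rowK a G z x x - ∑ y ∈ seg l, rowK a G z x y * rowK a G z y x| ≤ C ∧
    (Good W B a → DetFormula W B a G → ∀ (k : ℕ) (θ : ℤ → ℝ) (t : ℝ), k ≤ l → (∀ x, |θ x| ≤ t) →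
      dmean W B a (fun m => vinc W B a z l k θ m ^ 2) ≤ C * (t * l) ^ 2 * Real.sqrt (k / l))

/-! ### R: the row observables -/

/-- The row observable. -/
noncomputable def rowT (z : Pt) (l : ℕ) (Θ : ℤ → ℝ) (m : Cfg) : ℂ :=
  ∏ x ∈ seg l, if m (z + (x, 0)) = 2 then exp (I * Θ x) else 1

def RowStmt : Prop :=
  ∃ L : ℝ, 1 ≤ L ∧ ∀ M D C₁ : ℝ, ∃ c > (0 : ℝ), ∃ C > (0 : ℝ), ∃ r₀ > (0 : ℝ), ∃ n₀ : ℝ,
    ∀ V f a p (N : ℕ) (n : ℝ) (l : ℕ) W B, W = whites V → B = blacks V f → Loc M D V f a p N →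
      n₀ ≤ n → L * n ≤ l → l ≤ 4 * L * n → l ≤ r₀ * N → ∀ z : Pt, ‖z - p‖ + 4 * l ≤ N →
      (∀ (k : ℕ) (θ : ℤ → ℝ) (t : ℝ), k ≤ l → (∀ x, |θ x| ≤ t) →
        dmean W B a (fun m => vinc W B a z l k θ m ^ 2) ≤ C * (t * l) ^ 2 * Real.sqrt (k / l)) ∧
      ∀ Θ, Adm L C₁ n l Θ →
        ((∀ v ∈ V, ∀ j, a (pr v) j = 1) →
          ‖cmean W B a (rowT z l Θ)‖ ≤ C * (l / N + 1 / Real.sqrt n)) ∧
        (∀ Δ₀ : ℂ, (∀ u ∈ box p (4 * N), Primal u →
          ‖(N : ℂ) * ∑ j : Fin 3, ((a u j - 1 : ℝ) : ℂ) * tau ^ (j : ℕ) - Δ₀‖ ≤ ‖Δ₀‖ / 2) →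
          c * ‖Δ₀‖ * (n / N) * (Real.log (N / l) - 2) - C * (l / N + 1 / Real.sqrt n) ≤
            ‖cmean W B a (rowT z l Θ)‖) ∧
        ∀ z' Θ', ‖z' - p‖ + 4 * l ≤ N → Adm L C₁ n l Θ' → 8 * l ≤ ‖z - z'‖ →
          ‖ccov W B a (rowT z l Θ) (rowT z' l Θ')‖ ≤ C * (l / ‖z - z'‖) ^ 2

/-! ### I: smooth test functions -/

/-- Skew coordinates: `xi (bpos δ b) = δ b.1`. -/
noncomputable def xi (z : ℂ) : ℝ := z.re - Real.sqrt 3 * z.im

/-- Skew coordinates: `ups (bpos δ b) = δ b.2`. -/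
noncomputable def ups (z : ℂ) : ℝ := z.re + Real.sqrt 3 * z.im

/-- The test function of total mass `-2 π` (after normalisation), of width `r` and height `e`. -/
noncomputable def tst (Φ : ℝ → ℝ) (lam r e x₀ y₀ : ℝ) (z : ℂ) : ℝ :=
  -(2 * Real.pi / (lam * r * e)) * deriv Φ ((xi z - x₀) / r) *
    deriv Real.smoothTransition ((ups z - y₀) / e)

/-- The exponential observable. -/
noncomputable def chr (lam δ : ℝ) (W B : Finset Pt) (a : Pt → Fin 3 → ℝ) (φ : ℂ → ℝ) (m : Cfg) :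
    ℂ := exp (I * pairing lam δ W B a m φ)

def ObsStmt : Prop :=
  ∀ L : ℝ, 1 ≤ L → ∃ (Φ : ℝ → ℝ) (C₁ C : ℝ), 0 ≤ C₁ ∧ 0 ≤ C ∧
    ∀ lam r e x₀ y₀ : ℝ, lam ≠ 0 → 0 < r → 0 < e →
      (∀ Ω : Set ℂ, (∀ z, |xi z - x₀| ≤ 2 * L * r → |ups z - y₀| ≤ e → z ∈ Ω) →
        IsTest Ω (tst Φ lam r e x₀ y₀)) ∧
      ∀ (δ : ℝ) W B a (z : Pt) (l : ℕ) (R s : ℝ), 0 < δ → 3 * L ≤ r / δ → 1 ≤ e / δ →
        z = (⌊x₀ / δ⌋, ⌊y₀ / δ⌋ - 1) → l = ⌈3 * L * (r / δ)⌉₊ → Good W B a →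
        (∀ x ∈ seg l, z + (x, 0) ∈ W) → (∀ y, ((W.filter fun w => w.2 = y).card : ℝ) ≤ R) →
        0 ≤ s → (∀ (k : ℕ) (θ : ℤ → ℝ), (k : ℝ) ≤ e / δ + 2 → (∀ x, |θ x| ≤ C₁ / (r / δ)) →
          dmean W B a (fun m => vinc W B a z l k θ m ^ 2) ≤ s ^ 2) →
        ∃ (Θ : ℤ → ℝ) (u : ℂ), Adm L C₁ (r / δ) l Θ ∧ ‖u‖ = 1 ∧
          dmean W B a (fun m => ‖chr lam δ W B a (tst Φ lam r e x₀ y₀) m - u * rowT z l Θ m‖) ≤
            C * (s + R / (r / δ) ^ 2 + R / (e / δ) ^ 2)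

/-! ### J: the separating statistics -/

/-- The conclusion of the discrete analysis. -/
def Separated (Ω : Set ℂ) (lam : ℝ) (c c' : ℂ → Fin 3 → ℝ) (δ δ' : ℕ → ℝ) (V V' : ℕ → Finset Pt)
    (f f' : ℕ → Pt) : Prop :=
  ∀ η > (0 : ℝ), ∃ (k : ℕ) (φ : Fin k → ℂ → ℝ) (m₀ m₁ v : ℝ), (∀ i, IsTest Ω (φ i)) ∧ 0 < k ∧
    m₀ < m₁ ∧ v ≤ η * (k * (m₁ - m₀)) ^ 2 ∧
    (∀ᶠ n in atTop, ∀ W B a T, W = whites (V n) → B = blacks (V n) (f n) → a = ewt c (δ n) →
      T = (fun i => chr lam (δ n) W B a (φ i)) →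
      (∀ i, m₁ ≤ ‖cmean W B a (T i)‖) ∧ ∑ i, ∑ j, ‖ccov W B a (T i) (T j)‖ ≤ v) ∧
    ∀ᶠ n in atTop, ∀ W B a T, W = whites (V' n) → B = blacks (V' n) (f' n) → a = ewt c' (δ' n) →
      T = (fun i => chr lam (δ' n) W B a (φ i)) →
      (∀ i, ‖cmean W B a (T i)‖ ≤ m₀) ∧ ∑ i, ∑ j, ‖ccov W B a (T i) (T j)‖ ≤ v

def KeyStmt : Prop :=
  ∀ (Ω : Set ℂ), IsOpen Ω → Bornology.IsBounded Ω → ∀ Δ : ℂ → ℂ, ContinuousOn Δ Ω →
    (∃ M, ∀ z ∈ Ω, ‖Δ z‖ ≤ M) → (∃ z ∈ Ω, Δ z ≠ 0) → ∀ c : ℂ → Fin 3 → ℝ,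
    (∀ z ∈ Ω, c z 0 + c z 1 + c z 2 = 0 ∧ Δ z = (c z 0 + c z 1 * tau + c z 2 * tau ^ 2) / 3) →
    ∀ (δ δ' : ℕ → ℝ) (V V' : ℕ → Finset Pt) (f f' : ℕ → Pt), Approximates Ω δ V →
    Approximates Ω δ' V' → (∀ n, SimplyConn (V n) ∧ IsRoot (V n) (f n)) →
    (∀ n, SimplyConn (V' n) ∧ IsRoot (V' n) (f' n)) →
    (∀ᶠ n in atTop, ∃ m, IsMatching (whites (V n)) (blacks (V n) (f n)) m) →
    (∀ᶠ n in atTop, ∃ m, IsMatching (whites (V' n)) (blacks (V' n) (f' n)) m) →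
    ∀ lam : ℝ, lam ≠ 0 → Separated Ω lam c (fun _ _ => 0) δ δ' V V' f f'

structure LimitStmt : Prop where
  ex : ∀ Ω lam c δ V f (S : Type) [MeasurableSpace S] (ev : (ℂ → ℝ) → S → ℝ) (μ : Measure S),
    HeightLimit Ω lam c δ V f ev μ →
    ∀ᶠ n in atTop, ∃ m, IsMatching (whites (V n)) (blacks (V n) (f n)) m
  sing : ∀ Ω lam c c' δ δ' V V' f f' (S : Type) [MeasurableSpace S] (ev : (ℂ → ℝ) → S → ℝ)
    (μ ν : Measure S), (∀ φ, IsTest Ω φ → Measurable (ev φ)) → HeightLimit Ω lam c δ V f ev μ →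
    HeightLimit Ω lam c' δ' V' f' ev ν → Separated Ω lam c c' δ δ' V V' f f' →
    μ.MutuallySingular ν ∧ ¬ μ.AbsolutelyContinuous ν

end Pool.Agent.Lib.MP_60c5b4_pr.H
end

-- part Pool.Agent.Lib.MP_60c5b4_pr.H.Basic
section

/-!
Basic lemmas shared by the modules.
-/

namespace Pool.Agent.Lib.MP_60c5b4_pr.H

open Finset
open scoped ComplexConjugate

/-! ### Norms and boxes -/

theorem norm_pt (p : Pt) : ‖p‖ = max |(p.1 : ℝ)| |(p.2 : ℝ)| := by
  rw [Prod.norm_def, Int.norm_eq_abs, Int.norm_eq_abs]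

/-- The sup norm as a natural number. -/
def nn (p : Pt) : ℕ := max p.1.natAbs p.2.natAbs

theorem norm_eq_nn (p : Pt) : ‖p‖ = nn p := by
  rw [norm_pt, nn, Nat.cast_max, Nat.cast_natAbs, Nat.cast_natAbs, Int.cast_abs, Int.cast_abs]

theorem norm_le_iff (p : Pt) (R : ℤ) : ‖p‖ ≤ R ↔ |p.1| ≤ R ∧ |p.2| ≤ R := by
  rw [norm_pt, max_le_iff, ← Int.cast_abs, ← Int.cast_abs, Int.cast_le, Int.cast_le]

theorem mem_box' {q c : Pt} {R : ℕ} : q ∈ box c R ↔
    (c.1 - R ≤ q.1 ∧ q.1 ≤ c.1 + R) ∧ c.2 - R ≤ q.2 ∧ q.2 ≤ c.2 + R := by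
  simp [box]

theorem mem_box {q c : Pt} {R : ℕ} : q ∈ box c R ↔ ‖q - c‖ ≤ R := by
  have := norm_le_iff (q - c) R
  rw [Int.cast_natCast] at this
  rw [this, mem_box', abs_le, abs_le]
  simp only [Prod.fst_sub, Prod.snd_sub]
  omega

theorem card_box (c : Pt) (R : ℕ) : (box c R).card = (2 * R + 1) ^ 2 := by
  simp only [box, card_product, Int.card_Icc]
  rw [show c.1 + R + 1 - (c.1 - R) = ((2 * R + 1 : ℕ) : ℤ) by push_cast; ring,
    show c.2 + R + 1 - (c.2 - R) = ((2 * R + 1 : ℕ) : ℤ) by push_cast; ring, Int.toNat_natCast, sq]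

theorem box_mono (c : Pt) {R R' : ℕ} (h : R ≤ R') : box c R ⊆ box c R' := fun q hq => by
  rw [mem_box'] at *; omega

theorem mem_seg {x : ℤ} {l : ℕ} : x ∈ seg l ↔ -2 * l ≤ x ∧ x ≤ 2 * l := by simp [seg]

theorem card_seg (l : ℕ) : (seg l).card = 4 * l + 1 := by
  simp only [seg, Int.card_Icc]
  rw [show (2 * l + 1 - -2 * l : ℤ) = ((4 * l + 1 : ℕ) : ℤ) by push_cast; ring, Int.toNat_natCast]

@[simp] theorem eps_zero : eps 0 = 0 := rfl
@[simp] theorem eps_one : eps 1 = (1, 0) := rfl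
@[simp] theorem eps_two : eps 2 = (0, 1) := rfl
@[simp] theorem dd_zero : dd 0 = (1, 1) := rfl
@[simp] theorem dd_one : dd 1 = (-2, 1) := rfl
@[simp] theorem dd_two : dd 2 = (1, -2) := rfl
theorem dir_zero : dir 0 = (1, 0) := rfl
theorem dir_one : dir 1 = (0, 1) := rfl
theorem dir_two : dir 2 = (-1, -1) := rfl

theorem eps_injective : Function.Injective eps := by decide

theorem norm_eps (j : Fin 3) : ‖eps j‖ ≤ 1 := by
  have := (norm_le_iff (eps j) 1).2 (by revert j; decide)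
  simpa using this

theorem norm_dd (j : Fin 3) : ‖dd j‖ ≤ 2 := by
  have := (norm_le_iff (dd j) 2).2 (by revert j; decide)
  simpa using this

theorem pr_add (v w : Pt) : pr (v + w) = pr v + pr w := by
  simp only [pr, Prod.fst_add, Prod.snd_add, Prod.mk_add_mk, Prod.mk.injEq]; omega

theorem pr_sub (v w : Pt) : pr (v - w) = pr v - pr w := by
  simp only [pr, Prod.fst_sub, Prod.snd_sub, Prod.mk_sub_mk, Prod.mk.injEq]; omega

theorem pr_add_dir (v : Pt) (j : Fin 3) : pr (v + dir j) = pr v + dd j := pr_add _ _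

theorem pr_injective : Function.Injective pr := fun v w h => by
  simp only [pr, Prod.mk.injEq] at h
  ext <;> omega

theorem primal_pr (v : Pt) : Primal (pr v) := by
  simp only [Primal, pr]; omega

theorem primal_iff {b : Pt} : Primal b ↔ ∃ v, pr v = b := by
  refine ⟨fun h => ?_, fun ⟨v, h⟩ => h ▸ primal_pr v⟩
  obtain ⟨k, hk⟩ := h
  refine ⟨(b.2 + k, -k), ?_⟩
  ext <;> simp only [pr] <;> omega

/-- Every white vertex is an edge of the triangular lattice. -/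
theorem exists_edge (w : Pt) : ∃ v j, w = pr v - eps j := by
  have h : Primal (w + eps 0) ∨ Primal (w + eps 1) ∨ Primal (w + eps 2) := by
    simp only [Primal, eps_zero, eps_one, eps_two, Prod.fst_add, Prod.snd_add, add_zero]; omega
  rcases h with h | h | h <;> obtain ⟨v, hv⟩ := primal_iff.1 h <;>
    exact ⟨v, _, eq_sub_of_add_eq hv.symm⟩

theorem edge_unique {v v' : Pt} {j j' : Fin 3} (h : pr v - eps j = pr v' - eps j') :
    v = v' ∧ j = j' := by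
  have hj : j = j' := by
    fin_cases j <;> fin_cases j' <;> simp [pr, Prod.ext_iff] at h ⊢ <;> omega
  subst hj
  exact ⟨pr_injective (sub_left_injective h), rfl⟩

theorem primal_edge_iff {v : Pt} {j i : Fin 3} : Primal (pr v - eps j + eps i) ↔ i = j := by
  fin_cases j <;> fin_cases i <;> simp [Primal, pr] <;> omega

theorem edge_mem_whites {V : Finset Pt} {v : Pt} {j : Fin 3} :
    pr v - eps j ∈ whites V ↔ v ∈ V ∨ v + dir j ∈ V := by
  simp only [whites, mem_union, mem_image, mem_product, mem_univ, and_true]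
  constructor
  · rintro (⟨⟨u, i⟩, hu, h⟩ | ⟨⟨u, i⟩, hu, h⟩)
    · exact Or.inl ((edge_unique h).1 ▸ hu)
    · obtain ⟨rfl, rfl⟩ := edge_unique h
      exact Or.inr (by simpa using hu)
  · rintro (h | h)
    · exact Or.inl ⟨(v, j), h, rfl⟩
    · exact Or.inr ⟨(v + dir j, j), h, by simp⟩

theorem mem_faces {V : Finset Pt} {t : Pt} :
    t ∈ faces V ↔ ¬ Primal t ∧ ∃ i, t - eps i ∈ whites V := by
  simp only [faces, mem_filter, mem_image, mem_product, mem_univ, and_true]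
  rw [and_comm]
  refine and_congr_right fun _ =>
    ⟨fun ⟨⟨w, i⟩, hw, h⟩ => ⟨i, by rwa [← h, add_sub_cancel_right]⟩,
    fun ⟨i, h⟩ => ⟨(_, i), h, sub_add_cancel _ _⟩⟩

theorem mem_blacks {V : Finset Pt} {f b : Pt} :
    b ∈ blacks V f ↔ (∃ v ∈ V, pr v = b) ∨ (b ≠ f ∧ b ∈ faces V) := by
  simp [blacks]

theorem pr_mem_blacks {V : Finset Pt} {f v : Pt} : pr v ∈ blacks V f ↔ v ∈ V := by
  rw [mem_blacks, mem_faces]
  refine ⟨?_, fun h => Or.inl ⟨v, h, rfl⟩⟩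
  rintro (⟨u, hu, h⟩ | ⟨-, h, -⟩)
  · exact pr_injective h ▸ hu
  · exact absurd (primal_pr v) h

theorem root_not_mem {V : Finset Pt} {f : Pt} (h : IsRoot V f) : f ∉ blacks V f := by
  rw [mem_blacks]
  rintro (⟨v, -, hv⟩ | ⟨h', -⟩)
  · exact (mem_faces.1 h.1).1 (hv ▸ primal_pr v)
  · exact h' rfl

/-- Points well inside the region where all primal vertices lie in `V`. -/
theorem mem_of_inner {V : Finset Pt} {f p q : Pt} {R : ℝ} (hf : IsRoot V f)
    (h : ∀ v, ‖pr v - p‖ ≤ R → v ∈ V) (hq : ‖q - p‖ + 1 ≤ R) :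
    q ∈ whites V ∧ q ∈ blacks V f ∧ ¬ IsRoot V q := by
  have key : ∀ v i j, q - eps i = pr v - eps j → v ∈ V := fun v i j e => h v <| by
    have h1 : pr v - p = (q - p) + (eps j - eps i) := by
      rw [eq_add_of_sub_eq e.symm]; abel
    have h2 : ‖eps j - eps i‖ ≤ 1 := by
      have := (norm_le_iff (eps j - eps i) 1).2 (by clear h1 e; revert i j; decide)
      simpa using this
    rw [h1]
    linarith [norm_add_le (q - p) (eps j - eps i)]
  have hw : q ∈ whites V := by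
    obtain ⟨v, j, e⟩ := exists_edge q
    rw [e, edge_mem_whites]
    exact Or.inl (key v 0 j (by simpa using e))
  have hr : ¬ IsRoot V q := fun ⟨_, v, hv, i, j, e⟩ => hv (key v i j e)
  refine ⟨hw, ?_, hr⟩
  by_cases hp : Primal q
  · obtain ⟨v, rfl⟩ := primal_iff.1 hp
    exact pr_mem_blacks.2 (key v 0 0 rfl)
  · exact mem_blacks.2 (Or.inr ⟨fun e => hr (e ▸ hf), mem_faces.2 ⟨hp, 0, by simpa using hw⟩⟩)

theorem Loc.mem {M D : ℝ} {V : Finset Pt} {f p : Pt} {a : Pt → Fin 3 → ℝ} {N : ℕ}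
    (h : Loc M D V f a p N) (hN : 1 ≤ N) {q : Pt} (hq : q ∈ box p (9 * N)) :
    q ∈ whites V ∧ q ∈ blacks V f ∧ ¬ IsRoot V q := by
  refine mem_of_inner h.root h.inner ?_
  have h1 := mem_box.1 hq
  have h2 : (1 : ℝ) ≤ N := by exact_mod_cast hN
  push_cast at h1
  linarith

theorem Loc.abs_le {M D : ℝ} {V : Finset Pt} {f p : Pt} {a : Pt → Fin 3 → ℝ} {N : ℕ}
    (h : Loc M D V f a p N) {b : Pt} (hb : b ∈ blacks V f) (j : Fin 3) :
    |a b j - 1| ≤ M / N := by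
  by_cases hp : Primal b
  · obtain ⟨v, rfl⟩ := primal_iff.1 hp
    exact (h.drift v (pr_mem_blacks.1 hb)).2 j
  · have hv : p - eps 0 ∈ whites V → ∃ v, v ∈ V := fun hw => by
      obtain ⟨v, i, e⟩ := exists_edge (p - eps 0)
      rw [e, edge_mem_whites] at hw
      exact hw.elim (fun h => ⟨_, h⟩) fun h => ⟨_, h⟩
    obtain ⟨i, hi⟩ := (mem_faces.1 h.root.1).2
    obtain ⟨v, i', e⟩ := exists_edge (f - eps i)
    rw [e, edge_mem_whites] at hi
    obtain ⟨u, hu⟩ : ∃ u, u ∈ V := hi.elim (fun h => ⟨_, h⟩) fun h => ⟨_, h⟩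
    rw [h.face b j hp, sub_self, abs_zero]
    exact (abs_nonneg _).trans ((h.drift u hu).2 0)

theorem Loc.good {M D : ℝ} {V : Finset Pt} {f p : Pt} {a : Pt → Fin 3 → ℝ} {N : ℕ}
    (h : Loc M D V f a p N) (hN : M / N ≤ 1 / 2) : Good (whites V) (blacks V f) a :=
  ⟨h.ex, fun b hb j => by have := (_root_.abs_le.1 (h.abs_le hb j)).1; linarith⟩

/-! ### Poincare lemma -/

theorem poincare_line {A : Type*} [AddCommGroup A] (α : ℤ → A) :
    ∃ φ : ℤ → A, φ 0 = 0 ∧ ∀ x, φ (x + 1) - φ x = α x := by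
  refine ⟨fun x => ∑ i ∈ range x.toNat, α i - ∑ i ∈ range (-x).toNat, α (-1 - i), by simp,
    fun x => ?_⟩
  rcases le_or_gt 0 x with h | h
  · obtain ⟨n, rfl⟩ := Int.eq_ofNat_of_zero_le h
    have h1 : ((n : ℤ) + 1).toNat = n + 1 := by omega
    have h2 : (-((n : ℤ) + 1)).toNat = 0 := by omega
    have h3 : (-(n : ℤ)).toNat = 0 := by omega
    simp only [h1, h2, h3, Int.toNat_natCast, sum_range_succ, range_zero, sum_empty]
    abel
  · obtain ⟨n, rfl⟩ : ∃ n : ℕ, x = -1 - n := ⟨(-1 - x).toNat, by omega⟩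
    have h1 : (-1 - (n : ℤ) + 1).toNat = 0 := by omega
    have h2 : (-(-1 - (n : ℤ) + 1)).toNat = n := by omega
    have h3 : (-(-1 - (n : ℤ))).toNat = n + 1 := by omega
    have h4 : (-1 - (n : ℤ)).toNat = 0 := by omega
    simp only [h1, h2, h3, h4, sum_range_succ, range_zero, sum_empty]
    abel

/-- A closed one-form on the square lattice is exact. -/
theorem poincare {A : Type*} [AddCommGroup A] (α β : Pt → A)
    (h : ∀ p, α p + β (p + (1, 0)) = β p + α (p + (0, 1))) :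
    ∃ φ : Pt → A, ∀ p, φ (p + (1, 0)) - φ p = α p ∧ φ (p + (0, 1)) - φ p = β p := by
  obtain ⟨φ₀, -, h₀⟩ := poincare_line fun x => α (x, 0)
  choose ψ hψ0 hψ using fun x : ℤ => poincare_line fun y => β (x, y)
  refine ⟨fun p => φ₀ p.1 + ψ p.1 p.2, fun ⟨x, y⟩ => ⟨?_, ?_⟩⟩
  · simp only [Prod.mk_add_mk, add_zero]
    have step : ∀ y, φ₀ (x + 1) + ψ (x + 1) (y + 1) - (φ₀ x + ψ x (y + 1)) - α (x, y + 1) =
        φ₀ (x + 1) + ψ (x + 1) y - (φ₀ x + ψ x y) - α (x, y) := fun y => by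
      have h1 := h (x, y)
      simp only [Prod.mk_add_mk, add_zero] at h1
      rw [eq_add_of_sub_eq (hψ (x + 1) y), eq_add_of_sub_eq (hψ x y),
        show β (x + 1, y) = β (x, y) + α (x, y + 1) - α (x, y) by rw [← h1]; abel]
      abel
    rw [← sub_eq_zero]
    induction y using Int.induction_on with
    | zero => rw [hψ0, hψ0, add_zero, add_zero, h₀, sub_self]
    | succ n ih => rw [step, ih]
    | pred n ih => rw [← step, sub_add_cancel, ih]
  · simp only [Prod.mk_add_mk, add_zero]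
    rw [← hψ x y]; abel

/-! ### Expectations -/

section mean
variable {W B : Finset Pt} {a : Pt → Fin 3 → ℝ}

theorem ext_apply (σ : W → Fin 3) {w : Pt} (hw : w ∈ W) : ext W σ w = σ ⟨w, hw⟩ := dif_pos hw

theorem IsMatching.congr {m m' : Cfg} (h : IsMatching W B m) (e : ∀ w ∈ W, m w = m' w) :
    IsMatching W B m' :=
  Set.BijOn.congr h fun w hw => by simp only [e w hw]

theorem IsMatching.ext {m : Cfg} (h : IsMatching W B m) :
    IsMatching W B (ext W fun w => m w) := h.congr fun w hw => (ext_apply (fun w : W => m w) hw).symm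

theorem dmean_eq (F : Cfg → ℝ) : dmean W B a F = ∑ σ : W → Fin 3, pw W B a σ * F (ext W σ) := by
  unfold dmean pw
  rw [sum_div]
  refine sum_congr rfl fun σ _ => ?_
  split_ifs <;> ring

theorem matching_of_pw {σ : W → Fin 3} (h : pw W B a σ ≠ 0) : IsMatching W B (ext W σ) := by
  by_contra h'
  exact h (by simp [pw, h'])

theorem Good.mwt_pos (h : Good W B a) {m : Cfg} (hm : IsMatching W B m) : 0 < mwt W a m :=
  prod_pos fun w hw => h.2 _ (hm.mapsTo hw) _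

open Classical in
theorem Good.Z_pos (h : Good W B a) :
    0 < ∑ σ : W → Fin 3, if IsMatching W B (ext W σ) then mwt W a (ext W σ) else 0 := by
  obtain ⟨m, hm⟩ := h.1
  refine sum_pos' (fun σ _ => ?_) ⟨fun w => m w, mem_univ _, ?_⟩
  · split_ifs with h'
    exacts [(h.mwt_pos h').le, le_rfl]
  · rw [if_pos hm.ext]; exact h.mwt_pos hm.ext

theorem Good.pw_nonneg (h : Good W B a) (σ : W → Fin 3) : 0 ≤ pw W B a σ := by
  refine div_nonneg ?_ h.Z_pos.le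
  split_ifs with h'
  exacts [(h.mwt_pos h').le, le_rfl]

theorem Good.sum_pw (h : Good W B a) : ∑ σ, pw W B a σ = 1 := by
  unfold pw
  rw [← sum_div, div_self h.Z_pos.ne']

theorem dmean_add (F F' : Cfg → ℝ) :
    dmean W B a (fun m => F m + F' m) = dmean W B a F + dmean W B a F' := by
  simp only [dmean_eq, mul_add, sum_add_distrib]

theorem dmean_sub (F F' : Cfg → ℝ) :
    dmean W B a (fun m => F m - F' m) = dmean W B a F - dmean W B a F' := by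
  simp only [dmean_eq, mul_sub, sum_sub_distrib]

theorem dmean_mul (c : ℝ) (F : Cfg → ℝ) : dmean W B a (fun m => c * F m) = c * dmean W B a F := by
  simp only [dmean_eq, mul_sum, mul_left_comm]

theorem dmean_sum {ι : Type*} (s : Finset ι) (F : ι → Cfg → ℝ) :
    dmean W B a (fun m => ∑ i ∈ s, F i m) = ∑ i ∈ s, dmean W B a (F i) := by
  simp only [dmean_eq, mul_sum]; exact sum_comm

theorem Good.dmean_const (h : Good W B a) (c : ℝ) : dmean W B a (fun _ => c) = c := by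
  rw [dmean_eq, ← sum_mul, h.sum_pw, one_mul]

theorem dmean_congr {F F' : Cfg → ℝ} (e : ∀ m, IsMatching W B m → F m = F' m) :
    dmean W B a F = dmean W B a F' := by
  simp only [dmean_eq]
  refine sum_congr rfl fun σ _ => ?_
  by_cases h : pw W B a σ = 0
  · simp [h]
  · rw [e _ (matching_of_pw h)]

theorem Good.dmean_mono (h : Good W B a) {F F' : Cfg → ℝ}
    (e : ∀ m, IsMatching W B m → F m ≤ F' m) : dmean W B a F ≤ dmean W B a F' := by
  simp only [dmean_eq]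
  refine sum_le_sum fun σ _ => ?_
  by_cases h' : pw W B a σ = 0
  · simp [h']
  · exact mul_le_mul_of_nonneg_left (e _ (matching_of_pw h')) (h.pw_nonneg σ)

/-- First moment from second moment. -/
theorem Good.dmean_abs_le (h : Good W B a) (F : Cfg → ℝ) {s : ℝ} (hs : 0 ≤ s)
    (e : dmean W B a (fun m => F m ^ 2) ≤ s ^ 2) : dmean W B a (fun m => |F m|) ≤ s := by
  obtain ⟨μ, hμ⟩ : ∃ μ, μ = dmean W B a (fun m => |F m|) := ⟨_, rfl⟩
  have h1 : dmean W B a (fun m => (2 * μ) * |F m| - μ ^ 2) ≤ dmean W B a fun m => F m ^ 2 :=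
    h.dmean_mono fun m _ => by nlinarith [sq_nonneg (|F m| - μ), sq_abs (F m)]
  rw [dmean_sub, dmean_mul, h.dmean_const, ← hμ] at h1
  rw [← hμ]
  exact (abs_le_of_sq_le_sq' (by nlinarith) hs).2

theorem cmean_re (F : Cfg → ℂ) : (cmean W B a F).re = dmean W B a fun m => (F m).re := by
  simp [cmean, dmean_eq]

theorem cmean_im (F : Cfg → ℂ) : (cmean W B a F).im = dmean W B a fun m => (F m).im := by
  simp [cmean, dmean_eq]

theorem cmean_ofReal (F : Cfg → ℝ) : cmean W B a (fun m => (F m : ℂ)) = (dmean W B a F : ℝ) := by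
  simp [cmean, dmean_eq]

theorem cmean_sub (F F' : Cfg → ℂ) :
    cmean W B a (fun m => F m - F' m) = cmean W B a F - cmean W B a F' := by
  simp only [cmean, mul_sub, sum_sub_distrib]

theorem cmean_mul (c : ℂ) (F : Cfg → ℂ) : cmean W B a (fun m => c * F m) = c * cmean W B a F := by
  simp only [cmean, mul_sum, mul_left_comm]

theorem cmean_conj (F : Cfg → ℂ) :
    cmean W B a (fun m => conj (F m)) = conj (cmean W B a F) := by
  simp [cmean]

theorem Good.norm_cmean_le (h : Good W B a) (F : Cfg → ℂ) :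
    ‖cmean W B a F‖ ≤ dmean W B a fun m => ‖F m‖ := by
  rw [cmean, dmean_eq]
  refine (norm_sum_le _ _).trans (sum_le_sum fun σ _ => ?_)
  rw [norm_mul, Complex.norm_real, Real.norm_of_nonneg (h.pw_nonneg σ)]

theorem Good.norm_cmean_le_one (h : Good W B a) {F : Cfg → ℂ} (hF : ∀ m, ‖F m‖ ≤ 1) :
    ‖cmean W B a F‖ ≤ 1 :=
  (h.norm_cmean_le F).trans ((h.dmean_mono fun m _ => hF m).trans (h.dmean_const 1).le)

/-! ### Height increments -/

/-- Indicator of the edge of type `j` at the white vertex `w`. -/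
def eta (W : Finset Pt) (m : Cfg) (w : Pt) (j : Fin 3) : ℝ := if w ∈ W ∧ m w = j then 1 else 0

theorem height_eq (m : Cfg) (f : Pt) :
    height W m f = ∑ w ∈ W, if w.2 = f.2 ∧ w.1 ≤ f.1 ∧ m w = 2 then (1 : ℝ) else 0 := by
  simp [height]

theorem eta_eq (m : Cfg) (w : Pt) (j : Fin 3) :
    eta W m w j = ∑ w' ∈ W, if w' = w ∧ m w' = j then (1 : ℝ) else 0 := by
  unfold eta
  by_cases hw : w ∈ W
  · rw [sum_eq_single w (fun b _ hb => by simp [hb]) (fun h => absurd hw h)]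
    simp [hw]
  · rw [if_neg (by simp [hw])]
    exact (sum_eq_zero fun b hb => if_neg fun h : b = w ∧ m b = j => hw (h.1 ▸ hb)).symm

theorem height_incr_two (m : Cfg) (w : Pt) :
    height W m w - height W m (w - (1, 0)) = eta W m w 2 := by
  rw [height_eq, height_eq, eta_eq, ← sum_sub_distrib]
  refine sum_congr rfl fun u _ => ?_
  simp only [Prod.ext_iff, Prod.fst_sub, Prod.snd_sub]
  split_ifs <;> first | omega | simp

theorem height_incr_one {m : Cfg} (h : IsMatching W B m) (w : Pt) :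
    height W m (w - (0, 1)) - height W m w - eta W m w 1 =
      ((B.filter fun b => b.2 = w.2 ∧ b.1 ≤ w.1).card : ℝ) -
        ((W.filter fun u => u.2 = w.2 ∧ u.1 ≤ w.1).card : ℝ) := by
  have hB : ((B.filter fun b => b.2 = w.2 ∧ b.1 ≤ w.1).card : ℝ) =
      ∑ u ∈ W, if (u + eps (m u)).2 = w.2 ∧ (u + eps (m u)).1 ≤ w.1 then (1 : ℝ) else 0 := by
    rw [card_filter, Nat.cast_sum]
    symm
    refine sum_nbij (fun u => u + eps (m u)) (fun u hu => h.mapsTo hu) h.injOn h.surjOn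
      fun u _ => ?_
    split_ifs <;> simp
  rw [hB, card_filter, Nat.cast_sum, height_eq, height_eq, eta_eq, ← sum_sub_distrib,
    ← sum_sub_distrib, ← sum_sub_distrib]
  refine sum_congr rfl fun u _ => ?_
  generalize m u = j
  simp only [Prod.ext_iff, Prod.fst_sub, Prod.snd_sub, Prod.fst_add, Prod.snd_add]
  fin_cases j <;> simp <;> split_ifs <;> first | omega | simp

/-- Across the edge of type `j` at the white vertex `w`, the height changes by the indicator of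
that edge plus a quantity that does not depend on the dimer cover. -/
theorem height_incr {m m' : Cfg} (h : IsMatching W B m) (h' : IsMatching W B m') (w : Pt)
    (j : Fin 3) :
    height W m (w - eps (j + 1)) - height W m (w - eps (j + 2)) - eta W m w j =
      height W m' (w - eps (j + 1)) - height W m' (w - eps (j + 2)) - eta W m' w j := by
  have h1 := (height_incr_one h w).trans (height_incr_one h' w).symm
  have h2 := height_incr_two (W := W) m w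
  have h3 := height_incr_two (W := W) m' w
  have h4 : ∀ m : Cfg, eta W m w 0 + eta W m w 1 + eta W m w 2 = if w ∈ W then 1 else 0 :=
    fun m => by
      unfold eta
      generalize m w = i
      by_cases hw : w ∈ W <;> fin_cases i <;> simp [hw]
  have h5 := (h4 m).trans (h4 m').symm
  have e0 : w - eps 0 = w := sub_zero w
  fin_cases j
  · show height W m (w - eps 1) - height W m (w - eps 2) - eta W m w 0 =
      height W m' (w - eps 1) - height W m' (w - eps 2) - eta W m' w 0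
    rw [eps_one, eps_two]; linarith
  · show height W m (w - eps 2) - height W m (w - eps 0) - eta W m w 1 =
      height W m' (w - eps 2) - height W m' (w - eps 0) - eta W m' w 1
    rw [e0, eps_two]; linarith
  · show height W m (w - eps 0) - height W m (w - eps 1) - eta W m w 2 =
      height W m' (w - eps 0) - height W m' (w - eps 1) - eta W m' w 2
    rw [e0, eps_one]; linarith

/-- The increments of the centred height are the centred edge indicators. -/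
theorem Good.cheight_incr (hG : Good W B a) {m : Cfg} (h : IsMatching W B m) (w : Pt)
    (j : Fin 3) : cheight W B a m (w - eps (j + 1)) - cheight W B a m (w - eps (j + 2)) =
      eta W m w j - dmean W B a fun m' => eta W m' w j := by
  have h1 : dmean W B a (fun m' => height W m' (w - eps (j + 1)) - height W m' (w - eps (j + 2)) -
      eta W m' w j) = dmean W B a fun _ => height W m (w - eps (j + 1)) -
        height W m (w - eps (j + 2)) - eta W m w j :=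
    dmean_congr fun m' h' => height_incr h' h w j
  rw [dmean_sub, dmean_sub, hG.dmean_const] at h1
  unfold cheight
  linarith

end mean

/-! ### Lattice sums -/

theorem card_shell (c : Pt) (k : ℕ) (U : Finset Pt) (h : ∀ u ∈ U, nn (u - c) = k) :
    U.card ≤ 8 * k + 1 := by
  rcases k with _ | k
  · refine (card_le_card (t := box c 0) fun u hu => ?_).trans (card_box c 0).le
    rw [mem_box, norm_eq_nn, h u hu]
  · have h1 : U ⊆ box c (k + 1) \ box c k := fun u hu => by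
      rw [mem_sdiff, mem_box, mem_box, norm_eq_nn, h u hu]
      exact ⟨le_rfl, by push_cast; linarith⟩
    refine (card_le_card h1).trans ?_
    rw [card_sdiff_of_subset (box_mono c (Nat.le_add_right k 1)), card_box, card_box]
    have : (2 * (k + 1) + 1) ^ 2 = (2 * k + 1) ^ 2 + 8 * (k + 1) := by ring
    omega

/-- Summation by shells. -/
theorem sum_le_shells (c : Pt) (R : ℕ) (U : Finset Pt) (hU : ∀ u ∈ U, ‖u - c‖ ≤ R) (g : Pt → ℝ)
    (F : ℕ → ℝ) (hF : ∀ k, 0 ≤ F k) (hg : ∀ u ∈ U, g u ≤ F (nn (u - c))) :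
    ∑ u ∈ U, g u ≤ ∑ k ∈ range (R + 1), (8 * k + 1) * F k := by
  rw [← sum_fiberwise_of_maps_to (g := fun u => nn (u - c)) (t := range (R + 1)) fun u hu => by
    have := hU u hu
    rw [norm_eq_nn, Nat.cast_le] at this
    exact mem_range.2 (by omega)]
  refine sum_le_sum fun k _ => ?_
  refine (sum_le_card_nsmul _ _ (F k) fun u hu => ?_).trans ?_
  · rw [← (mem_filter.1 hu).2]; exact hg u (mem_filter.1 hu).1
  · rw [nsmul_eq_mul]
    refine mul_le_mul_of_nonneg_right ?_ (hF k)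
    exact_mod_cast card_shell c k _ fun u hu => (mem_filter.1 hu).2

theorem sum_rpow_le (θ : ℝ) (h0 : 0 ≤ θ) (h1 : θ < 1) (R : ℕ) :
    ∑ k ∈ range R, (1 + k : ℝ) ^ (-θ) ≤ (R : ℝ) ^ (1 - θ) / (1 - θ) := by
  have hp : 0 < 1 - θ := by linarith
  induction R with
  | zero => simp [Real.zero_rpow hp.ne']
  | succ n ih =>
    rw [sum_range_succ]
    have hn : (0 : ℝ) < 1 + n := by positivity
    have hb := rpow_one_add_le_one_add_mul_self (s := -1 / (1 + n)) (p := 1 - θ)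
      (by rw [neg_div, neg_le_neg_iff, div_le_one hn]; linarith [Nat.cast_nonneg (α := ℝ) n])
      hp.le (by linarith)
    have e1 : (1 + -1 / (1 + n) : ℝ) = n / (1 + n) := by field_simp; ring
    rw [e1, Real.div_rpow (Nat.cast_nonneg n) hn.le, div_le_iff₀ (Real.rpow_pos_of_pos hn _)] at hb
    have e2 : (1 + n : ℝ) ^ (1 - θ) = (1 + n) * (1 + n) ^ (-θ) := by
      rw [sub_eq_add_neg, Real.rpow_add hn, Real.rpow_one]
    rw [le_div_iff₀ hp] at ih ⊢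
    push_cast
    rw [add_comm (n : ℝ) 1]
    have e3 : (1 + (1 - θ) * (-1 / (1 + n))) * (1 + n : ℝ) ^ (1 - θ) =
        (1 + n) ^ (1 - θ) - (1 - θ) * (1 + n) ^ (-θ) := by
      rw [e2]; field_simp; ring
    rw [e3] at hb
    linarith

/-- `∑ (1 + ‖u - c‖) ^ (-s)` over a ball, for `1 ≤ s < 2`. -/
theorem sum_ball_rpow_le (s : ℝ) (h1 : 1 ≤ s) (h2 : s < 2) (c : Pt) (R : ℕ) (U : Finset Pt)
    (hU : ∀ u ∈ U, ‖u - c‖ ≤ R) :
    ∑ u ∈ U, (1 + ‖u - c‖) ^ (-s) ≤ 8 * (R + 1 : ℝ) ^ (2 - s) / (2 - s) := by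
  refine (sum_le_shells c R U hU _ (fun k => (1 + k : ℝ) ^ (-s)) (fun k => by positivity)
    fun u _ => by rw [norm_eq_nn]).trans ?_
  have h := sum_rpow_le (s - 1) (by linarith) (by linarith) (R + 1)
  rw [show 1 - (s - 1) = 2 - s by ring] at h
  push_cast at h
  rw [mul_div_assoc]
  refine le_trans ?_ (mul_le_mul_of_nonneg_left h (by norm_num))
  rw [mul_sum]
  refine sum_le_sum fun k _ => ?_
  have hk : (0 : ℝ) < 1 + k := by positivity
  rw [show -(s - 1) = 1 + -s by ring, Real.rpow_add hk, Real.rpow_one, ← mul_assoc]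
  exact mul_le_mul_of_nonneg_right (by linarith) (by positivity)

/-! ### The cube root of unity and the skew coordinates -/

theorem tau_eq : tau = ⟨-1 / 2, Real.sqrt 3 / 2⟩ := by
  have h : (2 * Real.pi * Complex.I / 3 : ℂ) = ((Real.pi - Real.pi / 3 : ℝ) : ℂ) * Complex.I := by
    push_cast; ring
  rw [tau, h, Complex.ext_iff, Complex.exp_ofReal_mul_I_re, Complex.exp_ofReal_mul_I_im,
    Real.cos_pi_sub, Real.sin_pi_sub, Real.cos_pi_div_three, Real.sin_pi_div_three]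
  constructor <;> ring

theorem norm_tau : ‖tau‖ = 1 := by
  have h : (2 * Real.pi * Complex.I / 3 : ℂ) = ((2 * Real.pi / 3 : ℝ) : ℂ) * Complex.I := by
    push_cast; ring
  rw [tau, h, Complex.norm_exp_ofReal_mul_I]

theorem tau_ne_zero : tau ≠ 0 := Complex.exp_ne_zero _

theorem tau_sq : tau ^ 2 = -1 - tau := by
  have h : Real.sqrt 3 * Real.sqrt 3 = 3 := Real.mul_self_sqrt (by norm_num)
  rw [tau_eq, sq, Complex.ext_iff]
  constructor
  · simp; nlinarith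
  · simp; ring

theorem tau_cube : tau ^ 3 = 1 := by
  linear_combination (tau - 1) * tau_sq

theorem conj_tau : conj tau = tau ^ 2 := by
  rw [tau_sq, tau_eq, Complex.ext_iff]
  constructor <;> simp
  ring

theorem tau_zpow_eq {x y : ℤ} (h : (3 : ℤ) ∣ x - y) : tau ^ x = tau ^ y := by
  obtain ⟨k, hk⟩ := h
  rw [eq_add_of_sub_eq hk, zpow_add₀ tau_ne_zero, zpow_mul, zpow_ofNat, tau_cube, one_zpow, one_mul]

theorem conj_tau_zpow (x : ℤ) : conj (tau ^ x) = tau ^ (-x) := by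
  rw [map_zpow₀, conj_tau, ← zpow_natCast, ← zpow_mul]
  exact tau_zpow_eq ⟨x, by push_cast; ring⟩

/-- `‖x - y τ‖ ^ 2 = x ^ 2 + x y + y ^ 2`. -/
theorem normSq_zeta (p : Pt) :
    ‖(p.1 : ℂ) - p.2 * tau‖ ^ 2 = (p.1 : ℝ) ^ 2 + p.1 * p.2 + (p.2 : ℝ) ^ 2 := by
  have h : Real.sqrt 3 * Real.sqrt 3 = 3 := Real.mul_self_sqrt (by norm_num)
  rw [Complex.sq_norm, Complex.normSq_apply, tau_eq]
  simp
  linear_combination ((p.2 : ℝ) ^ 2 / 4) * h

theorem bpos_pr (δ : ℝ) (v : Pt) : bpos δ (pr v) = pos δ v := by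
  simp only [bpos, pr, pos]
  push_cast
  linear_combination (-(δ : ℂ) * (v.1 + v.2) / 3) * tau_sq

theorem xi_add (z w : ℂ) : xi (z + w) = xi z + xi w := by simp [xi]; ring

theorem ups_add (z w : ℂ) : ups (z + w) = ups z + ups w := by simp [ups]; ring

theorem bpos_re_im (δ : ℝ) (b : Pt) : (bpos δ b).re = δ * ((b.1 + b.2) / 2) ∧
    (bpos δ b).im = δ * (Real.sqrt 3 / 6 * (b.2 - b.1)) := by
  rw [bpos, tau_sq, tau_eq]
  constructor <;> simp <;> left <;> ring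

theorem xi_bpos (δ : ℝ) (b : Pt) : xi (bpos δ b) = δ * b.1 := by
  have h : Real.sqrt 3 * Real.sqrt 3 = 3 := Real.mul_self_sqrt (by norm_num)
  rw [xi, (bpos_re_im δ b).1, (bpos_re_im δ b).2]
  linear_combination (-δ * (b.2 - b.1) / 6) * h

theorem ups_bpos (δ : ℝ) (b : Pt) : ups (bpos δ b) = δ * b.2 := by
  have h : Real.sqrt 3 * Real.sqrt 3 = 3 := Real.mul_self_sqrt (by norm_num)
  rw [ups, (bpos_re_im δ b).1, (bpos_re_im δ b).2]
  linear_combination (δ * (b.2 - b.1) / 6) * h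

theorem xi_centre (δ : ℝ) (f : Pt) : xi (bpos δ f + 2 * δ / 3) = δ * (f.1 + 2 / 3) := by
  rw [xi_add, xi_bpos, show (2 * δ / 3 : ℂ) = ((2 * δ / 3 : ℝ) : ℂ) by push_cast; ring, xi,
    Complex.ofReal_re, Complex.ofReal_im]
  ring

theorem ups_centre (δ : ℝ) (f : Pt) : ups (bpos δ f + 2 * δ / 3) = δ * (f.2 + 2 / 3) := by
  rw [ups_add, ups_bpos, show (2 * δ / 3 : ℂ) = ((2 * δ / 3 : ℝ) : ℂ) by push_cast; ring, ups,
    Complex.ofReal_re, Complex.ofReal_im]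
  ring

end Pool.Agent.Lib.MP_60c5b4_pr.H
end

-- part Pool.Agent.Lib.MP_60c5b4_pr.H.Sign
section

/-!
Any two dimer covers of the Temperleyan graph differ by an even permutation. The sign of a cover
is read off from its inversions in the lexicographic order, whose parity is a linear function of
the height function that only depends on its boundary values.
-/

namespace Pool.Agent.Lib.MP_60c5b4_pr.H

open Finset

namespace Sign

/-- Lexicographic order, rows first. -/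
abbrev L (p q : Pt) : Prop := p.2 < q.2 ∨ (p.2 = q.2 ∧ p.1 < q.1)

def cmp (p q : Pt) : ℤ := if L p q then 1 else if L q p then -1 else 0

theorem tri {p q : Pt} (h : p ≠ q) : (L p q ∧ ¬ L q p) ∨ (L q p ∧ ¬ L p q) := by
  rw [Ne, Prod.ext_iff] at h
  omega

theorem cmp_anti (p q : Pt) : cmp p q = -cmp q p := by
  rcases eq_or_ne p q with rfl | h
  · simp [cmp, L]
  · rcases tri h with ⟨h1, h2⟩ | ⟨h1, h2⟩ <;> simp only [cmp, h1, h2, if_true, if_false, neg_neg]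

/-- Indicator of an inversion. -/
def inv1 (β : Pt → Pt) (p q : Pt) : ℕ := if L p q ∧ L (β q) (β p) then 1 else 0

theorem cmp_mul {β : Pt → Pt} {p q : Pt} (h : p ≠ q) (h' : β p ≠ β q) :
    cmp (β p) (β q) * cmp p q = (-1) ^ inv1 β q p * (-1) ^ inv1 β p q := by
  rcases tri h with ⟨h1, h2⟩ | ⟨h1, h2⟩ <;> rcases tri h' with ⟨h3, h4⟩ | ⟨h3, h4⟩ <;>
    simp only [cmp, inv1, h1, h2, h3, h4, if_true, if_false, and_true, and_false] <;> norm_num

theorem prod_inv {W : Finset Pt} {β : Pt → Pt} (hβ : Set.InjOn β W) {n : ℕ} (e : Fin n ≃ W) :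
    (∏ i, ∏ j ∈ Ioi i, cmp (β (e i)) (β (e j))) * ∏ i, ∏ j ∈ Ioi i, cmp (e i) (e j) =
      (-1) ^ ∑ p ∈ W, ∑ q ∈ W, inv1 β p q := by
  have h1 : ∀ i, ∀ j ∈ Ioi i, cmp (β (e i)) (β (e j)) * cmp (e i) (e j) =
      (-1) ^ inv1 β (e j) (e i) * (-1) ^ inv1 β (e i) (e j) := fun i j hj => by
    have h2 : (e i : Pt) ≠ e j := fun h => (mem_Ioi.1 hj).ne (e.injective (Subtype.ext h))
    exact cmp_mul h2 fun h => h2 (hβ (e i).2 (e j).2 h)
  rw [← prod_mul_distrib]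
  simp only [← prod_mul_distrib]
  rw [prod_congr rfl fun i _ => prod_congr rfl (h1 i),
    prod_prod_Ioi_mul_eq_prod_prod_off_diag fun j i => (-1 : ℤ) ^ inv1 β (e j) (e i)]
  simp only [prod_pow_eq_pow_sum]
  congr 1
  rw [sum_comm (s := W), ← sum_coe_sort W, ← e.sum_comp]
  refine sum_congr rfl fun i _ => ?_
  rw [← sum_coe_sort W, ← e.sum_comp]
  refine sum_subset (subset_univ _) fun j _ hj => ?_
  obtain rfl : j = i := by simpa using hj
  simp [inv1]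

/-- The black partner. -/
def bt (m : Cfg) (w : Pt) : Pt := w + eps (m w)

def tt (m : Cfg) (p q : Pt) : ℕ := if m p = 2 ∧ m q = 2 ∧ p.2 = q.2 ∧ p.1 < q.1 then 1 else 0

def aa (m : Cfg) (p q : Pt) : ℕ := if p.2 = q.2 ∧ p.1 < q.1 ∧ m p = 2 then 1 else 0

def bb (m : Cfg) (p b : Pt) : ℕ := if p.2 + 1 = b.2 ∧ b.1 < p.1 ∧ m p = 2 then 1 else 0

theorem inv1_add (m : Cfg) (p q : Pt) :
    inv1 (bt m) p q + tt m p q + tt m q p = aa m p q + bb m p (bt m q) := by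
  unfold inv1 tt aa bb bt
  generalize m p = i
  generalize m q = j
  fin_cases i <;> fin_cases j <;> simp [L] <;> (try split_ifs) <;> omega

/-- The linear functional with the parity of the number of inversions. -/
def Psi (W B : Finset Pt) (m : Cfg) : ℕ :=
  ∑ q ∈ W, ∑ p ∈ W, aa m p q + ∑ b ∈ B, ∑ p ∈ W, bb m p b

theorem pow_inv {W B : Finset Pt} {m : Cfg} (h : IsMatching W B m) :
    (-1 : ℤ) ^ ∑ p ∈ W, ∑ q ∈ W, inv1 (bt m) p q = (-1) ^ Psi W B m := by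
  have h1 : ∑ q ∈ W, ∑ p ∈ W, bb m p (bt m q) = ∑ b ∈ B, ∑ p ∈ W, bb m p b :=
    sum_nbij (bt m) (fun u hu => h.mapsTo hu) h.injOn h.surjOn fun _ _ => rfl
  have h2 : Psi W B m = ∑ p ∈ W, ∑ q ∈ W, inv1 (bt m) p q + 2 * ∑ p ∈ W, ∑ q ∈ W, tt m p q := by
    have h3 := sum_congr rfl fun p (_ : p ∈ W) =>
      sum_congr rfl fun q (_ : q ∈ W) => inv1_add m p q
    simp only [sum_add_distrib] at h3
    rw [sum_comm (f := fun p q => tt m q p), sum_comm (f := fun p q => aa m p q),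
      sum_comm (f := fun p q => bb m p (bt m q)), h1] at h3
    rw [Psi, ← h3]
    ring
  rw [h2, pow_add, pow_mul]
  simp

theorem Psi_eq {W : Finset Pt} (B : Finset Pt) (m : Cfg) {R : ℤ} (hR : ∀ w ∈ W, w.1 < R) :
    (Psi W B m : ℝ) = ∑ q ∈ W, height W m (q - (1, 0)) +
      ∑ b ∈ B, (height W m (R, b.2 - 1) - height W m (b - (0, 1))) := by
  simp only [Psi, height_eq, ← sum_sub_distrib, aa, bb]
  push_cast
  congr 1
  · refine sum_congr rfl fun q _ => sum_congr rfl fun p _ => ?_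
    simp only [Prod.fst_sub, Prod.snd_sub]
    split_ifs <;> first | omega | simp
  · refine sum_congr rfl fun b _ => sum_congr rfl fun p hp => ?_
    have := hR p hp
    simp only [Prod.fst_sub, Prod.snd_sub]
    split_ifs <;> first | omega | simp

section Height

variable {W B : Finset Pt} {m m' : Cfg}

/-- Difference of the heights. -/
def gg (W : Finset Pt) (m m' : Cfg) (f : Pt) : ℝ := height W m f - height W m' f

theorem step (h : IsMatching W B m) (h' : IsMatching W B m') {w : Pt} {j : Fin 3}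
    (hw : w ∉ W ∨ w + eps j ∉ B) :
    gg W m m' (w - eps (j + 1)) = gg W m m' (w - eps (j + 2)) := by
  have h1 : ∀ {m : Cfg}, IsMatching W B m → eta W m w j = 0 := fun h =>
    if_neg fun ⟨a, b⟩ => hw.elim (fun c => c a) fun c => c (b ▸ h.mapsTo a)
  have := height_incr h h' w j
  rw [h1 h, h1 h'] at this
  unfold gg
  linarith

theorem at_white (h : IsMatching W B m) (h' : IsMatching W B m') {w : Pt} (hw : w ∉ W)
    (i : Fin 3) : gg W m m' (w - eps i) = gg W m m' w := by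
  have h1 := step h h' (j := 1) (Or.inl hw)
  have h2 := step h h' (j := 2) (Or.inl hw)
  fin_cases i
  · simp
  · simpa using h2.symm
  · simpa using h1

theorem at_black (h : IsMatching W B m) (h' : IsMatching W B m') {b : Pt} (hb : b ∉ B)
    {i k : Fin 3} (hik : i ≠ k) : gg W m m' (b - eps i - eps k) = gg W m m' (b - (0, 1)) := by
  have h0 := step h h' (w := b - eps 0) (j := 0) (Or.inr (by rwa [sub_add_cancel]))
  have h2 := step h h' (w := b - eps 2) (j := 2) (Or.inr (by rwa [sub_add_cancel]))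
  have e : b - (1, 0) - (0, 1) = b - (0, 1) - (1, 0) := sub_right_comm _ _ _
  fin_cases i <;> fin_cases k
  · exact absurd rfl hik
  · simpa using h0
  · simp
  · simpa using h0
  · exact absurd rfl hik
  · simpa [e] using h2.symm
  · simp
  · simpa using h2.symm
  · exact absurd rfl hik

end Height

theorem exists_bound (W : Finset Pt) : ∃ R : ℤ, ∀ w ∈ W, -R < w.1 ∧ w.1 < R := by
  refine ⟨(W.sup fun w => w.1.natAbs : ℕ) + 1, fun w hw => ?_⟩
  have := le_sup (f := fun w : Pt => w.1.natAbs) hw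
  omega

variable {V : Finset Pt} {f : Pt} {m m' : Cfg}

theorem primal_zero (hV : Conn (V : Set Pt)ᶜ) (h : IsMatching (whites V) (blacks V f) m)
    (h' : IsMatching (whites V) (blacks V f) m') {v : Pt} (hv : v ∉ V) :
    gg (whites V) m m' (pr v - (0, 1)) = 0 := by
  have hb : ∀ {v}, v ∉ V → pr v ∉ blacks V f := fun hv hb => hv (pr_mem_blacks.1 hb)
  have h1 : ∀ x j, x ∉ V → x + dir j ∉ V →
      gg (whites V) m m' (pr (x + dir j) - (0, 1)) = gg (whites V) m m' (pr x - (0, 1)) := by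
    intro x j hx hy
    have hw : pr x - eps j ∉ whites V := fun hw => (edge_mem_whites.1 hw).elim hx hy
    have e : pr (x + dir j) - eps (j + 1) - eps (j + 2) = pr x - eps j - eps j := by
      rw [pr_add_dir]
      fin_cases j <;> simp [Prod.ext_iff] <;> omega
    rw [← at_black h h' (hb hy) (i := j + 1) (k := j + 2) (by fin_cases j <;> decide), e,
      at_white h h' hw, ← at_white h h' hw (j + 1),
      at_black h h' (hb hx) (by fin_cases j <;> decide)]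
  obtain ⟨R, hR⟩ := exists_bound (whites V)
  have h2 : ((-R, 0) : Pt) ∉ V := fun hv => by
    have := (hR _ (edge_mem_whites.2 (Or.inl hv : _ ∨ (-R, 0) + dir 0 ∈ V))).1
    simp [pr] at this
  have h3 := hV _ h2 _ hv
  clear hv
  induction h3 with
  | refl =>
    have h4 : ∀ m : Cfg, height (whites V) m (pr (-R, 0) - (0, 1)) = 0 := fun m => by
      rw [height_eq]
      refine sum_eq_zero fun w hw => if_neg fun hh => ?_
      have h5 := (hR w hw).1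
      have h6 := hh.2.1
      simp [pr] at h6
      omega
    rw [gg, h4, h4, sub_zero]
  | tail _ hxy ih =>
    obtain ⟨hx, hy, j, rfl | rfl⟩ := hxy
    · rw [h1 _ j hx hy, ih]
    · rw [← h1 _ j hy hx, ih]

theorem white_zero (hV : Conn (V : Set Pt)ᶜ) (h : IsMatching (whites V) (blacks V f) m)
    (h' : IsMatching (whites V) (blacks V f) m') {w : Pt} (hw : w ∉ whites V) (i : Fin 3) :
    gg (whites V) m m' (w - eps i) = 0 := by
  obtain ⟨v, j, rfl⟩ := exists_edge w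
  have hv : v ∉ V := fun hv => hw (edge_mem_whites.2 (Or.inl hv))
  rw [at_white h h' hw, ← at_white h h' hw (j + 1),
    at_black h h' (fun hb => hv (pr_mem_blacks.1 hb)) (by fin_cases j <;> decide)]
  exact primal_zero hV h h' hv

theorem black_zero (hV : Conn (V : Set Pt)ᶜ) (hf : IsRoot V f)
    (h : IsMatching (whites V) (blacks V f) m) (h' : IsMatching (whites V) (blacks V f) m')
    {b : Pt} (hb : b ∉ blacks V f) : gg (whites V) m m' (b - (0, 1)) = 0 := by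
  by_cases hp : Primal b
  · obtain ⟨v, rfl⟩ := primal_iff.1 hp
    exact primal_zero hV h h' fun hv => hb (pr_mem_blacks.2 hv)
  by_cases hbf : b = f
  · subst hbf
    obtain ⟨-, v, hv, i, j, e⟩ := hf
    have hij : i ≠ j := by
      rintro rfl
      exact hp (sub_left_injective e ▸ primal_pr v)
    obtain ⟨k, hi, hj⟩ : ∃ k, i ≠ k ∧ j ≠ k := by clear e; revert i j; decide
    rw [← at_black h h' hb hi, e, at_black h h' (fun hb => hv (pr_mem_blacks.1 hb)) hj]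
    exact primal_zero hV h h' hv
  · refine white_zero hV h h' (fun hw => hb ?_) 2
    exact mem_blacks.2 (Or.inr ⟨hbf, mem_faces.2 ⟨hp, 0, by simpa using hw⟩⟩)

theorem Psi_const (hV : Conn (V : Set Pt)ᶜ) (hf : IsRoot V f)
    (h : IsMatching (whites V) (blacks V f) m) (h' : IsMatching (whites V) (blacks V f) m') :
    Psi (whites V) (blacks V f) m = Psi (whites V) (blacks V f) m' := by
  obtain ⟨R, hR⟩ := exists_bound (whites V)
  have h1 : ∑ q ∈ whites V, gg (whites V) m m' (q - (1, 0)) =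
      ∑ b ∈ blacks V f, gg (whites V) m m' (b - (0, 1)) := by
    refine sum_bij_ne_zero (fun q _ _ => q - (1, 0) + (0, 1)) (fun q _ hq => ?_)
      (fun q _ _ q' _ _ e => sub_left_injective (add_left_injective _ e)) (fun b _ hb => ?_)
      fun q _ _ => by rw [add_sub_cancel_right]
    · by_contra hb
      exact hq (by simpa using black_zero hV hf h h' hb)
    · refine ⟨b - (0, 1) + (1, 0), ?_, by rwa [add_sub_cancel_right], by simp⟩
      by_contra hw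
      exact hb (by simpa using white_zero hV h h' hw 1)
  have h2 : ∑ b ∈ blacks V f, gg (whites V) m m' (R, b.2 - 1) = 0 :=
    sum_eq_zero fun b _ => by
      simpa using white_zero hV h h' (w := (R, b.2 - 1)) (fun hw => (hR _ hw).2.false) 0
  refine Nat.cast_injective (R := ℝ) ?_
  rw [Psi_eq _ m fun w hw => (hR w hw).2, Psi_eq _ m' fun w hw => (hR w hw).2]
  simp only [gg, sum_sub_distrib] at h1 h2 ⊢
  linarith

end Sign

open Sign in
theorem sign : SignStmt := by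
  intro V f hV hf m m' h h' s hs
  let e := (Fintype.equivFin (whites V)).symm
  have h1 := prod_inv (β := bt m) h.injOn e
  have h2 := prod_inv (β := bt m') h'.injOn e
  have h3 := (e.symm.permCongr s).prod_Ioi_comp_eq_sign_mul_prod
    (f := fun i j => Sign.cmp (bt m' (e i)) (bt m' (e j))) fun i j => cmp_anti _ _
  have h4 : ∀ i, bt m' (e (e.symm.permCongr s i)) = bt m (e i) := fun i => by
    simpa [bt] using hs (e i)
  simp only [h4, Equiv.Perm.sign_permCongr] at h3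
  rw [h3, mul_assoc, h2, pow_inv h, pow_inv h', Psi_const hV hf h h'] at h1
  have h5 : ((Equiv.Perm.sign s : ℤˣ) : ℤ) = 1 :=
    mul_right_cancel₀ (pow_ne_zero _ (by norm_num)) (h1.trans (one_mul _).symm)
  exact Units.ext h5

end Pool.Agent.Lib.MP_60c5b4_pr.H
end
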